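import Pool.Agent.Lib.KeZhao.Transfer

/-! The quadratic character `k ↦ (n/k)` modulo `4n`. -/

namespace Pool.Agent.KeZhao

open Finset NumberTheorySymbols

theorem val_odd_of_isUnit {n : ℕ} [NeZero n] {a : ZMod (4 * n)} (ha : IsUnit a) :
    Odd a.val ∧ Nat.Coprime a.val (4 * n) := by
  have h1 : Nat.Coprime a.val (4 * n) := (ZMod.isUnit_iff_coprime a.val (4 * n)).mp (by
    rw [ZMod.natCast_zmod_val]; exact ha)
  refine ⟨?_, h1⟩
  rw [← Nat.not_even_iff_odd]
  intro h2
  have h3 : 2 ∣ Nat.gcd a.val (4 * n) := Nat.dvd_gcd h2.two_dvd (by omega)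
  rw [h1] at h3
  omega

/-- the quadratic character attached to `n` -/
noncomputable def chi (n : ℕ) [NeZero n] : DirichletCharacter ℂ (4 * n) := by
  classical
  exact
  { toFun := fun a => if IsUnit a then ((J((n : ℤ) | a.val) : ℤ) : ℂ) else 0
    map_one' := by
      have hn : 0 < n := Nat.pos_of_ne_zero (NeZero.ne n)
      haveI : Fact (1 < 4 * n) := ⟨by omega⟩
      rw [if_pos isUnit_one, ZMod.val_one]
      simp
    map_mul' := by
      intro a b
      by_cases ha : IsUnit a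
      · by_cases hb : IsUnit b
        · rw [if_pos ha, if_pos hb, if_pos (ha.mul hb), ZMod.val_mul]
          obtain ⟨oa, ca⟩ := val_odd_of_isUnit ha
          obtain ⟨ob, cb⟩ := val_odd_of_isUnit hb
          have h1 := jacobiSym.mod_right (n : ℤ) (oa.mul ob)
          rw [Int.natAbs_natCast] at h1
          rw [← h1]
          have ha0 : a.val ≠ 0 := by rintro h; rw [h] at oa; simp at oa
          have hb0 : b.val ≠ 0 := by rintro h; rw [h] at ob; simp at ob
          rw [jacobiSym.mul_right' _ ha0 hb0]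
          push_cast
          ring
        · rw [if_neg hb, mul_zero, if_neg (fun h => hb (isUnit_of_mul_isUnit_right h))]
      · rw [if_neg ha, zero_mul, if_neg (fun h => ha (isUnit_of_mul_isUnit_left h))]
    map_nonunit' := by
      intro a ha
      exact if_neg ha }

theorem chi_apply (n : ℕ) [NeZero n] {k : ℕ} (hk : Nat.Coprime k (4 * n)) :
    chi n (k : ZMod (4 * n)) = ((J((n : ℤ) | k) : ℤ) : ℂ) := by
  have hu : IsUnit (k : ZMod (4 * n)) := (ZMod.isUnit_iff_coprime k (4 * n)).mpr hk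
  have h1 : chi n (k : ZMod (4 * n)) = if IsUnit (k : ZMod (4 * n)) then
      ((J((n : ℤ) | (k : ZMod (4 * n)).val) : ℤ) : ℂ) else 0 := rfl
  rw [h1, if_pos hu, ZMod.val_natCast]
  have hodd : Odd k := by
    rw [← Nat.not_even_iff_odd]
    intro h2
    have h3 : 2 ∣ Nat.gcd k (4 * n) := Nat.dvd_gcd h2.two_dvd (by omega)
    rw [hk] at h3
    omega
  have h2 := jacobiSym.mod_right (n : ℤ) hodd
  rw [Int.natAbs_natCast] at h2
  rw [← h2]

theorem chi_sq (n : ℕ) [NeZero n] : (chi n) ^ 2 = 1 := by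
  ext a
  rw [MulChar.pow_apply_coe, MulChar.one_apply_coe]
  obtain ⟨odd, hc⟩ := val_odd_of_isUnit a.isUnit
  have h1 : chi n (a : ZMod (4 * n)) = ((J((n : ℤ) | (a : ZMod (4 * n)).val) : ℤ) : ℂ) := by
    have := chi_apply n hc
    rwa [ZMod.natCast_zmod_val] at this
  rw [h1]
  have h2 : (n : ℤ).gcd ((a : ZMod (4 * n)).val) = 1 := by
    rw [Int.gcd_natCast_natCast, Nat.gcd_comm]
    exact Nat.Coprime.coprime_dvd_right (Dvd.intro_left 4 rfl) hc
  rcases jacobiSym.eq_one_or_neg_one h2 with h | h <;> rw [h] <;> norm_num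

theorem jacobi_two_n_add_one {n : ℕ} (h : n % 4 = 2 ∨ n % 4 = 3) : J((n : ℤ) | 2 * n + 1) = -1 := by
  rcases h with h | h
  · obtain ⟨m, hm⟩ : ∃ m, n = 2 * m := ⟨n / 2, by omega⟩
    have hmodd : Odd m := by rw [Nat.odd_iff]; omega
    subst hm
    have e1 : ((2 * m : ℕ) : ℤ) = 2 * (m : ℤ) := by push_cast; ring
    rw [e1, jacobiSym.mul_left]
    have e2 : 2 * (2 * m) + 1 = 4 * m + 1 := by ring
    rw [e2]
    have hodd : Odd (4 * m + 1) := by rw [Nat.odd_iff]; omega
    rw [jacobiSym.at_two hodd]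
    have h8 : ZMod.χ₈ ((4 * m + 1 : ℕ) : ZMod 8) = -1 := by
      have h5 : (4 * m + 1) % 8 = 5 := by
        obtain ⟨c, hc⟩ := hmodd
        omega
      rw [ZMod.χ₈_nat_mod_eight, h5]
      decide
    rw [h8]
    have hrec := jacobiSym.quadratic_reciprocity_one_mod_four (a := 4 * m + 1) (b := m)
      (by omega) hmodd
    rw [← hrec, jacobiSym.mod_left]
    have e3 : ((4 * m + 1 : ℕ) : ℤ) % (m : ℤ) = 1 % (m : ℤ) := by
      push_cast
      rw [Int.add_emod]
      simp
    rw [e3, ← jacobiSym.mod_left, jacobiSym.one_left]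
    norm_num
  · have hrec := jacobiSym.quadratic_reciprocity_three_mod_four (a := n) (b := 2 * n + 1)
      h (by omega)
    rw [hrec, jacobiSym.mod_left]
    have e3 : ((2 * n + 1 : ℕ) : ℤ) % (n : ℤ) = 1 % (n : ℤ) := by
      push_cast
      rw [Int.add_emod]
      simp
    rw [e3, ← jacobiSym.mod_left, jacobiSym.one_left]

theorem chi_ne_one {n : ℕ} [NeZero n] (h : n % 4 = 2 ∨ n % 4 = 3) : chi n ≠ 1 := by
  intro h1
  have hn : 0 < n := Nat.pos_of_ne_zero (NeZero.ne n)
  have hc : Nat.Coprime (2 * n + 1) (4 * n) := by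
    have hc2 : Nat.Coprime (2 * n + 1) (2 * n) := by
      rw [Nat.coprime_self_add_left]
      exact Nat.coprime_one_left _
    have hc3 : Nat.Coprime (2 * n + 1) 2 := Nat.coprime_two_right.mpr ⟨n, rfl⟩
    have := Nat.Coprime.mul_right hc3 hc2
    have e : 2 * (2 * n) = 4 * n := by ring
    rwa [e] at this
  have h2 := chi_apply n hc
  rw [jacobi_two_n_add_one h, h1] at h2
  have hu : IsUnit ((2 * n + 1 : ℕ) : ZMod (4 * n)) := (ZMod.isUnit_iff_coprime _ _).mpr hc
  rw [MulChar.one_apply hu] at h2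
  norm_num at h2

end Pool.Agent.KeZhao
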