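import Pool.Agent.Lib.KeZhao.Labels

/-! Three integral points on a conic: the determinant is nonzero, divisible by a large
number, and small when the points are close. -/

namespace Pool.Agent.KeZhao

/-- determinant of three vectors -/
def det3 (u v w : ℤ × ℤ × ℤ) : ℤ :=
  u.1 * (v.2.1 * w.2.2 - w.2.1 * v.2.2) - u.2.1 * (v.1 * w.2.2 - w.1 * v.2.2)
    + u.2.2 * (v.1 * w.2.1 - w.1 * v.2.1)

/-- bilinear form -/
def bil (A B : ℤ) (u v : ℤ × ℤ × ℤ) : ℤ := u.1 * v.1 - A * u.2.1 * v.2.1 - B * u.2.2 * v.2.2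

theorem det_sq (A B : ℤ) (u v w : ℤ × ℤ × ℤ) (hu : Sol A B u) (hv : Sol A B v) (hw : Sol A B w) :
    det3 u v w ^ 2 * (A * B) = 2 * bil A B u v * bil A B u w * bil A B v w := by
  obtain ⟨h1, q1, k1⟩ := u
  obtain ⟨h2, q2, k2⟩ := v
  obtain ⟨h3, q3, k3⟩ := w
  unfold Sol at hu hv hw
  unfold det3 bil
  simp only at *
  -- Gram determinant identity with diagonal terms
  have key : (h1 * (q2 * k3 - q3 * k2) - q1 * (h2 * k3 - h3 * k2) + k1 * (h2 * q3 - h3 * q2)) ^ 2 * (A * B)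
      = (h1 ^ 2 - A * q1 ^ 2 - B * k1 ^ 2) * ((h2 ^ 2 - A * q2 ^ 2 - B * k2 ^ 2) * (h3 ^ 2 - A * q3 ^ 2 - B * k3 ^ 2)
          - (h2 * h3 - A * q2 * q3 - B * k2 * k3) ^ 2)
        - (h1 * h2 - A * q1 * q2 - B * k1 * k2) ^ 2 * (h3 ^ 2 - A * q3 ^ 2 - B * k3 ^ 2)
        - (h1 * h3 - A * q1 * q3 - B * k1 * k3) ^ 2 * (h2 ^ 2 - A * q2 ^ 2 - B * k2 ^ 2)
        + 2 * (h1 * h2 - A * q1 * q2 - B * k1 * k2) * (h1 * h3 - A * q1 * q3 - B * k1 * k3)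
          * (h2 * h3 - A * q2 * q3 - B * k2 * k3) := by ring
  rw [key]
  have e1 : h1 ^ 2 - A * q1 ^ 2 - B * k1 ^ 2 = 0 := by linarith
  have e2 : h2 ^ 2 - A * q2 ^ 2 - B * k2 ^ 2 = 0 := by linarith
  have e3 : h3 ^ 2 - A * q3 ^ 2 - B * k3 ^ 2 = 0 := by linarith
  rw [e1, e2, e3]
  ring

theorem eq_of_bil_zero {A B : ℤ} (hA : A ≠ 0) (hB : B ≠ 0) {u v : ℤ × ℤ × ℤ} (hu : Sol A B u)
    (hv : Sol A B v) (pu : Prim u) (pv : Prim v) (ku : 0 < u.2.2) (kv : 0 < v.2.2)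
    (hb : bil A B u v = 0) : u = v := by
  obtain ⟨h1, q1, k1⟩ := u
  obtain ⟨h2, q2, k2⟩ := v
  unfold Sol at hu hv
  unfold bil at hb
  unfold Prim at pu pv
  simp only at *
  have hq : q1 * k2 = q2 * k1 := by
    have h : A * B * (q1 * k2 - q2 * k1) ^ 2 = 0 := by
      have : A * B * (q1 * k2 - q2 * k1) ^ 2
          = (h1 * h2) ^ 2 - (A * q1 * q2 + B * k1 * k2) ^ 2
            - (h1 ^ 2 - (A * q1 ^ 2 + B * k1 ^ 2)) * h2 ^ 2
            - (h2 ^ 2 - (A * q2 ^ 2 + B * k2 ^ 2)) * (A * q1 ^ 2 + B * k1 ^ 2) := by ring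
      rw [this, hu, hv]
      have h3 : h1 * h2 = A * q1 * q2 + B * k1 * k2 := by linarith
      rw [h3]; ring
    rcases mul_eq_zero.mp h with h | h
    · rcases mul_eq_zero.mp h with h | h
      · exact absurd h hA
      · exact absurd h hB
    · have := pow_eq_zero_iff (two_ne_zero) |>.mp h
      linarith
  have hsq : (h1 * k2) ^ 2 = (h2 * k1) ^ 2 := by
    have e1 : (h1 * k2) ^ 2 = A * (q1 * k2) ^ 2 + B * (k1 * k2) ^ 2 := by
      rw [mul_pow, hu]; ring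
    have e2 : (h2 * k1) ^ 2 = A * (q2 * k1) ^ 2 + B * (k1 * k2) ^ 2 := by
      rw [mul_pow, hv]; ring
    rw [e1, e2, hq]
  have hh : h1 * k2 = h2 * k1 := by
    have e3 : (h1 * k2) * (h2 * k1) = (h1 * k2) ^ 2 := by
      have : (h1 * k2) * (h2 * k1) = (h1 * h2) * (k1 * k2) := by ring
      rw [this]
      have h3 : h1 * h2 = A * q1 * q2 + B * k1 * k2 := by linarith
      rw [h3]
      have e1 : (h1 * k2) ^ 2 = A * (q1 * k2) ^ 2 + B * (k1 * k2) ^ 2 := by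
        rw [mul_pow, hu]; ring
      rw [e1]
      have e4 : (A * q1 * q2 + B * k1 * k2) * (k1 * k2) = A * ((q1 * k2) * (q2 * k1)) + B * (k1 * k2) ^ 2 := by ring
      rw [e4, ← hq]; ring
    have : (h1 * k2 - h2 * k1) ^ 2 = 0 := by
      have : (h1 * k2 - h2 * k1) ^ 2 = (h1 * k2) ^ 2 - 2 * ((h1 * k2) * (h2 * k1)) + (h2 * k1) ^ 2 := by ring
      rw [this, e3, ← hsq]; ring
    have := pow_eq_zero_iff (two_ne_zero) |>.mp this
    linarith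
  -- k1 divides k2 and conversely
  have hdvd : ∀ {h1 q1 k1 h2 q2 k2 : ℤ}, 0 < k1 → 0 < k2 → h1 * k2 = h2 * k1 → q1 * k2 = q2 * k1 →
      (∀ d : ℤ, d ∣ h1 → d ∣ q1 → d ∣ k1 → IsUnit d) → k1 ∣ k2 := by
    intro h1 q1 k1 h2 q2 k2 p1 p2 hh hq hp
    set g := Int.gcd k1 k2 with hg
    have hg0 : 0 < g := Int.gcd_pos_of_ne_zero_left _ p1.ne'
    obtain ⟨a, ha⟩ : (g : ℤ) ∣ k1 := Int.gcd_dvd_left ..
    obtain ⟨b, hb⟩ : (g : ℤ) ∣ k2 := Int.gcd_dvd_right ..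
    have hgz : (g : ℤ) ≠ 0 := by exact_mod_cast hg0.ne'
    have hcop : IsCoprime a b := by
      rw [Int.isCoprime_iff_gcd_eq_one]
      have h1 : g = Int.gcd k1 k2 := hg
      rw [ha, hb, Int.gcd_mul_left] at h1
      simp only [Int.natAbs_natCast] at h1
      have h2 : g * 1 = g * Int.gcd a b := by rw [mul_one]; exact h1
      exact (Nat.eq_of_mul_eq_mul_left hg0 h2).symm
    have ah : a ∣ h1 := by
      apply hcop.dvd_of_dvd_mul_right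
      have : h1 * b = h2 * a := by
        have : (g : ℤ) * (h1 * b) = g * (h2 * a) := by
          calc (g : ℤ) * (h1 * b) = h1 * (g * b) := by ring
            _ = h1 * k2 := by rw [← hb]
            _ = h2 * k1 := hh
            _ = h2 * (g * a) := by rw [← ha]
            _ = g * (h2 * a) := by ring
        exact mul_left_cancel₀ hgz this
      rw [this]; exact dvd_mul_left _ _
    have aq : a ∣ q1 := by
      apply hcop.dvd_of_dvd_mul_right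
      have : q1 * b = q2 * a := by
        have : (g : ℤ) * (q1 * b) = g * (q2 * a) := by
          calc (g : ℤ) * (q1 * b) = q1 * (g * b) := by ring
            _ = q1 * k2 := by rw [← hb]
            _ = q2 * k1 := hq
            _ = q2 * (g * a) := by rw [← ha]
            _ = g * (q2 * a) := by ring
        exact mul_left_cancel₀ hgz this
      rw [this]; exact dvd_mul_left _ _
    have ak : a ∣ k1 := ⟨g, by rw [ha]; ring⟩
    have hunit := hp a ah aq ak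
    have : k1 ∣ g := by
      rw [ha]
      rcases Int.isUnit_iff.mp hunit with h | h
      · rw [h, mul_one]
      · rw [h]; simp
    exact this.trans ⟨b, hb⟩
  have d1 : k1 ∣ k2 := hdvd ku kv hh hq pu
  have d2 : k2 ∣ k1 := hdvd kv ku hh.symm hq.symm pv
  have hk : k1 = k2 := Int.dvd_antisymm ku.le kv.le d1 d2
  subst hk
  have e1 : h1 = h2 := mul_right_cancel₀ ku.ne' hh
  have e2 : q1 = q2 := mul_right_cancel₀ ku.ne' hq
  rw [e1, e2]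

theorem det_ne_zero {A B : ℤ} (hA : A ≠ 0) (hB : B ≠ 0) {u v w : ℤ × ℤ × ℤ} (hu : Sol A B u)
    (hv : Sol A B v) (hw : Sol A B w) (pu : Prim u) (pv : Prim v) (pw : Prim w) (ku : 0 < u.2.2)
    (kv : 0 < v.2.2) (kw : 0 < w.2.2) (huv : u ≠ v) (huw : u ≠ w) (hvw : v ≠ w) :
    det3 u v w ≠ 0 := by
  intro h0
  have h := det_sq A B u v w hu hv hw
  rw [h0] at h
  have h1 : 2 * bil A B u v * bil A B u w * bil A B v w = 0 := by rw [← h]; ring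
  rcases mul_eq_zero.mp h1 with h1 | h1
  · rcases mul_eq_zero.mp h1 with h1 | h1
    · rcases mul_eq_zero.mp h1 with h1 | h1
      · norm_num at h1
      · exact huv (eq_of_bil_zero hA hB hu hv pu pv ku kv h1)
    · exact huw (eq_of_bil_zero hA hB hu hw pu pw ku kw h1)
  · exact hvw (eq_of_bil_zero hA hB hv hw pv pw kv kw h1)

/-- lower bound for the determinant from divisibility -/
theorem det_lower {A B : ℤ} (hA : A ≠ 0) (u v w : ℤ × ℤ × ℤ) (eA eB : ℕ)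
    (hdet : det3 u v w ≠ 0)
    (b1 : B ∣ (eB : ℤ) * (u.1 * v.2.1 - v.1 * u.2.1))
    (b2 : B ∣ (eB : ℤ) * (u.1 * w.2.1 - w.1 * u.2.1))
    (b3 : B ∣ (eB : ℤ) * (v.1 * w.2.1 - w.1 * v.2.1))
    (a1 : A ∣ (eA : ℤ) * (u.1 * v.2.2 - v.1 * u.2.2))
    (a2 : A ∣ (eA : ℤ) * (u.1 * w.2.2 - w.1 * u.2.2))
    (a3 : A ∣ (eA : ℤ) * (v.1 * w.2.2 - w.1 * v.2.2))
    (hA4 : eA ^ 2 ∣ 4 * Int.gcd A B) (hB4 : eB ^ 2 ∣ 4 * Int.gcd A B) :
    |A * B| ≤ 4 * (Int.gcd A B : ℤ) ^ 2 * |det3 u v w| := by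
  set D := Int.gcd A B with hD
  have hD0 : 0 < D := Int.gcd_pos_of_ne_zero_left _ hA
  have hBd : B ∣ (eB : ℤ) * det3 u v w := by
    have : (eB : ℤ) * det3 u v w = u.2.2 * ((eB : ℤ) * (v.1 * w.2.1 - w.1 * v.2.1))
        - v.2.2 * ((eB : ℤ) * (u.1 * w.2.1 - w.1 * u.2.1))
        + w.2.2 * ((eB : ℤ) * (u.1 * v.2.1 - v.1 * u.2.1)) := by
      unfold det3; ring
    rw [this]
    exact dvd_add (dvd_sub (b3.mul_left _) (b2.mul_left _)) (b1.mul_left _)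
  have hAd : A ∣ (eA : ℤ) * det3 u v w := by
    have : (eA : ℤ) * det3 u v w = -(u.2.1 * ((eA : ℤ) * (v.1 * w.2.2 - w.1 * v.2.2)))
        + v.2.1 * ((eA : ℤ) * (u.1 * w.2.2 - w.1 * u.2.2))
        - w.2.1 * ((eA : ℤ) * (u.1 * v.2.2 - v.1 * u.2.2)) := by
      unfold det3; ring
    rw [this]
    exact dvd_sub (dvd_add (dvd_neg.mpr (a3.mul_left _)) (a2.mul_left _)) (a1.mul_left _)
  set X : ℤ := (eA : ℤ) * (eB : ℤ) * det3 u v w with hX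
  have hAX : A ∣ X := by
    have : X = (eB : ℤ) * ((eA : ℤ) * det3 u v w) := by rw [hX]; ring
    rw [this]; exact hAd.mul_left _
  have hBX : B ∣ X := by
    have : X = (eA : ℤ) * ((eB : ℤ) * det3 u v w) := by rw [hX]; ring
    rw [this]; exact hBd.mul_left _
  have hlcm : ((Int.lcm A B : ℕ) : ℤ) ∣ X := Int.coe_lcm_dvd hAX hBX
  have hmul : (A * B).natAbs ∣ (D : ℤ).natAbs * X.natAbs := by
    have h1 : Int.gcd A B * Int.lcm A B = (A * B).natAbs := by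
      rw [Int.gcd_mul_lcm, Int.natAbs_mul]
    rw [← h1, Int.natAbs_natCast]
    apply Nat.mul_dvd_mul_left
    exact Int.natCast_dvd.mp hlcm
  have heA0 : 0 < eA := by
    rcases Nat.eq_zero_or_pos eA with h | h
    · rw [h] at hA4
      simp at hA4
      omega
    · exact h
  have heB0 : 0 < eB := by
    rcases Nat.eq_zero_or_pos eB with h | h
    · rw [h] at hB4
      simp at hB4
      omega
    · exact h
  have hX0 : X ≠ 0 := by
    rw [hX]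
    apply mul_ne_zero _ hdet
    apply mul_ne_zero
    · exact_mod_cast heA0.ne'
    · exact_mod_cast heB0.ne'
  have hle : (A * B).natAbs ≤ D * X.natAbs := by
    have h1 := Nat.le_of_dvd (Nat.mul_pos (by rw [Int.natAbs_natCast]; exact hD0)
      (Int.natAbs_pos.mpr hX0)) hmul
    rwa [Int.natAbs_natCast] at h1
  have hA4' : eA ^ 2 ≤ 4 * D := Nat.le_of_dvd (by omega) hA4
  have hB4' : eB ^ 2 ≤ 4 * D := Nat.le_of_dvd (by omega) hB4
  have hAB : eA * eB ≤ 4 * D := by nlinarith [sq_nonneg ((eA : ℤ) - eB)]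
  have hXabs : X.natAbs = eA * eB * (det3 u v w).natAbs := by
    rw [hX, Int.natAbs_mul, Int.natAbs_mul, Int.natAbs_natCast, Int.natAbs_natCast]
  rw [hXabs] at hle
  have hfin : (A * B).natAbs ≤ 4 * D ^ 2 * (det3 u v w).natAbs := by
    calc (A * B).natAbs ≤ D * (eA * eB * (det3 u v w).natAbs) := hle
      _ ≤ D * (4 * D * (det3 u v w).natAbs) :=
          Nat.mul_le_mul_left _ (Nat.mul_le_mul_right _ hAB)
      _ = 4 * D ^ 2 * (det3 u v w).natAbs := by ring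
  have h2 : (((A * B).natAbs : ℕ) : ℤ) ≤ ((4 * D ^ 2 * (det3 u v w).natAbs : ℕ) : ℤ) := by exact_mod_cast hfin
  push_cast at h2
  simpa using h2

/-- the second coordinate varies little -/
theorem ana_two (s δ y₁ y₂ z₁ z₂ θ₁ θ₂ : ℝ) (hs : 0 < s) (hy₁ : y₁ ≠ 0)
    (e1 : z₁ - y₁ = 4 * s * θ₁) (e2 : z₂ - y₂ = 4 * s * θ₂)
    (t1 : |θ₁| < 1) (t2 : |θ₂| < 1)
    (m1 : y₁ * z₁ = δ * (1 - θ₁ ^ 2)) (m2 : y₂ * z₂ = δ * (1 - θ₂ ^ 2))
    (hδ : |δ| ≤ s * |y₁|) :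
    |z₁ - z₂| * |y₁| ≤ |y₁ - y₂| * (2 * |z₂| + |δ| / s) := by
  set μ := δ * (θ₁ + θ₂) / (4 * s) with hμ
  have hμabs : |μ| ≤ |δ| / (2 * s) := by
    rw [hμ, abs_div, abs_mul, abs_of_pos (show 0 < 4 * s by positivity)]
    have h1 : |θ₁ + θ₂| ≤ 2 := (abs_add_le _ _).trans (by linarith)
    rw [div_le_div_iff₀ (by positivity) (by positivity)]
    nlinarith [abs_nonneg δ, mul_nonneg (abs_nonneg δ) hs.le]
  have hrel : (z₁ - z₂) * (y₁ + μ) = (y₁ - y₂) * (μ - z₂) := by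
    have h1 : θ₁ - θ₂ = ((z₁ - z₂) - (y₁ - y₂)) / (4 * s) := by
      field_simp; linarith
    have h2 : y₁ * (z₁ - z₂) + z₂ * (y₁ - y₂) = -(δ * (θ₁ + θ₂)) * (θ₁ - θ₂) := by
      nlinarith
    rw [h1] at h2
    rw [hμ]
    have h3 : -(δ * (θ₁ + θ₂)) * (((z₁ - z₂) - (y₁ - y₂)) / (4 * s))
        = -(δ * (θ₁ + θ₂) / (4 * s)) * ((z₁ - z₂) - (y₁ - y₂)) := by ring
    rw [h3] at h2
    linarith
  have hlow : |y₁| / 2 ≤ |y₁ + μ| := by
    have h1 : |μ| ≤ |y₁| / 2 := by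
      refine hμabs.trans ?_
      rw [div_le_div_iff₀ (by positivity) (by positivity)]
      nlinarith
    have h2 := abs_sub_abs_le_abs_sub y₁ (-μ)
    rw [abs_neg, sub_neg_eq_add] at h2
    linarith
  have h3 : |z₁ - z₂| * |y₁ + μ| = |y₁ - y₂| * |μ - z₂| := by
    rw [← abs_mul, ← abs_mul, hrel]
  have h4 : |μ - z₂| ≤ |δ| / (2 * s) + |z₂| := by
    have := abs_sub μ z₂
    linarith
  have h5 : |z₁ - z₂| * (|y₁| / 2) ≤ |y₁ - y₂| * (|δ| / (2 * s) + |z₂|) := by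
    calc |z₁ - z₂| * (|y₁| / 2) ≤ |z₁ - z₂| * |y₁ + μ| :=
          mul_le_mul_of_nonneg_left hlow (abs_nonneg _)
      _ = |y₁ - y₂| * |μ - z₂| := h3
      _ ≤ |y₁ - y₂| * (|δ| / (2 * s) + |z₂|) := mul_le_mul_of_nonneg_left h4 (abs_nonneg _)
  have h6 : |δ| / (2 * s) = (|δ| / s) / 2 := by field_simp
  rw [h6] at h5
  linarith

theorem ana_three (s δ J Y y₁ y₂ y₃ z₁ z₂ z₃ θ₁ θ₂ θ₃ : ℝ) (hs : 0 < s) (hJ : 0 < J) (hY : 0 < Y)
    (hYs : Y ≤ s)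
    (e1 : z₁ - y₁ = 4 * s * θ₁) (e2 : z₂ - y₂ = 4 * s * θ₂) (e3 : z₃ - y₃ = 4 * s * θ₃)
    (t1 : |θ₁| < 1) (t2 : |θ₂| < 1) (t3 : |θ₃| < 1)
    (m1 : y₁ * z₁ = δ * (1 - θ₁ ^ 2)) (m2 : y₂ * z₂ = δ * (1 - θ₂ ^ 2))
    (m3 : y₃ * z₃ = δ * (1 - θ₃ ^ 2))
    (hδ : |δ| ≤ s * |y₁|) (l1 : Y ≤ |y₁|) (l2 : Y ≤ |y₂|) (l3 : Y ≤ |y₃|)
    (c2 : |y₁ - y₂| ≤ 2 * Y / J) (c3 : |y₁ - y₃| ≤ 2 * Y / J) :
    |(y₂ - y₁) * (z₃ - z₁) - (y₃ - y₁) * (z₂ - z₁)| ≤ 24 * |δ| / J ^ 2 := by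
  have hy1 : y₁ ≠ 0 := by
    intro h; rw [h, abs_zero] at l1; linarith
  have hz : ∀ y z θ : ℝ, Y ≤ |y| → |θ| < 1 → y * z = δ * (1 - θ ^ 2) → |z| ≤ |δ| / Y := by
    intro y z θ ly lt lm
    rw [le_div_iff₀ hY]
    have h1 : |y| * |z| ≤ |δ| := by
      rw [← abs_mul, lm, abs_mul]
      have h2 : |1 - θ ^ 2| ≤ 1 := by
        have h3 : θ ^ 2 < 1 := by
          rw [← sq_abs]; nlinarith [abs_nonneg θ]
        rw [abs_of_nonneg (by linarith)]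
        nlinarith [sq_nonneg θ]
      nlinarith [abs_nonneg δ]
    nlinarith [abs_nonneg z]
  have hdz : ∀ y z θ : ℝ, Y ≤ |y| → |θ| < 1 → y * z = δ * (1 - θ ^ 2) → z - y = 4 * s * θ →
      |y₁ - y| ≤ 2 * Y / J → |z₁ - z| ≤ 6 * |δ| / (J * Y) := by
    intro y z θ ly lt lm le lc
    have h1 := ana_two s δ y₁ y z₁ z θ₁ θ hs hy1 e1 le t1 lt m1 lm hδ
    have h2 := hz y z θ ly lt lm
    have h3 : |δ| / s ≤ |δ| / Y := div_le_div_of_nonneg_left (abs_nonneg δ) hY hYs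
    have h4 : |y₁ - y| * (2 * |z| + |δ| / s) ≤ (2 * Y / J) * (3 * (|δ| / Y)) := by
      apply mul_le_mul lc _ (by positivity) (by positivity)
      linarith
    have h5 : |z₁ - z| * Y ≤ (2 * Y / J) * (3 * (|δ| / Y)) := by
      calc |z₁ - z| * Y ≤ |z₁ - z| * |y₁| := mul_le_mul_of_nonneg_left l1 (abs_nonneg _)
        _ ≤ _ := h1.trans h4
    have h6 : (2 * Y / J) * (3 * (|δ| / Y)) = (6 * |δ| / (J * Y)) * Y := by
      field_simp
      ring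
    rw [h6] at h5
    exact le_of_mul_le_mul_right h5 hY
  have d2 := hdz y₂ z₂ θ₂ l2 t2 m2 e2 c2
  have d3 := hdz y₃ z₃ θ₃ l3 t3 m3 e3 c3
  have hprod : ∀ a b : ℝ, |a| ≤ 2 * Y / J → |b| ≤ 6 * |δ| / (J * Y) → |a * b| ≤ 12 * |δ| / J ^ 2 := by
    intro a b ha hb
    rw [abs_mul]
    calc |a| * |b| ≤ (2 * Y / J) * (6 * |δ| / (J * Y)) :=
          mul_le_mul ha hb (abs_nonneg _) (by positivity)
      _ = 12 * |δ| / J ^ 2 := by
          field_simp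
          ring
  have p1 := hprod (y₁ - y₂) (z₁ - z₃) c2 d3
  have p2 := hprod (y₁ - y₃) (z₁ - z₂) c3 d2
  have h7 : (y₂ - y₁) * (z₃ - z₁) - (y₃ - y₁) * (z₂ - z₁)
      = (y₁ - y₂) * (z₁ - z₃) - (y₁ - y₃) * (z₁ - z₂) := by ring
  rw [h7]
  calc |(y₁ - y₂) * (z₁ - z₃) - (y₁ - y₃) * (z₁ - z₂)|
      ≤ |(y₁ - y₂) * (z₁ - z₃)| + |(y₁ - y₃) * (z₁ - z₂)| := abs_sub _ _
    _ ≤ 12 * |δ| / J ^ 2 + 12 * |δ| / J ^ 2 := add_le_add p1 p2
    _ = 24 * |δ| / J ^ 2 := by ring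

end Pool.Agent.KeZhao
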