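import Mathlib

/-! A covering bound for sets of real numbers whose continued fraction digits in odd
positions are even. -/

namespace Pool.Agent.KeZhao

open Finset

/-- covering an interval by short intervals -/
theorem interval_cover (a ℓ η : ℝ) (ha : 0 ≤ a) (hℓ : 0 ≤ ℓ) (hη : 0 < η) :
    ∃ C : Finset ℝ, (C.card : ℝ) ≤ ℓ / η + 1 ∧ (∀ c ∈ C, 0 ≤ c) ∧
      ∀ x, a ≤ x → x ≤ a + ℓ → ∃ c ∈ C, c ≤ x ∧ x ≤ c + η := by
  classical
  refine ⟨(range (⌊ℓ / η⌋₊ + 1)).image (fun i : ℕ => a + i * η), ?_, ?_, ?_⟩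
  · have h1 : ((range (⌊ℓ / η⌋₊ + 1)).image (fun i : ℕ => a + i * η)).card ≤ ⌊ℓ / η⌋₊ + 1 := by
      refine card_image_le.trans ?_
      rw [card_range]
    have h2 : (⌊ℓ / η⌋₊ : ℝ) ≤ ℓ / η := Nat.floor_le (by positivity)
    have h3 : ((((range (⌊ℓ / η⌋₊ + 1)).image (fun i : ℕ => a + i * η)).card : ℕ) : ℝ)
        ≤ ((⌊ℓ / η⌋₊ + 1 : ℕ) : ℝ) := by exact_mod_cast h1
    push_cast at h3
    linarith
  · intro c hc
    rw [mem_image] at hc
    obtain ⟨i, _, rfl⟩ := hc
    positivity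
  · intro x hx1 hx2
    refine ⟨a + (⌊(x - a) / η⌋₊ : ℕ) * η, ?_, ?_, ?_⟩
    · rw [mem_image]
      refine ⟨⌊(x - a) / η⌋₊, ?_, rfl⟩
      rw [mem_range]
      have : ⌊(x - a) / η⌋₊ ≤ ⌊ℓ / η⌋₊ := by
        apply Nat.floor_le_floor
        apply div_le_div_of_nonneg_right _ hη.le
        linarith
      omega
    · have h1 : (⌊(x - a) / η⌋₊ : ℝ) ≤ (x - a) / η := Nat.floor_le (by
        apply div_nonneg _ hη.le; linarith)
      have h2 : (⌊(x - a) / η⌋₊ : ℝ) * η ≤ x - a := by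
        rw [le_div_iff₀ hη] at h1; exact h1
      linarith
    · have h1 : (x - a) / η < (⌊(x - a) / η⌋₊ : ℝ) + 1 := Nat.lt_floor_add_one _
      rw [div_lt_iff₀ hη] at h1
      nlinarith

theorem sum_inv_sq_le (M : ℕ) : ∑ m ∈ range M, (1 : ℝ) / ((m : ℝ) + 1) ^ 2 ≤ 7 / 4 := by
  have key : ∀ M : ℕ, ∑ m ∈ range (M + 2), (1 : ℝ) / ((m : ℝ) + 1) ^ 2 ≤ 7 / 4 - 1 / ((M : ℝ) + 2) := by
    intro M
    induction M with
    | zero => norm_num [sum_range_succ]
    | succ M ih =>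
      rw [sum_range_succ]
      have h1 : (1 : ℝ) / (((M + 2 : ℕ) : ℝ) + 1) ^ 2 ≤ 1 / ((M : ℝ) + 2) - 1 / (((M + 1 : ℕ) : ℝ) + 2) := by
        push_cast
        have hM : (0 : ℝ) ≤ M := Nat.cast_nonneg M
        rw [div_sub_div _ _ (by positivity) (by positivity), div_le_div_iff₀ (by positivity) (by positivity)]
        nlinarith
      linarith
  calc ∑ m ∈ range M, (1 : ℝ) / ((m : ℝ) + 1) ^ 2 ≤ ∑ m ∈ range (M + 2), (1 : ℝ) / ((m : ℝ) + 1) ^ 2 := by
        apply sum_le_sum_of_subset_of_nonneg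
        · intro x hx; simp only [mem_range] at *; omega
        · intro i _ _; positivity
    _ ≤ 7 / 4 - 1 / ((M : ℝ) + 2) := key M
    _ ≤ 7 / 4 := by
        have : (0 : ℝ) ≤ 1 / ((M : ℝ) + 2) := by positivity
        linarith

theorem sum_inv_threehalf_le (M : ℕ) :
    ∑ m ∈ range M, ((m : ℝ) + 1) ^ (-(3 / 2) : ℝ) ≤ 3 := by
  have key : ∀ M : ℕ, ∑ m ∈ range (M + 1), ((m : ℝ) + 1) ^ (-(3 / 2) : ℝ) ≤ 3 - 2 / Real.sqrt (M + 1) := by
    intro M
    induction M with
    | zero => norm_num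
    | succ M ih =>
      rw [sum_range_succ]
      have hM : (0 : ℝ) ≤ M := Nat.cast_nonneg M
      have h1 : ((((M + 1 : ℕ)) : ℝ) + 1) ^ (-(3 / 2) : ℝ)
          ≤ 2 / Real.sqrt (M + 1) - 2 / Real.sqrt (((M + 1 : ℕ) : ℝ) + 1) := by
        push_cast
        set u : ℝ := Real.sqrt (M + 1) with hu
        set v : ℝ := Real.sqrt (M + 1 + 1) with hv
        have hu0 : 0 < u := Real.sqrt_pos.mpr (by linarith)
        have hv0 : 0 < v := Real.sqrt_pos.mpr (by linarith)
        have hu2 : u ^ 2 = M + 1 := Real.sq_sqrt (by linarith)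
        have hv2 : v ^ 2 = M + 1 + 1 := Real.sq_sqrt (by linarith)
        have h3 : ((M : ℝ) + 1 + 1) ^ (-(3 / 2) : ℝ) = 1 / v ^ 3 := by
          rw [Real.rpow_neg (by linarith), one_div, hv, Real.sqrt_eq_rpow, ← Real.rpow_natCast,
            ← Real.rpow_mul (by linarith)]
          norm_num
        rw [h3, div_sub_div _ _ hu0.ne' hv0.ne', div_le_div_iff₀ (by positivity) (by positivity)]
        have huv : u ≤ v := Real.sqrt_le_sqrt (by linarith)
        have h4 : (v - u) * (v + u) = 1 := by nlinarith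
        have h5 : 1 ≤ (v - u) * (2 * v) := by nlinarith
        nlinarith [mul_pos hu0 hv0, pow_pos hv0 2, pow_pos hv0 3, mul_pos hu0 (pow_pos hv0 2)]
      push_cast at h1 ih ⊢
      linarith
  calc ∑ m ∈ range M, ((m : ℝ) + 1) ^ (-(3 / 2) : ℝ)
      ≤ ∑ m ∈ range (M + 1), ((m : ℝ) + 1) ^ (-(3 / 2) : ℝ) := by
        apply sum_le_sum_of_subset_of_nonneg
        · intro x hx; simp only [mem_range] at *; omega
        · intro i _ _; positivity
    _ ≤ 3 - 2 / Real.sqrt (M + 1) := key M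
    _ ≤ 3 := by
        have : (0 : ℝ) ≤ 2 / Real.sqrt (M + 1) := by positivity
        linarith

theorem sum_inv_pow_le (M : ℕ) :
    ∑ m ∈ range M, ((m : ℝ) + 1) ^ (-(99 / 50) : ℝ) ≤ 9 / 5 := by
  have h1 : ∀ m ∈ range M, ((m : ℝ) + 1) ^ (-(99 / 50) : ℝ)
      ≤ (24 / 25) * (1 / ((m : ℝ) + 1) ^ 2) + (1 / 25) * ((m : ℝ) + 1) ^ (-(3 / 2) : ℝ) := by
    intro m _
    have hm : (0 : ℝ) < (m : ℝ) + 1 := by positivity
    have h2 := Real.geom_mean_le_arith_mean2_weighted (w₁ := 24 / 25) (w₂ := 1 / 25)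
      (p₁ := ((m : ℝ) + 1) ^ (-2 : ℝ)) (p₂ := ((m : ℝ) + 1) ^ (-(3 / 2) : ℝ)) (by norm_num) (by norm_num)
      (by positivity) (by positivity) (by norm_num)
    rw [← Real.rpow_mul hm.le, ← Real.rpow_mul hm.le, ← Real.rpow_add hm] at h2
    have h3 : (-2 : ℝ) * (24 / 25) + -(3 / 2) * (1 / 25) = -(99 / 50) := by norm_num
    rw [h3] at h2
    have h4 : ((m : ℝ) + 1) ^ (-2 : ℝ) = 1 / ((m : ℝ) + 1) ^ 2 := by
      rw [Real.rpow_neg hm.le, one_div]
      norm_num
    rw [h4] at h2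
    exact h2
  calc ∑ m ∈ range M, ((m : ℝ) + 1) ^ (-(99 / 50) : ℝ)
      ≤ ∑ m ∈ range M, ((24 / 25) * (1 / ((m : ℝ) + 1) ^ 2) + (1 / 25) * ((m : ℝ) + 1) ^ (-(3 / 2) : ℝ)) :=
        sum_le_sum h1
    _ = (24 / 25) * ∑ m ∈ range M, (1 / ((m : ℝ) + 1) ^ 2)
        + (1 / 25) * ∑ m ∈ range M, ((m : ℝ) + 1) ^ (-(3 / 2) : ℝ) := by
        rw [sum_add_distrib, mul_sum, mul_sum]
    _ ≤ (24 / 25) * (7 / 4) + (1 / 25) * 3 := by
        have := sum_inv_sq_le M
        have := sum_inv_threehalf_le M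
        linarith
    _ ≤ 9 / 5 := by norm_num

/-- A set of reals in `(0,1)` whose continued fraction digits in odd positions are even. -/
def SelfSim (E : Set ℝ) : Prop :=
  ∀ ξ ∈ E, 0 < ξ ∧ ξ < 1 ∧ ∃ m m' : ℕ, 1 ≤ m ∧ 1 ≤ m' ∧ ∃ ξ' ∈ E, ξ = 1 / (2 * m + 1 / (m' + ξ'))

/-- `C` is a family of left end points of intervals of length `η` covering `E`. -/
def Covers (E : Set ℝ) (η : ℝ) (C : Finset ℝ) : Prop :=
  (∀ c ∈ C, 0 ≤ c) ∧ ∀ ξ ∈ E, ∃ c ∈ C, c ≤ ξ ∧ ξ ≤ c + η

theorem phi_bound (m m' : ℝ) (hm : 1 ≤ m) (hm' : 1 ≤ m') (c t η : ℝ) (hc : 0 ≤ c)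
    (h1 : c ≤ t) (h2 : t ≤ c + η * (2 * m * m' + 1) ^ 2) :
    1 / (2 * m + 1 / (m' + c)) ≤ 1 / (2 * m + 1 / (m' + t)) ∧
      1 / (2 * m + 1 / (m' + t)) ≤ 1 / (2 * m + 1 / (m' + c)) + η := by
  have e1 : ∀ x : ℝ, 0 ≤ x → 1 / (2 * m + 1 / (m' + x)) = (m' + x) / (2 * m * (m' + x) + 1) := by
    intro x hx
    have : 0 < m' + x := by linarith
    field_simp
  have ht : 0 ≤ t := hc.trans h1
  rw [e1 c hc, e1 t ht]
  have p1 : 0 < 2 * m * (m' + c) + 1 := by positivity
  have p2 : 0 < 2 * m * (m' + t) + 1 := by positivity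
  have hdiff : (m' + t) / (2 * m * (m' + t) + 1) - (m' + c) / (2 * m * (m' + c) + 1)
      = (t - c) / ((2 * m * (m' + t) + 1) * (2 * m * (m' + c) + 1)) := by
    field_simp
    ring
  have hD : (2 * m * m' + 1) ^ 2 ≤ (2 * m * (m' + t) + 1) * (2 * m * (m' + c) + 1) := by
    have a1 : 2 * m * m' + 1 ≤ 2 * m * (m' + t) + 1 := by nlinarith
    have a2 : 2 * m * m' + 1 ≤ 2 * m * (m' + c) + 1 := by nlinarith
    have a0 : 0 ≤ 2 * m * m' + 1 := by positivity
    nlinarith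
  have hD0 : 0 < (2 * m * m' + 1) ^ 2 := by positivity
  constructor
  · have : 0 ≤ (t - c) / ((2 * m * (m' + t) + 1) * (2 * m * (m' + c) + 1)) := by
      apply div_nonneg (by linarith) (by positivity)
    linarith
  · have : (t - c) / ((2 * m * (m' + t) + 1) * (2 * m * (m' + c) + 1)) ≤ η := by
      rw [div_le_iff₀ (by positivity)]
      have hη : 0 ≤ η := by
        by_contra hcon
        push Not at hcon
        nlinarith
      nlinarith
    linarith

theorem first_ineq (m t Y : ℝ) (hm : 1 ≤ m) (ht : 0 < t) (hY : 0 < Y) (h : Y ≤ 2 * m + 1) :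
    1 / (2 * m + t) ≤ 3 / (2 * Y) := by
  rw [div_le_div_iff₀ (by positivity) (by positivity)]
  linarith

theorem second_ineq (m u : ℝ) (hm : 0 < m) (hu : 0 < u) :
    1 / (2 * m) ≤ 1 / (2 * m + u) + u / (2 * m) ^ 2 := by
  have h1 : 1 / (2 * m) - 1 / (2 * m + u) = u / (2 * m * (2 * m + u)) := by
    field_simp
    ring
  have h2 : u / (2 * m * (2 * m + u)) ≤ u / (2 * m) ^ 2 := by
    apply div_le_div_of_nonneg_left hu.le (by positivity)
    nlinarith
  linarith

theorem two_rpow_bound : (2 : ℝ) ^ (-(99 / 50) : ℝ) ≤ 25 / 98 := by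
  have h1 : (2 : ℝ) ^ (-(99 / 50) : ℝ) = (1 / 4) * (2 : ℝ) ^ ((1 / 50) : ℝ) := by
    have : (-(99 / 50) : ℝ) = -2 + 1 / 50 := by norm_num
    rw [this, Real.rpow_add (by norm_num), Real.rpow_neg (by norm_num)]
    norm_num
  rw [h1]
  have h2 : (2 : ℝ) ^ ((1 / 50) : ℝ) ≤ 50 / 49 := by
    have h3 : (2 : ℝ) ^ (-(1 / 50) : ℝ) ≥ 49 / 50 := by
      rw [Real.rpow_def_of_pos (by norm_num)]
      have h4 := Real.add_one_le_exp (Real.log 2 * -(1 / 50))
      have h5 : Real.log 2 ≤ 1 := by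
        have := Real.log_le_sub_one_of_pos (show (0 : ℝ) < 2 by norm_num)
        linarith
      linarith
    rw [Real.rpow_neg (by norm_num)] at h3
    have h6 : 0 < (2 : ℝ) ^ ((1 / 50) : ℝ) := by positivity
    have h7 : (2 : ℝ) ^ ((1 / 50) : ℝ) * ((2 : ℝ) ^ ((1 / 50) : ℝ))⁻¹ = 1 := mul_inv_cancel₀ h6.ne'
    nlinarith
  linarith

theorem cover_step (E : Set ℝ) (hE : SelfSim E) (η : ℝ) (hη : 0 < η) (hη1 : η < 1)
    (hIH : ∀ η' : ℝ, 9 * η ≤ η' → η' ≤ 1 → ∃ C : Finset ℝ,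
      (C.card : ℝ) ≤ 100 * η' ^ (-(99 / 100) : ℝ) ∧ Covers E η' C) :
    ∃ C : Finset ℝ, (C.card : ℝ) ≤ 100 * η ^ (-(99 / 100) : ℝ) ∧ Covers E η C := by
  classical
  set Y : ℝ := Real.sqrt (1 / η) with hY
  have hY2 : Y ^ 2 = 1 / η := Real.sq_sqrt (by positivity)
  have hY1 : 1 < Y := by
    rw [hY, Real.lt_sqrt (by norm_num)]
    rw [one_pow, lt_div_iff₀ hη]
    linarith
  have hY0 : 0 < Y := by linarith
  have hηY : η * Y ^ 2 = 1 := by rw [hY2]; field_simp
  set K : ℕ := ⌈Y⌉₊ with hK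
  have hKY : Y ≤ K := Nat.le_ceil Y
  have hK2Y : (K : ℝ) ≤ 2 * Y := by
    have := Nat.ceil_lt_add_one hY0.le
    linarith
  set D : ℕ × ℕ → ℝ := fun p => 2 * ((p.1 : ℝ) + 1) * ((p.2 : ℝ) + 1) + 1 with hD
  have hD3 : ∀ p, 3 ≤ D p := by
    intro p
    rw [hD]
    simp only
    have h1 : (0 : ℝ) ≤ p.1 := Nat.cast_nonneg _
    have h2 : (0 : ℝ) ≤ p.2 := Nat.cast_nonneg _
    nlinarith
  set P : Finset (ℕ × ℕ) := (range K ×ˢ range K).filter (fun p => D p ^ 2 * η < 1) with hP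
  have hex : ∀ p : ℕ × ℕ, ∃ C : Finset ℝ, p ∈ P →
      ((C.card : ℝ) ≤ 100 * (η * D p ^ 2) ^ (-(99 / 100) : ℝ) ∧ Covers E (η * D p ^ 2) C) := by
    intro p
    by_cases hp : p ∈ P
    · have hp2 := (mem_filter.mp hp).2
      obtain ⟨C, hC⟩ := hIH (η * D p ^ 2) (by
        have := hD3 p
        nlinarith [mul_self_nonneg (D p - 3)]) (by linarith)
      exact ⟨C, fun _ => hC⟩
    · exact ⟨∅, fun h => absurd h hp⟩
  choose Cf hCf using hex
  -- the main part
  set φ : ℕ × ℕ → ℝ → ℝ := fun p t => 1 / (2 * ((p.1 : ℝ) + 1) + 1 / (((p.2 : ℝ) + 1) + t)) with hφ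
  set Cm : Finset ℝ := P.biUnion (fun p => (Cf p).image (φ p)) with hCm
  -- first remainder
  obtain ⟨C1, hC1c, hC1n, hC1⟩ := interval_cover 0 (3 / (2 * Y)) η le_rfl (by positivity) hη
  -- second remainder
  have hex2 : ∀ i : ℕ, ∃ C : Finset ℝ, (C.card : ℝ) ≤ (3 / (4 * ((i : ℝ) + 1) * Y)) / η + 1 ∧
      (∀ c ∈ C, 0 ≤ c) ∧ ∀ x, 1 / (2 * ((i : ℝ) + 1) + 3 * ((i : ℝ) + 1) / Y) ≤ x →
        x ≤ 1 / (2 * ((i : ℝ) + 1) + 3 * ((i : ℝ) + 1) / Y) + 3 / (4 * ((i : ℝ) + 1) * Y) →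
        ∃ c ∈ C, c ≤ x ∧ x ≤ c + η := by
    intro i
    exact interval_cover _ _ η (by positivity) (by positivity) hη
  choose Cg hCgc hCgn hCg using hex2
  set I : Finset ℕ := (range K).filter (fun i => 2 * ((i : ℝ) + 1) + 1 < Y) with hI
  set C2 : Finset ℝ := I.biUnion Cg with hC2
  refine ⟨Cm ∪ (C1 ∪ C2), ?_, ?_, ?_⟩
  · -- counting
    have hm : (Cm.card : ℝ) ≤ 83 * η ^ (-(99 / 100) : ℝ) := by
      have h1 : (Cm.card : ℝ) ≤ ∑ p ∈ P, ((Cf p).card : ℝ) := by
        have h2 : Cm.card ≤ ∑ p ∈ P, (Cf p).card := by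
          refine card_biUnion_le.trans ?_
          exact sum_le_sum (fun p _ => card_image_le)
        exact_mod_cast h2
      have h3 : ∀ p ∈ P, ((Cf p).card : ℝ) ≤ 100 * (η ^ (-(99 / 100) : ℝ) * (2 ^ (-(99 / 50) : ℝ) *
          (((p.1 : ℝ) + 1) ^ (-(99 / 50) : ℝ) * ((p.2 : ℝ) + 1) ^ (-(99 / 50) : ℝ)))) := by
        intro p hp
        refine (hCf p hp).1.trans ?_
        apply mul_le_mul_of_nonneg_left _ (by norm_num)
        have hp1 : (0 : ℝ) < (p.1 : ℝ) + 1 := by positivity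
        have hp2 : (0 : ℝ) < (p.2 : ℝ) + 1 := by positivity
        rw [Real.mul_rpow hη.le (by positivity)]
        apply mul_le_mul_of_nonneg_left _ (by positivity)
        have h4 : (D p ^ 2) ^ (-(99 / 100) : ℝ) = (D p) ^ (-(99 / 50) : ℝ) := by
          have : (0 : ℝ) ≤ D p := by linarith [hD3 p]
          rw [← Real.rpow_natCast, ← Real.rpow_mul this]
          norm_num
        rw [h4, ← Real.mul_rpow (by positivity) (by positivity), ← Real.mul_rpow (by norm_num) (by positivity)]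
        apply Real.rpow_le_rpow_of_nonpos (by positivity)
        · rw [hD]; simp only; linarith
        · norm_num
      have h5 : ∑ p ∈ P, ((Cf p).card : ℝ) ≤ 100 * (η ^ (-(99 / 100) : ℝ) * (2 ^ (-(99 / 50) : ℝ) *
          ((9 / 5) * (9 / 5)))) := by
        refine (sum_le_sum h3).trans ?_
        have h6 : ∑ p ∈ P, 100 * (η ^ (-(99 / 100) : ℝ) * (2 ^ (-(99 / 50) : ℝ) *
          (((p.1 : ℝ) + 1) ^ (-(99 / 50) : ℝ) * ((p.2 : ℝ) + 1) ^ (-(99 / 50) : ℝ))))
          ≤ ∑ p ∈ range K ×ˢ range K, 100 * (η ^ (-(99 / 100) : ℝ) * (2 ^ (-(99 / 50) : ℝ) *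
          (((p.1 : ℝ) + 1) ^ (-(99 / 50) : ℝ) * ((p.2 : ℝ) + 1) ^ (-(99 / 50) : ℝ)))) := by
          apply sum_le_sum_of_subset_of_nonneg (filter_subset _ _)
          intro p _ _
          positivity
        refine h6.trans ?_
        rw [← mul_sum, ← mul_sum, ← mul_sum, sum_product]
        dsimp only
        rw [← sum_mul_sum]
        apply mul_le_mul_of_nonneg_left _ (by norm_num)
        apply mul_le_mul_of_nonneg_left _ (by positivity)
        apply mul_le_mul_of_nonneg_left _ (by positivity)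
        apply mul_le_mul (sum_inv_pow_le K) (sum_inv_pow_le K) _ (by norm_num)
        apply sum_nonneg
        intro i _
        positivity
      have h7 : 100 * (η ^ (-(99 / 100) : ℝ) * ((2 : ℝ) ^ (-(99 / 50) : ℝ) *
          ((9 / 5) * (9 / 5)))) ≤ 83 * η ^ (-(99 / 100) : ℝ) := by
        have h8 := two_rpow_bound
        have h9 : (0 : ℝ) ≤ η ^ (-(99 / 100) : ℝ) := by positivity
        nlinarith
      linarith
    have hYr : Y ^ (3 / 2 : ℝ) ≤ η ^ (-(99 / 100) : ℝ) := by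
      have h1 : Y ^ (3 / 2 : ℝ) = η ^ (-(3 / 4) : ℝ) := by
        rw [hY, Real.sqrt_eq_rpow, ← Real.rpow_mul (by positivity), one_div, Real.inv_rpow hη.le,
          ← Real.rpow_neg hη.le]
        norm_num
      rw [h1]
      apply Real.rpow_le_rpow_of_exponent_ge hη hη1.le
      norm_num
    have hYr1 : Y ≤ Y ^ (3 / 2 : ℝ) := by
      conv_lhs => rw [← Real.rpow_one Y]
      apply Real.rpow_le_rpow_of_exponent_le hY1.le
      norm_num
    have h1 : (C1.card : ℝ) ≤ 5 / 2 * Y ^ (3 / 2 : ℝ) := by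
      have h2 : 3 / (2 * Y) / η = 3 / 2 * Y := by
        have : Y = 1 / (η * Y) := by
          rw [eq_div_iff (by positivity)]
          linarith [hηY, show Y * (η * Y) = η * Y ^ 2 by ring]
        conv_rhs => rw [this]
        field_simp
      rw [h2] at hC1c
      linarith
    have h2 : (C2.card : ℝ) ≤ 4 * Y ^ (3 / 2 : ℝ) := by
      have h3 : (C2.card : ℝ) ≤ ∑ i ∈ I, ((Cg i).card : ℝ) := by
        have h4 : C2.card ≤ ∑ i ∈ I, (Cg i).card := card_biUnion_le
        exact_mod_cast h4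
      have h5 : ∀ i ∈ I, ((Cg i).card : ℝ) ≤ 5 / 4 * Y * ((i : ℝ) + 1)⁻¹ := by
        intro i hi
        have hi2 := (mem_filter.mp hi).2
        have hi0 : (0 : ℝ) < (i : ℝ) + 1 := by positivity
        refine (hCgc i).trans ?_
        have h6 : 3 / (4 * ((i : ℝ) + 1) * Y) / η = 3 / 4 * Y * ((i : ℝ) + 1)⁻¹ := by
          have : Y = 1 / (η * Y) := by
            rw [eq_div_iff (by positivity)]
            linarith [hηY, show Y * (η * Y) = η * Y ^ 2 by ring]
          conv_rhs => rw [this]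
          field_simp
        rw [h6]
        have h7 : 1 ≤ 1 / 2 * Y * ((i : ℝ) + 1)⁻¹ := by
          rw [← div_eq_mul_inv, le_div_iff₀ hi0]
          linarith
        linarith
      have h8 : ∑ i ∈ I, ((Cg i).card : ℝ) ≤ 5 / 4 * Y * (1 + Real.log K) := by
        refine (sum_le_sum h5).trans ?_
        rw [← mul_sum]
        apply mul_le_mul_of_nonneg_left _ (by positivity)
        have h9 := harmonic_le_one_add_log K
        unfold harmonic at h9
        push_cast at h9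
        refine le_trans ?_ h9
        apply sum_le_sum_of_subset_of_nonneg (filter_subset _ _)
        intro i _ _
        positivity
      have hK1 : (1 : ℝ) ≤ K := by linarith
      have h10 : 1 + Real.log K ≤ 2 * Real.sqrt K := by
        have h11 : Real.log K = 2 * Real.log (Real.sqrt K) := by
          rw [Real.log_sqrt (by linarith)]; ring
        have h12 := Real.log_le_sub_one_of_pos (Real.sqrt_pos.mpr (show (0 : ℝ) < K by linarith))
        linarith
      have h13 : Real.sqrt K ≤ 8 / 5 * Real.sqrt Y := by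
        rw [show (8 / 5 : ℝ) = Real.sqrt ((8 / 5) ^ 2) from (Real.sqrt_sq (by norm_num)).symm,
          ← Real.sqrt_mul (by norm_num)]
        apply Real.sqrt_le_sqrt
        norm_num
        linarith
      have h14 : Y * Real.sqrt Y = Y ^ (3 / 2 : ℝ) := by
        rw [Real.sqrt_eq_rpow]
        conv_lhs => rw [← Real.rpow_one Y, ← Real.rpow_mul hY0.le, ← Real.rpow_add hY0]
        norm_num
      calc (C2.card : ℝ) ≤ 5 / 4 * Y * (1 + Real.log K) := h3.trans h8
        _ ≤ 5 / 4 * Y * (2 * (8 / 5 * Real.sqrt Y)) := by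
            apply mul_le_mul_of_nonneg_left _ (by positivity)
            linarith
        _ = 4 * (Y * Real.sqrt Y) := by ring
        _ = _ := by rw [h14]
    have h3 : ((Cm ∪ (C1 ∪ C2)).card : ℝ) ≤ Cm.card + (C1.card + C2.card) := by
      have h4 := card_union_le Cm (C1 ∪ C2)
      have h5 := card_union_le C1 C2
      have h6 : (Cm ∪ (C1 ∪ C2)).card ≤ Cm.card + (C1.card + C2.card) := by omega
      exact_mod_cast h6
    linarith
  · -- nonnegativity
    intro c hc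
    rw [mem_union, mem_union] at hc
    rcases hc with hc | hc | hc
    · rw [hCm, mem_biUnion] at hc
      obtain ⟨p, hp, hc⟩ := hc
      rw [mem_image] at hc
      obtain ⟨t, ht, rfl⟩ := hc
      have := (hCf p hp).2.1 t ht
      rw [hφ]
      simp only
      positivity
    · exact hC1n c hc
    · rw [hC2, mem_biUnion] at hc
      obtain ⟨i, _, hc⟩ := hc
      exact hCgn i c hc
  · -- covering
    intro ξ hξ
    obtain ⟨hξ0, hξ1, m, m', hm, hm', ξ', hξ', heq⟩ := hE ξ hξ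
    obtain ⟨hξ'0, hξ'1, -⟩ := hE ξ' hξ'
    obtain ⟨i, rfl⟩ : ∃ i, m = i + 1 := ⟨m - 1, by omega⟩
    obtain ⟨j, rfl⟩ : ∃ j, m' = j + 1 := ⟨m' - 1, by omega⟩
    push_cast at heq
    have hi0 : (0 : ℝ) ≤ i := Nat.cast_nonneg i
    have hj0 : (0 : ℝ) ≤ j := Nat.cast_nonneg j
    by_cases hcase : D (i, j) ^ 2 * η < 1
    · have hDY : D (i, j) < Y := by
        by_contra hcon
        push Not at hcon
        have : Y ^ 2 ≤ D (i, j) ^ 2 := pow_le_pow_left₀ hY0.le hcon 2
        nlinarith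
      have hDdef : D (i, j) = 2 * ((i : ℝ) + 1) * ((j : ℝ) + 1) + 1 := rfl
      have hmem : (i, j) ∈ P := by
        rw [hP, mem_filter, mem_product, mem_range, mem_range]
        refine ⟨⟨?_, ?_⟩, hcase⟩
        · have : (i : ℝ) < K := by nlinarith
          exact_mod_cast this
        · have : (j : ℝ) < K := by nlinarith
          exact_mod_cast this
      obtain ⟨hc1, hc2⟩ := (hCf (i, j) hmem).2
      obtain ⟨c, hc, hcl, hcr⟩ := hc2 ξ' hξ'
      have hb := phi_bound ((i : ℝ) + 1) ((j : ℝ) + 1) (by linarith) (by linarith) c ξ' η (hc1 c hc)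
        hcl (by rw [hDdef] at hcr; linarith)
      refine ⟨φ (i, j) c, ?_, ?_, ?_⟩
      · apply mem_union_left
        exact mem_biUnion.mpr ⟨(i, j), hmem, mem_image_of_mem _ hc⟩
      · rw [heq]; exact hb.1
      · rw [heq]; exact hb.2
    · push Not at hcase
      have hDY : Y ≤ D (i, j) := by
        by_contra hcon
        push Not at hcon
        have h3 := hD3 (i, j)
        have : D (i, j) ^ 2 < Y ^ 2 := pow_lt_pow_left₀ hcon (by linarith) (by norm_num)
        nlinarith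
      have hDdef : D (i, j) = 2 * ((i : ℝ) + 1) * ((j : ℝ) + 1) + 1 := rfl
      rw [hDdef] at hDY
      have ht0 : 0 < 1 / ((j : ℝ) + 1 + ξ') := by positivity
      by_cases hcase2 : 2 * ((i : ℝ) + 1) + 1 < Y
      · -- second remainder
        have hY3 : 3 < Y := by linarith
        have ht : 1 / ((j : ℝ) + 1 + ξ') ≤ 3 * ((i : ℝ) + 1) / Y := by
          rw [div_le_div_iff₀ (by positivity) hY0]
          nlinarith
        have hi1 : (0 : ℝ) < (i : ℝ) + 1 := by linarith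
        obtain ⟨c, hc, hcl, hcr⟩ := hCg i ξ (by
          rw [heq]
          apply one_div_le_one_div_of_le (by positivity)
          linarith) (by
          have h1 : ξ ≤ 1 / (2 * ((i : ℝ) + 1)) := by
            rw [heq]
            apply one_div_le_one_div_of_le (by positivity)
            linarith
          have h2 : 1 / (2 * ((i : ℝ) + 1)) ≤ 1 / (2 * ((i : ℝ) + 1) + 3 * ((i : ℝ) + 1) / Y)
              + 3 / (4 * ((i : ℝ) + 1) * Y) := by
            set u : ℝ := 3 * ((i : ℝ) + 1) / Y with hu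
            have hu0 : 0 < u := by positivity
            have h3 : 3 / (4 * ((i : ℝ) + 1) * Y) = u / (2 * ((i : ℝ) + 1)) ^ 2 := by
              rw [hu]; field_simp; norm_num
            rw [h3]
            exact second_ineq _ _ hi1 hu0
          linarith)
        refine ⟨c, ?_, hcl, hcr⟩
        apply mem_union_right
        apply mem_union_right
        refine mem_biUnion.mpr ⟨i, ?_, hc⟩
        refine mem_filter.mpr ⟨mem_range.mpr ?_, hcase2⟩
        have : (i : ℝ) < K := by linarith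
        exact_mod_cast this
      · push Not at hcase2
        obtain ⟨c, hc, hcl, hcr⟩ := hC1 ξ hξ0.le (by
          rw [zero_add, heq]
          exact first_ineq _ _ _ (by linarith) ht0 hY0 hcase2)
        refine ⟨c, ?_, hcl, hcr⟩
        apply mem_union_right
        exact mem_union_left _ hc

/-- The covering theorem. -/
theorem cover_main (E : Set ℝ) (hE : SelfSim E) (η : ℝ) (hη : 0 < η) (hη1 : η ≤ 1) :
    ∃ C : Finset ℝ, (C.card : ℝ) ≤ 100 * η ^ (-(99 / 100) : ℝ) ∧ Covers E η C := by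
  have key : ∀ j : ℕ, ∀ η : ℝ, (1 / 9 : ℝ) ^ j ≤ η → η ≤ 1 →
      ∃ C : Finset ℝ, (C.card : ℝ) ≤ 100 * η ^ (-(99 / 100) : ℝ) ∧ Covers E η C := by
    intro j
    induction j with
    | zero =>
      intro η h1 h2
      rw [pow_zero] at h1
      have : η = 1 := le_antisymm h2 h1
      subst this
      refine ⟨{0}, ?_, ?_, ?_⟩
      · simp
      · intro c hc
        rw [mem_singleton] at hc
        rw [hc]
      · intro ξ hξ
        obtain ⟨h3, h4, -⟩ := hE ξ hξ
        exact ⟨0, by simp, h3.le, by linarith⟩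
    | succ j ih =>
      intro η h1 h2
      rcases h2.lt_or_eq with h3 | h3
      · have h0 : 0 < η := lt_of_lt_of_le (by positivity) h1
        apply cover_step E hE η h0 h3
        intro η' h4 h5
        apply ih η' _ h5
        rw [pow_succ] at h1
        linarith
      · exact ih η (by rw [h3]; exact pow_le_one₀ (by norm_num) (by norm_num)) h2
  obtain ⟨j, hj⟩ := exists_pow_lt_of_lt_one hη (show (1 / 9 : ℝ) < 1 by norm_num)
  exact key j η hj.le hη1

end Pool.Agent.KeZhao
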