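import Mathlib

/-! The divisor bound: for every positive exponent the number of divisors of a positive
integer is at most a constant times that power of the integer. -/

namespace Pool.Agent.KeZhao

open Finset

theorem divisor_bound (ε : ℝ) (hε : 0 < ε) :
    ∃ C : ℝ, 1 ≤ C ∧ ∀ m : ℕ, 0 < m → ((m.divisors.card : ℕ) : ℝ) ≤ C * (m : ℝ) ^ ε := by
  classical
  set L : ℝ := Real.log 2 with hL
  have hLpos : 0 < L := Real.log_pos (by norm_num)
  set C₁ : ℝ := 1 + 1 / (ε * L) with hC₁
  have hC₁1 : 1 ≤ C₁ := by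
    rw [hC₁]
    have : 0 ≤ 1 / (ε * L) := by positivity
    linarith
  obtain ⟨P, hP⟩ := exists_nat_gt ((2 : ℝ) ^ (1 / ε))
  refine ⟨C₁ ^ P, one_le_pow₀ hC₁1, ?_⟩
  intro m hm
  have hm0 : m ≠ 0 := hm.ne'
  have key : ∀ p ∈ m.primeFactors, ((m.factorization p + 1 : ℕ) : ℝ)
      ≤ (if p < P then C₁ else 1) * ((p : ℝ) ^ (m.factorization p)) ^ ε := by
    intro p hp
    have hpp := Nat.prime_of_mem_primeFactors hp
    have hp2 : (2 : ℝ) ≤ p := by exact_mod_cast hpp.two_le
    have hp0 : (0 : ℝ) < p := by linarith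
    set a := m.factorization p
    have hrew : ((p : ℝ) ^ a) ^ ε = (p : ℝ) ^ ((a : ℝ) * ε) := by
      rw [← Real.rpow_natCast, ← Real.rpow_mul hp0.le]
    rw [hrew]
    by_cases hlt : p < P
    · rw [if_pos hlt]
      have h1 : (2 : ℝ) ^ ((a : ℝ) * ε) ≤ (p : ℝ) ^ ((a : ℝ) * ε) :=
        Real.rpow_le_rpow (by norm_num) hp2 (by positivity)
      have h2 : (a : ℝ) * ε * L + 1 ≤ (2 : ℝ) ^ ((a : ℝ) * ε) := by
        rw [Real.rpow_def_of_pos (by norm_num)]
        have := Real.add_one_le_exp (Real.log 2 * ((a : ℝ) * ε))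
        rw [hL]
        linarith
      have h3 : ((a + 1 : ℕ) : ℝ) ≤ C₁ * ((a : ℝ) * ε * L + 1) := by
        rw [hC₁]
        have hεL : 0 < ε * L := by positivity
        have : (1 + 1 / (ε * L)) * ((a : ℝ) * ε * L + 1)
            = a * ε * L + 1 + a + 1 / (ε * L) := by
          field_simp
          ring
        rw [this]
        push_cast
        have h4 : 0 ≤ 1 / (ε * L) := by positivity
        have h5 : 0 ≤ (a : ℝ) * ε * L := by positivity
        linarith
      calc ((a + 1 : ℕ) : ℝ) ≤ C₁ * ((a : ℝ) * ε * L + 1) := h3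
        _ ≤ C₁ * (p : ℝ) ^ ((a : ℝ) * ε) := by
            apply mul_le_mul_of_nonneg_left (h2.trans h1) (by linarith)
    · rw [if_neg hlt, one_mul]
      have hPp : (P : ℝ) ≤ p := by exact_mod_cast not_lt.mp hlt
      have h1 : (2 : ℝ) ≤ (p : ℝ) ^ ε := by
        have : (2 : ℝ) ^ (1 / ε) ≤ p := by linarith
        have h2 := Real.rpow_le_rpow (by positivity) this hε.le
        rw [← Real.rpow_mul (by norm_num), one_div, inv_mul_cancel₀ hε.ne', Real.rpow_one] at h2
        exact h2
      have h2 : (p : ℝ) ^ ((a : ℝ) * ε) = ((p : ℝ) ^ ε) ^ a := by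
        rw [mul_comm, Real.rpow_mul hp0.le, Real.rpow_natCast]
      rw [h2]
      have h3 : (2 : ℝ) ^ a ≤ ((p : ℝ) ^ ε) ^ a := pow_le_pow_left₀ (by norm_num) h1 a
      have h4 : ((a + 1 : ℕ) : ℝ) ≤ (2 : ℝ) ^ a := by
        have := Nat.lt_two_pow_self (n := a)
        exact_mod_cast this
      linarith
  have hcard : ((m.divisors.card : ℕ) : ℝ) = ∏ p ∈ m.primeFactors, ((m.factorization p + 1 : ℕ) : ℝ) := by
    rw [Nat.card_divisors hm0]
    push_cast
    rfl
  have hprod : (m : ℝ) = ∏ p ∈ m.primeFactors, ((p : ℝ) ^ (m.factorization p)) := by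
    conv_lhs => rw [← Nat.prod_factorization_pow_eq_self hm0]
    rw [Finsupp.prod, Nat.support_factorization]
    push_cast
    rfl
  rw [hcard]
  calc ∏ p ∈ m.primeFactors, ((m.factorization p + 1 : ℕ) : ℝ)
      ≤ ∏ p ∈ m.primeFactors, ((if p < P then C₁ else 1) * ((p : ℝ) ^ (m.factorization p)) ^ ε) := by
        apply Finset.prod_le_prod
        · intro p _; positivity
        · exact key
    _ = (∏ p ∈ m.primeFactors, (if p < P then C₁ else 1)) * (m : ℝ) ^ ε := by
        rw [Finset.prod_mul_distrib]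
        congr 1
        rw [Real.finset_prod_rpow _ _ (fun i _ => by positivity), ← hprod]
    _ ≤ C₁ ^ P * (m : ℝ) ^ ε := by
        apply mul_le_mul_of_nonneg_right _ (by positivity)
        rw [← Finset.prod_filter]
        rw [Finset.prod_const]
        apply pow_le_pow_right₀ hC₁1
        calc (m.primeFactors.filter (fun p => p < P)).card ≤ (Finset.range P).card := by
              apply Finset.card_le_card
              intro p hp
              simp only [Finset.mem_filter] at hp
              exact Finset.mem_range.mpr hp.2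
          _ = P := Finset.card_range P

end Pool.Agent.KeZhao
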