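import Pool.Agent.Lib.KeZhao.FourFold

/-! The inequality of Estermann: a lower bound for the product
`L(1,χ₁) L(1,χ₂) L(1,χ₁χ₂)` of values of L-functions of real characters whenever
`ζ L(χ₁) L(χ₂) L(χ₁χ₂)` is not positive at a point `β < 1` close to `1`. -/

namespace Pool.Agent.KeZhao

open Complex Finset DirichletCharacter
open scoped ComplexOrder

variable {N : ℕ} [NeZero N]

/-- product of three L-functions -/
noncomputable def tripL (χ₁ χ₂ : DirichletCharacter ℂ N) (s : ℂ) : ℂ :=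
  LFunction χ₁ s * LFunction χ₂ s * LFunction (χ₁ * χ₂) s

/-- `(s-1) ζ(s)` as an entire function -/
noncomputable def zetaE (s : ℂ) : ℂ := LFunctionTrivChar₁ 1 s

theorem zetaE_one : zetaE 1 = 1 := by
  unfold zetaE LFunctionTrivChar₁
  simp

theorem zetaE_of_ne {s : ℂ} (hs : s ≠ 1) : zetaE s = (s - 1) * riemannZeta s := by
  unfold zetaE LFunctionTrivChar₁
  rw [Function.update_of_ne hs]
  unfold LFunctionTrivChar
  rw [LFunction_modOne_eq]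

theorem zetaE_differentiable : Differentiable ℂ zetaE := differentiable_LFunctionTrivChar₁ 1

theorem tripL_differentiable {χ₁ χ₂ : DirichletCharacter ℂ N} (h1 : χ₁ ≠ 1) (h2 : χ₂ ≠ 1)
    (h12 : χ₁ * χ₂ ≠ 1) : Differentiable ℂ (tripL χ₁ χ₂) := by
  unfold tripL
  exact ((differentiable_LFunction h1).mul (differentiable_LFunction h2)).mul
    (differentiable_LFunction h12)

/-- the regularised product -/
noncomputable def Hfun (χ₁ χ₂ : DirichletCharacter ℂ N) : ℂ → ℂ :=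
  dslope (fun s => zetaE s * tripL χ₁ χ₂ s) 1

theorem Hfun_differentiable {χ₁ χ₂ : DirichletCharacter ℂ N} (h1 : χ₁ ≠ 1) (h2 : χ₂ ≠ 1)
    (h12 : χ₁ * χ₂ ≠ 1) : Differentiable ℂ (Hfun χ₁ χ₂) := by
  rw [← differentiableOn_univ]
  unfold Hfun
  rw [Complex.differentiableOn_dslope Filter.univ_mem, differentiableOn_univ]
  exact zetaE_differentiable.mul (tripL_differentiable h1 h2 h12)

theorem Hfun_of_ne (χ₁ χ₂ : DirichletCharacter ℂ N) {s : ℂ} (hs : s ≠ 1) :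
    Hfun χ₁ χ₂ s = riemannZeta s * tripL χ₁ χ₂ s - tripL χ₁ χ₂ 1 * (s - 1)⁻¹ := by
  unfold Hfun
  rw [dslope_of_ne _ hs, slope_def_field, zetaE_one, zetaE_of_ne hs]
  have : s - 1 ≠ 0 := sub_ne_zero.mpr hs
  field_simp

theorem norm_tripL_le {χ₁ χ₂ : DirichletCharacter ℂ N} (h1 : χ₁ ≠ 1) (h2 : χ₂ ≠ 1)
    (h12 : χ₁ * χ₂ ≠ 1) {s : ℂ} (hs : 1 / 2 ≤ s.re) (hs2 : ‖s‖ ≤ 7 / 2) :
    ‖tripL χ₁ χ₂ s‖ ≤ (N : ℝ) ^ 3 * (7 / 2 * cZ) ^ 3 := by
  have hb : ∀ {χ : DirichletCharacter ℂ N}, χ ≠ 1 → ‖LFunction χ s‖ ≤ N * (7 / 2 * cZ) := by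
    intro χ hχ
    refine (norm_LFunction_le hχ hs).trans ?_
    rw [mul_assoc]
    apply mul_le_mul_of_nonneg_left _ (by positivity)
    exact mul_le_mul_of_nonneg_right hs2 cZ_nonneg
  unfold tripL
  rw [norm_mul, norm_mul]
  have hc := cZ_nonneg
  have hpos : 0 ≤ (N : ℝ) * (7 / 2 * cZ) := by positivity
  calc ‖LFunction χ₁ s‖ * ‖LFunction χ₂ s‖ * ‖LFunction (χ₁ * χ₂) s‖
      ≤ (N * (7 / 2 * cZ)) * (N * (7 / 2 * cZ)) * (N * (7 / 2 * cZ)) := by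
        apply mul_le_mul _ (hb h12) (norm_nonneg _) (by positivity)
        exact mul_le_mul (hb h1) (hb h2) (norm_nonneg _) hpos
    _ = (N : ℝ) ^ 3 * (7 / 2 * cZ) ^ 3 := by ring

theorem exists_Hfun_bound : ∃ K : ℝ, 1 ≤ K ∧ ∀ (N : ℕ) [NeZero N]
    (χ₁ χ₂ : DirichletCharacter ℂ N), χ₁ ≠ 1 → χ₂ ≠ 1 → χ₁ * χ₂ ≠ 1 →
    ∀ s ∈ Metric.sphere (2 : ℂ) (3 / 2), ‖Hfun χ₁ χ₂ s‖ ≤ K * (N : ℝ) ^ 3 := by
  obtain ⟨CE, hCE⟩ := (isCompact_sphere (2 : ℂ) (3 / 2)).exists_bound_of_continuousOn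
    zetaE_differentiable.continuous.continuousOn
  have hCE0 : 0 ≤ CE := by
    have := hCE (2 + 3 / 2 : ℂ) (by simp)
    exact (norm_nonneg _).trans this
  set T : ℝ := (7 / 2 * cZ) ^ 3 with hT
  have hT0 : 0 ≤ T := by
    have := cZ_nonneg
    positivity
  refine ⟨max 1 (2 * (CE * T + T)), le_max_left _ _, ?_⟩
  intro N _ χ₁ χ₂ h1 h2 h12 s hs
  rw [mem_sphere_iff_norm] at hs
  have hre : 1 / 2 ≤ s.re := by
    have h3 := Complex.abs_re_le_norm (s - 2)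
    rw [hs] at h3
    simp only [sub_re, re_ofNat] at h3
    have := (abs_le.mp h3).1
    linarith
  have hnorm : ‖s‖ ≤ 7 / 2 := by
    have h3 := norm_sub_norm_le s 2
    rw [hs] at h3
    have : ‖(2 : ℂ)‖ = 2 := by simp
    linarith
  have hs1 : 1 / 2 ≤ ‖s - 1‖ := by
    have h3 := norm_sub_norm_le (s - 2) (-1)
    have h4 : s - 2 - (-1) = s - 1 := by ring
    rw [h4, hs] at h3
    have : ‖(-1 : ℂ)‖ = 1 := by simp
    linarith
  have hsne : s ≠ 1 := by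
    rintro rfl
    norm_num at hs1
  have hts := norm_tripL_le h1 h2 h12 hre hnorm
  have ht1 := norm_tripL_le h1 h2 h12 (s := 1) (by norm_num) (by norm_num)
  have hform : Hfun χ₁ χ₂ s = (zetaE s * tripL χ₁ χ₂ s - tripL χ₁ χ₂ 1) / (s - 1) := by
    unfold Hfun
    rw [dslope_of_ne _ hsne, slope_def_field, zetaE_one, one_mul]
  rw [hform, norm_div]
  have hN3 : 0 ≤ (N : ℝ) ^ 3 := by positivity
  have hnum : ‖zetaE s * tripL χ₁ χ₂ s - tripL χ₁ χ₂ 1‖ ≤ (N : ℝ) ^ 3 * (CE * T + T) := by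
    refine (norm_sub_le _ _).trans ?_
    rw [norm_mul]
    have h5 : ‖zetaE s‖ * ‖tripL χ₁ χ₂ s‖ ≤ CE * ((N : ℝ) ^ 3 * T) :=
      mul_le_mul (hCE s (mem_sphere_iff_norm.mpr hs)) hts (norm_nonneg _) hCE0
    nlinarith
  have hnum0 : 0 ≤ (N : ℝ) ^ 3 * (CE * T + T) := by positivity
  calc ‖zetaE s * tripL χ₁ χ₂ s - tripL χ₁ χ₂ 1‖ / ‖s - 1‖
      ≤ ((N : ℝ) ^ 3 * (CE * T + T)) / (1 / 2) :=
        div_le_div₀ hnum0 hnum (by norm_num) hs1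
    _ = 2 * (CE * T + T) * (N : ℝ) ^ 3 := by ring
    _ ≤ max 1 (2 * (CE * T + T)) * (N : ℝ) ^ 3 :=
        mul_le_mul_of_nonneg_right (le_max_right _ _) hN3

/-- the Taylor coefficients (with signs) of the Dirichlet series -/
noncomputable def bcoef (χ₁ χ₂ : DirichletCharacter ℂ N) (m : ℕ) : ℝ :=
  ((-1) ^ m * iteratedDeriv m (LSeries (fourFold χ₁ χ₂ ·)) 2 / (m.factorial : ℂ)).re

theorem abscissa_fourFold (χ₁ χ₂ : DirichletCharacter ℂ N) :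
    LSeries.abscissaOfAbsConv (fourFold χ₁ χ₂ ·) < ((2 : ℝ) : EReal) := by
  refine lt_of_le_of_lt (b := ((1 : ℝ) : EReal)) ?_ (by exact_mod_cast one_lt_two)
  exact LSeries.abscissaOfAbsConv_le_of_forall_lt_LSeriesSummable
      fun _ a ↦ summable_fourFold χ₁ χ₂ (by simpa using a)

theorem fourFold_alternating {χ₁ χ₂ : DirichletCharacter ℂ N} (h1 : χ₁ ^ 2 = 1)
    (h2 : χ₂ ^ 2 = 1) (m : ℕ) :
    0 ≤ (-1) ^ m * iteratedDeriv m (LSeries (fourFold χ₁ χ₂ ·)) 2 := by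
  have := ArithmeticFunction.iteratedDeriv_LSeries_alternating (fourFold χ₁ χ₂)
    (fourFold_nonneg h1 h2) (x := 2) (abscissa_fourFold χ₁ χ₂) m
  simpa using this

theorem bcoef_nonneg {χ₁ χ₂ : DirichletCharacter ℂ N} (h1 : χ₁ ^ 2 = 1)
    (h2 : χ₂ ^ 2 = 1) (m : ℕ) : 0 ≤ bcoef χ₁ χ₂ m := by
  unfold bcoef
  have h := fourFold_alternating h1 h2 m
  have hf : (0 : ℂ) < (m.factorial : ℂ) := by exact_mod_cast m.factorial_pos
  have h3 := div_nonneg h hf.le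
  exact (Complex.nonneg_iff.mp h3).1

theorem bcoef_zero_ge {χ₁ χ₂ : DirichletCharacter ℂ N} (h1 : χ₁ ^ 2 = 1)
    (h2 : χ₂ ^ 2 = 1) : 1 ≤ bcoef χ₁ χ₂ 0 := by
  unfold bcoef
  simp only [pow_zero, one_mul, iteratedDeriv_zero, Nat.factorial_zero, Nat.cast_one, div_one]
  have hsum : LSeriesSummable (fourFold χ₁ χ₂ ·) 2 := summable_fourFold χ₁ χ₂ (by simp)
  have hnn : ∀ n, 0 ≤ LSeries.term (fourFold χ₁ χ₂ ·) 2 n := by
    intro n
    have := LSeries.term_nonneg (a := (fourFold χ₁ χ₂ ·)) (n := n) (fourFold_nonneg h1 h2 n) 2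
    simpa using this
  have hle : LSeries.term (fourFold χ₁ χ₂ ·) 2 1 ≤ LSeries (fourFold χ₁ χ₂ ·) 2 := by
    unfold LSeries
    exact hsum.le_tsum 1 (fun j _ => hnn j)
  have hterm : LSeries.term (fourFold χ₁ χ₂ ·) 2 1 = 1 := by
    rw [LSeries.term_of_ne_zero one_ne_zero, (fourFold_mult χ₁ χ₂).map_one]
    simp
  rw [hterm] at hle
  have := (Complex.le_def.mp hle).1
  simpa using this

theorem Hfun_iteratedDeriv (χ₁ χ₂ : DirichletCharacter ℂ N) (m : ℕ) :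
    iteratedDeriv m (Hfun χ₁ χ₂) 2 = iteratedDeriv m (LSeries (fourFold χ₁ χ₂ ·)) 2
      - tripL χ₁ χ₂ 1 * ((-1) ^ m * (m.factorial : ℂ)) := by
  have hev : Hfun χ₁ χ₂ =ᶠ[nhds 2]
      fun s => LSeries (fourFold χ₁ χ₂ ·) s - tripL χ₁ χ₂ 1 * (s - 1)⁻¹ := by
    have : {s : ℂ | 1 < s.re} ∈ nhds (2 : ℂ) :=
      (isOpen_lt continuous_const Complex.continuous_re).mem_nhds (by simp)
    filter_upwards [this] with s hs
    have hs' : 1 < s.re := hs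
    have hne : s ≠ 1 := by rintro rfl; simp at hs'
    rw [Hfun_of_ne χ₁ χ₂ hne, LSeries_fourFold χ₁ χ₂ hs']
    rfl
  rw [hev.iteratedDeriv_eq]
  have hana : AnalyticAt ℂ (LSeries (fourFold χ₁ χ₂ ·)) 2 := by
    have := LSeries_analyticOnNhd (fourFold χ₁ χ₂ ·)
    apply this
    simpa using abscissa_fourFold χ₁ χ₂
  have hinv : ContDiffAt ℂ m (fun s : ℂ => (s - 1)⁻¹) 2 := by
    apply ContDiffAt.inv
    · fun_prop
    · norm_num
  rw [iteratedDeriv_fun_sub hana.contDiffAt (contDiffAt_const.mul hinv)]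
  congr 1
  rw [iteratedDeriv_const_mul_field]
  congr 1
  have h3 := iter_deriv_inv_linear_sub (𝕜 := ℂ) m 1 1
  have h4 : (fun x : ℂ => (1 * x - 1)⁻¹) = fun s : ℂ => (s - 1)⁻¹ := by
    funext x; rw [one_mul]
  rw [h4] at h3
  rw [iteratedDeriv_eq_iterate, h3]
  norm_num

theorem tripL_one_im {χ₁ χ₂ : DirichletCharacter ℂ N} (h1 : χ₁ ≠ 1) (h2 : χ₂ ≠ 1)
    (h12 : χ₁ * χ₂ ≠ 1) (q1 : χ₁ ^ 2 = 1) (q2 : χ₂ ^ 2 = 1) {x : ℝ} (hx : 0 < x) :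
    (tripL χ₁ χ₂ (x : ℂ)).im = 0 := by
  have q12 : (χ₁ * χ₂) ^ 2 = 1 := by rw [mul_pow, q1, q2, one_mul]
  have a1 := LFunction_im_eq_zero h1 q1 hx
  have a2 := LFunction_im_eq_zero h2 q2 hx
  have a3 := LFunction_im_eq_zero h12 q12 hx
  unfold tripL
  simp [Complex.mul_im, Complex.mul_re, a1, a2, a3]

/-- Taylor expansion of the regularised product along the real axis. -/
theorem hasSum_HfunC {χ₁ χ₂ : DirichletCharacter ℂ N} (h1 : χ₁ ≠ 1) (h2 : χ₂ ≠ 1)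
    (h12 : χ₁ * χ₂ ≠ 1) (q1 : χ₁ ^ 2 = 1) (q2 : χ₂ ^ 2 = 1) {β : ℝ} (hβ : 1 / 2 < β) (hβ1 : β < 1) :
    HasSum (fun m : ℕ => (((2 - β) ^ m * (bcoef χ₁ χ₂ m - (tripL χ₁ χ₂ 1).re) : ℝ) : ℂ))
      (Hfun χ₁ χ₂ (β : ℂ)) := by
  have hb : (β : ℂ) ∈ Metric.ball (2 : ℂ) (3 / 2) := by
    rw [mem_ball_iff_norm]
    have : (β : ℂ) - 2 = ((β - 2 : ℝ) : ℂ) := by push_cast; rfl
    rw [this, Complex.norm_real, Real.norm_eq_abs, abs_lt]
    constructor <;> linarith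
  have hs := Complex.hasSum_taylorSeries_on_ball (f := Hfun χ₁ χ₂) (c := 2) (r := 3 / 2)
    (Hfun_differentiable h1 h2 h12).differentiableOn hb
  suffices hfun : (fun m : ℕ => (((2 - β) ^ m * (bcoef χ₁ χ₂ m - (tripL χ₁ χ₂ 1).re) : ℝ) : ℂ))
      = (fun n : ℕ => ((n.factorial : ℂ)⁻¹ • ((β : ℂ) - 2) ^ n • iteratedDeriv n (Hfun χ₁ χ₂) 2)) by
    rw [hfun]; exact hs
  funext m
  rw [Hfun_iteratedDeriv]
  have him : (tripL χ₁ χ₂ 1).im = 0 := by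
    have := tripL_one_im h1 h2 h12 q1 q2 (x := 1) one_pos
    simpa using this
  have hfac : (m.factorial : ℂ) ≠ 0 := by exact_mod_cast m.factorial_ne_zero
  have hsign : ((-1 : ℂ) ^ m) * ((-1 : ℂ) ^ m) = 1 := by
    rw [← mul_pow]; norm_num
  have hpow : ((β : ℂ) - 2) ^ m = (-1) ^ m * (((2 - β) ^ m : ℝ) : ℂ) := by
    push_cast
    rw [← mul_pow]
    congr 1
    ring
  have key : (m.factorial : ℂ)⁻¹ • ((β : ℂ) - 2) ^ m •
      (iteratedDeriv m (LSeries (fourFold χ₁ χ₂ ·)) 2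
      - tripL χ₁ χ₂ 1 * ((-1) ^ m * (m.factorial : ℂ)))
      = (((2 - β) ^ m : ℝ) : ℂ) *
        ((-1) ^ m * iteratedDeriv m (LSeries (fourFold χ₁ χ₂ ·)) 2 / (m.factorial : ℂ)
          - tripL χ₁ χ₂ 1) := by
    rw [smul_eq_mul, smul_eq_mul, hpow]
    field_simp
    linear_combination (-(((2 - β) ^ m : ℝ) : ℂ) * tripL χ₁ χ₂ 1 * (m.factorial : ℂ)) * hsign
  rw [key]
  have hb2 : (-1) ^ m * iteratedDeriv m (LSeries (fourFold χ₁ χ₂ ·)) 2 / (m.factorial : ℂ)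
      = ((bcoef χ₁ χ₂ m : ℝ) : ℂ) := by
    have h := fourFold_alternating q1 q2 m
    have hf : (0 : ℂ) < (m.factorial : ℂ) := by exact_mod_cast m.factorial_pos
    have h3 := div_nonneg h hf.le
    apply Complex.ext
    · rfl
    · rw [Complex.ofReal_im]
      exact (Complex.nonneg_iff.mp h3).2.symm
  have ht2 : tripL χ₁ χ₂ 1 = (((tripL χ₁ χ₂ 1).re : ℝ) : ℂ) := by
    apply Complex.ext
    · rfl
    · rw [Complex.ofReal_im]; exact him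
  rw [hb2]
  conv_rhs => rw [ht2]
  push_cast
  ring

theorem hasSum_Hfun {χ₁ χ₂ : DirichletCharacter ℂ N} (h1 : χ₁ ≠ 1) (h2 : χ₂ ≠ 1)
    (h12 : χ₁ * χ₂ ≠ 1) (q1 : χ₁ ^ 2 = 1) (q2 : χ₂ ^ 2 = 1) {β : ℝ} (hβ : 1 / 2 < β) (hβ1 : β < 1) :
    HasSum (fun m : ℕ => (2 - β) ^ m * (bcoef χ₁ χ₂ m - (tripL χ₁ χ₂ 1).re))
      (Hfun χ₁ χ₂ (β : ℂ)).re := by
  have h := Complex.hasSum_re (hasSum_HfunC h1 h2 h12 q1 q2 hβ hβ1)
  simpa only [Complex.ofReal_re] using h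

theorem Hfun_im {χ₁ χ₂ : DirichletCharacter ℂ N} (h1 : χ₁ ≠ 1) (h2 : χ₂ ≠ 1)
    (h12 : χ₁ * χ₂ ≠ 1) (q1 : χ₁ ^ 2 = 1) (q2 : χ₂ ^ 2 = 1) {β : ℝ} (hβ : 1 / 2 < β) (hβ1 : β < 1) :
    (Hfun χ₁ χ₂ (β : ℂ)).im = 0 := by
  have h := Complex.hasSum_im (hasSum_HfunC h1 h2 h12 q1 q2 hβ hβ1)
  simp only [Complex.ofReal_im] at h
  exact h.unique hasSum_zero

theorem abs_bcoef_sub_le {K : ℝ} {χ₁ χ₂ : DirichletCharacter ℂ N} (h1 : χ₁ ≠ 1) (h2 : χ₂ ≠ 1)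
    (h12 : χ₁ * χ₂ ≠ 1)
    (hK : ∀ s ∈ Metric.sphere (2 : ℂ) (3 / 2), ‖Hfun χ₁ χ₂ s‖ ≤ K * (N : ℝ) ^ 3) (m : ℕ) :
    |bcoef χ₁ χ₂ m - (tripL χ₁ χ₂ 1).re| ≤ K * (N : ℝ) ^ 3 * (2 / 3) ^ m := by
  have hc := Complex.norm_iteratedDeriv_le_of_forall_mem_sphere_norm_le (c := (2 : ℂ)) (R := 3 / 2)
    m (by norm_num) (Hfun_differentiable h1 h2 h12).diffContOnCl hK
  have hfac : (m.factorial : ℂ) ≠ 0 := by exact_mod_cast m.factorial_ne_zero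
  have hfac' : (0 : ℝ) < m.factorial := by exact_mod_cast m.factorial_pos
  have hsign : ((-1 : ℂ) ^ m) * ((-1 : ℂ) ^ m) = 1 := by
    rw [← mul_pow]; norm_num
  have hEq : bcoef χ₁ χ₂ m - (tripL χ₁ χ₂ 1).re
      = ((-1) ^ m * iteratedDeriv m (Hfun χ₁ χ₂) 2 / (m.factorial : ℂ)).re := by
    unfold bcoef
    rw [← Complex.sub_re, Hfun_iteratedDeriv]
    congr 1
    field_simp
    linear_combination (tripL χ₁ χ₂ 1 * (m.factorial : ℂ)) * hsign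
  rw [hEq]
  refine (Complex.abs_re_le_norm _).trans ?_
  rw [norm_div, norm_mul, norm_pow, norm_neg, norm_one, one_pow, one_mul, Complex.norm_natCast]
  rw [div_le_iff₀ hfac']
  refine hc.trans (le_of_eq ?_)
  have : (2 / 3 : ℝ) ^ m = 1 / (3 / 2) ^ m := by
    rw [one_div, ← inv_pow]; norm_num
  rw [this]
  ring

theorem estermann_aux {K : ℝ} {χ₁ χ₂ : DirichletCharacter ℂ N} (h1 : χ₁ ≠ 1) (h2 : χ₂ ≠ 1)
    (h12 : χ₁ * χ₂ ≠ 1) (q1 : χ₁ ^ 2 = 1) (q2 : χ₂ ^ 2 = 1) (hK0 : 0 ≤ K)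
    (hK : ∀ s ∈ Metric.sphere (2 : ℂ) (3 / 2), ‖Hfun χ₁ χ₂ s‖ ≤ K * (N : ℝ) ^ 3)
    {β : ℝ} (hβ : 7 / 8 ≤ β) (hβ1 : β < 1) (M : ℕ) (hM : 1 ≤ M) :
    1 - (tripL χ₁ χ₂ 1).re * (((2 - β) ^ M - 1) / (1 - β)) - 4 * K * (N : ℝ) ^ 3 * (3 / 4) ^ M
      ≤ (Hfun χ₁ χ₂ (β : ℂ)).re := by
  set lam := (tripL χ₁ χ₂ 1).re with hlam
  set C : ℝ := K * (N : ℝ) ^ 3 with hC
  have hC0 : 0 ≤ C := by positivity
  have hs := hasSum_Hfun h1 h2 h12 q1 q2 (β := β) (by linarith) hβ1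
  have hsum := hs.summable
  rw [← hs.tsum_eq, ← hsum.sum_add_tsum_nat_add M]
  have htail : -(4 * K * (N : ℝ) ^ 3 * (3 / 4) ^ M)
      ≤ ∑' m : ℕ, (2 - β) ^ (m + M) * (bcoef χ₁ χ₂ (m + M) - lam) := by
    have hg : HasSum (fun m : ℕ => C * (3 / 4 : ℝ) ^ (m + M)) (4 * C * (3 / 4) ^ M) := by
      have h3 := (hasSum_geometric_of_lt_one (r := (3 / 4 : ℝ)) (by norm_num) (by norm_num)).mul_left
        (C * (3 / 4) ^ M)
      have e1 : (fun m : ℕ => C * (3 / 4 : ℝ) ^ (m + M)) = fun m => C * (3 / 4) ^ M * (3 / 4) ^ m := by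
        funext m; rw [pow_add]; ring
      have e2 : 4 * C * (3 / 4 : ℝ) ^ M = C * (3 / 4) ^ M * (1 - 3 / 4)⁻¹ := by norm_num; ring
      rw [e1, e2]; exact h3
    have h4 : ‖∑' m : ℕ, (2 - β) ^ (m + M) * (bcoef χ₁ χ₂ (m + M) - lam)‖ ≤ 4 * C * (3 / 4) ^ M := by
      refine tsum_of_norm_bounded hg ?_
      intro m
      rw [Real.norm_eq_abs, abs_mul, abs_of_nonneg (by
        have : (0 : ℝ) ≤ 2 - β := by linarith
        positivity)]
      have h5 := abs_bcoef_sub_le h1 h2 h12 hK (m + M)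
      have h6 : (2 - β) ^ (m + M) ≤ (9 / 8 : ℝ) ^ (m + M) :=
        pow_le_pow_left₀ (by linarith) (by linarith) _
      calc (2 - β) ^ (m + M) * |bcoef χ₁ χ₂ (m + M) - lam|
          ≤ (9 / 8 : ℝ) ^ (m + M) * (C * (2 / 3) ^ (m + M)) :=
            mul_le_mul h6 h5 (abs_nonneg _) (by positivity)
        _ = C * ((9 / 8 : ℝ) * (2 / 3)) ^ (m + M) := by rw [mul_pow]; ring
        _ = C * (3 / 4 : ℝ) ^ (m + M) := by norm_num
    rw [Real.norm_eq_abs] at h4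
    have := (abs_le.mp h4).1
    have h7 : 4 * K * (N : ℝ) ^ 3 * (3 / 4) ^ M = 4 * C * (3 / 4) ^ M := by rw [hC]; ring
    rw [h7]
    exact this
  have hhead : 1 - lam * (((2 - β) ^ M - 1) / (1 - β))
      ≤ ∑ m ∈ Finset.range M, (2 - β) ^ m * (bcoef χ₁ χ₂ m - lam) := by
    have hgeo : ∑ m ∈ Finset.range M, (2 - β) ^ m = ((2 - β) ^ M - 1) / (1 - β) := by
      rw [geom_sum_eq (by linarith)]
      congr 1
      ring
    have h8 : ∑ m ∈ Finset.range M, (2 - β) ^ m * (bcoef χ₁ χ₂ m - lam)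
        = ∑ m ∈ Finset.range M, (2 - β) ^ m * bcoef χ₁ χ₂ m
          - lam * ∑ m ∈ Finset.range M, (2 - β) ^ m := by
      rw [Finset.mul_sum, ← Finset.sum_sub_distrib]
      apply Finset.sum_congr rfl
      intro m _; ring
    rw [h8, hgeo]
    have h9 : 1 ≤ ∑ m ∈ Finset.range M, (2 - β) ^ m * bcoef χ₁ χ₂ m := by
      have h10 : (2 - β) ^ 0 * bcoef χ₁ χ₂ 0
          ≤ ∑ m ∈ Finset.range M, (2 - β) ^ m * bcoef χ₁ χ₂ m := by
        apply Finset.single_le_sum (f := fun m => (2 - β) ^ m * bcoef χ₁ χ₂ m)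
        · intro m _
          apply mul_nonneg _ (bcoef_nonneg q1 q2 m)
          have : (0 : ℝ) ≤ 2 - β := by linarith
          positivity
        · exact Finset.mem_range.mpr (by omega)
      have h11 := bcoef_zero_ge q1 q2
      rw [pow_zero, one_mul] at h10
      linarith
    linarith
  linarith

theorem estermann : ∃ c : ℝ, 0 < c ∧ ∀ (N : ℕ) [NeZero N]
    (χ₁ χ₂ : DirichletCharacter ℂ N), χ₁ ≠ 1 → χ₂ ≠ 1 → χ₁ * χ₂ ≠ 1 →
    χ₁ ^ 2 = 1 → χ₂ ^ 2 = 1 → ∀ β : ℝ, 7 / 8 ≤ β → β < 1 →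
    (riemannZeta (β : ℂ) * tripL χ₁ χ₂ (β : ℂ)).re ≤ 0 →
    c * (1 - β) * (N : ℝ) ^ (-(12 * (1 - β))) ≤ (tripL χ₁ χ₂ 1).re := by
  obtain ⟨K, hK1, hK⟩ := exists_Hfun_bound
  set E : ℝ := Real.exp (4 * Real.log (8 * K) + 2) with hE
  have hE0 : 0 < E := Real.exp_pos _
  refine ⟨1 / (2 * E), by positivity, ?_⟩
  intro N _ χ₁ χ₂ h1 h2 h12 q1 q2 β hβ hβ1 hneg
  have hN1 : (1 : ℝ) ≤ N := by
    have := Nat.pos_of_ne_zero (NeZero.ne N)
    exact_mod_cast this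
  set lam := (tripL χ₁ χ₂ 1).re with hlam
  set X : ℝ := 8 * K * (N : ℝ) ^ 3 with hX
  have hX1 : 1 ≤ X := by
    have : (1 : ℝ) ≤ (N : ℝ) ^ 3 := one_le_pow₀ hN1
    nlinarith
  have hlogX : Real.log X = Real.log (8 * K) + 3 * Real.log N := by
    rw [hX, Real.log_mul (by positivity) (by positivity), Real.log_pow]
    push_cast; ring
  have hlogX0 : 0 ≤ Real.log X := Real.log_nonneg hX1
  set M : ℕ := ⌈4 * Real.log X⌉₊ + 1 with hM
  have hM1 : 4 * Real.log X ≤ M := by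
    rw [hM]; push_cast
    linarith [Nat.le_ceil (4 * Real.log X)]
  have hM2 : (M : ℝ) ≤ 4 * Real.log X + 2 := by
    rw [hM]; push_cast
    linarith [Nat.ceil_lt_add_one (a := 4 * Real.log X) (by linarith)]
  have hmain := estermann_aux h1 h2 h12 q1 q2 (by linarith) (hK N χ₁ χ₂ h1 h2 h12) hβ hβ1 M
    (by omega)
  have hpow34 : (3 / 4 : ℝ) ^ M ≤ 1 / X := by
    have h3 : (3 / 4 : ℝ) ≤ Real.exp (-(1 / 4)) := by
      have := Real.add_one_le_exp (-(1 / 4) : ℝ)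
      linarith
    calc (3 / 4 : ℝ) ^ M ≤ (Real.exp (-(1 / 4))) ^ M := pow_le_pow_left₀ (by norm_num) h3 M
      _ = Real.exp (-(M / 4)) := by
          rw [← Real.exp_nat_mul]; congr 1; ring
      _ ≤ Real.exp (-Real.log X) := Real.exp_le_exp.mpr (by linarith)
      _ = 1 / X := by rw [Real.exp_neg, Real.exp_log (by linarith), one_div]
  have hsmall : 4 * K * (N : ℝ) ^ 3 * (3 / 4) ^ M ≤ 1 / 2 := by
    have h4 : 4 * K * (N : ℝ) ^ 3 = X / 2 := by rw [hX]; ring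
    rw [h4]
    calc X / 2 * (3 / 4) ^ M ≤ X / 2 * (1 / X) :=
          mul_le_mul_of_nonneg_left hpow34 (by linarith)
      _ = 1 / 2 := by field_simp
  have hform : (riemannZeta (β : ℂ) * tripL χ₁ χ₂ (β : ℂ)).re
      = (Hfun χ₁ χ₂ (β : ℂ)).re - lam / (1 - β) := by
    have hne : (β : ℂ) ≠ 1 := by
      intro h
      have : β = 1 := by exact_mod_cast h
      linarith
    rw [Hfun_of_ne χ₁ χ₂ hne, Complex.sub_re]
    have h5 : ((β : ℂ) - 1)⁻¹ = (((β - 1)⁻¹ : ℝ) : ℂ) := by push_cast; rfl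
    rw [h5, mul_comm (tripL χ₁ χ₂ 1), Complex.re_ofReal_mul, ← hlam]
    have h6 : (β - 1)⁻¹ = -(1 / (1 - β)) := by
      rw [one_div, ← neg_sub β 1, inv_neg, neg_neg]
    rw [h6]
    ring
  rw [hform] at hneg
  have hb0 : 0 < 1 - β := by linarith
  have hkey : 1 / 2 ≤ lam * ((2 - β) ^ M / (1 - β)) := by
    have h7 : lam * ((2 - β) ^ M / (1 - β)) = lam * (((2 - β) ^ M - 1) / (1 - β)) + lam / (1 - β) := by
      field_simp
      ring
    rw [h7]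
    linarith
  have hlam0 : 0 < lam := by
    have h8 : 0 < (2 - β) ^ M / (1 - β) := by
      have : (0 : ℝ) < 2 - β := by linarith
      positivity
    by_contra hcon
    push Not at hcon
    have := mul_nonpos_of_nonpos_of_nonneg hcon h8.le
    linarith
  have hpowM : (2 - β) ^ M ≤ E * (N : ℝ) ^ (12 * (1 - β)) := by
    have h9 : (2 - β) ≤ Real.exp (1 - β) := by
      have := Real.add_one_le_exp (1 - β)
      linarith
    calc (2 - β) ^ M ≤ (Real.exp (1 - β)) ^ M := pow_le_pow_left₀ (by linarith) h9 M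
      _ = Real.exp (M * (1 - β)) := by rw [← Real.exp_nat_mul]
      _ ≤ Real.exp ((4 * Real.log (8 * K) + 2) + Real.log N * (12 * (1 - β))) := by
          apply Real.exp_le_exp.mpr
          have h10 : (M : ℝ) * (1 - β) ≤ (4 * Real.log X + 2) * (1 - β) :=
            mul_le_mul_of_nonneg_right hM2 hb0.le
          rw [hlogX] at h10
          have h11 : 0 ≤ Real.log (8 * K) := Real.log_nonneg (by linarith)
          nlinarith
      _ = E * (N : ℝ) ^ (12 * (1 - β)) := by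
          rw [Real.exp_add, ← hE, Real.rpow_def_of_pos (by linarith)]
  have h12' : (0 : ℝ) < (N : ℝ) ^ (12 * (1 - β)) := by positivity
  rw [Real.rpow_neg (by linarith)]
  have h13 : 1 / 2 ≤ lam * ((E * (N : ℝ) ^ (12 * (1 - β))) / (1 - β)) := by
    refine hkey.trans ?_
    apply mul_le_mul_of_nonneg_left _ hlam0.le
    exact div_le_div_of_nonneg_right hpowM hb0.le
  have h14 : lam * ((E * (N : ℝ) ^ (12 * (1 - β))) / (1 - β)) * ((1 - β) / (E * (N : ℝ) ^ (12 * (1 - β)))) = lam := by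
    field_simp
  have h15 : 0 < (1 - β) / (E * (N : ℝ) ^ (12 * (1 - β))) := by positivity
  calc 1 / (2 * E) * (1 - β) * ((N : ℝ) ^ (12 * (1 - β)))⁻¹
      = 1 / 2 * ((1 - β) / (E * (N : ℝ) ^ (12 * (1 - β)))) := by
        field_simp
    _ ≤ lam * ((E * (N : ℝ) ^ (12 * (1 - β))) / (1 - β)) * ((1 - β) / (E * (N : ℝ) ^ (12 * (1 - β)))) :=
        mul_le_mul_of_nonneg_right h13 h15.le
    _ = lam := h14

end Pool.Agent.KeZhao
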