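import Pool.Agent.Lib.KeZhao.Forms
import Pool.Agent.Lib.KeZhao.Divisor

/-! The number of close pairs of forms is at most `n^{1/2+ε}`. -/

namespace Pool.Agent.KeZhao

open Finset

/-- content of a vector -/
def content (v : ℤ × ℤ × ℤ) : ℕ := Int.gcd (Int.gcd v.1 v.2.1 : ℤ) v.2.2

/-- primitive part -/
def primPart (v : ℤ × ℤ × ℤ) : ℤ × ℤ × ℤ :=
  (v.1 / content v, v.2.1 / content v, v.2.2 / content v)

theorem content_dvd (v : ℤ × ℤ × ℤ) :
    (content v : ℤ) ∣ v.1 ∧ (content v : ℤ) ∣ v.2.1 ∧ (content v : ℤ) ∣ v.2.2 := by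
  unfold content
  have h1 : ((Int.gcd (Int.gcd v.1 v.2.1 : ℤ) v.2.2 : ℕ) : ℤ) ∣ (Int.gcd v.1 v.2.1 : ℤ) := Int.gcd_dvd_left ..
  exact ⟨h1.trans (Int.gcd_dvd_left ..), h1.trans (Int.gcd_dvd_right ..), Int.gcd_dvd_right ..⟩

theorem dvd_content {d : ℤ} {v : ℤ × ℤ × ℤ} (h1 : d ∣ v.1) (h2 : d ∣ v.2.1) (h3 : d ∣ v.2.2) :
    d ∣ content v := by
  unfold content
  exact Int.dvd_coe_gcd (Int.dvd_coe_gcd h1 h2) h3

theorem primPart_mul (v : ℤ × ℤ × ℤ) :
    v.1 = content v * (primPart v).1 ∧ v.2.1 = content v * (primPart v).2.1 ∧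
      v.2.2 = content v * (primPart v).2.2 := by
  obtain ⟨h1, h2, h3⟩ := content_dvd v
  unfold primPart
  exact ⟨(Int.mul_ediv_cancel' h1).symm, (Int.mul_ediv_cancel' h2).symm, (Int.mul_ediv_cancel' h3).symm⟩

theorem primPart_box {n : ℕ} {δ : ℤ} {v : ℤ × ℤ × ℤ} (h : Box n δ v) :
    Box n δ (primPart v) ∧ Prim (primPart v) := by
  obtain ⟨e1, e2, e3⟩ := primPart_mul v
  obtain ⟨hs, hk, hks, hq, hy1, hy2⟩ := h
  set c := content v with hc
  set p := primPart v with hp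
  have hc0 : (0 : ℤ) < c := by
    rcases Nat.eq_zero_or_pos c with h0 | h0
    · rw [h0] at e3; simp at e3; omega
    · exact_mod_cast h0
  have hc1 : (1 : ℤ) ≤ c := hc0
  have hcr : (0 : ℝ) < (c : ℕ) := by exact_mod_cast hc0
  have hpk : 0 < p.2.2 := by
    rw [e3] at hk
    exact (mul_pos_iff_of_pos_left hc0).mp hk
  have hyeq : yOf n p = yOf n v := by
    unfold yOf
    rw [e1, e2, e3]
    push_cast
    have : (p.2.2 : ℝ) ≠ 0 := by exact_mod_cast hpk.ne'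
    field_simp
  refine ⟨⟨?_, hpk, ?_, ?_, ?_, ?_⟩, ?_⟩
  · unfold Sol at hs ⊢
    rw [e1, e2, e3] at hs
    have : (c : ℤ) ^ 2 * p.1 ^ 2 = (c : ℤ) ^ 2 * ((4 * n - δ) * p.2.1 ^ 2 + δ * p.2.2 ^ 2) := by
      linarith [hs, show ((c : ℤ) * p.1) ^ 2 = (c : ℤ) ^ 2 * p.1 ^ 2 by ring,
        show (4 * (n : ℤ) - δ) * ((c : ℤ) * p.2.1) ^ 2 + δ * ((c : ℤ) * p.2.2) ^ 2
          = (c : ℤ) ^ 2 * ((4 * n - δ) * p.2.1 ^ 2 + δ * p.2.2 ^ 2) by ring]
    exact mul_left_cancel₀ (pow_ne_zero 2 hc0.ne') this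
  · have h1 : p.2.2 ≤ v.2.2 := by rw [e3]; nlinarith
    have h2 : (p.2.2 : ℝ) ≤ v.2.2 := by exact_mod_cast h1
    linarith
  · rw [e2, e3, abs_mul, abs_of_pos hc0] at hq
    exact lt_of_mul_lt_mul_left hq hc0.le
  · rw [hyeq]; exact hy1
  · rw [hyeq]; exact hy2
  · intro d d1 d2 d3
    have h1 : (c : ℤ) * d ∣ v.1 := by rw [e1]; exact mul_dvd_mul_left _ d1
    have h2 : (c : ℤ) * d ∣ v.2.1 := by rw [e2]; exact mul_dvd_mul_left _ d2
    have h3 : (c : ℤ) * d ∣ v.2.2 := by rw [e3]; exact mul_dvd_mul_left _ d3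
    have h4 : (c : ℤ) * d ∣ c := dvd_content h1 h2 h3
    have h5 : (c : ℤ) * d ∣ (c : ℤ) * 1 := by rw [mul_one]; exact h4
    exact isUnit_of_dvd_one (dvd_of_mul_dvd_mul_left_of_ne h5 hc0.ne')
where
  dvd_of_mul_dvd_mul_left_of_ne {a b c : ℤ} (h : a * b ∣ a * c) (ha : a ≠ 0) : b ∣ c :=
    (mul_dvd_mul_iff_left ha).mp h

/-- all pairs with a fixed value of `dl` -/
theorem fixed_delta {n : ℕ} (hn : ¬ IsSquare n) (hsq : NoSmallSq n) (W : ℝ)
    (hW : ∀ m : ℕ, 0 < m → m ≤ 5 * n ^ 2 → (m.divisors.card : ℝ) ≤ W)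
    (δ : ℤ) (O : Finset ((ℤ × ℤ) × (ℤ × ℤ))) (hO : ∀ P ∈ O, P ∈ ClosePairs n ∧ dl n P = δ) :
    (O.card : ℝ) ≤ 12 * W ^ 6 * (Real.log n + 1) * (Int.gcd (4 * n - δ) δ : ℝ) := by
  classical
  have hn0 : 0 < n := by
    rcases Nat.eq_zero_or_pos n with h | h
    · exfalso; apply hn; rw [h]; exact ⟨0, rfl⟩
    · exact h
  have hn1 : (1 : ℝ) ≤ n := by exact_mod_cast hn0
  have hW1 : 1 ≤ W := by
    have := hW 1 one_pos (by nlinarith)
    simpa using this
  have hlog : 0 ≤ Real.log n := Real.log_nonneg hn1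
  rcases O.eq_empty_or_nonempty with hOe | ⟨P₀, hP₀⟩
  · rw [hOe]; simp; positivity
  obtain ⟨hδ0, hδs, -⟩ := closePair_box hn (hO P₀ hP₀).1
  rw [(hO P₀ hP₀).2] at hδ0 hδs
  set s := Real.sqrt n with hs
  have hs2 : s ^ 2 = n := Real.sq_sqrt (Nat.cast_nonneg n)
  have hs1 : 1 ≤ s := by rw [hs]; exact Real.one_le_sqrt.mpr hn1
  have hδn : |(δ : ℝ)| ≤ n := by nlinarith
  have hδnz : |δ| ≤ n := by exact_mod_cast hδn
  have hA : (4 * (n : ℤ) - δ) ≠ 0 := by
    intro h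
    have h2 := le_abs_self δ
    omega
  -- sizes
  have habsA : (4 * (n : ℤ) - δ).natAbs ≤ 5 * n := by
    have h3 := abs_le.mp hδnz
    omega
  have habsB : δ.natAbs ≤ n := by
    have h3 := abs_le.mp hδnz
    omega
  have hnn : n ≤ n ^ 2 := by nlinarith
  have hdB : (δ.natAbs.divisors.card : ℝ) ≤ W :=
    hW _ (Int.natAbs_pos.mpr hδ0) (by omega)
  have hdA : ((4 * (n : ℤ) - δ).natAbs.divisors.card : ℝ) ≤ W :=
    hW _ (Int.natAbs_pos.mpr hA) (by omega)
  have hdAB : (((4 * (n : ℤ) - δ) * δ).natAbs.divisors.card : ℝ) ≤ W := by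
    apply hW _ (Int.natAbs_pos.mpr (mul_ne_zero hA hδ0))
    rw [Int.natAbs_mul]
    calc _ ≤ 5 * n * n := Nat.mul_le_mul habsA habsB
      _ = 5 * n ^ 2 := by ring
  -- the vectors
  set T := O.image vec with hT
  have hOT : (O.card : ℝ) ≤ W * T.card := by
    have hfib : ∀ t ∈ T, ((O.filter (fun P => vec P = t)).card : ℝ) ≤ W := by
      intro t ht
      obtain ⟨P1, hP1, hP1t⟩ := mem_image.mp ht
      set k := t.2.2 - t.2.1 with hk
      have hk1 : P1.1.2 = k := by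
        obtain ⟨hf1, hf2⟩ := (mem_closePairs.mp (hO P1 hP1).1).1
        obtain ⟨v1, -⟩ := vec_facts hn hf1 hf2
        rw [v1, hP1t]
      have hcard : ((O.filter (fun P => vec P = t)).image Prod.fst).card ≤ k.natAbs.divisors.card := by
        apply roots_count hn hsq
        intro p hp
        obtain ⟨P, hP, rfl⟩ := mem_image.mp hp
        rw [mem_filter] at hP
        obtain ⟨hf1, hf2⟩ := (mem_closePairs.mp (hO P hP.1).1).1
        refine ⟨hf1, ?_⟩
        obtain ⟨v1, -⟩ := vec_facts hn hf1 hf2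
        rw [v1, hP.2]
      have hinj : ((O.filter (fun P => vec P = t)).image Prod.fst).card = (O.filter (fun P => vec P = t)).card := by
        apply card_image_of_injOn
        intro P hP P' hP' hPP
        rw [mem_coe, mem_filter] at hP hP'
        obtain ⟨hf1, hf2⟩ := (mem_closePairs.mp (hO P hP.1).1).1
        obtain ⟨hf1', hf2'⟩ := (mem_closePairs.mp (hO P' hP'.1).1).1
        obtain ⟨v1, v2, -⟩ := vec_facts hn hf1 hf2
        obtain ⟨v1', v2', -⟩ := vec_facts hn hf1' hf2'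
        rw [hP.2] at v1 v2
        rw [hP'.2] at v1' v2'
        have hk2 : P.2.2 = P'.2.2 := by rw [v2, v2']
        have hfst : (vec P).1 = (vec P').1 := by rw [hP.2, hP'.2]
        unfold vec at hfst
        simp only at hfst
        rw [hPP, hk2] at hfst
        have h1 : P'.1.2 * P.2.1 = P'.1.2 * P'.2.1 := by linarith
        have hk0 : P'.1.2 ≠ 0 := (forms_facts hn hf1').2.1.ne'
        have h2 : P.2.1 = P'.2.1 := mul_left_cancel₀ hk0 h1
        exact Prod.ext hPP (Prod.ext h2 hk2)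
      rw [hinj] at hcard
      have hkpos : 0 < k := by
        rw [← hk1]
        obtain ⟨hf1, hf2⟩ := (mem_closePairs.mp (hO P1 hP1).1).1
        exact (forms_facts hn hf1).2.1
      have hkle : k.natAbs ≤ 5 * n ^ 2 := by
        have : (k : ℝ) < s := by
          rw [← hk1]
          obtain ⟨hf1, hf2⟩ := (mem_closePairs.mp (hO P1 hP1).1).1
          exact (forms_facts hn hf1).2.2.2.2.1
        have h3 : (k : ℝ) ≤ n := by nlinarith
        have h4 : k ≤ n := by exact_mod_cast h3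
        omega
      have h5 := hW k.natAbs (Int.natAbs_pos.mpr hkpos.ne') hkle
      have h6 : ((O.filter (fun P => vec P = t)).card : ℝ) ≤ (k.natAbs.divisors.card : ℝ) := by
        exact_mod_cast hcard
      linarith
    have hsum : (O.card : ℝ) = ∑ t ∈ T, ((O.filter (fun P => vec P = t)).card : ℝ) := by
      rw [card_eq_sum_card_image vec O]
      push_cast
      rfl
    rw [hsum]
    calc _ ≤ ∑ t ∈ T, W := sum_le_sum hfib
      _ = W * T.card := by rw [sum_const, nsmul_eq_mul]; ring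
  -- primitive parts
  set Q := T.image primPart with hQ
  have hTbox : ∀ v ∈ T, Box n δ v ∧ ∀ d : ℤ, d ∣ v.2.1 → d ∣ v.2.2 → d ∣ (4 * n - δ) * δ := by
    intro v hv
    obtain ⟨P, hP, rfl⟩ := mem_image.mp hv
    obtain ⟨hc, hd⟩ := hO P hP
    have h1 := (closePair_box hn hc).2.2
    rw [hd] at h1
    refine ⟨h1, ?_⟩
    obtain ⟨hf1, hf2⟩ := (mem_closePairs.mp hc).1
    obtain ⟨_, _, _, _, v5⟩ := vec_facts hn hf1 hf2
    rw [hd] at v5
    exact v5
  have hTQ : (T.card : ℝ) ≤ W * Q.card := by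
    have hfib : ∀ p ∈ Q, ((T.filter (fun v => primPart v = p)).card : ℝ) ≤ W := by
      intro p hp
      have hcard : (T.filter (fun v => primPart v = p)).card
          ≤ (((4 * (n : ℤ) - δ) * δ).natAbs.divisors).card := by
        apply card_le_card_of_injOn content
        · intro v hv
          rw [mem_coe, mem_filter] at hv
          rw [mem_coe, Nat.mem_divisors]
          refine ⟨?_, Int.natAbs_ne_zero.mpr (mul_ne_zero hA hδ0)⟩
          obtain ⟨c1, c2, c3⟩ := content_dvd v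
          exact Int.natCast_dvd.mp ((hTbox v hv.1).2 _ c2 c3)
        · intro v hv v' hv' hcc
          rw [mem_coe, mem_filter] at hv hv'
          obtain ⟨e1, e2, e3⟩ := primPart_mul v
          obtain ⟨e1', e2', e3'⟩ := primPart_mul v'
          rw [hv.2] at e1 e2 e3
          rw [hv'.2] at e1' e2' e3'
          have hcc' : content v = content v' := hcc
          rw [hcc'] at e1 e2 e3
          exact Prod.ext (by rw [e1, e1']) (Prod.ext (by rw [e2, e2']) (by rw [e3, e3']))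
      have : ((T.filter (fun v => primPart v = p)).card : ℝ)
          ≤ ((((4 * (n : ℤ) - δ) * δ).natAbs.divisors).card : ℝ) := by exact_mod_cast hcard
      linarith
    have hsum : (T.card : ℝ) = ∑ p ∈ Q, ((T.filter (fun v => primPart v = p)).card : ℝ) := by
      rw [card_eq_sum_card_image primPart T]
      push_cast
      rfl
    rw [hsum]
    calc _ ≤ ∑ p ∈ Q, W := sum_le_sum hfib
      _ = W * Q.card := by rw [sum_const, nsmul_eq_mul]; ring
  have hQc := prim_count hn0 hδ0 hδs Q (by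
    intro p hp
    obtain ⟨v, hv, rfl⟩ := mem_image.mp hp
    exact primPart_box (hTbox v hv).1)
  set g : ℝ := (Int.gcd (4 * n - δ) δ : ℝ) with hg
  have hg0 : 0 ≤ g := by positivity
  have hd0 : (0 : ℝ) ≤ δ.natAbs.divisors.card := by positivity
  have hd1 : (0 : ℝ) ≤ (4 * (n : ℤ) - δ).natAbs.divisors.card := by positivity
  have hQc2 : (Q.card : ℝ) ≤ 4 * (W ^ 2 * W ^ 2) * (3 * g * (Real.log n + 1)) := by
    refine hQc.trans ?_
    apply mul_le_mul_of_nonneg_right _ (by positivity)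
    apply mul_le_mul_of_nonneg_left _ (by norm_num)
    apply mul_le_mul (pow_le_pow_left₀ hd0 hdB 2) (pow_le_pow_left₀ hd1 hdA 2) (by positivity) (by positivity)
  calc (O.card : ℝ) ≤ W * T.card := hOT
    _ ≤ W * (W * Q.card) := mul_le_mul_of_nonneg_left hTQ (by linarith)
    _ ≤ W * (W * (4 * (W ^ 2 * W ^ 2) * (3 * g * (Real.log n + 1)))) := by
        apply mul_le_mul_of_nonneg_left _ (by linarith)
        exact mul_le_mul_of_nonneg_left hQc2 (by linarith)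
    _ = _ := by ring

/-- average of gcds -/
theorem sum_gcd_le (m a : ℕ) (hm : 0 < m) :
    ∑ d ∈ Finset.Ioc 0 a, Nat.gcd m d ≤ a * m.divisors.card := by
  have h1 : ∀ d ∈ Finset.Ioc 0 a, Nat.gcd m d ≤ ∑ e ∈ m.divisors, if e ∣ d then e else 0 := by
    intro d _
    have hmem : Nat.gcd m d ∈ m.divisors := Nat.mem_divisors.mpr ⟨Nat.gcd_dvd_left _ _, hm.ne'⟩
    have h2 := Finset.single_le_sum (f := fun e => if e ∣ d then e else 0) (fun i _ => Nat.zero_le _) hmem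
    simpa [Nat.gcd_dvd_right] using h2
  calc ∑ d ∈ Finset.Ioc 0 a, Nat.gcd m d
      ≤ ∑ d ∈ Finset.Ioc 0 a, ∑ e ∈ m.divisors, (if e ∣ d then e else 0) := Finset.sum_le_sum h1
    _ = ∑ e ∈ m.divisors, ∑ d ∈ Finset.Ioc 0 a, (if e ∣ d then e else 0) := Finset.sum_comm
    _ = ∑ e ∈ m.divisors, (a / e) * e := by
        apply Finset.sum_congr rfl
        intro e _
        rw [← Finset.sum_filter, Finset.sum_const, Nat.Ioc_filter_dvd_card_eq_div, smul_eq_mul]
    _ ≤ ∑ e ∈ m.divisors, a := Finset.sum_le_sum (fun e _ => Nat.div_mul_le_self a e)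
    _ = a * m.divisors.card := by rw [Finset.sum_const, smul_eq_mul, mul_comm]

theorem sum_gcd_int_le (n a : ℕ) (hn : 0 < n) :
    ∑ δ ∈ (Finset.Icc (-(a : ℤ)) a).filter (fun δ => δ ≠ 0), (Int.gcd (4 * n - δ) δ : ℝ)
      ≤ 2 * (a * ((4 * n).divisors.card : ℝ)) := by
  classical
  have hg : ∀ δ : ℤ, Int.gcd (4 * n - δ) δ = Nat.gcd (4 * n) δ.natAbs := by
    intro δ
    have : Int.gcd (4 * (n : ℤ) - δ) δ = Int.gcd (4 * (n : ℤ)) δ := by
      rw [Int.gcd_comm, Int.gcd_comm (4 * (n : ℤ))]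
      have := Int.gcd_sub_self_right δ (4 * (n : ℤ))
      simpa using this
    rw [this]
    rfl
  set S1 : Finset ℤ := (Finset.Ioc 0 a).image (fun m : ℕ => (m : ℤ)) with hS1
  set S2 : Finset ℤ := (Finset.Ioc 0 a).image (fun m : ℕ => -(m : ℤ)) with hS2
  have hsub : (Finset.Icc (-(a : ℤ)) a).filter (fun δ => δ ≠ 0) ⊆ S1 ∪ S2 := by
    intro δ hδ
    rw [mem_filter, mem_Icc] at hδ
    rw [mem_union, hS1, hS2, mem_image, mem_image]
    rcases lt_or_gt_of_ne hδ.2 with h | h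
    · right
      exact ⟨δ.natAbs, by rw [mem_Ioc]; omega, by omega⟩
    · left
      exact ⟨δ.natAbs, by rw [mem_Ioc]; omega, by omega⟩
  have h1 : ∑ δ ∈ S1, (Int.gcd (4 * n - δ) δ : ℝ) = ∑ m ∈ Finset.Ioc 0 a, (Nat.gcd (4 * n) m : ℝ) := by
    rw [hS1, Finset.sum_image (by intro x _ y _ h; simpa using h)]
    apply Finset.sum_congr rfl
    intro m _
    rw [hg]; simp
  have h2 : ∑ δ ∈ S2, (Int.gcd (4 * n - δ) δ : ℝ) = ∑ m ∈ Finset.Ioc 0 a, (Nat.gcd (4 * n) m : ℝ) := by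
    rw [hS2, Finset.sum_image (by intro x _ y _ h; simpa using h)]
    apply Finset.sum_congr rfl
    intro m _
    rw [hg]; simp
  have h3 : (∑ m ∈ Finset.Ioc 0 a, (Nat.gcd (4 * n) m : ℝ)) ≤ a * ((4 * n).divisors.card : ℝ) := by
    have := sum_gcd_le (4 * n) a (by omega)
    exact_mod_cast this
  calc _ ≤ ∑ δ ∈ S1 ∪ S2, (Int.gcd (4 * n - δ) δ : ℝ) :=
        Finset.sum_le_sum_of_subset_of_nonneg hsub (fun _ _ _ => by positivity)
    _ ≤ ∑ δ ∈ S1, (Int.gcd (4 * n - δ) δ : ℝ) + ∑ δ ∈ S2, (Int.gcd (4 * n - δ) δ : ℝ) := by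
        rw [← Finset.sum_union_inter]
        have : 0 ≤ ∑ δ ∈ S1 ∩ S2, (Int.gcd (4 * n - δ) δ : ℝ) := Finset.sum_nonneg (fun _ _ => by positivity)
        linarith
    _ ≤ _ := by rw [h1, h2]; linarith

theorem closePairs_raw {n : ℕ} (hn : ¬ IsSquare n) (hsq : NoSmallSq n) (W : ℝ)
    (hW : ∀ m : ℕ, 0 < m → m ≤ 5 * n ^ 2 → (m.divisors.card : ℝ) ≤ W) (hn4 : 4 * n ≤ 5 * n ^ 2) :
    ((ClosePairs n).card : ℝ) ≤ 24 * W ^ 7 * (Real.log n + 1) * Real.sqrt n := by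
  classical
  have hn0 : 0 < n := by
    rcases Nat.eq_zero_or_pos n with h | h
    · exfalso; apply hn; rw [h]; exact ⟨0, rfl⟩
    · exact h
  have hn1 : (1 : ℝ) ≤ n := by exact_mod_cast hn0
  have hW1 : 1 ≤ W := by
    have := hW 1 one_pos (by nlinarith)
    simpa using this
  have hlog : 0 ≤ Real.log n := Real.log_nonneg hn1
  set a := Nat.sqrt n with ha
  set S : Finset ℤ := (Finset.Icc (-(a : ℤ)) a).filter (fun δ => δ ≠ 0) with hS
  have hmaps : ∀ P ∈ ClosePairs n, dl n P ∈ S := by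
    intro P hP
    obtain ⟨h1, h2, -⟩ := closePair_box hn hP
    rw [hS, mem_filter, mem_Icc]
    have h3 : |(dl n P : ℝ)| < (a : ℝ) + 1 := lt_of_le_of_lt h2 Real.real_sqrt_lt_nat_sqrt_succ
    have h4 : |dl n P| < (a : ℤ) + 1 := by exact_mod_cast h3
    rw [abs_lt] at h4
    refine ⟨⟨by omega, by omega⟩, h1⟩
  have hsum := card_eq_sum_card_fiberwise (s := ClosePairs n) (t := S) (f := dl n) hmaps
  have hsumr : ((ClosePairs n).card : ℝ) = ∑ δ ∈ S, (((ClosePairs n).filter (fun P => dl n P = δ)).card : ℝ) := by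
    rw [hsum]; push_cast; rfl
  rw [hsumr]
  have hle : ∀ δ ∈ S, (((ClosePairs n).filter (fun P => dl n P = δ)).card : ℝ)
      ≤ 12 * W ^ 6 * (Real.log n + 1) * (Int.gcd (4 * n - δ) δ : ℝ) := by
    intro δ _
    apply fixed_delta hn hsq W hW
    intro P hP
    rw [mem_filter] at hP
    exact hP
  calc _ ≤ ∑ δ ∈ S, 12 * W ^ 6 * (Real.log n + 1) * (Int.gcd (4 * n - δ) δ : ℝ) := sum_le_sum hle
    _ = 12 * W ^ 6 * (Real.log n + 1) * ∑ δ ∈ S, (Int.gcd (4 * n - δ) δ : ℝ) := by rw [mul_sum]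
    _ ≤ 12 * W ^ 6 * (Real.log n + 1) * (2 * (a * ((4 * n).divisors.card : ℝ))) := by
        apply mul_le_mul_of_nonneg_left (sum_gcd_int_le n a hn0) (by positivity)
    _ ≤ 12 * W ^ 6 * (Real.log n + 1) * (2 * (Real.sqrt n * W)) := by
        apply mul_le_mul_of_nonneg_left _ (by positivity)
        apply mul_le_mul_of_nonneg_left _ (by norm_num)
        apply mul_le_mul Real.nat_sqrt_le_real_sqrt (hW _ (by omega) hn4) (by positivity) (by positivity)
    _ = _ := by ring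

theorem closePairs_bound (ε : ℝ) (hε : 0 < ε) : ∃ C : ℝ, 0 < C ∧ ∀ n : ℕ, ¬ IsSquare n →
    NoSmallSq n → ((ClosePairs n).card : ℝ) ≤ C * (n : ℝ) ^ (1 / 2 + ε) := by
  obtain ⟨C₀, hC₀, hd⟩ := divisor_bound (ε / 28) (by positivity)
  set C₁ : ℝ := C₀ * (5 : ℝ) ^ (ε / 28) with hC₁
  have hC₁0 : 0 < C₁ := by positivity
  set L : ℝ := 1 + 2 / ε with hL
  have hL0 : 0 < L := by positivity
  refine ⟨24 * C₁ ^ 7 * L, by positivity, ?_⟩
  intro n hn hsq
  have hn0 : 0 < n := by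
    rcases Nat.eq_zero_or_pos n with h | h
    · exfalso; apply hn; rw [h]; exact ⟨0, rfl⟩
    · exact h
  have hn1 : (1 : ℝ) ≤ n := by exact_mod_cast hn0
  have hn0r : (0 : ℝ) < n := by linarith
  set W : ℝ := C₁ * (n : ℝ) ^ (ε / 14) with hW
  have hWb : ∀ m : ℕ, 0 < m → m ≤ 5 * n ^ 2 → (m.divisors.card : ℝ) ≤ W := by
    intro m hm hm2
    refine (hd m hm).trans ?_
    have h1 : (m : ℝ) ≤ 5 * (n : ℝ) ^ 2 := by exact_mod_cast hm2
    calc C₀ * (m : ℝ) ^ (ε / 28) ≤ C₀ * (5 * (n : ℝ) ^ 2) ^ (ε / 28) := by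
          apply mul_le_mul_of_nonneg_left _ (by linarith)
          exact Real.rpow_le_rpow (by positivity) h1 (by positivity)
      _ = W := by
          rw [Real.mul_rpow (by norm_num) (by positivity), hW, hC₁]
          have : ((n : ℝ) ^ 2) ^ (ε / 28) = (n : ℝ) ^ (ε / 14) := by
            rw [← Real.rpow_natCast, ← Real.rpow_mul hn0r.le]
            congr 1
            push_cast
            ring
          rw [this]; ring
  have h := closePairs_raw hn hsq W hWb (by nlinarith)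
  have hlog : Real.log n + 1 ≤ L * (n : ℝ) ^ (ε / 2) := by
    have h1 := Real.log_le_rpow_div hn0r.le (show 0 < ε / 2 by positivity)
    have h2 : (1 : ℝ) ≤ (n : ℝ) ^ (ε / 2) := Real.one_le_rpow hn1 (by positivity)
    have h3 : (n : ℝ) ^ (ε / 2) / (ε / 2) = 2 / ε * (n : ℝ) ^ (ε / 2) := by field_simp
    rw [h3] at h1
    rw [hL]; nlinarith
  have hW7 : W ^ 7 = C₁ ^ 7 * (n : ℝ) ^ (ε / 2) := by
    rw [hW, mul_pow, ← Real.rpow_natCast ((n : ℝ) ^ (ε / 14)), ← Real.rpow_mul hn0r.le]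
    congr 2
    push_cast
    ring
  have hsqrt : Real.sqrt n = (n : ℝ) ^ (1 / 2 : ℝ) := Real.sqrt_eq_rpow _
  calc ((ClosePairs n).card : ℝ) ≤ 24 * W ^ 7 * (Real.log n + 1) * Real.sqrt n := h
    _ ≤ 24 * (C₁ ^ 7 * (n : ℝ) ^ (ε / 2)) * (L * (n : ℝ) ^ (ε / 2)) * (n : ℝ) ^ (1 / 2 : ℝ) := by
        rw [hW7, hsqrt]
        apply mul_le_mul_of_nonneg_right _ (by positivity)
        apply mul_le_mul_of_nonneg_left hlog (by positivity)
    _ = 24 * C₁ ^ 7 * L * ((n : ℝ) ^ (1 / 2 : ℝ) * ((n : ℝ) ^ (ε / 2) * (n : ℝ) ^ (ε / 2))) := by ring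
    _ = 24 * C₁ ^ 7 * L * (n : ℝ) ^ (1 / 2 + ε) := by
        rw [← Real.rpow_add hn0r, ← Real.rpow_add hn0r]
        congr 2
        ring

end Pool.Agent.KeZhao
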