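import Pool.Agent.Lib.KeZhao.Cover

/-! Reduced forms `x² + k l = n` and the continued fraction step. -/

namespace Pool.Agent.KeZhao

/-- `n = x² + y² - z²` with all squares at most `n`. -/
def Repr (n : ℕ) : Prop :=
  ∃ x y z : ℤ, (n : ℤ) = x ^ 2 + y ^ 2 - z ^ 2 ∧ x ^ 2 ≤ n ∧ y ^ 2 ≤ n ∧ z ^ 2 ≤ n

/-- reduced triples -/
def Red (n : ℕ) (x k l : ℤ) : Prop :=
  0 < x ∧ 0 < k ∧ 0 < l ∧ x ^ 2 + k * l = n ∧ (k : ℝ) < Real.sqrt n + x ∧ (l : ℝ) < Real.sqrt n + x

theorem sq_sqrt_nat (n : ℕ) : Real.sqrt n ^ 2 = n := Real.sq_sqrt (Nat.cast_nonneg n)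

theorem Red.lt {n : ℕ} {x k l : ℤ} (h : Red n x k l) :
    (x : ℝ) < Real.sqrt n ∧ Real.sqrt n - x < k ∧ Real.sqrt n - x < l := by
  obtain ⟨hx, hk, hl, he, hk2, hl2⟩ := h
  have hs := sq_sqrt_nat n
  have hs0 : 0 ≤ Real.sqrt n := Real.sqrt_nonneg _
  have hxr : (0 : ℝ) < x := by exact_mod_cast hx
  have hkr : (0 : ℝ) < k := by exact_mod_cast hk
  have hlr : (0 : ℝ) < l := by exact_mod_cast hl
  have her : (x : ℝ) ^ 2 + k * l = n := by exact_mod_cast he
  have hlt : (x : ℝ) < Real.sqrt n := by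
    apply Real.lt_sqrt_of_sq_lt
    nlinarith
  refine ⟨hlt, ?_, ?_⟩
  · by_contra hcon
    push Not at hcon
    nlinarith
  · by_contra hcon
    push Not at hcon
    nlinarith

theorem Repr_of_red_parity {n : ℕ} {x k l : ℤ} (h : Red n x k l) (hpar : Even (k + l)) : Repr n := by
  obtain ⟨hlt, hk3, hl3⟩ := h.lt
  obtain ⟨hx, hk, hl, he, hk2, hl2⟩ := h
  have hs := sq_sqrt_nat n
  have hs0 : 0 ≤ Real.sqrt n := Real.sqrt_nonneg _
  have hxr : (0 : ℝ) < x := by exact_mod_cast hx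
  have hkr : (0 : ℝ) < k := by exact_mod_cast hk
  have hlr : (0 : ℝ) < l := by exact_mod_cast hl
  have her : (x : ℝ) ^ 2 + k * l = n := by exact_mod_cast he
  have hsum : (k : ℝ) + l < 2 * Real.sqrt n := by
    have h1 : 0 < (Real.sqrt n + x - k) * (k - Real.sqrt n + x) := by
      apply mul_pos <;> linarith
    have h2 : (Real.sqrt n + x - k) * (k - Real.sqrt n + x) = k * (2 * Real.sqrt n - k - l) := by
      nlinarith
    rw [h2] at h1
    have := (mul_pos_iff_of_pos_left hkr).mp h1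
    linarith
  have hsq : ((k : ℝ) + l) ^ 2 ≤ 4 * n := by nlinarith
  have hsqz : (k + l) ^ 2 ≤ 4 * (n : ℤ) := by exact_mod_cast hsq
  obtain ⟨y, hy⟩ := hpar
  refine ⟨x, y, y - k, ?_, ?_, ?_, ?_⟩
  · have hl' : l = y + y - k := by linarith
    rw [← he, hl']; ring
  · nlinarith
  · nlinarith
  · nlinarith

/-- the continued fraction step -/
theorem red_step {n : ℕ} (hn : ¬ IsSquare n) {x k l : ℤ} (h : Red n x k l) :
    ∃ a : ℕ, 1 ≤ a ∧ Red n (a * k - x) (l + 2 * a * x - a ^ 2 * k) k ∧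
      (k : ℝ) / (x + Real.sqrt n)
        = 1 / (a + ((l + 2 * a * x - a ^ 2 * k : ℤ) : ℝ) / (((a * k - x : ℤ) : ℝ) + Real.sqrt n)) := by
  obtain ⟨hlt, hk3, hl3⟩ := h.lt
  obtain ⟨hx, hk, hl, he, hk2, hl2⟩ := h
  have hs := sq_sqrt_nat n
  set s := Real.sqrt n with hsdef
  have hs0 : 0 ≤ s := Real.sqrt_nonneg _
  have hxr : (0 : ℝ) < x := by exact_mod_cast hx
  have hkr : (0 : ℝ) < k := by exact_mod_cast hk
  have hlr : (0 : ℝ) < l := by exact_mod_cast hl
  have her : (x : ℝ) ^ 2 + k * l = n := by exact_mod_cast he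
  have hirr : Irrational s := by
    rw [hsdef]
    exact irrational_sqrt_natCast_iff.mpr hn
  set a : ℕ := ⌊(x + s) / k⌋₊ with ha
  have ha1 : 1 ≤ a := by
    rw [ha, Nat.one_le_floor_iff, le_div_iff₀ hkr]
    linarith
  have har : (1 : ℝ) ≤ a := by exact_mod_cast ha1
  have hle : (a : ℝ) * k ≤ x + s := by
    have : (a : ℝ) ≤ (x + s) / k := Nat.floor_le (by positivity)
    rwa [le_div_iff₀ hkr] at this
  have hlt2 : x + s < ((a : ℝ) + 1) * k := by
    have : (x + s) / k < (a : ℝ) + 1 := Nat.lt_floor_add_one _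
    rwa [div_lt_iff₀ hkr] at this
  have hlt1 : (a : ℝ) * k < x + s := by
    rcases hle.lt_or_eq with h1 | h1
    · exact h1
    · exfalso
      apply hirr
      refine ⟨((a * k - x : ℤ) : ℚ), ?_⟩
      push_cast
      linarith
  set x' : ℤ := a * k - x with hx'
  set k' : ℤ := l + 2 * a * x - a ^ 2 * k with hk'
  have hx'r : (x' : ℝ) = a * k - x := by rw [hx']; push_cast; ring
  have hk'r : (k' : ℝ) = l + 2 * a * x - a ^ 2 * k := by rw [hk']; push_cast; ring
  have heq' : x' ^ 2 + k' * k = n := by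
    rw [← he, hx', hk']; ring
  have heq'r : (x' : ℝ) ^ 2 + k' * k = n := by exact_mod_cast heq'
  have b1 : (x' : ℝ) < s := by rw [hx'r]; linarith
  have b2 : s - x' < k := by rw [hx'r]; linarith
  have b3 : (k : ℝ) < s + x' := by rw [hx'r]; nlinarith
  have b4 : (0 : ℝ) < x' := by linarith
  have b4z : 0 < x' := by exact_mod_cast b4
  have b5 : (0 : ℝ) < k' := by
    have h1 : (k' : ℝ) * k = (s - x') * (s + x') := by rw [← hs] at heq'r; linarith
    have h2 : 0 < (s - x') * (s + x') := by apply mul_pos <;> linarith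
    rw [← h1] at h2
    exact (mul_pos_iff_of_pos_right hkr).mp h2
  have b5z : 0 < k' := by exact_mod_cast b5
  have b6 : (k' : ℝ) < s + x' := by
    have h1 : (k' : ℝ) * k = (s - x') * (s + x') := by rw [← hs] at heq'r; linarith
    by_contra hcon
    push Not at hcon
    have h2 : (s + x') * k ≤ k' * k := mul_le_mul_of_nonneg_right hcon hkr.le
    have h3 : (s - x') * (s + x') < k * (s + x') := mul_lt_mul_of_pos_right b2 (by linarith)
    linarith
  refine ⟨a, ha1, ⟨b4z, b5z, hk, heq', b6, b3⟩, ?_⟩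
  have h1 : (k' : ℝ) / (x' + s) = (s - x') / k := by
    rw [div_eq_div_iff (by linarith) hkr.ne']
    rw [← hs] at heq'r
    linarith
  rw [h1, hx'r]
  have h2 : (a : ℝ) + (s - (a * k - x)) / k = (x + s) / k := by
    field_simp
    ring
  rw [h2, one_div, inv_div]

/-- the set of inverses of reduced quadratic irrationalities with odd leading coefficient -/
def oddSet (n : ℕ) : Set ℝ :=
  {ξ | ∃ x k l : ℤ, Red n x k l ∧ Odd k ∧ ξ = (k : ℝ) / (x + Real.sqrt n)}

theorem oddSet_selfSim {n : ℕ} (hn : ¬ IsSquare n) (hrep : ¬ Repr n) : SelfSim (oddSet n) := by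
  rintro ξ ⟨x, k, l, hred, hodd, rfl⟩
  have hs0 : 0 ≤ Real.sqrt n := Real.sqrt_nonneg _
  have hpos : 0 < (x : ℝ) := by exact_mod_cast hred.1
  have hkpos : 0 < (k : ℝ) := by exact_mod_cast hred.2.1
  refine ⟨by positivity, ?_, ?_⟩
  · rw [div_lt_one (by positivity)]
    linarith [hred.2.2.2.2.1]
  · have hl : Even l := by
      by_contra hcon
      rw [Int.not_even_iff_odd] at hcon
      exact hrep (Repr_of_red_parity hred (hodd.add_odd hcon))
    obtain ⟨a, ha1, hred', heq'⟩ := red_step hn hred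
    have hk' : Even (l + 2 * a * x - a ^ 2 * k) := by
      by_contra hcon
      rw [Int.not_even_iff_odd] at hcon
      exact hrep (Repr_of_red_parity hred' (hcon.add_odd hodd))
    have haeven : Even (a : ℤ) := by
      have h1 : Even ((a : ℤ) ^ 2 * k) := by
        have h2 : Even (l + 2 * a * x) := hl.add (by rw [mul_assoc]; exact even_two_mul _)
        have h3 := h2.sub hk'
        have h4 : l + 2 * a * x - (l + 2 * a * x - a ^ 2 * k) = (a : ℤ) ^ 2 * k := by ring
        rwa [h4] at h3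
      rcases Int.even_mul.mp h1 with h | h
      · exact (Int.even_pow.mp h).1
      · exact absurd h (Int.not_even_iff_odd.mpr hodd)
    obtain ⟨m, hm⟩ := (Int.even_coe_nat a).mp haeven
    obtain ⟨a', ha1', hred'', heq''⟩ := red_step hn hred'
    refine ⟨m, a', by omega, ha1', _, ⟨_, _, _, hred'', ?_, rfl⟩, ?_⟩
    · by_contra hcon
      rw [Int.not_odd_iff_even] at hcon
      exact hrep (Repr_of_red_parity hred'' (hcon.add hk'))
    · rw [heq', heq'', hm]
      push_cast
      ring_nf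

end Pool.Agent.KeZhao
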