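import Pool.Agent.Lib.KeZhao.Lower
import Pool.Agent.Lib.KeZhao.PairCount
import Pool.Agent.Lib.KeZhao.Reduce

/-! Assembly. -/

namespace Pool.Agent.KeZhao

open Finset

theorem mod_four {n : ℕ} (hn4 : 4 ≤ n) (h : ¬ Repr n) : n % 4 = 2 ∨ n % 4 = 3 := by
  set a := Nat.sqrt n with ha
  have h1 : a ^ 2 ≤ n := Nat.sqrt_le' n
  have h2 : n < (a + 1) ^ 2 := Nat.lt_succ_sqrt' n
  have ha2 : 2 ≤ a := by
    rw [ha, Nat.le_sqrt]; omega
  obtain ⟨b, hb⟩ := Nat.exists_eq_add_of_le h1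
  have hb2 : b ≤ 2 * a := by nlinarith
  have hcases : (∃ m, b = 4 * m) ∨ (∃ m, b = 2 * m + 1) ∨ (∃ m, b = 4 * m + 2) := by
    have h3 : b % 4 = 0 ∨ b % 4 = 1 ∨ b % 4 = 2 ∨ b % 4 = 3 := by omega
    rcases h3 with h3 | h3 | h3 | h3
    · left; exact ⟨b / 4, by omega⟩
    · right; left; exact ⟨b / 2, by omega⟩
    · right; right; exact ⟨b / 4, by omega⟩
    · right; left; exact ⟨b / 2, by omega⟩
  have hnr : (n : ℤ) = (a : ℤ) ^ 2 + b := by exact_mod_cast hb
  have har : (2 : ℤ) ≤ a := by exact_mod_cast ha2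
  rcases hcases with ⟨m, hm⟩ | ⟨m, hm⟩ | ⟨m, hm⟩
  · exfalso
    apply h
    have hbr : (b : ℤ) = 4 * m := by exact_mod_cast hm
    have hm0 : (0 : ℤ) ≤ m := by positivity
    have hma : (m : ℤ) + 1 ≤ a := by omega
    refine ⟨a, m + 1, m - 1, ?_, ?_, ?_, ?_⟩
    · rw [hnr, hbr]; ring
    · rw [hnr]; omega
    · rw [hnr]; nlinarith
    · rw [hnr]; nlinarith
  · exfalso
    apply h
    have hbr : (b : ℤ) = 2 * m + 1 := by exact_mod_cast hm
    have hm0 : (0 : ℤ) ≤ m := by positivity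
    have hma : (m : ℤ) + 1 ≤ a := by omega
    refine ⟨a, m + 1, m, ?_, ?_, ?_, ?_⟩
    · rw [hnr, hbr]; ring
    · rw [hnr]; omega
    · rw [hnr]; nlinarith
    · rw [hnr]; nlinarith
  · have h4 : a % 4 = 0 ∨ a % 4 = 1 ∨ a % 4 = 2 ∨ a % 4 = 3 := by omega
    have h5 : (a ^ 2) % 4 = 0 ∨ (a ^ 2) % 4 = 1 := by
      rcases h4 with h4 | h4 | h4 | h4 <;> · rw [pow_two, Nat.mul_mod, h4]; omega
    omega

theorem Repr_of_isSquare {n : ℕ} (h : IsSquare n) : Repr n := by
  obtain ⟨r, hr⟩ := h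
  refine ⟨r, 0, 0, ?_, ?_, ?_, ?_⟩
  · rw [hr]; push_cast; ring
  · rw [hr]; push_cast; nlinarith
  · simp
  · simp

theorem noSmallSq {n : ℕ} (h : ¬ Repr n) : NoSmallSq n := by
  intro e heodd he1 hdvd
  by_contra hcon
  push Not at hcon
  apply h
  have hns : ¬ IsSquare n := fun hs => h (Repr_of_isSquare hs)
  have hirr : Irrational (Real.sqrt n) := irrational_sqrt_natCast_iff.mpr hns
  set a := Nat.sqrt n with ha
  have he3 : 3 ≤ e := by
    obtain ⟨t, ht⟩ := heodd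
    omega
  obtain ⟨N, hN⟩ := hdvd
  set j := a / e with hj
  have hj1 : e * j ≤ a := Nat.mul_div_le a e
  have hj2 : a < e * j + e := by
    have := Nat.lt_mul_div_succ a (show 0 < e by omega)
    rw [← hj] at this
    linarith [this, mul_add e j 1]
  have hj3 : 2 ≤ j := by
    by_contra hlt
    have : j ≤ 1 := by omega
    have : e * j ≤ e := by nlinarith
    nlinarith
  have hs := sq_sqrt_nat n
  have hs0 : 0 ≤ Real.sqrt n := Real.sqrt_nonneg _
  have hsa : (a : ℝ) ≤ Real.sqrt n := by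
    rw [ha]; exact Real.nat_sqrt_le_real_sqrt
  have hsa2 : Real.sqrt n < a + 1 := by
    rw [ha]; exact Real.real_sqrt_lt_nat_sqrt_succ
  have hsa' : (a : ℝ) < Real.sqrt n := by
    rcases hsa.lt_or_eq with h1 | h1
    · exact h1
    · exfalso
      apply hirr
      exact ⟨(a : ℚ), by push_cast; exact h1⟩
  have her : (3 : ℝ) ≤ e := by exact_mod_cast he3
  have hcr : (e : ℝ) ^ 2 ≤ a := by exact_mod_cast hcon
  have hNr : (n : ℝ) = (e : ℝ) ^ 2 * N := by exact_mod_cast hN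
  have key : ∀ i : ℕ, 1 ≤ i → (e : ℝ) * i ≤ a → (a : ℝ) + 1 - 2 * e ≤ e * i →
      Red n ((e : ℤ) * i) ((e : ℤ) ^ 2) (N - (i : ℤ) ^ 2) := by
    intro i hi h1 h2
    have hir : (1 : ℝ) ≤ i := by exact_mod_cast hi
    have hpos : (0 : ℝ) < (e : ℝ) * i := by positivity
    have h3 : (e : ℝ) ^ 2 * ((N : ℝ) - (i : ℝ) ^ 2) = (Real.sqrt n - e * i) * (Real.sqrt n + e * i) := by
      have : (Real.sqrt n - e * i) * (Real.sqrt n + e * i) = Real.sqrt n ^ 2 - (e * i) ^ 2 := by ring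
      rw [this, hs, hNr]; ring
    have h4 : 0 < (Real.sqrt n - e * i) * (Real.sqrt n + e * i) := by
      apply mul_pos <;> linarith
    have he2 : (0 : ℝ) < (e : ℝ) ^ 2 := by positivity
    have h5 : (0 : ℝ) < (N : ℝ) - (i : ℝ) ^ 2 := by
      rw [← h3] at h4
      exact (mul_pos_iff_of_pos_left he2).mp h4
    refine ⟨?_, ?_, ?_, ?_, ?_, ?_⟩
    · exact_mod_cast hpos
    · exact_mod_cast he2
    · exact_mod_cast h5
    · have : (n : ℤ) = (e : ℤ) ^ 2 * N := by exact_mod_cast hN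
      rw [this]; ring
    · push_cast
      linarith
    · push_cast
      by_contra hc
      push Not at hc
      have h6 : Real.sqrt n - e * i < (e : ℝ) ^ 2 := by nlinarith
      have h7 : (e : ℝ) ^ 2 * (Real.sqrt n + e * i) ≤ (e : ℝ) ^ 2 * ((N : ℝ) - (i : ℝ) ^ 2) :=
        mul_le_mul_of_nonneg_left hc he2.le
      rw [h3] at h7
      have h8 : (Real.sqrt n - e * i) * (Real.sqrt n + e * i) < (e : ℝ) ^ 2 * (Real.sqrt n + e * i) :=
        mul_lt_mul_of_pos_right h6 (by linarith)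
      linarith
  have hj1r : (e : ℝ) * j ≤ a := by exact_mod_cast hj1
  have hj2r : (a : ℝ) + 1 ≤ e * j + e := by exact_mod_cast hj2
  have r1 := key j (by omega) hj1r (by linarith)
  obtain ⟨j', hj'⟩ : ∃ j', j = j' + 1 := ⟨j - 1, by omega⟩
  have hjr : (j : ℝ) = j' + 1 := by rw [hj']; push_cast; ring
  have r2 := key j' (by omega) (by rw [hjr] at hj1r; nlinarith) (by rw [hjr] at hj2r; nlinarith)
  have hodd2 : Odd ((e : ℤ) ^ 2) := by
    have : Odd (e : ℤ) := by exact_mod_cast heodd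
    exact this.pow
  rcases Int.even_or_odd ((N : ℤ) - (j : ℤ) ^ 2) with hev | hod
  · apply Repr_of_red_parity r2
    apply Odd.add_odd hodd2
    have : (N : ℤ) - (j' : ℤ) ^ 2 = ((N : ℤ) - (j : ℤ) ^ 2) + (2 * j' + 1) := by
      rw [hj']; push_cast; ring
    rw [this]
    exact hev.add_odd ⟨j', rfl⟩
  · exact Repr_of_red_parity r1 (hodd2.add_odd hod)

theorem forms_red {n : ℕ} (hn : ¬ IsSquare n) {p : ℤ × ℤ} (hp : p ∈ Forms n) : xi n p ∈ oddSet n := by
  obtain ⟨h1, h2, h3, h4, h5, h6, l, hl⟩ := forms_facts hn hp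
  have hs := sq_sqrt_nat n
  have h1r : (0 : ℝ) < p.1 := by exact_mod_cast h1
  have h2r : (0 : ℝ) < p.2 := by exact_mod_cast h2
  have hlr : (n : ℝ) - (p.1 : ℝ) ^ 2 = p.2 * l := by exact_mod_cast hl
  have h7 : (p.2 : ℝ) * l = (Real.sqrt n - p.1) * (Real.sqrt n + p.1) := by
    rw [← hlr]
    have : (Real.sqrt n - p.1) * (Real.sqrt n + p.1) = Real.sqrt n ^ 2 - (p.1 : ℝ) ^ 2 := by ring
    rw [this, hs]
  have h8 : 0 < (Real.sqrt n - p.1) * (Real.sqrt n + p.1) := by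
    apply mul_pos <;> linarith
  have h9 : (0 : ℝ) < l := by
    rw [← h7] at h8
    exact (mul_pos_iff_of_pos_left h2r).mp h8
  refine ⟨p.1, p.2, l, ⟨h1, h2, by exact_mod_cast h9, by linarith, by linarith, ?_⟩, h3, rfl⟩
  by_contra hc
  push Not at hc
  have h10 : (p.2 : ℝ) * (Real.sqrt n + p.1) ≤ p.2 * l := mul_le_mul_of_nonneg_left hc h2r.le
  rw [h7] at h10
  have h11 : (Real.sqrt n - p.1) * (Real.sqrt n + p.1) < p.2 * (Real.sqrt n + p.1) :=
    mul_lt_mul_of_pos_right (by linarith) (by linarith)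
  linarith

theorem cauchy {n : ℕ} (hn0 : 1 ≤ n) (hn : ¬ IsSquare n) (hrep : ¬ Repr n) :
    ((Forms n).card : ℝ) ^ 2 ≤ (100 * (4 * Real.sqrt n) ^ (99 / 100 : ℝ)) *
      ((Forms n).card + (ClosePairs n).card) := by
  classical
  have hn0r : (1 : ℝ) ≤ n := by exact_mod_cast hn0
  have hs1 : 1 ≤ Real.sqrt n := by
    rw [Real.one_le_sqrt]; exact hn0r
  have hη : 0 < 1 / (4 * Real.sqrt n) := by positivity
  have hη1 : 1 / (4 * Real.sqrt n) ≤ 1 := by
    rw [div_le_one (by positivity)]; linarith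
  obtain ⟨C, hC1, hC2, hC3⟩ := cover_main (oddSet n) (oddSet_selfSim hn hrep) _ hη hη1
  have hex : ∀ p : ℤ × ℤ, ∃ c : ℝ, p ∈ Forms n → (c ∈ C ∧ c ≤ xi n p ∧ xi n p ≤ c + 1 / (4 * Real.sqrt n)) := by
    intro p
    by_cases hp : p ∈ Forms n
    · obtain ⟨c, hc⟩ := hC3 _ (forms_red hn hp)
      exact ⟨c, fun _ => hc⟩
    · exact ⟨0, fun h => absurd h hp⟩
  choose f hf using hex
  have hmaps : ∀ p ∈ Forms n, f p ∈ C := fun p hp => (hf p hp).1
  have hsum := card_eq_sum_card_fiberwise (s := Forms n) (t := C) (f := f) hmaps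
  set D := (Forms n ×ˢ Forms n).filter (fun P => f P.1 = f P.2) with hD
  have hDle : D.card ≤ (Forms n).card + (ClosePairs n).card := by
    have hsub : D ⊆ (Forms n).image (fun p => (p, p)) ∪ ClosePairs n := by
      intro P hP
      rw [hD, mem_filter, mem_product] at hP
      obtain ⟨⟨h1, h2⟩, h3⟩ := hP
      rw [mem_union]
      by_cases heq : P.1 = P.2
      · left
        rw [mem_image]
        exact ⟨P.1, h1, by ext1 <;> simp [heq]⟩
      · right
        rw [mem_closePairs]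
        refine ⟨⟨h1, h2⟩, heq, ?_⟩
        have g1 := (hf P.1 h1).2
        have g2 := (hf P.2 h2).2
        rw [← h3] at g2
        rw [abs_le]
        constructor <;> linarith
    calc D.card ≤ _ := card_le_card hsub
      _ ≤ _ := card_union_le _ _
      _ ≤ _ := by gcongr; exact card_image_le
  have hDsum : D.card = ∑ c ∈ C, ((Forms n).filter (fun p => f p = c)).card ^ 2 := by
    have hmaps2 : ∀ P ∈ D, f P.1 ∈ C := by
      intro P hP
      rw [hD, mem_filter, mem_product] at hP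
      exact hmaps _ hP.1.1
    rw [card_eq_sum_card_fiberwise (s := D) (t := C) (f := fun P : (ℤ × ℤ) × (ℤ × ℤ) => f P.1) hmaps2]
    apply sum_congr rfl
    intro c hc
    rw [pow_two, ← card_product]
    congr 1
    ext P
    simp only [hD, mem_filter, mem_product]
    constructor
    · rintro ⟨⟨⟨h1, h2⟩, h3⟩, h4⟩
      exact ⟨⟨h1, h4⟩, h2, h3 ▸ h4⟩
    · rintro ⟨⟨h1, h4⟩, h2, h5⟩
      exact ⟨⟨⟨h1, h2⟩, h4.trans h5.symm⟩, h4⟩
  have hcs := sq_sum_le_card_mul_sum_sq (s := C) (f := fun c => (((Forms n).filter (fun p => f p = c)).card : ℝ))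
  have e1 : ∑ c ∈ C, (((Forms n).filter (fun p => f p = c)).card : ℝ) = (Forms n).card := by
    rw [hsum]; push_cast; rfl
  have e2 : ∑ c ∈ C, (((Forms n).filter (fun p => f p = c)).card : ℝ) ^ 2 = D.card := by
    rw [hDsum]; push_cast; rfl
  rw [e1, e2] at hcs
  have e3 : (C.card : ℝ) ≤ 100 * (4 * Real.sqrt n) ^ (99 / 100 : ℝ) := by
    refine hC1.trans (le_of_eq ?_)
    rw [one_div, Real.inv_rpow (by positivity), Real.rpow_neg (by positivity), inv_inv]
  have e4 : (D.card : ℝ) ≤ (Forms n).card + (ClosePairs n).card := by exact_mod_cast hDle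
  calc ((Forms n).card : ℝ) ^ 2 ≤ C.card * D.card := hcs
    _ ≤ _ := mul_le_mul e3 e4 (by positivity) (by positivity)

theorem repr_large : ∃ N₀ : ℕ, ∀ n : ℕ, N₀ ≤ n → Repr n := by
  obtain ⟨c, hc, N₁, hlow⟩ := roots_lower (1 / 1000) (by norm_num) (by norm_num)
  obtain ⟨C, hC, hcp⟩ := closePairs_bound (1 / 1000) (by norm_num)
  set B : ℝ := 1600 / c + 3200 * C / c ^ 2 + 1 with hB
  have hB1 : 1 ≤ B := by
    rw [hB]
    have : 0 < 1600 / c := by positivity
    have : 0 < 3200 * C / c ^ 2 := by positivity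
    linarith
  obtain ⟨N₂, hN₂⟩ := Filter.eventually_atTop.mp
    (((tendsto_rpow_atTop (show (0 : ℝ) < 1 / 500 by norm_num)).comp
      tendsto_natCast_atTop_atTop).eventually_ge_atTop B)
  refine ⟨max (max N₁ N₂) 4, ?_⟩
  intro n hn
  by_contra hrep
  have hnN₁ : N₁ ≤ n := le_trans (le_max_left _ _) (le_trans (le_max_left _ _) hn)
  have hnN₂ : N₂ ≤ n := le_trans (le_max_right _ _) (le_trans (le_max_left _ _) hn)
  have hn4 : 4 ≤ n := le_trans (le_max_right _ _) hn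
  have hns : ¬ IsSquare n := fun hs => hrep (Repr_of_isSquare hs)
  have hmod := mod_four hn4 hrep
  have hsq := noSmallSq hrep
  have h1 := hlow n hnN₁ hmod
  have h2 := roots_le_forms hmod
  have h2r : ((Roots n).card : ℝ) ≤ 2 * (Forms n).card := by exact_mod_cast h2
  have h3 := hcp n hns hsq
  have h4 := cauchy (by omega) hns hrep
  have hn0 : (0 : ℝ) < n := by
    have : 0 < n := by omega
    exact_mod_cast this
  have hn1 : (1 : ℝ) ≤ n := by
    have : 1 ≤ n := by omega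
    exact_mod_cast this
  set F : ℝ := ((Forms n).card : ℝ) with hF
  set P : ℝ := ((ClosePairs n).card : ℝ) with hP
  have hP0 : 0 ≤ P := by positivity
  -- powers
  have hbig : B ≤ (n : ℝ) ^ (1 / 500 : ℝ) := hN₂ n hnN₂
  set u : ℝ := (n : ℝ) ^ (1 / 500 : ℝ) with hu
  set w : ℝ := (n : ℝ) ^ (499 / 1000 : ℝ) with hw
  have hu0 : 0 < u := by positivity
  have hw0 : 0 < w := by positivity
  have hu1 : 1 ≤ u := hB1.trans hbig
  have h1' : c * w ≤ 2 * F := by
    have : (1 / 2 - 1 / 1000 : ℝ) = 499 / 1000 := by norm_num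
    rw [this] at h1
    exact h1.trans h2r
  have hM : 100 * (4 * Real.sqrt n) ^ (99 / 100 : ℝ) ≤ 400 * (n : ℝ) ^ (495 / 1000 : ℝ) := by
    have h5 : Real.sqrt n = (n : ℝ) ^ (1 / 2 : ℝ) := Real.sqrt_eq_rpow _
    rw [h5, Real.mul_rpow (by norm_num) (by positivity), ← Real.rpow_mul hn0.le]
    have h6 : (4 : ℝ) ^ (99 / 100 : ℝ) ≤ 4 := by
      calc (4 : ℝ) ^ (99 / 100 : ℝ) ≤ (4 : ℝ) ^ (1 : ℝ) :=
            Real.rpow_le_rpow_of_exponent_le (by norm_num) (by norm_num)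
        _ = 4 := Real.rpow_one _
    have h7 : (1 / 2 * (99 / 100) : ℝ) = 495 / 1000 := by norm_num
    rw [h7]
    have h8 : 0 < (n : ℝ) ^ (495 / 1000 : ℝ) := by positivity
    nlinarith
  have hM1 : (n : ℝ) ^ (495 / 1000 : ℝ) * (u * u) = w := by
    rw [hu, hw, ← Real.rpow_add hn0, ← Real.rpow_add hn0]
    norm_num
  have hM2 : (n : ℝ) ^ (495 / 1000 : ℝ) * (n : ℝ) ^ (1 / 2 + 1 / 1000 : ℝ) * u = w ^ 2 := by
    rw [hu, hw, ← Real.rpow_add hn0, ← Real.rpow_add hn0, ← Real.rpow_natCast, ← Real.rpow_mul hn0.le]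
    norm_num
  set m : ℝ := (n : ℝ) ^ (495 / 1000 : ℝ) with hm
  set q : ℝ := (n : ℝ) ^ (1 / 2 + 1 / 1000 : ℝ) with hq
  have hm0 : 0 < m := by positivity
  have hq0 : 0 < q := by positivity
  have hF0 : 0 < F := by
    have : 0 < c * w := by positivity
    linarith
  have h5 : F ^ 2 ≤ 400 * m * (F + C * q) := by
    calc F ^ 2 ≤ _ := h4
      _ ≤ 400 * m * (F + C * q) := by
        apply mul_le_mul hM (by linarith) (by positivity) (by positivity)
  -- 400 m ≤ F / 2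
  have h6 : 800 * m ≤ F := by
    have h7 : 1600 / c ≤ u * u := by
      have h8 : 1600 / c ≤ u := by
        have : 0 < 3200 * C / c ^ 2 := by positivity
        linarith
      nlinarith
    have h9 : 1600 ≤ c * (u * u) := by
      rw [div_le_iff₀ hc] at h7
      linarith
    have h10 : m * 1600 ≤ m * (c * (u * u)) := mul_le_mul_of_nonneg_left h9 hm0.le
    have h11 : m * (c * (u * u)) = c * w := by rw [← hM1]; ring
    linarith
  have h7 : F ^ 2 ≤ 800 * C * (m * q) := by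
    have h8 : 400 * m * F ≤ F ^ 2 / 2 := by nlinarith
    nlinarith
  have h8 : c ^ 2 * w ^ 2 ≤ 4 * F ^ 2 := by
    have : (c * w) ^ 2 ≤ (2 * F) ^ 2 := by
      apply pow_le_pow_left₀ (by positivity) h1'
    nlinarith
  have h9 : c ^ 2 * (m * q * u) ≤ 3200 * C * (m * q) := by
    rw [hM2]; linarith
  have h10 : c ^ 2 * u ≤ 3200 * C := by
    have h11 : (m * q) * (c ^ 2 * u) ≤ (m * q) * (3200 * C) := by linarith
    exact le_of_mul_le_mul_left h11 (by positivity)
  have h12 : u ≤ 3200 * C / c ^ 2 := by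
    rw [le_div_iff₀ (by positivity)]; linarith
  have h13 : 0 < 1600 / c := by positivity
  linarith

end Pool.Agent.KeZhao
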