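import Pool.Agent.Lib.KeZhao.PrimCount

/-! The family of forms `(x,k)` with `k` odd, `k < √n`, `√n - k < x < √n`, `k ∣ n - x²`, and
the arithmetic of pairs of such forms. -/

namespace Pool.Agent.KeZhao

open Finset

/-- admissible pairs `(x,k)` -/
noncomputable def Forms (n : ℕ) : Finset (ℤ × ℤ) :=
  ((Finset.Icc (1 : ℤ) (Nat.sqrt n)) ×ˢ (Finset.Icc (1 : ℤ) (Nat.sqrt n))).filter
    (fun p => Odd p.2 ∧ (Nat.sqrt n : ℤ) < p.1 + p.2 ∧ p.2 ∣ (n : ℤ) - p.1 ^ 2)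

/-- no square divisor `e²` with `e > 1` odd and `e² < √n` -/
def NoSmallSq (n : ℕ) : Prop := ∀ e : ℕ, Odd e → 1 < e → e ^ 2 ∣ n → (Nat.sqrt n) < e ^ 2

theorem forms_facts {n : ℕ} (hn : ¬ IsSquare n) {p : ℤ × ℤ} (hp : p ∈ Forms n) :
    0 < p.1 ∧ 0 < p.2 ∧ Odd p.2 ∧ ((p.1 : ℝ) < Real.sqrt n) ∧ ((p.2 : ℝ) < Real.sqrt n) ∧
      (Real.sqrt n < p.1 + p.2) ∧ p.2 ∣ (n : ℤ) - p.1 ^ 2 := by
  unfold Forms at hp
  rw [mem_filter, mem_product, mem_Icc, mem_Icc] at hp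
  obtain ⟨⟨⟨h1, h2⟩, h3, h4⟩, h5, h6, h7⟩ := hp
  have hirr : Irrational (Real.sqrt n) := irrational_sqrt_natCast_iff.mpr hn
  have hle : ((Nat.sqrt n : ℕ) : ℝ) < Real.sqrt n := by
    have h8 : ((Nat.sqrt n : ℕ) : ℝ) ≤ Real.sqrt n := Real.nat_sqrt_le_real_sqrt
    rcases h8.lt_or_eq with h | h
    · exact h
    · exfalso; exact hirr ⟨(Nat.sqrt n : ℕ), by push_cast; exact h⟩
  have hlt : Real.sqrt n < (Nat.sqrt n : ℕ) + 1 := Real.real_sqrt_lt_nat_sqrt_succ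
  refine ⟨by linarith, by linarith, h5, ?_, ?_, ?_, h7⟩
  · have : (p.1 : ℝ) ≤ (Nat.sqrt n : ℕ) := by exact_mod_cast h2
    linarith
  · have : (p.2 : ℝ) ≤ (Nat.sqrt n : ℕ) := by exact_mod_cast h4
    linarith
  · have : ((Nat.sqrt n : ℕ) : ℝ) + 1 ≤ p.1 + p.2 := by exact_mod_cast h6
    linarith

/-- the number of forms with given `k` -/
theorem roots_count {n : ℕ} (hn : ¬ IsSquare n) (hsq : NoSmallSq n) (k : ℤ)
    (S : Finset (ℤ × ℤ)) (hS : ∀ p ∈ S, p ∈ Forms n ∧ p.2 = k) :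
    S.card ≤ k.natAbs.divisors.card := by
  classical
  rcases S.eq_empty_or_nonempty with h | ⟨p₀, hp₀⟩
  · rw [h]; simp
  obtain ⟨hp₀f, hp₀k⟩ := hS p₀ hp₀
  obtain ⟨x0pos, kpos, kodd, x0lt, klt, x0gt, kdvd⟩ := forms_facts hn hp₀f
  rw [hp₀k] at kpos kodd klt x0gt kdvd
  have hk0 : k ≠ 0 := kpos.ne'
  apply Finset.card_le_card_of_injOn (fun p => Int.gcd k (p.1 * 1 - p₀.1 * 1))
  · intro p hp
    rw [Finset.mem_coe] at hp
    rw [Finset.mem_coe, Nat.mem_divisors]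
    refine ⟨?_, Int.natAbs_ne_zero.mpr hk0⟩
    exact Int.natCast_dvd.mp (Int.gcd_dvd_left ..)
  · intro p hp p' hp' hpp
    rw [Finset.mem_coe] at hp hp'
    obtain ⟨hf, hk⟩ := hS p hp
    obtain ⟨hf', hk'⟩ := hS p' hp'
    obtain ⟨xpos, _, _, xlt, _, xgt, xdvd⟩ := forms_facts hn hf
    obtain ⟨xpos', _, _, xlt', _, xgt', xdvd'⟩ := forms_facts hn hf'
    rw [hk] at xgt xdvd
    rw [hk'] at xgt' xdvd'
    have neg : ∀ {a : ℤ}, k ∣ (n : ℤ) - a ^ 2 → k ∣ a ^ 2 - (n : ℤ) * 1 ^ 2 := by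
      intro a h
      have : a ^ 2 - (n : ℤ) * 1 ^ 2 = -((n : ℤ) - a ^ 2) := by ring
      rw [this]; exact (dvd_neg.mpr h)
    simp only at hpp
    have key := class_lemma (n : ℤ) k p₀.1 1 p.1 1 p'.1 1 hk0 isCoprime_one_left (neg kdvd)
      (neg xdvd) (neg xdvd') hpp
    obtain ⟨s1, s2⟩ := eOf_sq (n : ℤ) k p₀.1 1 p.1 1 hk0 isCoprime_one_left isCoprime_one_left
      (neg kdvd) (neg xdvd)
    set e := eOf k (Int.gcd k (p.1 * 1 - p₀.1 * 1)) with he
    have heodd : Odd e := by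
      have h1 : (e : ℤ) ∣ k := (dvd_pow_self _ two_ne_zero).trans s1
      rw [← Nat.not_even_iff_odd]
      intro hev
      have h2 : ((2 : ℕ) : ℤ) ∣ k := (Int.natCast_dvd_natCast.mpr hev.two_dvd).trans h1
      obtain ⟨c, hc⟩ := h2
      obtain ⟨c', hc'⟩ := kodd
      push_cast at hc
      omega
    have hen : e ^ 2 ∣ n := by
      have h1 : ((e ^ 2 : ℕ) : ℤ) ∣ ((4 * n : ℕ) : ℤ) := by push_cast; exact s2
      have h2 : e ^ 2 ∣ 4 * n := by exact_mod_cast h1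
      have h3 : Nat.Coprime (e ^ 2) 4 := by
        have : Nat.Coprime (e ^ 2) (2 ^ 2) := Nat.Coprime.pow 2 2 (Nat.coprime_two_right.mpr heodd)
        simpa using this
      exact h3.dvd_of_dvd_mul_left h2
    have he1 : e = 1 := by
      by_contra hne
      have hepos : 0 < e := by
        rcases Nat.eq_zero_or_pos e with h | h
        · rw [h] at heodd; simp at heodd
        · exact h
      have h1 : 1 < e := by omega
      have h2 := hsq e heodd h1 hen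
      have h3 : ((e ^ 2 : ℕ) : ℤ) ≤ k := Int.le_of_dvd kpos (by push_cast; exact s1)
      have h4 : k ≤ (Nat.sqrt n : ℤ) := by
        have h5 := hp₀f
        unfold Forms at h5
        rw [mem_filter, mem_product, mem_Icc, mem_Icc] at h5
        rw [← hp₀k]
        exact h5.1.2.2
      have h6 : (Nat.sqrt n : ℤ) < ((e ^ 2 : ℕ) : ℤ) := by exact_mod_cast h2
      linarith
    rw [he1] at key
    have hdvd : k ∣ p.1 - p'.1 := by
      have : ((1 : ℕ) : ℤ) * (p.1 * 1 - p'.1 * 1) = p.1 - p'.1 := by push_cast; ring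
      rwa [this] at key
    have hlt : |p.1 - p'.1| < k := by
      have h1 : |(p.1 : ℝ) - p'.1| < k := by
        rw [abs_lt]
        constructor <;> linarith
      exact_mod_cast h1
    have h0 : p.1 - p'.1 = 0 := Int.eq_zero_of_abs_lt_dvd hdvd hlt
    exact Prod.ext (by linarith) (by rw [hk, hk'])

/-- data attached to a pair of forms -/
def dl (n : ℕ) (P : (ℤ × ℤ) × (ℤ × ℤ)) : ℤ :=
  (P.1.1 - P.2.1) ^ 2 + (P.1.2 - P.2.2) *
    (((n : ℤ) - P.1.1 ^ 2) / P.1.2 - ((n : ℤ) - P.2.1 ^ 2) / P.2.2)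

/-- the vector `(u,q,κ)` attached to a pair of forms -/
def vec (P : (ℤ × ℤ) × (ℤ × ℤ)) : ℤ × ℤ × ℤ :=
  (P.1.2 * P.2.1 - P.2.2 * P.1.1, (P.2.2 - P.1.2) / 2, (P.1.2 + P.2.2) / 2)

theorem vec_facts {n : ℕ} (hn : ¬ IsSquare n) {P : (ℤ × ℤ) × (ℤ × ℤ)} (h1 : P.1 ∈ Forms n)
    (h2 : P.2 ∈ Forms n) :
    P.1.2 = (vec P).2.2 - (vec P).2.1 ∧ P.2.2 = (vec P).2.2 + (vec P).2.1 ∧
      dl n P * (P.1.2 * P.2.2) = (vec P).1 ^ 2 - n * (P.2.2 - P.1.2) ^ 2 ∧
      Sol (4 * n - dl n P) (dl n P) (vec P) ∧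
      ∀ d : ℤ, d ∣ (vec P).2.1 → d ∣ (vec P).2.2 → d ∣ (4 * n - dl n P) * dl n P := by
  obtain ⟨⟨x, k⟩, ⟨x', k'⟩⟩ := P
  simp only at h1 h2
  obtain ⟨xp, kp, ko, xl, kl, xg, kd⟩ := forms_facts hn h1
  obtain ⟨xp', kp', ko', xl', kl', xg', kd'⟩ := forms_facts hn h2
  simp only at *
  unfold vec dl
  simp only
  obtain ⟨q, hq⟩ : ∃ q, k' - k = 2 * q := by
    have := ko'.sub_odd ko
    obtain ⟨c, hc⟩ := this
    exact ⟨c, by linarith⟩
  obtain ⟨κ, hκ⟩ : ∃ κ, k + k' = 2 * κ := by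
    have := ko.add_odd ko'
    obtain ⟨c, hc⟩ := this
    exact ⟨c, by linarith⟩
  have hq2 : (k' - k) / 2 = q := by rw [hq]; exact Int.mul_ediv_cancel_left _ two_ne_zero
  have hκ2 : (k + k') / 2 = κ := by rw [hκ]; exact Int.mul_ediv_cancel_left _ two_ne_zero
  rw [hq2, hκ2]
  obtain ⟨l, hl⟩ := kd
  obtain ⟨l', hl'⟩ := kd'
  have hld : ((n : ℤ) - x ^ 2) / k = l := by rw [hl]; exact Int.mul_ediv_cancel_left _ kp.ne'
  have hld' : ((n : ℤ) - x' ^ 2) / k' = l' := by rw [hl']; exact Int.mul_ediv_cancel_left _ kp'.ne'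
  rw [hld, hld']
  set δ := (x - x') ^ 2 + (k - k') * (l - l') with hδ
  have hk : k = κ - q := by linarith
  have hk' : k' = κ + q := by linarith
  have hmain : δ * (k * k') = (k * x' - k' * x) ^ 2 - n * (k' - k) ^ 2 := by
    have e1 : (n : ℤ) = x ^ 2 + k * l := by linarith
    have e2 : k * l = n - x ^ 2 := by linarith
    have e3 : k' * l' = n - x' ^ 2 := by linarith
    have : δ * (k * k') = k * k' * (x - x') ^ 2 + (k - k') * (k' * (k * l) - k * (k' * l')) := by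
      rw [hδ]; ring
    rw [this, e2, e3]
    ring
  refine ⟨hk, hk', hmain, ?_, ?_⟩
  · unfold Sol
    simp only
    have e4 : k * k' = κ ^ 2 - q ^ 2 := by rw [hk, hk']; ring
    rw [e4] at hmain
    have e5 : k' - k = 2 * q := hq
    rw [e5] at hmain
    linarith [hmain, show (n : ℤ) * (2 * q) ^ 2 = 4 * n * q ^ 2 by ring]
  · intro d d1 d2
    have dk : d ∣ k := by rw [hk]; exact dvd_sub d2 d1
    have dk' : d ∣ k' := by rw [hk']; exact dvd_add d2 d1
    -- modulo d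
    have m1 : d ∣ δ - (x - x') ^ 2 := by
      have : δ - (x - x') ^ 2 = (k - k') * (l - l') := by rw [hδ]; ring
      rw [this]
      exact (dvd_sub dk dk').mul_right _
    have m2 : d ∣ (n : ℤ) - x ^ 2 := by rw [hl]; exact dk.mul_right _
    have m3 : d ∣ (n : ℤ) - x' ^ 2 := by rw [hl']; exact dk'.mul_right _
    have m4 : d ∣ (4 * n - δ) - (x + x') ^ 2 := by
      have : (4 * (n : ℤ) - δ) - (x + x') ^ 2 = 2 * (n - x ^ 2) + 2 * (n - x' ^ 2) - (δ - (x - x') ^ 2) := by ring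
      rw [this]
      exact dvd_sub (dvd_add (m2.mul_left _) (m3.mul_left _)) m1
    have m5 : d ∣ x ^ 2 - x' ^ 2 := by
      have : x ^ 2 - x' ^ 2 = (n - x' ^ 2) - (n - x ^ 2) := by ring
      rw [this]; exact dvd_sub m3 m2
    have : (4 * (n : ℤ) - δ) * δ = ((4 * n - δ) - (x + x') ^ 2) * δ + (x + x') ^ 2 * (δ - (x - x') ^ 2)
        + (x ^ 2 - x' ^ 2) * (x ^ 2 - x' ^ 2) := by ring
    rw [this]
    exact dvd_add (dvd_add (m4.mul_right _) (m1.mul_left _)) (m5.mul_left _)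

/-- the real number attached to a form -/
noncomputable def xi (n : ℕ) (p : ℤ × ℤ) : ℝ := (p.2 : ℝ) / (p.1 + Real.sqrt n)

/-- close distinct pairs of forms -/
noncomputable def ClosePairs (n : ℕ) : Finset ((ℤ × ℤ) × (ℤ × ℤ)) := by
  classical
  exact (Forms n ×ˢ Forms n).filter (fun P => P.1 ≠ P.2 ∧ |xi n P.1 - xi n P.2| ≤ 1 / (4 * Real.sqrt n))

theorem mem_closePairs {n : ℕ} {P : (ℤ × ℤ) × (ℤ × ℤ)} : P ∈ ClosePairs n ↔
    (P.1 ∈ Forms n ∧ P.2 ∈ Forms n) ∧ P.1 ≠ P.2 ∧ |xi n P.1 - xi n P.2| ≤ 1 / (4 * Real.sqrt n) := by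
  unfold ClosePairs
  rw [mem_filter, mem_product]

theorem closePair_box {n : ℕ} (hn : ¬ IsSquare n) {P : (ℤ × ℤ) × (ℤ × ℤ)} (hP : P ∈ ClosePairs n) :
    dl n P ≠ 0 ∧ |(dl n P : ℝ)| ≤ Real.sqrt n ∧ Box n (dl n P) (vec P) := by
  rw [mem_closePairs] at hP
  obtain ⟨⟨hf1, hf2⟩, hne, hclose⟩ := hP
  obtain ⟨v1, v2, v3, v4, -⟩ := vec_facts hn hf1 hf2
  obtain ⟨⟨x, k⟩, ⟨x', k'⟩⟩ := P
  simp only at hf1 hf2
  obtain ⟨xp, kp, ko, xl, kl, xg, kd⟩ := forms_facts hn hf1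
  obtain ⟨xp', kp', ko', xl', kl', xg', kd'⟩ := forms_facts hn hf2
  simp only at *
  set δ := dl n ((x, k), (x', k')) with hδ
  set v := vec ((x, k), (x', k')) with hv
  have hv1 : v.1 = k * x' - k' * x := rfl
  set s := Real.sqrt n with hs
  have hs2 : s ^ 2 = n := Real.sq_sqrt (Nat.cast_nonneg n)
  have hirr : Irrational s := irrational_sqrt_natCast_iff.mpr hn
  have xpr : (1 : ℝ) ≤ x := by exact_mod_cast xp
  have kpr : (1 : ℝ) ≤ k := by exact_mod_cast kp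
  have xpr' : (1 : ℝ) ≤ x' := by exact_mod_cast xp'
  have kpr' : (1 : ℝ) ≤ k' := by exact_mod_cast kp'
  have hs0 : 0 < s := by linarith
  -- the two real factors
  set w₁ : ℝ := k * (x' + s) - k' * (x + s) with hw1
  set w₂ : ℝ := k' * (s - x) - k * (s - x') with hw2
  have hw2abs : |w₂| ≤ k * k' := by
    rw [abs_le]
    have a1 : (k' : ℝ) * (s - x) ≤ k * k' := by nlinarith
    have a2 : (k : ℝ) * (s - x') ≤ k * k' := by nlinarith
    have a3 : (0 : ℝ) ≤ (k' : ℝ) * (s - x) := mul_nonneg (by linarith) (by linarith)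
    have a4 : (0 : ℝ) ≤ (k : ℝ) * (s - x') := mul_nonneg (by linarith) (by linarith)
    constructor <;> linarith
  have hprod : w₁ * w₂ = δ * (k * k') := by
    have h3 : ((δ * (k * k') : ℤ) : ℝ) = ((v.1 ^ 2 - n * (k' - k) ^ 2 : ℤ) : ℝ) := by exact_mod_cast v3
    push_cast at h3
    rw [h3, hv1, ← hs2, hw1, hw2]
    push_cast
    ring
  have hw1abs : |w₁| ≤ s := by
    have h4 : xi n (x, k) - xi n (x', k') = w₁ / ((x + s) * (x' + s)) := by
      unfold xi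
      simp only
      rw [← hs, hw1]
      have : (x : ℝ) + s ≠ 0 := by positivity
      have : (x' : ℝ) + s ≠ 0 := by positivity
      field_simp
    rw [h4, abs_div, abs_of_pos (show (0 : ℝ) < (x + s) * (x' + s) by positivity),
      div_le_div_iff₀ (by positivity) (by positivity)] at hclose
    have h5 : ((x : ℝ) + s) * (x' + s) ≤ (2 * s) * (2 * s) := by
      apply mul_le_mul <;> nlinarith
    have h6 : |w₁| * (4 * s) ≤ s * (4 * s) := by linarith
    exact le_of_mul_le_mul_right h6 (by positivity)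
  have hw1ne : w₁ ≠ 0 := by
    intro h0
    have h7 : ((k - k' : ℤ) : ℝ) * s = ((k' * x - k * x' : ℤ) : ℝ) := by
      push_cast; rw [hw1] at h0; linarith
    by_cases hkk : k = k'
    · subst hkk
      apply hne
      have : (k : ℝ) * (x' - x) = 0 := by rw [hw1] at h0; linarith
      rcases mul_eq_zero.mp this with h | h
      · linarith
      · have : (x' : ℝ) = x := by linarith
        have : x' = x := by exact_mod_cast this
        rw [this]
    · apply hirr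
      have hkk' : ((k - k' : ℤ) : ℝ) ≠ 0 := by
        have : k - k' ≠ 0 := sub_ne_zero.mpr hkk
        exact_mod_cast this
      refine ⟨((k' * x - k * x' : ℤ) : ℚ) / ((k - k' : ℤ) : ℚ), ?_⟩
      push_cast
      push_cast at h7 hkk'
      rw [div_eq_iff hkk']
      linarith
  have hw2ne : w₂ ≠ 0 := by
    intro h0
    have h7 : ((k' - k : ℤ) : ℝ) * s = ((k' * x - k * x' : ℤ) : ℝ) := by
      push_cast; rw [hw2] at h0; linarith
    by_cases hkk : k = k'
    · subst hkk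
      apply hne
      have : (k : ℝ) * (x' - x) = 0 := by rw [hw2] at h0; linarith
      rcases mul_eq_zero.mp this with h | h
      · linarith
      · have : (x' : ℝ) = x := by linarith
        have : x' = x := by exact_mod_cast this
        rw [this]
    · apply hirr
      have hkk' : ((k' - k : ℤ) : ℝ) ≠ 0 := by
        have : k' - k ≠ 0 := sub_ne_zero.mpr (Ne.symm hkk)
        exact_mod_cast this
      refine ⟨((k' * x - k * x' : ℤ) : ℚ) / ((k' - k : ℤ) : ℚ), ?_⟩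
      push_cast
      push_cast at h7 hkk'
      rw [div_eq_iff hkk']
      linarith
  have hkkpos : (0 : ℝ) < (k : ℝ) * k' := by positivity
  have hδne : δ ≠ 0 := by
    intro h0
    rw [h0] at hprod
    have h8 : w₁ * w₂ = 0 := by rw [hprod]; push_cast; ring
    rcases mul_eq_zero.mp h8 with h | h
    · exact hw1ne h
    · exact hw2ne h
  have hδw : |(δ : ℝ)| ≤ |w₁| := by
    have h9 : |w₁| * |w₂| = |(δ : ℝ)| * (k * k') := by
      rw [← abs_mul, hprod, abs_mul, abs_of_pos hkkpos]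
    have h10 : |w₁| * |w₂| ≤ |w₁| * (k * k') := mul_le_mul_of_nonneg_left hw2abs (abs_nonneg _)
    rw [h9] at h10
    exact le_of_mul_le_mul_right h10 hkkpos
  have hκpos : 0 < v.2.2 := by linarith
  have hκr : (1 : ℝ) ≤ v.2.2 := by exact_mod_cast hκpos
  have hκs : (v.2.2 : ℝ) < s := by
    have e1 : (k : ℝ) = v.2.2 - v.2.1 := by exact_mod_cast v1
    have e2 : (k' : ℝ) = v.2.2 + v.2.1 := by exact_mod_cast v2
    linarith
  have hy : yOf n v = w₁ / v.2.2 := by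
    unfold yOf
    rw [← hs, hv1, hw1]
    congr 1
    have e1 : (k : ℝ) = v.2.2 - v.2.1 := by exact_mod_cast v1
    have e2 : (k' : ℝ) = v.2.2 + v.2.1 := by exact_mod_cast v2
    have e3 : (2 : ℝ) * v.2.1 = k' - k := by linarith
    push_cast
    have : 2 * s * (v.2.1 : ℝ) = s * (2 * v.2.1) := by ring
    rw [this, e3]
    ring
  have hyabs : |yOf n v| = |w₁| / v.2.2 := by
    rw [hy, abs_div, abs_of_pos (show (0 : ℝ) < v.2.2 by linarith)]
  refine ⟨hδne, hδw.trans hw1abs, v4, hκpos, hκs, ?_, ?_, ?_⟩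
  · rw [abs_lt]
    constructor <;> linarith
  · rw [hyabs, ← mul_div_assoc, le_div_iff₀ (by linarith)]
    calc |(δ : ℝ)| * v.2.2 ≤ |w₁| * s := mul_le_mul hδw hκs.le (by linarith) (abs_nonneg _)
      _ = s * |w₁| := mul_comm _ _
  · rw [hyabs, div_le_iff₀ (by linarith)]
    nlinarith

end Pool.Agent.KeZhao
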