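import Pool.Agent.Lib.KeZhao.LBounds

/-! The arithmetic function `1 * χ₁ * χ₂ * χ₁χ₂` is nonnegative for real characters. -/

namespace Pool.Agent.KeZhao

open Complex Finset DirichletCharacter
open scoped ComplexOrder

variable {N : ℕ} [NeZero N]

/-- arithmetic function of a character -/
noncomputable def toAF (χ : DirichletCharacter ℂ N) : ArithmeticFunction ℂ :=
  toArithmeticFunction (χ ·)

omit [NeZero N] in
theorem toAF_mult (χ : DirichletCharacter ℂ N) : (toAF χ).IsMultiplicative :=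
  χ.isMultiplicative_toArithmeticFunction

/-- `1 * χ₁ * χ₂ * χ₁χ₂` -/
noncomputable def fourFold (χ₁ χ₂ : DirichletCharacter ℂ N) : ArithmeticFunction ℂ :=
  χ₁.zetaMul * (toAF χ₂ * toAF (χ₁ * χ₂))

omit [NeZero N] in
theorem fourFold_comm (χ₁ χ₂ : DirichletCharacter ℂ N) : fourFold χ₁ χ₂ = fourFold χ₂ χ₁ := by
  unfold fourFold zetaMul
  change (_ * toAF χ₁) * (toAF χ₂ * toAF (χ₁ * χ₂)) = (_ * toAF χ₂) * (toAF χ₁ * toAF (χ₂ * χ₁))
  rw [mul_comm χ₂ χ₁]
  ring

omit [NeZero N] in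
theorem fourFold_mult (χ₁ χ₂ : DirichletCharacter ℂ N) : (fourFold χ₁ χ₂).IsMultiplicative :=
  χ₁.isMultiplicative_zetaMul.mul ((toAF_mult χ₂).mul (toAF_mult (χ₁ * χ₂)))

omit [NeZero N] in
theorem twist_eq (χ₁ χ₂ : DirichletCharacter ℂ N) (n : ℕ) :
    (toAF χ₂ * toAF (χ₁ * χ₂)) n = χ₂ (n : ZMod N) * χ₁.zetaMul n := by
  rcases Nat.eq_zero_or_pos n with rfl | hn
  · simp
  · unfold zetaMul
    rw [ArithmeticFunction.mul_apply, ArithmeticFunction.mul_apply, Finset.mul_sum]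
    apply Finset.sum_congr rfl
    rintro ⟨a, b⟩ hab
    rw [Nat.mem_divisorsAntidiagonal] at hab
    simp only at hab
    have ha : a ≠ 0 := by rintro rfl; simp at hab; omega
    have hb : b ≠ 0 := by rintro rfl; simp at hab; omega
    simp only [toAF, toArithmeticFunction, ArithmeticFunction.coe_mk,
      ha, hb, if_false, ArithmeticFunction.natCoe_apply, ArithmeticFunction.zeta_apply]
    rw [← hab.1]
    push_cast
    rw [map_mul, MulChar.mul_apply]
    ring

theorem fourFold_prime_pow_aux {χ₁ χ₂ : DirichletCharacter ℂ N} (h1 : χ₁ ^ 2 = 1) {p : ℕ}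
    (hp : p.Prime)
    (h : ∀ i : ℕ, 0 ≤ χ₂ (p : ZMod N) ^ i * χ₁.zetaMul (p ^ i)) (k : ℕ) :
    0 ≤ fourFold χ₁ χ₂ (p ^ k) := by
  unfold fourFold
  rw [ArithmeticFunction.mul_apply]
  apply Finset.sum_nonneg
  rintro ⟨a, b⟩ hab
  rw [Nat.mem_divisorsAntidiagonal] at hab
  simp only at hab
  obtain ⟨i, _, hi⟩ := (Nat.dvd_prime_pow hp).mp (Dvd.intro a (by rw [mul_comm]; exact hab.1) : b ∣ p ^ k)
  apply mul_nonneg (zetaMul_nonneg h1 a)
  rw [twist_eq]
  simp only
  rw [hi]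
  push_cast
  rw [map_pow]
  exact h i

theorem fourFold_prime_pow_nonneg {χ₁ χ₂ : DirichletCharacter ℂ N} (h1 : χ₁ ^ 2 = 1)
    (h2 : χ₂ ^ 2 = 1) {p : ℕ} (hp : p.Prime) (k : ℕ) : 0 ≤ fourFold χ₁ χ₂ (p ^ k) := by
  have hgood : ∀ {ψ₁ ψ₂ : DirichletCharacter ℂ N}, ψ₁ ^ 2 = 1 →
      (ψ₂ (p : ZMod N) = 0 ∨ ψ₂ (p : ZMod N) = 1) → 0 ≤ fourFold ψ₁ ψ₂ (p ^ k) := by
    intro ψ₁ ψ₂ hψ hval
    apply fourFold_prime_pow_aux hψ hp
    intro i
    apply mul_nonneg _ (zetaMul_nonneg hψ _)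
    rcases hval with h | h <;> rw [h] <;> positivity
  rcases MulChar.isQuadratic_iff_sq_eq_one.mpr h2 p with h | h | h
  · exact hgood h1 (Or.inl h)
  · exact hgood h1 (Or.inr h)
  · rcases MulChar.isQuadratic_iff_sq_eq_one.mpr h1 p with h' | h' | h'
    · rw [fourFold_comm]; exact hgood h2 (Or.inl h')
    · rw [fourFold_comm]; exact hgood h2 (Or.inr h')
    · apply fourFold_prime_pow_aux h1 hp
      intro i
      have hz : χ₁.zetaMul (p ^ i) = if _root_.Even (i + 1) then 0 else 1 := by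
        rw [zetaMul, ArithmeticFunction.coe_zeta_mul_apply, Nat.sum_divisors_prime_pow hp]
        have : ∀ x ∈ Finset.range (i + 1), (toArithmeticFunction (χ₁ ·) : ArithmeticFunction ℂ) (p ^ x)
            = (-1) ^ x := by
          intro x _
          rw [← χ₁.apply_eq_toArithmeticFunction_apply (pow_ne_zero x hp.ne_zero)]
          push_cast
          rw [map_pow, h']
        rw [Finset.sum_congr rfl this, neg_one_geom_sum]
      rw [hz, h]
      by_cases he : _root_.Even (i + 1)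
      · rw [if_pos he]; simp
      · rw [if_neg he, mul_one]
        have : _root_.Even i := by
          rw [Nat.even_add_one, not_not] at he
          exact he
        rw [this.neg_one_pow]
        exact zero_le_one

theorem fourFold_nonneg {χ₁ χ₂ : DirichletCharacter ℂ N} (h1 : χ₁ ^ 2 = 1)
    (h2 : χ₂ ^ 2 = 1) (n : ℕ) : 0 ≤ fourFold χ₁ χ₂ n := by
  rcases eq_or_ne n 0 with rfl | hn
  · simp only [ArithmeticFunction.map_zero, le_refl]
  · simpa only [(fourFold_mult χ₁ χ₂).multiplicative_factorization _ hn] using!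
      Finset.prod_nonneg
        fun p hp ↦ fourFold_prime_pow_nonneg h1 h2 (Nat.prime_of_mem_primeFactors hp) _

theorem summable_toAF (χ : DirichletCharacter ℂ N) {s : ℂ} (hs : 1 < s.re) :
    LSeriesSummable (toAF χ ·) s :=
  (LSeriesSummable_congr _ fun h ↦ (χ.apply_eq_toArithmeticFunction_apply h).symm).mpr <|
      ZMod.LSeriesSummable_of_one_lt_re χ hs

theorem LSeries_toAF (χ : DirichletCharacter ℂ N) {s : ℂ} (hs : 1 < s.re) :
    LSeries (toAF χ ·) s = LFunction χ s := by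
  rw [χ.LFunction_eq_LSeries hs]
  exact (LSeries_congr χ.apply_eq_toArithmeticFunction_apply s).symm

theorem summable_fourFold (χ₁ χ₂ : DirichletCharacter ℂ N) {s : ℂ} (hs : 1 < s.re) :
    LSeriesSummable (fourFold χ₁ χ₂ ·) s := by
  unfold fourFold
  exact ArithmeticFunction.LSeriesSummable_mul (χ₁.LSeriesSummable_zetaMul hs)
    (ArithmeticFunction.LSeriesSummable_mul (summable_toAF χ₂ hs) (summable_toAF _ hs))

theorem LSeries_fourFold (χ₁ χ₂ : DirichletCharacter ℂ N) {s : ℂ} (hs : 1 < s.re) :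
    LSeries (fourFold χ₁ χ₂ ·) s
      = riemannZeta s * (LFunction χ₁ s * LFunction χ₂ s * LFunction (χ₁ * χ₂) s) := by
  unfold fourFold
  rw [ArithmeticFunction.LSeries_mul' (χ₁.LSeriesSummable_zetaMul hs)
    (ArithmeticFunction.LSeriesSummable_mul (summable_toAF χ₂ hs) (summable_toAF _ hs)),
    ArithmeticFunction.LSeries_mul' (summable_toAF χ₂ hs) (summable_toAF _ hs),
    LSeries_toAF χ₂ hs, LSeries_toAF _ hs, LSeries_zetaMul_eq χ₁ hs]
  ring

end Pool.Agent.KeZhao
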