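import Pool.Agent.Lib.KeZhao.LFun

/-! Bounds and reality statements for L-functions of nontrivial characters. -/

namespace Pool.Agent.KeZhao

open Complex Finset DirichletCharacter

variable {N : ℕ} [NeZero N]

/-- the constant `∑ 1 / n^{3/2}` -/
noncomputable def cZ : ℝ := ∑' n : ℕ, ((n + 1 : ℕ) : ℝ) ^ (-(1 / 2 : ℝ) - 1)

theorem cZ_nonneg : 0 ≤ cZ := tsum_nonneg (fun n => by positivity)

theorem norm_LFunction_le {χ : DirichletCharacter ℂ N} (hχ : χ ≠ 1) {s : ℂ}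
    (hs : 1 / 2 ≤ s.re) : ‖LFunction χ s‖ ≤ N * ‖s‖ * cZ := by
  have hs0 : 0 < s.re := by linarith
  rw [LFunction_eq_abelL hχ hs0]
  unfold abelL cZ
  rw [← tsum_mul_left]
  refine tsum_of_norm_bounded (((summable_shift_rpow (a := 1 / 2) (by norm_num)).mul_left _).hasSum) ?_
  intro n
  refine (norm_abel_term_le hχ hs0 n).trans ?_
  apply mul_le_mul_of_nonneg_left _ (by positivity)
  have hn1 : (1 : ℝ) ≤ ((n + 1 : ℕ) : ℝ) := by
    push_cast; linarith [Nat.cast_nonneg (α := ℝ) n]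
  apply Real.rpow_le_rpow_of_exponent_le hn1
  linarith

/-- Tail bound for the conditionally convergent series at `1`. -/
theorem norm_partial_sub_le {χ : DirichletCharacter ℂ N} (hχ : χ ≠ 1) (M : ℕ) :
    ‖∑ n ∈ range (M + 1), χ ((n + 1 : ℕ) : ZMod N) * ((n + 1 : ℕ) : ℂ) ^ (-1 : ℂ)
      - LFunction χ 1‖ ≤ 2 * N / (M + 1) := by
  rw [LFunction_eq_abelL hχ (by simp)]
  have hlim := tendsto_partial hχ (s := 1) (by simp)
  have hlim2 := (hlim.const_sub (∑ n ∈ range (M + 1), χ ((n + 1 : ℕ) : ZMod N) * ((n + 1 : ℕ) : ℂ) ^ (-1 : ℂ))).norm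
  refine le_of_tendsto hlim2 ?_
  filter_upwards [Filter.eventually_ge_atTop M] with M' hM'
  rw [abel_partial, abel_partial]
  have hsub : (Finset.range M' : Finset ℕ) = Finset.range M ∪ Finset.Ico M M' := by
    ext x; simp only [mem_range, mem_union, mem_Ico]; omega
  have hdisj : Disjoint (Finset.range M) (Finset.Ico M M') := by
    rw [Finset.disjoint_left]
    intro x hx hx2
    simp only [mem_range, mem_Ico] at hx hx2; omega
  rw [hsub, Finset.sum_union hdisj]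
  have hnorm1 : ∀ k : ℕ, ‖charSum χ (k + 1) * ((k + 1 : ℕ) : ℂ) ^ (-1 : ℂ)‖ ≤ N / (k + 1) := by
    intro k
    rw [norm_mul, Complex.cpow_neg_one, norm_inv, div_eq_mul_inv]
    have : ‖((k + 1 : ℕ) : ℂ)‖ = (k : ℝ) + 1 := by
      rw [Complex.norm_natCast]; push_cast; ring
    rw [this]
    exact mul_le_mul_of_nonneg_right (norm_charSum_le hχ _) (by positivity)
  have htel : ∀ a b : ℕ, a ≤ b → ‖∑ n ∈ Finset.Ico a b, charSum χ (n + 1) *
      (((n + 1 : ℕ) : ℂ) ^ (-1 : ℂ) - ((n + 2 : ℕ) : ℂ) ^ (-1 : ℂ))‖ ≤ N * (1 / (a + 1) - 1 / (b + 1)) := by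
    intro a b hab
    induction b, hab using Nat.le_induction with
    | base => simp
    | succ b hab ih =>
      rw [Finset.sum_Ico_succ_top hab]
      refine (norm_add_le _ _).trans ?_
      have h1 : ‖charSum χ (b + 1) *
          (((b + 1 : ℕ) : ℂ) ^ (-1 : ℂ) - ((b + 2 : ℕ) : ℂ) ^ (-1 : ℂ))‖
          ≤ N * (1 / (b + 1) - 1 / ((b + 1 : ℕ) + 1)) := by
        rw [norm_mul]
        have hb1 : (0 : ℝ) < (b : ℝ) + 1 := by positivity
        have hb2 : (0 : ℝ) < (b : ℝ) + 2 := by positivity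
        have h2 : (((b + 1 : ℕ) : ℂ) ^ (-1 : ℂ) - ((b + 2 : ℕ) : ℂ) ^ (-1 : ℂ))
            = (((1 / ((b : ℝ) + 1) - 1 / ((b + 1 : ℕ) + 1) : ℝ)) : ℂ) := by
          rw [Complex.cpow_neg_one, Complex.cpow_neg_one]
          push_cast
          have : (b : ℂ) + 1 + 1 = b + 2 := by ring
          rw [this]
          simp only [one_div]
        rw [h2, Complex.norm_real, Real.norm_of_nonneg]
        · exact mul_le_mul_of_nonneg_right (norm_charSum_le hχ _) (by
            rw [sub_nonneg]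
            apply one_div_le_one_div_of_le hb1
            push_cast; linarith)
        · rw [sub_nonneg]
          apply one_div_le_one_div_of_le hb1
          push_cast; linarith
      have := add_le_add ih h1
      refine this.trans (le_of_eq ?_)
      ring
  have hA := htel M M' hM'
  have hB := hnorm1 M
  have hC := hnorm1 M'
  set S := ∑ n ∈ range M, charSum χ (n + 1) * (((n + 1 : ℕ) : ℂ) ^ (-1 : ℂ) - ((n + 2 : ℕ) : ℂ) ^ (-1 : ℂ))
  set T := ∑ n ∈ Finset.Ico M M', charSum χ (n + 1) * (((n + 1 : ℕ) : ℂ) ^ (-1 : ℂ) - ((n + 2 : ℕ) : ℂ) ^ (-1 : ℂ))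
  set U := charSum χ (M + 1) * ((M + 1 : ℕ) : ℂ) ^ (-1 : ℂ)
  set V := charSum χ (M' + 1) * ((M' + 1 : ℕ) : ℂ) ^ (-1 : ℂ)
  have h1 : S + U - (S + T + V) = U - (T + V) := by ring
  rw [h1]
  calc ‖U - (T + V)‖ ≤ ‖U‖ + ‖T + V‖ := norm_sub_le _ _
    _ ≤ ‖U‖ + (‖T‖ + ‖V‖) := by linarith [norm_add_le T V]
    _ ≤ N / (M + 1) + (N * (1 / (M + 1) - 1 / (M' + 1)) + N / (M' + 1)) := by linarith
    _ = 2 * N / (M + 1) := by ring

/-- real characters -/
theorem char_real {χ : DirichletCharacter ℂ N} (h2 : χ ^ 2 = 1) (a : ZMod N) :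
    (χ a).im = 0 := by
  rcases MulChar.isQuadratic_iff_sq_eq_one.mpr h2 a with h | h | h <;> simp [h]

theorem charSum_real {χ : DirichletCharacter ℂ N} (h2 : χ ^ 2 = 1) (n : ℕ) :
    (charSum χ n).im = 0 := by
  unfold charSum
  rw [Complex.im_sum]
  exact Finset.sum_eq_zero (fun k _ => char_real h2 _)

theorem LFunction_im_eq_zero {χ : DirichletCharacter ℂ N} (hχ : χ ≠ 1) (h2 : χ ^ 2 = 1)
    {x : ℝ} (hx : 0 < x) : (LFunction χ (x : ℂ)).im = 0 := by
  rw [LFunction_eq_abelL hχ (by simpa using hx)]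
  unfold abelL
  have hterm : ∀ n : ℕ, charSum χ (n + 1) * (((n + 1 : ℕ) : ℂ) ^ (-(x : ℂ)) - ((n + 2 : ℕ) : ℂ) ^ (-(x : ℂ)))
      = (((charSum χ (n + 1)).re * (((n + 1 : ℕ) : ℝ) ^ (-x) - ((n + 2 : ℕ) : ℝ) ^ (-x)) : ℝ) : ℂ) := by
    intro n
    have h1 : charSum χ (n + 1) = (((charSum χ (n + 1)).re : ℝ) : ℂ) := by
      apply Complex.ext
      · simp
      · simp [charSum_real h2]
    have h3 : ∀ k : ℕ, ((k : ℕ) : ℂ) ^ (-(x : ℂ)) = (((k : ℝ) ^ (-x) : ℝ) : ℂ) := by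
      intro k
      rw [Complex.ofReal_cpow (by positivity)]
      push_cast
      rfl
    rw [h3, h3]
    conv_lhs => rw [h1]
    push_cast
    ring
  rw [tsum_congr hterm, ← Complex.ofReal_tsum]
  exact Complex.ofReal_im _

theorem LSeries_zetaMul_eq (χ : DirichletCharacter ℂ N) {s : ℂ} (hs : 1 < s.re) :
    LSeries (χ.zetaMul ·) s = riemannZeta s * LFunction χ s := by
  rw [zetaMul, ArithmeticFunction.LSeries_mul']
  · rw [χ.LFunction_eq_LSeries hs]
    congr 1
    · simp_rw [← ArithmeticFunction.LSeries_zeta_eq_riemannZeta hs, ← ArithmeticFunction.natCoe_apply]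
    · exact (LSeries_congr χ.apply_eq_toArithmeticFunction_apply s).symm
  · exact ArithmeticFunction.LSeriesSummable_zeta_iff.mpr hs
  · exact (LSeriesSummable_congr _ fun h ↦ (χ.apply_eq_toArithmeticFunction_apply h).symm).mpr <|
      ZMod.LSeriesSummable_of_one_lt_re χ hs

open scoped ComplexOrder in
theorem LFunction_pos_of_one_lt {χ : DirichletCharacter ℂ N} (h2 : χ ^ 2 = 1)
    {x : ℝ} (hx : 1 < x) : 0 < LFunction χ (x : ℂ) := by
  have h1 : 0 < LSeries (χ.zetaMul ·) (x : ℂ) := by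
    refine ArithmeticFunction.LSeries_positive (zetaMul_nonneg h2)
      (χ.isMultiplicative_zetaMul.map_one ▸ zero_lt_one) ?_
    refine lt_of_le_of_lt (b := ((1 : ℝ) : EReal)) ?_ (by exact_mod_cast hx)
    exact LSeries.abscissaOfAbsConv_le_of_forall_lt_LSeriesSummable
      fun _ a ↦ χ.LSeriesSummable_zetaMul (by simpa using a)
  rw [LSeries_zetaMul_eq χ (by simpa using hx)] at h1
  have h3 := riemannZeta_pos_of_one_lt hx
  exact (mul_pos_iff_of_pos_left h3).mp h1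

theorem LFunction_one_re_pos {χ : DirichletCharacter ℂ N} (hχ : χ ≠ 1) (h2 : χ ^ 2 = 1) :
    0 < (LFunction χ 1).re := by
  have hne := LFunction_apply_one_ne_zero hχ
  have him : (LFunction χ 1).im = 0 := by
    have := LFunction_im_eq_zero hχ h2 (x := 1) one_pos
    simpa using this
  have hge : 0 ≤ (LFunction χ 1).re := by
    have hcont : Continuous (fun x : ℝ => (LFunction χ (x : ℂ)).re) :=
      Complex.continuous_re.comp ((differentiable_LFunction hχ).continuous.comp Complex.continuous_ofReal)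
    have h3 : Filter.Tendsto (fun x : ℝ => (LFunction χ (x : ℂ)).re) (nhdsWithin 1 (Set.Ioi 1))
        (nhds (LFunction χ ((1 : ℝ) : ℂ)).re) := (hcont.tendsto 1).mono_left nhdsWithin_le_nhds
    rw [Complex.ofReal_one] at h3
    refine ge_of_tendsto h3 ?_
    filter_upwards [self_mem_nhdsWithin] with x hx
    exact (Complex.pos_iff.mp (LFunction_pos_of_one_lt h2 hx)).1.le
  rcases hge.lt_or_eq with h | h
  · exact h
  · exfalso
    apply hne
    exact Complex.ext h.symm him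

theorem norm_LFunction_one_le {χ : DirichletCharacter ℂ N} (hχ : χ ≠ 1) :
    ‖LFunction χ 1‖ ≤ 3 + Real.log N := by
  have hN : 0 < N := Nat.pos_of_ne_zero (NeZero.ne N)
  obtain ⟨M, rfl⟩ : ∃ M, N = M + 1 := ⟨N - 1, by omega⟩
  have h1 := norm_partial_sub_le hχ M
  have h2 : ‖∑ n ∈ range (M + 1), χ ((n + 1 : ℕ) : ZMod (M + 1)) * ((n + 1 : ℕ) : ℂ) ^ (-1 : ℂ)‖
      ≤ 1 + Real.log (M + 1 : ℕ) := by
    refine (norm_sum_le _ _).trans ?_
    have h3 : ∀ n ∈ range (M + 1), ‖χ ((n + 1 : ℕ) : ZMod (M + 1)) * ((n + 1 : ℕ) : ℂ) ^ (-1 : ℂ)‖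
        ≤ (((n : ℝ) + 1)⁻¹) := by
      intro n _
      rw [norm_mul, Complex.cpow_neg_one, norm_inv, Complex.norm_natCast]
      push_cast
      calc ‖χ ((n : ZMod (M + 1)) + 1)‖ * ((n : ℝ) + 1)⁻¹ ≤ 1 * ((n : ℝ) + 1)⁻¹ :=
            mul_le_mul_of_nonneg_right (DirichletCharacter.norm_le_one χ _) (by positivity)
        _ = _ := one_mul _
    refine (Finset.sum_le_sum h3).trans ?_
    have h4 := harmonic_le_one_add_log (M + 1)
    unfold harmonic at h4
    push_cast at h4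
    push_cast
    exact h4
  have h5 : (2 : ℝ) * (M + 1 : ℕ) / (M + 1) = 2 := by
    push_cast
    have : (M : ℝ) + 1 ≠ 0 := by positivity
    field_simp
  rw [h5] at h1
  have h6 := norm_sub_norm_le (LFunction χ 1)
    (∑ n ∈ range (M + 1), χ ((n + 1 : ℕ) : ZMod (M + 1)) * ((n + 1 : ℕ) : ℂ) ^ (-1 : ℂ))
  rw [norm_sub_rev] at h6
  linarith

end Pool.Agent.KeZhao
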