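import Mathlib

/-! Elementary estimates for Dirichlet L-functions of nontrivial characters on the right
half plane, from partial summation. -/

namespace Pool.Agent.KeZhao

open Complex Finset

variable {N : ℕ} [NeZero N]

/-- Partial sums of a character: `charSum χ n = χ 1 + ⋯ + χ n`. -/
noncomputable def charSum (χ : DirichletCharacter ℂ N) (n : ℕ) : ℂ :=
  ∑ k ∈ range n, χ ((k + 1 : ℕ) : ZMod N)

theorem sum_range_zmod {E : Type*} [AddCommMonoid E] (f : ZMod N → E) :
    ∑ k ∈ range N, f (k : ZMod N) = ∑ a : ZMod N, f a := by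
  refine Finset.sum_nbij' (fun k => (k : ZMod N)) (fun a => ZMod.val a) ?_ ?_ ?_ ?_ ?_
  · intro k _; exact mem_univ _
  · intro a _; exact mem_range.mpr (ZMod.val_lt a)
  · intro k hk; exact ZMod.val_cast_of_lt (mem_range.mp hk)
  · intro a _; exact ZMod.natCast_zmod_val a
  · intro k _; rfl

theorem charSum_add_period {χ : DirichletCharacter ℂ N} (hχ : χ ≠ 1) (n : ℕ) :
    charSum χ (n + N) = charSum χ n := by
  unfold charSum
  rw [Finset.sum_range_add]
  have : ∑ x ∈ range N, χ ((n + x + 1 : ℕ) : ZMod N) = 0 := by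
    have h1 := sum_range_zmod (N := N) (fun a => χ (a + ((n + 1 : ℕ) : ZMod N)))
    have h2 : ∑ a : ZMod N, χ (a + ((n + 1 : ℕ) : ZMod N)) = ∑ a : ZMod N, χ a :=
      Equiv.sum_comp (Equiv.addRight (((n + 1 : ℕ) : ZMod N))) (fun a => χ a)
    rw [h2, MulChar.sum_eq_zero_of_ne_one hχ] at h1
    rw [← h1]
    apply Finset.sum_congr rfl
    intro x _
    congr 1
    push_cast
    ring
  rw [this, add_zero]

theorem norm_charSum_le {χ : DirichletCharacter ℂ N} (hχ : χ ≠ 1) (n : ℕ) :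
    ‖charSum χ n‖ ≤ N := by
  have h1 : ∀ q r : ℕ, charSum χ (r + N * q) = charSum χ r := by
    intro q r
    induction q with
    | zero => simp
    | succ q ih =>
      rw [Nat.mul_succ, ← add_assoc, charSum_add_period hχ, ih]
  have h2 := h1 (n / N) (n % N)
  rw [Nat.mod_add_div] at h2
  rw [h2]
  have h3 : ‖charSum χ (n % N)‖ ≤ (n % N : ℕ) := by
    unfold charSum
    refine (norm_sum_le _ _).trans ?_
    calc ∑ k ∈ range (n % N), ‖χ ((k + 1 : ℕ) : ZMod N)‖ ≤ ∑ k ∈ range (n % N), (1 : ℝ) :=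
          Finset.sum_le_sum (fun k _ => DirichletCharacter.norm_le_one χ _)
      _ = (n % N : ℕ) := by simp
  have h4 : ((n % N : ℕ) : ℝ) ≤ N := by
    exact_mod_cast (Nat.mod_lt n (Nat.pos_of_ne_zero (NeZero.ne N))).le
  exact h3.trans h4

/-- The increments of `x ↦ x ^ (-s)` between consecutive integers. -/
theorem norm_cpow_sub_le (s : ℂ) (hs : 0 < s.re) (n : ℕ) :
    ‖((n + 1 : ℕ) : ℂ) ^ (-s) - ((n + 2 : ℕ) : ℂ) ^ (-s)‖ ≤ ‖s‖ * ((n + 1 : ℕ) : ℝ) ^ (-s.re - 1) := by
  have hs0 : s ≠ 0 := by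
    intro h; rw [h] at hs; simp at hs
  have hderiv : ∀ x ∈ Set.Icc ((n + 1 : ℕ) : ℝ) ((n + 2 : ℕ) : ℝ),
      HasDerivWithinAt (fun y : ℝ => (y : ℂ) ^ (-s)) (-s * (x : ℂ) ^ (-s - 1))
        (Set.Icc ((n + 1 : ℕ) : ℝ) ((n + 2 : ℕ) : ℝ)) x := by
    intro x hx
    have hx0 : x ≠ 0 := by
      have : (0 : ℝ) < ((n + 1 : ℕ) : ℝ) := by positivity
      linarith [hx.1]
    have := hasDerivAt_ofReal_cpow_const' hx0 (r := -s - 1) (by
      intro h
      apply hs0
      have h' : -s = 0 := by linear_combination h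
      simpa using h')
    have h2 : HasDerivAt (fun y : ℝ => (-s) * ((y : ℂ) ^ (-s - 1 + 1) / (-s - 1 + 1)))
        (-s * (x : ℂ) ^ (-s - 1)) x := this.const_mul (-s)
    have h3 : (fun y : ℝ => (-s) * ((y : ℂ) ^ (-s - 1 + 1) / (-s - 1 + 1)))
        = fun y : ℝ => (y : ℂ) ^ (-s) := by
      funext y
      have hne : (-s) ≠ 0 := neg_ne_zero.mpr hs0
      rw [sub_add_cancel]
      field_simp
    rw [h3] at h2
    exact h2.hasDerivWithinAt
  have hbound : ∀ x ∈ Set.Ico ((n + 1 : ℕ) : ℝ) ((n + 2 : ℕ) : ℝ),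
      ‖-s * (x : ℂ) ^ (-s - 1)‖ ≤ ‖s‖ * ((n + 1 : ℕ) : ℝ) ^ (-s.re - 1) := by
    intro x hx
    have hn0 : (0 : ℝ) < ((n + 1 : ℕ) : ℝ) := by positivity
    have hx0 : 0 < x := lt_of_lt_of_le hn0 hx.1
    rw [norm_mul, norm_neg, Complex.norm_cpow_eq_rpow_re_of_pos hx0]
    apply mul_le_mul_of_nonneg_left _ (norm_nonneg _)
    simp only [sub_re, neg_re, one_re]
    apply Real.rpow_le_rpow_of_nonpos hn0 hx.1
    linarith
  have := norm_image_sub_le_of_norm_deriv_le_segment' hderiv hbound ((n + 2 : ℕ) : ℝ)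
    (Set.right_mem_Icc.mpr (by push_cast; linarith))
  have h4 : (((n + 2 : ℕ) : ℝ) - ((n + 1 : ℕ) : ℝ)) = 1 := by push_cast; ring
  rw [h4, mul_one] at this
  rw [norm_sub_rev]
  simpa using this

/-- The Abel-summed L-series. -/
noncomputable def abelL (χ : DirichletCharacter ℂ N) (s : ℂ) : ℂ :=
  ∑' n : ℕ, charSum χ (n + 1) * (((n + 1 : ℕ) : ℂ) ^ (-s) - ((n + 2 : ℕ) : ℂ) ^ (-s))

theorem norm_abel_term_le {χ : DirichletCharacter ℂ N} (hχ : χ ≠ 1) {s : ℂ} (hs : 0 < s.re) (n : ℕ) :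
    ‖charSum χ (n + 1) * (((n + 1 : ℕ) : ℂ) ^ (-s) - ((n + 2 : ℕ) : ℂ) ^ (-s))‖
      ≤ N * ‖s‖ * ((n + 1 : ℕ) : ℝ) ^ (-s.re - 1) := by
  rw [norm_mul, mul_assoc]
  exact mul_le_mul (norm_charSum_le hχ _) (norm_cpow_sub_le s hs n) (norm_nonneg _) (by positivity)

theorem summable_shift_rpow {a : ℝ} (ha : 0 < a) :
    Summable (fun n : ℕ => ((n + 1 : ℕ) : ℝ) ^ (-a - 1)) := by
  have h := (Real.summable_nat_rpow (p := -a - 1)).mpr (by linarith)
  exact (summable_nat_add_iff 1).mpr h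

theorem summable_abel {χ : DirichletCharacter ℂ N} (hχ : χ ≠ 1) {s : ℂ} (hs : 0 < s.re) :
    Summable (fun n : ℕ =>
      charSum χ (n + 1) * (((n + 1 : ℕ) : ℂ) ^ (-s) - ((n + 2 : ℕ) : ℂ) ^ (-s))) := by
  refine Summable.of_norm_bounded ((summable_shift_rpow hs).mul_left (N * ‖s‖)) ?_
  intro n
  exact norm_abel_term_le hχ hs n

theorem abelL_differentiableOn {χ : DirichletCharacter ℂ N} (hχ : χ ≠ 1) :
    DifferentiableOn ℂ (abelL χ) {s : ℂ | 0 < s.re} := by
  intro s hs
  have hs' : 0 < s.re := hs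
  set U : Set ℂ := {w : ℂ | s.re / 2 < w.re} ∩ Metric.ball 0 (‖s‖ + 1) with hU
  have hUo : IsOpen U :=
    (isOpen_lt continuous_const Complex.continuous_re).inter Metric.isOpen_ball
  have hsU : s ∈ U := by
    refine ⟨?_, ?_⟩
    · show s.re / 2 < s.re
      linarith
    · simp
  have hd : DifferentiableOn ℂ (abelL χ) U := by
    unfold abelL
    refine differentiableOn_tsum_of_summable_norm
      (u := fun n : ℕ => N * (‖s‖ + 1) * ((n + 1 : ℕ) : ℝ) ^ (-(s.re / 2) - 1)) ?_ ?_ hUo ?_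
    · exact (summable_shift_rpow (by linarith)).mul_left _
    · intro n
      apply DifferentiableOn.const_mul
      apply DifferentiableOn.sub
      · intro w _
        apply DifferentiableAt.differentiableWithinAt
        have : ((n + 1 : ℕ) : ℂ) ≠ 0 := by exact_mod_cast Nat.succ_ne_zero n
        exact (differentiableAt_id.neg).const_cpow (Or.inl this)
      · intro w _
        apply DifferentiableAt.differentiableWithinAt
        have : ((n + 2 : ℕ) : ℂ) ≠ 0 := by exact_mod_cast Nat.succ_ne_zero (n + 1)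
        exact (differentiableAt_id.neg).const_cpow (Or.inl this)
    · intro n w hw
      have hw1 : s.re / 2 < w.re := hw.1
      have hw2 : ‖w‖ < ‖s‖ + 1 := by simpa using hw.2
      refine (norm_abel_term_le hχ (by linarith) n).trans ?_
      have hn1 : (1 : ℝ) ≤ ((n + 1 : ℕ) : ℝ) := by
        push_cast; linarith [Nat.cast_nonneg (α := ℝ) n]
      apply mul_le_mul
      · apply mul_le_mul_of_nonneg_left hw2.le (by positivity)
      · apply Real.rpow_le_rpow_of_exponent_le hn1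
        linarith
      · positivity
      · positivity
  exact (hd.differentiableAt (hUo.mem_nhds hsU)).differentiableWithinAt

/-- Summation by parts for the truncated L-series. -/
theorem abel_partial (χ : DirichletCharacter ℂ N) (s : ℂ) (M : ℕ) :
    ∑ n ∈ range (M + 1), χ ((n + 1 : ℕ) : ZMod N) * ((n + 1 : ℕ) : ℂ) ^ (-s)
      = ∑ n ∈ range M, charSum χ (n + 1) * (((n + 1 : ℕ) : ℂ) ^ (-s) - ((n + 2 : ℕ) : ℂ) ^ (-s))
        + charSum χ (M + 1) * ((M + 1 : ℕ) : ℂ) ^ (-s) := by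
  induction M with
  | zero => simp [charSum]
  | succ M ih =>
    rw [Finset.sum_range_succ, ih, Finset.sum_range_succ _ M]
    have h1 : charSum χ (M + 1 + 1) = charSum χ (M + 1) + χ ((M + 1 + 1 : ℕ) : ZMod N) := by
      unfold charSum
      rw [Finset.sum_range_succ _ (M + 1)]
    rw [h1]
    ring

theorem tendsto_partial {χ : DirichletCharacter ℂ N} (hχ : χ ≠ 1) {s : ℂ} (hs : 0 < s.re) :
    Filter.Tendsto (fun M : ℕ =>
      ∑ n ∈ range (M + 1), χ ((n + 1 : ℕ) : ZMod N) * ((n + 1 : ℕ) : ℂ) ^ (-s))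
      Filter.atTop (nhds (abelL χ s)) := by
  simp_rw [abel_partial]
  have h1 := (summable_abel hχ hs).hasSum.tendsto_sum_nat
  have h2 : Filter.Tendsto (fun M : ℕ => charSum χ (M + 1) * ((M + 1 : ℕ) : ℂ) ^ (-s))
      Filter.atTop (nhds 0) := by
    rw [tendsto_zero_iff_norm_tendsto_zero]
    have h3 : Filter.Tendsto (fun M : ℕ => (N : ℝ) * ((M + 1 : ℕ) : ℝ) ^ (-s.re))
        Filter.atTop (nhds 0) := by
      have h4 : Filter.Tendsto (fun x : ℝ => x ^ (-s.re)) Filter.atTop (nhds 0) :=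
        tendsto_rpow_neg_atTop hs
      have h5 : Filter.Tendsto (fun M : ℕ => ((M + 1 : ℕ) : ℝ)) Filter.atTop Filter.atTop :=
        tendsto_natCast_atTop_atTop.comp (Filter.tendsto_add_atTop_nat 1)
      have := (h4.comp h5).const_mul (N : ℝ)
      simpa using this
    refine squeeze_zero (fun M => norm_nonneg _) (fun M => ?_) h3
    rw [norm_mul]
    apply mul_le_mul (norm_charSum_le hχ _) _ (norm_nonneg _) (by positivity)
    have h6 : (0 : ℝ) < ((M + 1 : ℕ) : ℝ) := by positivity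
    have h7 : ((M + 1 : ℕ) : ℂ) = (((M + 1 : ℕ) : ℝ) : ℂ) := by push_cast; rfl
    rw [h7, Complex.norm_cpow_eq_rpow_re_of_pos h6]
    simp
  have := h1.add h2
  rw [add_zero] at this
  exact this

theorem LFunction_eq_abelL_of_one_lt {χ : DirichletCharacter ℂ N} (hχ : χ ≠ 1) {s : ℂ}
    (hs : 1 < s.re) : DirichletCharacter.LFunction χ s = abelL χ s := by
  have h1 : Filter.Tendsto (fun M : ℕ =>
      ∑ n ∈ range (M + 1), χ ((n + 1 : ℕ) : ZMod N) * ((n + 1 : ℕ) : ℂ) ^ (-s))
      Filter.atTop (nhds (DirichletCharacter.LFunction χ s)) := by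
    rw [DirichletCharacter.LFunction_eq_LSeries χ hs]
    have hsum := (DirichletCharacter.LSeriesSummable_of_one_lt_re χ hs).hasSum
    have h2 := hsum.tendsto_sum_nat
    have h3 := h2.comp (Filter.tendsto_add_atTop_nat 2)
    refine h3.congr ?_
    intro M
    simp only [Function.comp]
    rw [Finset.sum_range_succ']
    have h0 : LSeries.term (fun n => χ (n : ZMod N)) s 0 = 0 := by simp
    rw [h0, add_zero]
    apply Finset.sum_congr rfl
    intro n _
    rw [LSeries.term_of_ne_zero (Nat.succ_ne_zero n), Complex.cpow_neg, div_eq_mul_inv]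
  exact tendsto_nhds_unique h1 (tendsto_partial hχ (by linarith))

theorem LFunction_eq_abelL {χ : DirichletCharacter ℂ N} (hχ : χ ≠ 1) {s : ℂ}
    (hs : 0 < s.re) : DirichletCharacter.LFunction χ s = abelL χ s := by
  have hopen : IsOpen {s : ℂ | 0 < s.re} := isOpen_lt continuous_const Complex.continuous_re
  have h1 : AnalyticOnNhd ℂ (DirichletCharacter.LFunction χ) {s : ℂ | 0 < s.re} :=
    (DirichletCharacter.differentiable_LFunction hχ).differentiableOn.analyticOnNhd hopen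
  have h2 : AnalyticOnNhd ℂ (abelL χ) {s : ℂ | 0 < s.re} :=
    (abelL_differentiableOn hχ).analyticOnNhd hopen
  have hconv : IsPreconnected {s : ℂ | 0 < s.re} := by
    apply Convex.isPreconnected
    exact convex_halfSpace_re_gt 0
  have h3 := h1.eqOn_of_preconnected_of_eventuallyEq h2 hconv (z₀ := 2) (by simp) (by
    have : {s : ℂ | 1 < s.re} ∈ nhds (2 : ℂ) :=
      (isOpen_lt continuous_const Complex.continuous_re).mem_nhds (by simp)
    filter_upwards [this] with w hw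
    exact LFunction_eq_abelL_of_one_lt hχ hw)
  exact h3 hs

end Pool.Agent.KeZhao
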