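import Mathlib

/-! Sorting solutions of quadratic congruences into classes indexed by divisors. -/

namespace Pool.Agent.KeZhao

/-- For `d ∣ B` write `e = gcd (d, B/d)`. -/
def eOf (B : ℤ) (d : ℕ) : ℕ := Nat.gcd d (B.natAbs / d)

/-- The class lemma: `(h,q)`, `(h',q')` solutions of `h² ≡ A q² mod B` with the same label
relative to a reference solution `(h₀,q₀)` have `B ∣ e (h q' - h' q)`. -/
theorem class_lemma (A B h₀ q₀ h q h' q' : ℤ) (hB : B ≠ 0)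
    (c0 : IsCoprime q₀ B)
    (r0 : B ∣ h₀ ^ 2 - A * q₀ ^ 2) (r1 : B ∣ h ^ 2 - A * q ^ 2) (r2 : B ∣ h' ^ 2 - A * q' ^ 2)
    (hd : Int.gcd B (h * q₀ - h₀ * q) = Int.gcd B (h' * q₀ - h₀ * q')) :
    B ∣ (eOf B (Int.gcd B (h * q₀ - h₀ * q)) : ℤ) * (h * q' - h' * q) := by
  -- complementary divisor divides the other factor
  have comp : ∀ h q : ℤ, B ∣ h ^ 2 - A * q ^ 2 →
      (((B.natAbs / Int.gcd B (h * q₀ - h₀ * q) : ℕ) : ℤ)) ∣ h * q₀ + h₀ * q := by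
    intro h q r
    set m := h * q₀ - h₀ * q with hm
    set p := h * q₀ + h₀ * q with hp
    set d := Int.gcd B m with hd
    have hdB : (d : ℤ) ∣ B := Int.gcd_dvd_left ..
    have hd0 : 0 < d := Int.gcd_pos_of_ne_zero_left _ hB
    have hmp : B ∣ m * p := by
      have h1 : m * p = (h ^ 2 - A * q ^ 2) * q₀ ^ 2 - (h₀ ^ 2 - A * q₀ ^ 2) * q ^ 2 := by
        rw [hm, hp]; ring
      rw [h1]
      exact dvd_sub (Dvd.dvd.mul_right r _) (Dvd.dvd.mul_right r0 _)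
    -- work with natAbs
    have h2 : B.natAbs ∣ m.natAbs * p.natAbs := by
      rw [← Int.natAbs_mul]; exact Int.natAbs_dvd_natAbs.mpr hmp
    have h3 : B.natAbs / d ∣ p.natAbs := by
      have hdn : d = Nat.gcd B.natAbs m.natAbs := rfl
      have h4 : (B.natAbs / d).Coprime (m.natAbs / d) := by
        rw [hdn]
        exact Nat.coprime_div_gcd_div_gcd (by rw [← hdn]; exact hd0)
      have h5 : B.natAbs / d ∣ (m.natAbs / d) * p.natAbs := by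
        have h6 : d ∣ B.natAbs := by rw [hdn]; exact Nat.gcd_dvd_left _ _
        have h7 : d ∣ m.natAbs := by rw [hdn]; exact Nat.gcd_dvd_right _ _
        obtain ⟨b, hb⟩ := h6
        obtain ⟨c, hc⟩ := h7
        rw [hb, hc, Nat.mul_div_cancel_left _ hd0, Nat.mul_div_cancel_left _ hd0]
        rw [hb, hc, mul_assoc] at h2
        exact Nat.dvd_of_mul_dvd_mul_left hd0 h2
      exact h4.dvd_of_dvd_mul_left h5
    exact Int.natCast_dvd.mpr h3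
  set d := Int.gcd B (h * q₀ - h₀ * q) with hdd
  have hd0 : 0 < d := Int.gcd_pos_of_ne_zero_left _ hB
  have hdB : d ∣ B.natAbs := by
    have : (d : ℤ) ∣ B := Int.gcd_dvd_left ..
    exact Int.natCast_dvd.mp this
  set D₂ := B.natAbs / d with hD2
  have hprod : d * D₂ = B.natAbs := Nat.mul_div_cancel' hdB
  have hcop1 : IsCoprime q₀ (d : ℤ) := by
    apply IsCoprime.of_isCoprime_of_dvd_right c0
    exact Int.natCast_dvd.mpr hdB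
  have hcop2 : IsCoprime q₀ (D₂ : ℤ) := by
    apply IsCoprime.of_isCoprime_of_dvd_right c0
    exact Int.natCast_dvd.mpr ⟨d, by rw [mul_comm]; exact hprod.symm⟩
  have hm1 : (d : ℤ) ∣ h * q₀ - h₀ * q := Int.gcd_dvd_right ..
  have hm2 : (d : ℤ) ∣ h' * q₀ - h₀ * q' := by rw [hd]; exact Int.gcd_dvd_right ..
  have hp1 : (D₂ : ℤ) ∣ h * q₀ + h₀ * q := comp h q r1
  have hp2 : (D₂ : ℤ) ∣ h' * q₀ + h₀ * q' := by
    have := comp h' q' r2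
    rw [← hd] at this
    exact this
  set X := h * q' - h' * q with hX
  have hdX : (d : ℤ) ∣ X := by
    apply hcop1.symm.dvd_of_dvd_mul_left
    have : q₀ * X = (h * q₀ - h₀ * q) * q' - (h' * q₀ - h₀ * q') * q := by rw [hX]; ring
    rw [this]
    exact dvd_sub (Dvd.dvd.mul_right hm1 _) (Dvd.dvd.mul_right hm2 _)
  have hD2X : (D₂ : ℤ) ∣ X := by
    apply hcop2.symm.dvd_of_dvd_mul_left
    have : q₀ * X = (h * q₀ + h₀ * q) * q' - (h' * q₀ + h₀ * q') * q := by rw [hX]; ring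
    rw [this]
    exact dvd_sub (Dvd.dvd.mul_right hp1 _) (Dvd.dvd.mul_right hp2 _)
  have h1 : d ∣ X.natAbs := Int.natCast_dvd.mp hdX
  have h2 : D₂ ∣ X.natAbs := Int.natCast_dvd.mp hD2X
  have h3 : Nat.lcm d D₂ ∣ X.natAbs := Nat.lcm_dvd h1 h2
  have h4 : B.natAbs ∣ eOf B d * X.natAbs := by
    unfold eOf
    rw [← hD2, ← hprod, ← Nat.gcd_mul_lcm d D₂]
    exact Nat.mul_dvd_mul_left _ h3
  have h5 : (B.natAbs : ℤ) ∣ ((eOf B d : ℕ) : ℤ) * X := by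
    rw [Int.natCast_dvd, Int.natAbs_mul, Int.natAbs_natCast]
    exact h4
  exact Int.natAbs_dvd.mp h5

/-- The loss `e` is controlled: `e² ∣ B` and `e² ∣ 4A`. -/
theorem eOf_sq (A B h₀ q₀ h q : ℤ) (hB : B ≠ 0) (c0 : IsCoprime q₀ B) (c1 : IsCoprime q B)
    (r0 : B ∣ h₀ ^ 2 - A * q₀ ^ 2) (r1 : B ∣ h ^ 2 - A * q ^ 2) :
    ((eOf B (Int.gcd B (h * q₀ - h₀ * q)) : ℤ)) ^ 2 ∣ B ∧
      ((eOf B (Int.gcd B (h * q₀ - h₀ * q)) : ℤ)) ^ 2 ∣ 4 * A := by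
  set d := Int.gcd B (h * q₀ - h₀ * q) with hdd
  have hd0 : 0 < d := Int.gcd_pos_of_ne_zero_left _ hB
  have hdB : d ∣ B.natAbs := by
    have : (d : ℤ) ∣ B := Int.gcd_dvd_left ..
    exact Int.natCast_dvd.mp this
  set D₂ := B.natAbs / d with hD2
  have hprod : d * D₂ = B.natAbs := Nat.mul_div_cancel' hdB
  set e := eOf B d with he
  have he1 : e ∣ d := Nat.gcd_dvd_left _ _
  have he2 : e ∣ D₂ := Nat.gcd_dvd_right _ _
  have hsqB : (e : ℤ) ^ 2 ∣ B := by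
    have h1 : e ^ 2 ∣ B.natAbs := by
      rw [pow_two, ← hprod]; exact Nat.mul_dvd_mul he1 he2
    have h2 : ((e ^ 2 : ℕ) : ℤ) ∣ B := Int.natCast_dvd.mpr h1
    push_cast at h2
    exact h2
  refine ⟨hsqB, ?_⟩
  -- complementary divisor divides the sum
  have hcomp : (D₂ : ℤ) ∣ h * q₀ + h₀ * q := by
    set m := h * q₀ - h₀ * q with hm
    set p := h * q₀ + h₀ * q with hp
    have hmp : B ∣ m * p := by
      have h1 : m * p = (h ^ 2 - A * q ^ 2) * q₀ ^ 2 - (h₀ ^ 2 - A * q₀ ^ 2) * q ^ 2 := by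
        rw [hm, hp]; ring
      rw [h1]
      exact dvd_sub (Dvd.dvd.mul_right r1 _) (Dvd.dvd.mul_right r0 _)
    have h2 : B.natAbs ∣ m.natAbs * p.natAbs := by
      rw [← Int.natAbs_mul]; exact Int.natAbs_dvd_natAbs.mpr hmp
    have hdn : d = Nat.gcd B.natAbs m.natAbs := rfl
    have h4 : (B.natAbs / d).Coprime (m.natAbs / d) := by
      rw [hdn]
      exact Nat.coprime_div_gcd_div_gcd (by rw [← hdn]; exact hd0)
    have h5 : B.natAbs / d ∣ (m.natAbs / d) * p.natAbs := by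
      have h7 : d ∣ m.natAbs := by rw [hdn]; exact Nat.gcd_dvd_right _ _
      obtain ⟨b, hb⟩ := hdB
      obtain ⟨c, hc⟩ := h7
      rw [hb, hc, Nat.mul_div_cancel_left _ hd0, Nat.mul_div_cancel_left _ hd0]
      rw [hb, hc, mul_assoc] at h2
      exact Nat.dvd_of_mul_dvd_mul_left hd0 h2
    exact Int.natCast_dvd.mpr (h4.dvd_of_dvd_mul_left h5)
  have hem : (e : ℤ) ∣ h * q₀ - h₀ * q :=
    (Int.natCast_dvd_natCast.mpr he1).trans (Int.gcd_dvd_right ..)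
  have hep : (e : ℤ) ∣ h * q₀ + h₀ * q := (Int.natCast_dvd_natCast.mpr he2).trans hcomp
  have he2h : (e : ℤ) ∣ 2 * h := by
    have h1 : (e : ℤ) ∣ (2 * h) * q₀ := by
      have h2 : (2 * h) * q₀ = (h * q₀ - h₀ * q) + (h * q₀ + h₀ * q) := by ring
      rw [h2]; exact dvd_add hem hep
    have hce : IsCoprime (e : ℤ) q₀ := by
      apply IsCoprime.symm
      apply IsCoprime.of_isCoprime_of_dvd_right c0
      exact (dvd_pow_self (e : ℤ) two_ne_zero).trans hsqB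
    exact hce.dvd_of_dvd_mul_right h1
  have h4h : (e : ℤ) ^ 2 ∣ 4 * h ^ 2 := by
    have := pow_dvd_pow_of_dvd he2h 2
    have h3 : (2 * h) ^ 2 = 4 * h ^ 2 := by ring
    rwa [h3] at this
  have h4A : (e : ℤ) ^ 2 ∣ (4 * A) * q ^ 2 := by
    have h5 : (4 * A) * q ^ 2 = 4 * h ^ 2 - 4 * (h ^ 2 - A * q ^ 2) := by ring
    rw [h5]
    exact dvd_sub h4h ((hsqB.trans r1).mul_left 4)
  have hcq : IsCoprime ((e : ℤ) ^ 2) (q ^ 2) := by
    apply IsCoprime.pow_right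
    apply IsCoprime.symm
    exact IsCoprime.of_isCoprime_of_dvd_right c1 hsqB
  exact hcq.dvd_of_dvd_mul_right h4A

/-- solutions of `h² = A q² + B κ²` -/
def Sol (A B : ℤ) (v : ℤ × ℤ × ℤ) : Prop := v.1 ^ 2 = A * v.2.1 ^ 2 + B * v.2.2 ^ 2

/-- primitive vectors -/
def Prim (v : ℤ × ℤ × ℤ) : Prop := ∀ d : ℤ, d ∣ v.1 → d ∣ v.2.1 → d ∣ v.2.2 → IsUnit d

theorem prim_facts {A B : ℤ} (hB : B ≠ 0) {v : ℤ × ℤ × ℤ} (hs : Sol A B v) (hp : Prim v) :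
    0 < Int.gcd v.1 v.2.1 ∧ ((Int.gcd v.1 v.2.1 : ℕ) : ℤ) ^ 2 ∣ B ∧
    IsCoprime (v.2.1 / (Int.gcd v.1 v.2.1 : ℕ)) (B / ((Int.gcd v.1 v.2.1 : ℕ) : ℤ) ^ 2) ∧
    (B / ((Int.gcd v.1 v.2.1 : ℕ) : ℤ) ^ 2) ∣ (v.1 / (Int.gcd v.1 v.2.1 : ℕ)) ^ 2
      - A * (v.2.1 / (Int.gcd v.1 v.2.1 : ℕ)) ^ 2 := by
  obtain ⟨h, q, κ⟩ := v
  simp only at *
  unfold Sol at hs
  simp only at hs
  set g : ℕ := Int.gcd h q with hg
  have hgh : (g : ℤ) ∣ h := Int.gcd_dvd_left ..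
  have hgq : (g : ℤ) ∣ q := Int.gcd_dvd_right ..
  have hg0 : 0 < g := by
    rcases Nat.eq_zero_or_pos g with h0 | h0
    · exfalso
      rw [h0] at hgh hgq
      have h1 : h = 0 := by simpa using hgh
      have h2 : q = 0 := by simpa using hgq
      rw [h1, h2] at hs
      have h3 : κ = 0 := by
        have : B * κ ^ 2 = 0 := by linarith
        rcases mul_eq_zero.mp this with h | h
        · exact absurd h hB
        · exact pow_eq_zero_iff (two_ne_zero) |>.mp h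
      have := hp 0 (by simp [h1]) (by simp [h2]) (by simp [h3])
      simp at this
    · exact h0
  have hgz : (g : ℤ) ≠ 0 := by exact_mod_cast hg0.ne'
  obtain ⟨h₁, hh₁⟩ := hgh
  obtain ⟨q₁, hq₁⟩ := hgq
  have hcop : IsCoprime h₁ q₁ := by
    rw [Int.isCoprime_iff_gcd_eq_one]
    have h1 : g = Int.gcd h q := hg
    rw [hh₁, hq₁, Int.gcd_mul_left] at h1
    simp only [Int.natAbs_natCast] at h1
    have h2 : g * 1 = g * Int.gcd h₁ q₁ := by rw [mul_one]; exact h1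
    exact (Nat.eq_of_mul_eq_mul_left hg0 h2).symm
  have hgκ : IsCoprime (g : ℤ) κ := by
    rw [Int.isCoprime_iff_gcd_eq_one]
    have h1 := hp (Int.gcd (g : ℤ) κ : ℕ)
      (((Int.gcd_dvd_left ..) : ((Int.gcd (g : ℤ) κ : ℕ) : ℤ) ∣ g).trans ⟨h₁, hh₁⟩)
      (((Int.gcd_dvd_left ..) : ((Int.gcd (g : ℤ) κ : ℕ) : ℤ) ∣ g).trans ⟨q₁, hq₁⟩)
      (Int.gcd_dvd_right ..)
    exact Int.ofNat_isUnit.mp h1 |> Nat.isUnit_iff.mp
  have hg2 : (g : ℤ) ^ 2 ∣ B := by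
    have h1 : (g : ℤ) ^ 2 ∣ B * κ ^ 2 := by
      refine ⟨h₁ ^ 2 - A * q₁ ^ 2, ?_⟩
      have : B * κ ^ 2 = h ^ 2 - A * q ^ 2 := by linarith
      rw [this, hh₁, hq₁]; ring
    exact (hgκ.pow (m := 2) (n := 2)).dvd_of_dvd_mul_right h1
  obtain ⟨B₁, hB₁⟩ := hg2
  have hB₁0 : B₁ ≠ 0 := by
    rintro rfl
    simp at hB₁
    exact hB hB₁
  have hdiv : B / (g : ℤ) ^ 2 = B₁ := by
    rw [hB₁]; exact Int.mul_ediv_cancel_left _ (pow_ne_zero 2 hgz)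
  have hdh : h / (g : ℤ) = h₁ := by rw [hh₁]; exact Int.mul_ediv_cancel_left _ hgz
  have hdq : q / (g : ℤ) = q₁ := by rw [hq₁]; exact Int.mul_ediv_cancel_left _ hgz
  have heq : h₁ ^ 2 - A * q₁ ^ 2 = B₁ * κ ^ 2 := by
    have h1 : (g : ℤ) ^ 2 * (h₁ ^ 2 - A * q₁ ^ 2) = (g : ℤ) ^ 2 * (B₁ * κ ^ 2) := by
      have : (g : ℤ) ^ 2 * (B₁ * κ ^ 2) = B * κ ^ 2 := by rw [hB₁]; ring
      rw [this]
      have h2 : B * κ ^ 2 = h ^ 2 - A * q ^ 2 := by linarith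
      rw [h2, hh₁, hq₁]; ring
    exact mul_left_cancel₀ (pow_ne_zero 2 hgz) h1
  rw [hdiv, hdh, hdq]
  refine ⟨hg0, ⟨B₁, hB₁⟩, ?_, ?_⟩
  · rw [Int.isCoprime_iff_gcd_eq_one]
    by_contra hne
    obtain ⟨p, hp1, hp2⟩ := Nat.exists_prime_and_dvd hne
    have hpq : (p : ℤ) ∣ q₁ := (Int.natCast_dvd_natCast.mpr hp2).trans (Int.gcd_dvd_left ..)
    have hpB : (p : ℤ) ∣ B₁ := (Int.natCast_dvd_natCast.mpr hp2).trans (Int.gcd_dvd_right ..)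
    have hph : (p : ℤ) ∣ h₁ ^ 2 := by
      have : h₁ ^ 2 = A * q₁ ^ 2 + B₁ * κ ^ 2 := by linarith
      rw [this]
      exact dvd_add ((dvd_pow hpq two_ne_zero).mul_left A) (hpB.mul_right _)
    have hph1 : (p : ℤ) ∣ h₁ := (Nat.prime_iff_prime_int.mp hp1).dvd_of_dvd_pow hph
    have hunit := hcop.isUnit_of_dvd' hph1 hpq
    have := Int.ofNat_isUnit.mp hunit |> Nat.isUnit_iff.mp
    exact hp1.one_lt.ne' this
  · exact ⟨κ ^ 2, heq⟩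

theorem labels_exist (A B : ℤ) (hB : B ≠ 0) (P : Set (ℤ × ℤ × ℤ))
    (hP : ∀ v ∈ P, Sol A B v ∧ Prim v) :
    ∃ (c : ℤ × ℤ × ℤ → ℕ × ℕ) (e : ℕ × ℕ → ℕ),
      (∀ v ∈ P, (c v).1 ∈ B.natAbs.divisors ∧ (c v).2 ∈ B.natAbs.divisors) ∧
      (∀ v ∈ P, (e (c v)) ^ 2 ∣ 4 * Int.gcd A B) ∧
      ∀ v ∈ P, ∀ w ∈ P, c v = c w → B ∣ (e (c v) : ℤ) * (v.1 * w.2.1 - w.1 * v.2.1) := by
  classical
  -- reference solutions
  have hexr : ∀ g : ℕ, ∃ r : ℤ × ℤ × ℤ, (∃ v ∈ P, Int.gcd v.1 v.2.1 = g) →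
      (r ∈ P ∧ Int.gcd r.1 r.2.1 = g) := by
    intro g
    by_cases h : ∃ v ∈ P, Int.gcd v.1 v.2.1 = g
    · obtain ⟨v, hv⟩ := h
      exact ⟨v, fun _ => hv⟩
    · exact ⟨0, fun h' => absurd h' h⟩
  choose r hr using hexr
  set G : ℤ × ℤ × ℤ → ℕ := fun v => Int.gcd v.1 v.2.1 with hG
  set M : ℤ × ℤ × ℤ → ℤ := fun v =>
    (v.1 / (G v : ℤ)) * ((r (G v)).2.1 / (G v : ℤ)) - ((r (G v)).1 / (G v : ℤ)) * (v.2.1 / (G v : ℤ)) with hM
  set c : ℤ × ℤ × ℤ → ℕ × ℕ := fun v => (G v, Int.gcd (B / (G v : ℤ) ^ 2) (M v)) with hc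
  set e : ℕ × ℕ → ℕ := fun t => eOf (B / (t.1 : ℤ) ^ 2) t.2 with he
  have hB₁0 : ∀ v ∈ P, B / (G v : ℤ) ^ 2 ≠ 0 := by
    intro v hv
    obtain ⟨f1, f2, f3, f4⟩ := prim_facts hB (hP v hv).1 (hP v hv).2
    intro h0
    have := Int.ediv_mul_cancel f2
    have h1 : B / ((Int.gcd v.1 v.2.1 : ℕ) : ℤ) ^ 2 = 0 := h0
    rw [h1, zero_mul] at this
    exact hB this.symm
  refine ⟨c, e, ?_, ?_, ?_⟩
  · intro v hv
    obtain ⟨f1, f2, f3, f4⟩ := prim_facts hB (hP v hv).1 (hP v hv).2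
    have hBn : B.natAbs ≠ 0 := Int.natAbs_ne_zero.mpr hB
    constructor
    · rw [Nat.mem_divisors]
      refine ⟨?_, hBn⟩
      have : (G v : ℤ) ∣ B := (dvd_pow_self _ two_ne_zero).trans f2
      exact Int.natCast_dvd.mp this
    · rw [Nat.mem_divisors]
      refine ⟨?_, hBn⟩
      have h1 : ((Int.gcd (B / (G v : ℤ) ^ 2) (M v) : ℕ) : ℤ) ∣ B / (G v : ℤ) ^ 2 := Int.gcd_dvd_left ..
      have h2 : B / (G v : ℤ) ^ 2 ∣ B := ⟨(G v : ℤ) ^ 2, (Int.ediv_mul_cancel f2).symm⟩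
      exact Int.natCast_dvd.mp (h1.trans h2)
  · intro v hv
    obtain ⟨f1, f2, f3, f4⟩ := prim_facts hB (hP v hv).1 (hP v hv).2
    obtain ⟨hr1, hr2⟩ := hr (G v) ⟨v, hv, rfl⟩
    obtain ⟨g1, g2, g3, g4⟩ := prim_facts hB (hP _ hr1).1 (hP _ hr1).2
    rw [hr2] at g3 g4
    have := eOf_sq A (B / (G v : ℤ) ^ 2) _ _ _ _ (hB₁0 v hv) g3 f3 g4 f4
    have h1 : ((e (c v) : ℕ) : ℤ) ^ 2 ∣ B := this.1.trans ⟨(G v : ℤ) ^ 2, (Int.ediv_mul_cancel f2).symm⟩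
    have h2 : ((e (c v) : ℕ) : ℤ) ^ 2 ∣ 4 * A := this.2
    have h3 : ((e (c v) : ℕ) : ℤ) ^ 2 ∣ ((4 * Int.gcd A B : ℕ) : ℤ) := by
      have h4 : ((e (c v) : ℕ) : ℤ) ^ 2 ∣ 4 * B := h1.mul_left 4
      have h5 : (((e (c v)) ^ 2 : ℕ) : ℤ) ∣ 4 * A := by push_cast; exact h2
      have h6 : (((e (c v)) ^ 2 : ℕ) : ℤ) ∣ 4 * B := by push_cast; exact h4
      have h7 := Int.dvd_coe_gcd h5 h6
      rw [Int.gcd_mul_left] at h7
      push_cast at h7 ⊢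
      simpa using h7
    exact_mod_cast h3
  · intro v hv w hw hcv
    obtain ⟨f1, f2, f3, f4⟩ := prim_facts hB (hP v hv).1 (hP v hv).2
    obtain ⟨f1', f2', f3', f4'⟩ := prim_facts hB (hP w hw).1 (hP w hw).2
    have hGG : G v = G w := congrArg Prod.fst hcv
    have hdd : Int.gcd (B / (G v : ℤ) ^ 2) (M v) = Int.gcd (B / (G w : ℤ) ^ 2) (M w) :=
      congrArg Prod.snd hcv
    obtain ⟨hr1, hr2⟩ := hr (G v) ⟨v, hv, rfl⟩
    obtain ⟨g1, g2, g3, g4⟩ := prim_facts hB (hP _ hr1).1 (hP _ hr1).2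
    rw [hr2] at g3 g4
    have hGw : Int.gcd w.1 w.2.1 = G v := hGG.symm
    rw [hGw] at f3' f4'
    rw [← hGG] at hdd
    have hMw : M w = (w.1 / (G v : ℤ)) * ((r (G v)).2.1 / (G v : ℤ))
        - ((r (G v)).1 / (G v : ℤ)) * (w.2.1 / (G v : ℤ)) := by
      rw [hM]; simp only; rw [← hGG]
    rw [hMw] at hdd
    have key := class_lemma A (B / (G v : ℤ) ^ 2) _ _ _ _ _ _ (hB₁0 v hv) g3 g4 f4 f4' hdd
    have hv1 : v.1 = (G v : ℤ) * (v.1 / (G v : ℤ)) := (Int.mul_ediv_cancel' (Int.gcd_dvd_left ..)).symm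
    have hv2 : v.2.1 = (G v : ℤ) * (v.2.1 / (G v : ℤ)) := (Int.mul_ediv_cancel' (Int.gcd_dvd_right ..)).symm
    have hw1 : w.1 = (G v : ℤ) * (w.1 / (G v : ℤ)) := by
      rw [hGG]; exact (Int.mul_ediv_cancel' (Int.gcd_dvd_left ..)).symm
    have hw2 : w.2.1 = (G v : ℤ) * (w.2.1 / (G v : ℤ)) := by
      rw [hGG]; exact (Int.mul_ediv_cancel' (Int.gcd_dvd_right ..)).symm
    have hBfac : B = (G v : ℤ) ^ 2 * (B / (G v : ℤ) ^ 2) := (Int.mul_ediv_cancel' f2).symm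
    have h1 : (G v : ℤ) ^ 2 * (B / (G v : ℤ) ^ 2) ∣ (G v : ℤ) ^ 2 * ((e (c v) : ℤ) *
        ((v.1 / (G v : ℤ)) * (w.2.1 / (G v : ℤ)) - (w.1 / (G v : ℤ)) * (v.2.1 / (G v : ℤ)))) :=
      mul_dvd_mul_left _ key
    rw [← hBfac] at h1
    have h2 : (G v : ℤ) ^ 2 * ((e (c v) : ℤ) *
        ((v.1 / (G v : ℤ)) * (w.2.1 / (G v : ℤ)) - (w.1 / (G v : ℤ)) * (v.2.1 / (G v : ℤ))))
        = (e (c v) : ℤ) * (((G v : ℤ) * (v.1 / (G v : ℤ))) * ((G v : ℤ) * (w.2.1 / (G v : ℤ)))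
          - ((G v : ℤ) * (w.1 / (G v : ℤ))) * ((G v : ℤ) * (v.2.1 / (G v : ℤ)))) := by ring
    rw [h2, ← hv1, ← hv2, ← hw1, ← hw2] at h1
    exact h1

end Pool.Agent.KeZhao
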