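import Pool.Agent.Lib.KeZhao.Estermann
import Pool.Agent.Lib.KeZhao.Divisor

/-! Siegel's lower bound for `L(1,χ)` with `χ` a real nontrivial Dirichlet character. -/

namespace Pool.Agent.KeZhao

open Complex Finset DirichletCharacter

theorem two_pow_card_primeFactors_le (n : ℕ) (hn : n ≠ 0) :
    2 ^ n.primeFactors.card ≤ n.divisors.card := by
  rw [Nat.card_divisors hn, ← Finset.prod_const]
  apply Finset.prod_le_prod'
  intro p hp
  have := (Nat.Prime.factorization_pos_of_dvd (Nat.prime_of_mem_primeFactors hp) hn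
    (Nat.dvd_of_mem_primeFactors hp))
  omega

/-- The Euler factor product relating the values at `1` at two levels. -/
theorem euler_product_bounds {M N : ℕ} {χ : DirichletCharacter ℂ M} (q : χ ^ 2 = 1) :
    ∃ x : ℝ, (∏ p ∈ N.primeFactors, (1 - χ (p : ZMod M) * (p : ℂ) ^ (-(1 : ℂ)))) = (x : ℂ) ∧
      ((1 : ℝ) / 2) ^ N.primeFactors.card ≤ x ∧ x ≤ 2 ^ N.primeFactors.card := by
  refine ⟨∏ p ∈ N.primeFactors, (1 - (χ (p : ZMod M)).re * (p : ℝ)⁻¹), ?_, ?_, ?_⟩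
  · push_cast
    apply Finset.prod_congr rfl
    intro p _
    rw [Complex.cpow_neg_one]
    congr 2
    apply Complex.ext
    · simp
    · rcases MulChar.isQuadratic_iff_sq_eq_one.mpr q p with h | h | h <;> simp [h]
  · rw [← Finset.prod_const]
    apply Finset.prod_le_prod
    · intro _ _; norm_num
    · intro p hp
      have hp2 : (2 : ℝ) ≤ p := by exact_mod_cast (Nat.prime_of_mem_primeFactors hp).two_le
      have hinv : (p : ℝ)⁻¹ ≤ 1 / 2 := by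
        rw [one_div]; exact inv_anti₀ (by norm_num) hp2
      have hinv0 : 0 ≤ (p : ℝ)⁻¹ := by positivity
      rcases MulChar.isQuadratic_iff_sq_eq_one.mpr q p with h | h | h <;> simp [h] <;> linarith
  · rw [← Finset.prod_const]
    apply Finset.prod_le_prod
    · intro p hp
      have hp2 : (2 : ℝ) ≤ p := by exact_mod_cast (Nat.prime_of_mem_primeFactors hp).two_le
      have hinv : (p : ℝ)⁻¹ ≤ 1 / 2 := by
        rw [one_div]; exact inv_anti₀ (by norm_num) hp2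
      have hinv0 : 0 ≤ (p : ℝ)⁻¹ := by positivity
      rcases MulChar.isQuadratic_iff_sq_eq_one.mpr q p with h | h | h <;> simp [h] <;> linarith
    · intro p hp
      have hp2 : (2 : ℝ) ≤ p := by exact_mod_cast (Nat.prime_of_mem_primeFactors hp).two_le
      have hinv : (p : ℝ)⁻¹ ≤ 1 / 2 := by
        rw [one_div]; exact inv_anti₀ (by norm_num) hp2
      have hinv0 : 0 ≤ (p : ℝ)⁻¹ := by positivity
      rcases MulChar.isQuadratic_iff_sq_eq_one.mpr q p with h | h | h <;> simp [h] <;> linarith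

/-- values at one of a character and of its extension to a larger level -/
theorem value_changeLevel {M N : ℕ} [NeZero M] [NeZero N] (hMN : M ∣ N)
    {χ : DirichletCharacter ℂ M} (h : χ ≠ 1) (q : χ ^ 2 = 1) :
    (LFunction χ 1).re * (1 / 2) ^ N.primeFactors.card ≤ (LFunction (changeLevel hMN χ) 1).re ∧
      (LFunction (changeLevel hMN χ) 1).re ≤ (LFunction χ 1).re * 2 ^ N.primeFactors.card := by
  obtain ⟨x, hx, hx1, hx2⟩ := euler_product_bounds (N := N) q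
  have h3 := LFunction_changeLevel hMN χ (s := 1) (Or.inl h)
  rw [hx] at h3
  have h4 : (LFunction (changeLevel hMN χ) 1).re = (LFunction χ 1).re * x := by
    rw [h3, mul_comm, Complex.re_ofReal_mul, mul_comm]
  have hpos := LFunction_one_re_pos h q
  rw [h4]
  exact ⟨mul_le_mul_of_nonneg_left hx1 hpos.le, mul_le_mul_of_nonneg_left hx2 hpos.le⟩

theorem tripL_one_re {N : ℕ} [NeZero N] {χ₁ χ₂ : DirichletCharacter ℂ N} (h1 : χ₁ ≠ 1)
    (h2 : χ₂ ≠ 1) (h12 : χ₁ * χ₂ ≠ 1) (q1 : χ₁ ^ 2 = 1) (q2 : χ₂ ^ 2 = 1) :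
    (tripL χ₁ χ₂ 1).re
      = (LFunction χ₁ 1).re * (LFunction χ₂ 1).re * (LFunction (χ₁ * χ₂) 1).re := by
  have q12 : (χ₁ * χ₂) ^ 2 = 1 := by rw [mul_pow, q1, q2, one_mul]
  have a1 := LFunction_im_eq_zero h1 q1 (x := 1) one_pos
  have a2 := LFunction_im_eq_zero h2 q2 (x := 1) one_pos
  have a3 := LFunction_im_eq_zero h12 q12 (x := 1) one_pos
  rw [Complex.ofReal_one] at a1 a2 a3
  unfold tripL
  simp [Complex.mul_im, Complex.mul_re, a1, a2, a3]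

/-- Either way there is a fixed real character and a point close to `1` at which all the
four-fold products are nonpositive. -/
theorem exists_good_pair (η : ℝ) (hη : 0 < η) (N₀ : ℕ) [NeZero N₀] (χ₀ : DirichletCharacter ℂ N₀)
    (hχ₀ : χ₀ ≠ 1) (qχ₀ : χ₀ ^ 2 = 1) :
    ∃ (N₁ : ℕ) (_ : NeZero N₁) (χ₁ : DirichletCharacter ℂ N₁) (β : ℝ), χ₁ ≠ 1 ∧ χ₁ ^ 2 = 1 ∧
      7 / 8 ≤ β ∧ 1 - η ≤ β ∧ β < 1 ∧
      ∀ (N₂ : ℕ) [NeZero N₂] (χ₂ : DirichletCharacter ℂ N₂), χ₂ ≠ 1 → χ₂ ^ 2 = 1 →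
        changeLevel (Nat.dvd_mul_right N₁ N₂) χ₁ * changeLevel (Nat.dvd_mul_left N₂ N₁) χ₂ ≠ 1 →
        (riemannZeta (β : ℂ) * tripL (changeLevel (Nat.dvd_mul_right N₁ N₂) χ₁)
          (changeLevel (Nat.dvd_mul_left N₂ N₁) χ₂) (β : ℂ)).re ≤ 0 := by
  -- a left neighbourhood of `1` on which `(s-1) ζ(s)` does not vanish
  obtain ⟨δ, hδ, hball⟩ : ∃ δ > 0, ∀ s : ℂ, ‖s - 1‖ < δ → zetaE s ≠ 0 := by
    have hc := zetaE_differentiable.continuous.continuousAt (x := 1)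
    have hne : zetaE 1 ≠ 0 := by rw [zetaE_one]; exact one_ne_zero
    have := hc.eventually_ne hne
    rw [Metric.eventually_nhds_iff] at this
    obtain ⟨δ, hδ, h⟩ := this
    exact ⟨δ, hδ, fun s hs => h (by rw [dist_eq_norm]; exact hs)⟩
  set s₀ : ℝ := 1 - min (min η (1 / 8)) (δ / 2) with hs₀
  have hs1 : s₀ < 1 := by
    have : 0 < min (min η (1 / 8)) (δ / 2) := by positivity
    linarith
  have hsη : 1 - η ≤ s₀ := by
    have := (min_le_left (min η (1 / 8)) (δ / 2)).trans (min_le_left _ _)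
    linarith
  have hs78 : 7 / 8 ≤ s₀ := by
    have := (min_le_left (min η (1 / 8)) (δ / 2)).trans (min_le_right _ _)
    linarith
  have hsδ : 1 - s₀ < δ := by
    have := min_le_right (min η (1 / 8)) (δ / 2)
    linarith
  have hzne : ∀ x : ℝ, s₀ ≤ x → x ≤ 1 → zetaE (x : ℂ) ≠ 0 := by
    intro x hx1 hx2
    apply hball
    have : (x : ℂ) - 1 = ((x - 1 : ℝ) : ℂ) := by push_cast; rfl
    rw [this, Complex.norm_real, Real.norm_eq_abs, abs_lt]
    constructor <;> linarith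
  by_cases hA : ∃ (N₁ : ℕ) (_ : NeZero N₁) (χ₁ : DirichletCharacter ℂ N₁) (β : ℝ), χ₁ ≠ 1 ∧
      χ₁ ^ 2 = 1 ∧ s₀ ≤ β ∧ β < 1 ∧ LFunction χ₁ (β : ℂ) = 0
  · obtain ⟨N₁, i₁, χ₁, β, h1, q1, hβ0, hβ1, hzero⟩ := hA
    refine ⟨N₁, i₁, χ₁, β, h1, q1, by linarith, by linarith, hβ1, ?_⟩
    intro N₂ _ χ₂ h2 q2 h12
    have : LFunction (changeLevel (Nat.dvd_mul_right N₁ N₂) χ₁) (β : ℂ) = 0 := by
      rw [LFunction_changeLevel _ χ₁ (Or.inl h1), hzero, zero_mul]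
    unfold tripL
    rw [this]
    simp
  · push Not at hA
    refine ⟨N₀, inferInstance, χ₀, s₀, hχ₀, qχ₀, hs78, hsη, hs1, ?_⟩
    intro N₂ _ χ₂ h2 q2 h12
    set ψ₁ := changeLevel (Nat.dvd_mul_right N₀ N₂) χ₀ with hψ₁
    set ψ₂ := changeLevel (Nat.dvd_mul_left N₂ N₀) χ₂ with hψ₂
    have hψ1 : ψ₁ ≠ 1 := fun h => hχ₀ ((changeLevel_eq_one_iff _).mp h)
    have hψ2 : ψ₂ ≠ 1 := fun h => h2 ((changeLevel_eq_one_iff _).mp h)
    have qψ1 : ψ₁ ^ 2 = 1 := by rw [hψ₁, ← map_pow, qχ₀, map_one]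
    have qψ2 : ψ₂ ^ 2 = 1 := by rw [hψ₂, ← map_pow, q2, map_one]
    have qψ12 : (ψ₁ * ψ₂) ^ 2 = 1 := by rw [mul_pow, qψ1, qψ2, one_mul]
    -- the real function
    set Q : ℂ → ℂ := fun s => zetaE s * tripL ψ₁ ψ₂ s with hQ
    have hQd : Differentiable ℂ Q := zetaE_differentiable.mul (tripL_differentiable hψ1 hψ2 h12)
    have hQc : Continuous (fun x : ℝ => (Q (x : ℂ)).re) :=
      Complex.continuous_re.comp (hQd.continuous.comp Complex.continuous_ofReal)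
    have hQ1 : 0 < (Q ((1 : ℝ) : ℂ)).re := by
      rw [Complex.ofReal_one, hQ]
      simp only [zetaE_one, one_mul]
      rw [tripL_one_re hψ1 hψ2 h12 qψ1 qψ2]
      have b1 := LFunction_one_re_pos hψ1 qψ1
      have b2 := LFunction_one_re_pos hψ2 qψ2
      have b3 := LFunction_one_re_pos h12 qψ12
      positivity
    have hQform : ∀ x : ℝ, x ≠ 1 → Q (x : ℂ) = ((x - 1 : ℝ) : ℂ) * (riemannZeta x * tripL ψ₁ ψ₂ x) := by
      intro x hx
      have hxc : (x : ℂ) ≠ 1 := by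
        intro h
        apply hx
        exact_mod_cast h
      rw [hQ]
      simp only
      rw [zetaE_of_ne hxc]
      push_cast
      ring
    have hQH : ∀ x : ℝ, x ≠ 1 → Q (x : ℂ) = ((x - 1 : ℝ) : ℂ) * Hfun ψ₁ ψ₂ x + tripL ψ₁ ψ₂ 1 := by
      intro x hx
      have hxc : (x : ℂ) ≠ 1 := by
        intro h
        apply hx
        exact_mod_cast h
      rw [hQform x hx, Hfun_of_ne ψ₁ ψ₂ hxc]
      have : (x : ℂ) - 1 ≠ 0 := sub_ne_zero.mpr hxc
      push_cast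
      field_simp
      ring
    have hQim : ∀ x : ℝ, s₀ ≤ x → x < 1 → (Q (x : ℂ)).im = 0 := by
      intro x hx1 hx2
      rw [hQH x hx2.ne, Complex.add_im, Complex.im_ofReal_mul,
        Hfun_im hψ1 hψ2 h12 qψ1 qψ2 (by linarith) hx2]
      have := tripL_one_im hψ1 hψ2 h12 qψ1 qψ2 (x := 1) one_pos
      rw [Complex.ofReal_one] at this
      rw [this]; simp
    have hQne : ∀ x : ℝ, s₀ ≤ x → x < 1 → (Q (x : ℂ)).re ≠ 0 := by
      intro x hx1 hx2 hre
      have h0 : Q (x : ℂ) = 0 := Complex.ext hre (hQim x hx1 hx2)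
      rw [hQ] at h0
      simp only at h0
      rcases mul_eq_zero.mp h0 with h | h
      · exact hzne x hx1 hx2.le h
      · unfold tripL at h
        rcases mul_eq_zero.mp h with h | h
        · rcases mul_eq_zero.mp h with h | h
          · exact hA _ inferInstance ψ₁ x hψ1 qψ1 hx1 hx2 h
          · exact hA _ inferInstance ψ₂ x hψ2 qψ2 hx1 hx2 h
        · exact hA _ inferInstance (ψ₁ * ψ₂) x h12 qψ12 hx1 hx2 h
    have hQpos : 0 < (Q (s₀ : ℂ)).re := by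
      by_contra hcon
      push Not at hcon
      have hivt := intermediate_value_Icc hs1.le hQc.continuousOn
      have h0mem : (0 : ℝ) ∈ Set.Icc ((Q (s₀ : ℂ)).re) ((Q ((1 : ℝ) : ℂ)).re) := ⟨hcon, hQ1.le⟩
      obtain ⟨x, hx, hx0⟩ := hivt h0mem
      rcases hx.2.lt_or_eq with h | h
      · exact hQne x hx.1 h hx0
      · rw [h] at hx0
        simp only at hx0
        linarith
    rw [hQform s₀ hs1.ne, Complex.re_ofReal_mul] at hQpos
    by_contra hcon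
    push Not at hcon
    have : (s₀ - 1) * (riemannZeta (s₀ : ℂ) * tripL ψ₁ ψ₂ (s₀ : ℂ)).re ≤ 0 :=
      mul_nonpos_of_nonpos_of_nonneg (by linarith) hcon.le
    linarith

/-- **Siegel's theorem** for real nontrivial Dirichlet characters of arbitrary level. -/
theorem siegel (ε : ℝ) (hε : 0 < ε) : ∃ c : ℝ, 0 < c ∧ ∀ (N : ℕ) [NeZero N]
    (χ : DirichletCharacter ℂ N), χ ≠ 1 → χ ^ 2 = 1 →
    c * (N : ℝ) ^ (-ε) ≤ (LFunction χ 1).re := by
  by_cases hex : ∃ (N₀ : ℕ) (_ : NeZero N₀) (χ₀ : DirichletCharacter ℂ N₀), χ₀ ≠ 1 ∧ χ₀ ^ 2 = 1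
  swap
  · push Not at hex
    refine ⟨1, one_pos, ?_⟩
    intro N _ χ h q
    exact absurd q (hex N inferInstance χ h)
  obtain ⟨N₀, _, χ₀, h0, q0⟩ := hex
  obtain ⟨N₁, i₁, χ₁, β, h1, q1, hβ78, hβη, hβ1, hgood⟩ :=
    exists_good_pair (ε / 48) (by positivity) N₀ χ₀ h0 q0
  obtain ⟨c₀, hc₀, hest⟩ := estermann
  obtain ⟨Cd, hCd1, hCd⟩ := divisor_bound (ε / 8) (by positivity)
  set A : ℝ := 3 + 8 / ε with hA
  have hA0 : 0 < A := by positivity
  have hL1 := LFunction_one_re_pos h1 q1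
  have hb0 : 0 < 1 - β := by linarith
  have hN₁ : (1 : ℝ) ≤ N₁ := by exact_mod_cast Nat.pos_of_ne_zero (NeZero.ne N₁)
  set m : ℝ := min ((LFunction χ₁ 1).re / Cd ^ 2) (c₀ * (1 - β) / (A ^ 2 * Cd)) with hm
  have hm0 : 0 < m := by
    rw [hm]
    apply lt_min
    · positivity
    · positivity
  refine ⟨m * (N₁ : ℝ) ^ (-ε), by positivity, ?_⟩
  intro N₂ _ χ₂ h2 q2
  have hN₂ : (1 : ℝ) ≤ N₂ := by exact_mod_cast Nat.pos_of_ne_zero (NeZero.ne N₂)
  set N : ℕ := N₁ * N₂ with hN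
  have hNc : (N : ℝ) = N₁ * N₂ := by rw [hN]; push_cast; ring
  have hN1 : (1 : ℝ) ≤ N := by rw [hNc]; nlinarith
  have hNpos : 0 < N := by exact_mod_cast (lt_of_lt_of_le one_pos hN1)
  have hgoal : m * (N : ℝ) ^ (-ε) ≤ (LFunction χ₂ 1).re →
      m * (N₁ : ℝ) ^ (-ε) * (N₂ : ℝ) ^ (-ε) ≤ (LFunction χ₂ 1).re := by
    intro h
    rw [hNc, Real.mul_rpow (by linarith) (by linarith), ← mul_assoc] at h
    exact h
  apply hgoal
  set ψ₁ := changeLevel (Nat.dvd_mul_right N₁ N₂) χ₁ with hψ₁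
  set ψ₂ := changeLevel (Nat.dvd_mul_left N₂ N₁) χ₂ with hψ₂
  have hψ1 : ψ₁ ≠ 1 := fun h => h1 ((changeLevel_eq_one_iff _).mp h)
  have hψ2 : ψ₂ ≠ 1 := fun h => h2 ((changeLevel_eq_one_iff _).mp h)
  have qψ1 : ψ₁ ^ 2 = 1 := by rw [hψ₁, ← map_pow, q1, map_one]
  have qψ2 : ψ₂ ^ 2 = 1 := by rw [hψ₂, ← map_pow, q2, map_one]
  have hL2 := LFunction_one_re_pos h2 q2
  -- the number of prime factors
  have hω : (2 : ℝ) ^ N.primeFactors.card ≤ Cd * (N : ℝ) ^ (ε / 8) := by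
    have h3 := two_pow_card_primeFactors_le N hNpos.ne'
    have h4 := hCd N hNpos
    have h5 : ((2 ^ N.primeFactors.card : ℕ) : ℝ) ≤ (N.divisors.card : ℝ) := by exact_mod_cast h3
    push_cast at h5
    linarith
  have hω0 : (0 : ℝ) < (2 : ℝ) ^ N.primeFactors.card := by positivity
  have hv1 := value_changeLevel (Nat.dvd_mul_right N₁ N₂) h1 q1
  have hv2 := value_changeLevel (Nat.dvd_mul_left N₂ N₁) h2 q2
  rw [← hψ₁] at hv1
  rw [← hψ₂] at hv2
  have hNe8 : (1 : ℝ) ≤ (N : ℝ) ^ (ε / 8) := Real.one_le_rpow hN1 (by positivity)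
  by_cases h12 : ψ₁ * ψ₂ = 1
  · have heq : ψ₂ = ψ₁ := by
      have h3 : ψ₁ * ψ₁ = 1 := by rw [← pow_two]; exact qψ1
      calc ψ₂ = (ψ₁ * ψ₁) * ψ₂ := by rw [h3, one_mul]
        _ = ψ₁ * (ψ₁ * ψ₂) := by rw [mul_assoc]
        _ = ψ₁ := by rw [h12, mul_one]
    rw [heq] at hv2
    have h4 : (LFunction χ₁ 1).re * (1 / 2) ^ N.primeFactors.card
        ≤ (LFunction χ₂ 1).re * 2 ^ N.primeFactors.card := hv1.1.trans hv2.2
    have h5 : (LFunction χ₁ 1).re ≤ (LFunction χ₂ 1).re * (Cd * (N : ℝ) ^ (ε / 8)) ^ 2 := by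
      have h6 : (LFunction χ₁ 1).re = (LFunction χ₁ 1).re * (1 / 2) ^ N.primeFactors.card
          * 2 ^ N.primeFactors.card := by
        rw [mul_assoc, ← mul_pow]; norm_num
      rw [h6]
      calc (LFunction χ₁ 1).re * (1 / 2) ^ N.primeFactors.card * 2 ^ N.primeFactors.card
          ≤ (LFunction χ₂ 1).re * 2 ^ N.primeFactors.card * 2 ^ N.primeFactors.card :=
            mul_le_mul_of_nonneg_right h4 hω0.le
        _ = (LFunction χ₂ 1).re * (2 ^ N.primeFactors.card) ^ 2 := by ring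
        _ ≤ (LFunction χ₂ 1).re * (Cd * (N : ℝ) ^ (ε / 8)) ^ 2 := by
            apply mul_le_mul_of_nonneg_left _ hL2.le
            exact pow_le_pow_left₀ hω0.le hω 2
    have h7 : (N : ℝ) ^ (-ε) * ((N : ℝ) ^ (ε / 8)) ^ 2 ≤ 1 := by
      rw [← Real.rpow_natCast, ← Real.rpow_mul (by linarith), ← Real.rpow_add (by linarith)]
      apply Real.rpow_le_one_of_one_le_of_nonpos hN1
      push_cast; linarith
    calc m * (N : ℝ) ^ (-ε) ≤ ((LFunction χ₁ 1).re / Cd ^ 2) * (N : ℝ) ^ (-ε) :=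
          mul_le_mul_of_nonneg_right (min_le_left _ _) (by positivity)
      _ ≤ ((LFunction χ₂ 1).re * (Cd * (N : ℝ) ^ (ε / 8)) ^ 2 / Cd ^ 2) * (N : ℝ) ^ (-ε) := by
          apply mul_le_mul_of_nonneg_right _ (by positivity)
          exact div_le_div_of_nonneg_right h5 (by positivity)
      _ = (LFunction χ₂ 1).re * ((N : ℝ) ^ (-ε) * ((N : ℝ) ^ (ε / 8)) ^ 2) := by
          field_simp
      _ ≤ (LFunction χ₂ 1).re * 1 := mul_le_mul_of_nonneg_left h7 hL2.le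
      _ = _ := mul_one _
  · have qψ12 : (ψ₁ * ψ₂) ^ 2 = 1 := by rw [mul_pow, qψ1, qψ2, one_mul]
    have h3 := hest N ψ₁ ψ₂ hψ1 hψ2 h12 qψ1 qψ2 β hβ78 hβ1 (hgood N₂ χ₂ h2 q2 h12)
    rw [tripL_one_re hψ1 hψ2 h12 qψ1 qψ2] at h3
    have hlog : 3 + Real.log N ≤ A * (N : ℝ) ^ (ε / 8) := by
      have h4 := Real.log_le_rpow_div (x := (N : ℝ)) (by linarith) (ε := ε / 8) (by positivity)
      rw [hA]
      have h5 : (N : ℝ) ^ (ε / 8) / (ε / 8) = 8 / ε * (N : ℝ) ^ (ε / 8) := by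
        field_simp
      rw [h5] at h4
      nlinarith
    have hre : ∀ {χ : DirichletCharacter ℂ N}, χ ≠ 1 → (LFunction χ 1).re ≤ A * (N : ℝ) ^ (ε / 8) := by
      intro χ hχ
      exact ((Complex.re_le_norm _).trans (norm_LFunction_one_le hχ)).trans hlog
    have hp1 := LFunction_one_re_pos hψ1 qψ1
    have hp2 := LFunction_one_re_pos hψ2 qψ2
    have hp12 := LFunction_one_re_pos h12 qψ12
    have h6 : (LFunction ψ₁ 1).re * (LFunction ψ₂ 1).re * (LFunction (ψ₁ * ψ₂) 1).re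
        ≤ (A * (N : ℝ) ^ (ε / 8)) * ((LFunction χ₂ 1).re * (Cd * (N : ℝ) ^ (ε / 8))) * (A * (N : ℝ) ^ (ε / 8)) := by
      apply mul_le_mul _ (hre h12) hp12.le (by positivity)
      apply mul_le_mul (hre hψ1) _ hp2.le (by positivity)
      exact hv2.2.trans (mul_le_mul_of_nonneg_left hω hL2.le)
    have h7 : (N : ℝ) ^ (-(ε / 4)) ≤ (N : ℝ) ^ (-(12 * (1 - β))) := by
      apply Real.rpow_le_rpow_of_exponent_le hN1
      linarith
    have h8 : c₀ * (1 - β) * (N : ℝ) ^ (-(ε / 4)) ≤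
        (A * (N : ℝ) ^ (ε / 8)) * ((LFunction χ₂ 1).re * (Cd * (N : ℝ) ^ (ε / 8))) * (A * (N : ℝ) ^ (ε / 8)) := by
      have h9 : c₀ * (1 - β) * (N : ℝ) ^ (-(ε / 4)) ≤ c₀ * (1 - β) * (N : ℝ) ^ (-(12 * (1 - β))) :=
        mul_le_mul_of_nonneg_left h7 (by positivity)
      linarith
    have hrel : (N : ℝ) ^ (-(ε / 4)) * (N : ℝ) ^ (-(3 * ε / 8)) = (N : ℝ) ^ (-(5 * ε / 8)) := by
      rw [← Real.rpow_add (by linarith)]; congr 1; ring
    have hrel2 : ((N : ℝ) ^ (ε / 8)) ^ 3 * (N : ℝ) ^ (-(3 * ε / 8)) = 1 := by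
      rw [← Real.rpow_natCast, ← Real.rpow_mul (by linarith), ← Real.rpow_add (by linarith)]
      have : ε / 8 * ((3 : ℕ) : ℝ) + -(3 * ε / 8) = 0 := by push_cast; ring
      rw [this, Real.rpow_zero]
    have h10 : c₀ * (1 - β) * (N : ℝ) ^ (-(5 * ε / 8)) ≤ A ^ 2 * Cd * (LFunction χ₂ 1).re := by
      have h11 := mul_le_mul_of_nonneg_right h8
        (show (0 : ℝ) ≤ (N : ℝ) ^ (-(3 * ε / 8)) by positivity)
      rw [mul_assoc (c₀ * (1 - β)), hrel] at h11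
      refine h11.trans (le_of_eq ?_)
      calc (A * (N : ℝ) ^ (ε / 8)) * ((LFunction χ₂ 1).re * (Cd * (N : ℝ) ^ (ε / 8)))
            * (A * (N : ℝ) ^ (ε / 8)) * (N : ℝ) ^ (-(3 * ε / 8))
          = A ^ 2 * Cd * (LFunction χ₂ 1).re * (((N : ℝ) ^ (ε / 8)) ^ 3 * (N : ℝ) ^ (-(3 * ε / 8))) := by ring
        _ = _ := by rw [hrel2, mul_one]
    have h12' : (N : ℝ) ^ (-ε) ≤ (N : ℝ) ^ (-(5 * ε / 8)) := by
      apply Real.rpow_le_rpow_of_exponent_le hN1
      linarith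
    calc m * (N : ℝ) ^ (-ε) ≤ (c₀ * (1 - β) / (A ^ 2 * Cd)) * (N : ℝ) ^ (-(5 * ε / 8)) := by
          apply mul_le_mul (min_le_right _ _) h12' (by positivity) (by positivity)
      _ = (c₀ * (1 - β) * (N : ℝ) ^ (-(5 * ε / 8))) / (A ^ 2 * Cd) := by ring
      _ ≤ (A ^ 2 * Cd * (LFunction χ₂ 1).re) / (A ^ 2 * Cd) :=
          div_le_div_of_nonneg_right h10 (by positivity)
      _ = (LFunction χ₂ 1).re := by field_simp

end Pool.Agent.KeZhao
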