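import Pool.Agent.Lib.KeZhao.Support
import Pool.Agent.Lib.KeZhao.Siegel
import Pool.Agent.Lib.KeZhao.Forms
import Pool.Agent.Lib.KeZhao.Cover

/-! Lower bound for the number of forms. -/

namespace Pool.Agent.KeZhao

open Finset DirichletCharacter

theorem nonsquare_of_mod {n : ℕ} (h : n % 4 = 2 ∨ n % 4 = 3) : ¬ IsSquare n := by
  rintro ⟨r, hr⟩
  have h1 : r % 4 = 0 ∨ r % 4 = 1 ∨ r % 4 = 2 ∨ r % 4 = 3 := by omega
  rcases h1 with h1 | h1 | h1 | h1 <;> · rw [hr, Nat.mul_mod, h1] at h; omega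

/-- the support of `1*χ` up to `K` -/
theorem support_count {n : ℕ} [NeZero n] (h : n % 4 = 2 ∨ n % 4 = 3) (K : ℕ) (hK : 0 < K) :
    (((Finset.Ioc 0 K).filter (fun k => (chi n).zetaMul k ≠ 0)).card : ℝ)
      ≤ (Roots n).card * (Nat.sqrt K + (7 / 4) * ((K / Real.sqrt n) * (3 + 2 * Real.log K))) := by
  classical
  have hn := nonsquare_of_mod h
  set NZ := (Finset.Ioc 0 K).filter (fun k => (chi n).zetaMul k ≠ 0) with hNZ
  have hn0 : 0 < n := Nat.pos_of_ne_zero (NeZero.ne n)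
  have hn1 : (1 : ℝ) ≤ n := by exact_mod_cast hn0
  have hσ0 : 0 < Real.sqrt n := Real.sqrt_pos.mpr (by linarith)
  have hK1 : (1 : ℝ) ≤ K := by exact_mod_cast hK
  have hex : ∀ k : ℕ, ∃ c q : ℕ, k ∈ NZ → (0 < c ∧ 0 < q ∧ c ^ 2 * q = k ∧ ∃ r : ℤ, (q : ℤ) ∣ r ^ 2 - n) := by
    intro k
    by_cases hk : k ∈ NZ
    · obtain ⟨h1, h2⟩ := mem_filter.mp hk
      obtain ⟨c, q, hcq⟩ := support_zetaMul n (mem_Ioc.mp h1).1 h2
      exact ⟨c, q, fun _ => hcq⟩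
    · exact ⟨0, 0, fun h' => absurd h' hk⟩
  choose c q hcq using hex
  have hmaps : ∀ k ∈ NZ, c k ∈ Finset.Ioc 0 (Nat.sqrt K) := by
    intro k hk
    obtain ⟨h1, h2, h3, -⟩ := hcq k hk
    rw [mem_Ioc]
    refine ⟨h1, ?_⟩
    rw [Nat.le_sqrt]
    have h4 : k ≤ K := (mem_Ioc.mp (mem_filter.mp hk).1).2
    have h5 : c k ^ 2 * 1 ≤ c k ^ 2 * q k := Nat.mul_le_mul_left _ h2
    nlinarith
  have hfib : ∀ d ∈ Finset.Ioc 0 (Nat.sqrt K), ((NZ.filter (fun k => c k = d)).card : ℝ)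
      ≤ (Roots n).card * (1 + (K / Real.sqrt n) * (3 + 2 * Real.log K) * (1 / (d : ℝ) ^ 2)) := by
    intro d hd
    rw [mem_Ioc] at hd
    have hd2 : 0 < d ^ 2 := by
      have := hd.1
      positivity
    have hcard : (NZ.filter (fun k => c k = d)).card ≤ (Qset n (K / d ^ 2)).card := by
      apply card_le_card_of_injOn q
      · intro k hk
        rw [mem_coe, mem_filter] at hk
        obtain ⟨h1, h2, h3, h4⟩ := hcq k hk.1
        rw [mem_coe, mem_Qset]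
        refine ⟨⟨h2, ?_⟩, h4⟩
        rw [Nat.le_div_iff_mul_le hd2]
        have h5 : k ≤ K := (mem_Ioc.mp (mem_filter.mp hk.1).1).2
        rw [hk.2] at h3
        linarith [h3, mul_comm (d ^ 2) (q k)]
      · intro k hk k' hk' hqq
        rw [mem_coe, mem_filter] at hk hk'
        obtain ⟨h1, h2, h3, h4⟩ := hcq k hk.1
        obtain ⟨g1, g2, g3, g4⟩ := hcq k' hk'.1
        rw [← h3, ← g3, hk.2, hk'.2, hqq]
    have hY : 1 ≤ K / d ^ 2 := by
      rw [Nat.one_le_div_iff hd2]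
      have := Nat.le_sqrt.mp hd.2
      nlinarith
    have htr := transfer_count hn (K / d ^ 2) hY
    have h6 : ((K / d ^ 2 : ℕ) : ℝ) ≤ K / (d : ℝ) ^ 2 := by
      have := Nat.cast_div_le (α := ℝ) (m := K) (n := d ^ 2)
      push_cast at this
      exact this
    have hdr : (1 : ℝ) ≤ (d : ℝ) ^ 2 := by
      have : (1 : ℝ) ≤ d := by exact_mod_cast hd.1
      nlinarith
    have h7 : ((K / d ^ 2 : ℕ) : ℝ) ≤ K := by
      refine h6.trans (div_le_self (by linarith) hdr)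
    have h8 : Real.log ((K / d ^ 2 : ℕ) : ℝ) ≤ Real.log K :=
      Real.log_le_log (by exact_mod_cast hY) h7
    have h8' : 0 ≤ Real.log ((K / d ^ 2 : ℕ) : ℝ) := Real.log_nonneg (by exact_mod_cast hY)
    calc ((NZ.filter (fun k => c k = d)).card : ℝ) ≤ ((Qset n (K / d ^ 2)).card : ℝ) := by exact_mod_cast hcard
      _ ≤ (Roots n).card * (1 + (((K / d ^ 2 : ℕ) : ℝ) / Real.sqrt n) * (3 + 2 * Real.log ((K / d ^ 2 : ℕ) : ℝ))) := htr
      _ ≤ (Roots n).card * (1 + ((K / (d : ℝ) ^ 2) / Real.sqrt n) * (3 + 2 * Real.log K)) := by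
          apply mul_le_mul_of_nonneg_left _ (by positivity)
          have h9 : ((K / d ^ 2 : ℕ) : ℝ) / Real.sqrt n ≤ (K / (d : ℝ) ^ 2) / Real.sqrt n :=
            div_le_div_of_nonneg_right h6 hσ0.le
          have h10 : (((K / d ^ 2 : ℕ) : ℝ) / Real.sqrt n) * (3 + 2 * Real.log ((K / d ^ 2 : ℕ) : ℝ))
              ≤ ((K / (d : ℝ) ^ 2) / Real.sqrt n) * (3 + 2 * Real.log K) := by
            apply mul_le_mul h9 (by linarith) (by linarith) (by positivity)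
          linarith
      _ = _ := by ring
  have hsum := card_eq_sum_card_fiberwise (s := NZ) (t := Finset.Ioc 0 (Nat.sqrt K)) (f := c) hmaps
  have hsumr : (NZ.card : ℝ) = ∑ d ∈ Finset.Ioc 0 (Nat.sqrt K), ((NZ.filter (fun k => c k = d)).card : ℝ) := by
    rw [hsum]; push_cast; rfl
  rw [hsumr]
  refine (sum_le_sum hfib).trans ?_
  rw [← mul_sum]
  apply mul_le_mul_of_nonneg_left _ (by positivity)
  rw [sum_add_distrib, ← mul_sum, sum_const, Nat.card_Ioc, nsmul_eq_mul, mul_one]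
  have h11 : ∑ d ∈ Finset.Ioc 0 (Nat.sqrt K), 1 / (d : ℝ) ^ 2 ≤ 7 / 4 := by
    have h12 : Finset.Ioc 0 (Nat.sqrt K) = (Finset.range (Nat.sqrt K)).image (fun k => k + 1) := by
      ext x
      simp only [mem_Ioc, mem_image, mem_range]
      constructor
      · intro h; exact ⟨x - 1, by omega, by omega⟩
      · rintro ⟨a, h, rfl⟩; omega
    rw [h12, Finset.sum_image (by intro a _ b _ h; simpa using h)]
    have := sum_inv_sq_le (Nat.sqrt K)
    push_cast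
    exact this
  have h13 : 0 ≤ (K / Real.sqrt n) * (3 + 2 * Real.log K) := by
    have := Real.log_nonneg hK1
    positivity
  have h14 : (((Nat.sqrt K - 0 : ℕ)) : ℝ) = Nat.sqrt K := by simp
  rw [h14]
  nlinarith [mul_le_mul_of_nonneg_left h11 h13]

theorem roots_lower (ε : ℝ) (hε : 0 < ε) (hε1 : ε ≤ 1) : ∃ c : ℝ, 0 < c ∧ ∃ N₀ : ℕ, ∀ n : ℕ, N₀ ≤ n →
    (n % 4 = 2 ∨ n % 4 = 3) → c * (n : ℝ) ^ (1 / 2 - ε) ≤ (Roots n).card := by
  obtain ⟨c₀, hc₀, hsiegel⟩ := siegel (ε / 4) (by positivity)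
  obtain ⟨C₂, hC₂1, hdiv⟩ := divisor_bound (ε / 16) (by positivity)
  set c₁ : ℝ := c₀ * (4 : ℝ) ^ (-(ε / 4)) with hc₁
  have hc₁0 : 0 < c₁ := by positivity
  set C₃ : ℝ := 7 + 56 / ε with hC₃
  have hC₃0 : 0 < C₃ := by positivity
  obtain ⟨N₀, hN₀⟩ := exists_nat_gt ((34 / c₁) ^ 2)
  refine ⟨c₁ / (2 * C₂ * C₃), by positivity, max N₀ 2, ?_⟩
  intro n hnN hmod
  have hn2 : 2 ≤ n := le_trans (le_max_right _ _) hnN
  have hnN₀ : N₀ ≤ n := le_trans (le_max_left _ _) hnN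
  haveI : NeZero n := ⟨by omega⟩
  have hn0 : (0 : ℝ) < n := by
    have : 0 < n := by omega
    exact_mod_cast this
  have hn1 : (1 : ℝ) ≤ n := by
    have : 1 ≤ n := by omega
    exact_mod_cast this
  have hχ := chi_ne_one hmod
  have hq := chi_sq n
  set L := (LFunction (chi n) 1).re with hL
  have hLlow : c₁ * (n : ℝ) ^ (-(ε / 4)) ≤ L := by
    have h1 := hsiegel (4 * n) (chi n) hχ hq
    have h2 : ((4 * n : ℕ) : ℝ) = 4 * (n : ℝ) := by push_cast; ring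
    rw [h2, Real.mul_rpow (by norm_num) hn0.le, ← mul_assoc] at h1
    exact h1
  have hKpos : 0 < n ^ 4 := by positivity
  have hsum := summatory_lower hχ (n ^ 2) (n ^ 4) (by positivity)
    (Nat.pow_lt_pow_right (by omega) (by norm_num))
  -- upper bound for the summatory function
  set W : ℝ := C₂ * (n : ℝ) ^ (ε / 4) with hW
  have hW0 : 0 < W := by positivity
  have hdW : ∀ k ∈ Finset.Ioc 0 (n ^ 4), (k.divisors.card : ℝ) ≤ W := by
    intro k hk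
    rw [mem_Ioc] at hk
    refine (hdiv k hk.1).trans ?_
    have h1 : (k : ℝ) ≤ (n : ℝ) ^ 4 := by exact_mod_cast hk.2
    have h2 : ((n : ℝ) ^ 4) ^ (ε / 16) = (n : ℝ) ^ (ε / 4) := by
      rw [← Real.rpow_natCast, ← Real.rpow_mul hn0.le]
      congr 1
      push_cast
      ring
    rw [hW, ← h2]
    apply mul_le_mul_of_nonneg_left _ (by linarith)
    exact Real.rpow_le_rpow (by positivity) h1 (by positivity)
  have hup : ∑ k ∈ Finset.Ioc 0 (n ^ 4), ((chi n).zetaMul k).re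
      ≤ W * (((Finset.Ioc 0 (n ^ 4)).filter (fun k => (chi n).zetaMul k ≠ 0)).card : ℝ) := by
    classical
    rw [← sum_filter_add_sum_filter_not (Finset.Ioc 0 (n ^ 4)) (fun k => (chi n).zetaMul k ≠ 0)]
    have h1 : ∑ k ∈ (Finset.Ioc 0 (n ^ 4)).filter (fun k => ¬ (chi n).zetaMul k ≠ 0), ((chi n).zetaMul k).re = 0 := by
      apply sum_eq_zero
      intro k hk
      rw [mem_filter] at hk
      have := hk.2
      push Not at this
      rw [this]; simp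
    rw [h1, add_zero]
    calc _ ≤ ∑ k ∈ (Finset.Ioc 0 (n ^ 4)).filter (fun k => (chi n).zetaMul k ≠ 0), W := by
          apply sum_le_sum
          intro k hk
          exact (zetaMul_re_le n k).trans (hdW k (mem_filter.mp hk).1)
      _ = _ := by rw [sum_const, nsmul_eq_mul, mul_comm]
  have hsup := support_count hmod (n ^ 4) hKpos
  have hsqrt4 : Nat.sqrt (n ^ 4) = n ^ 2 := by
    have : n ^ 4 = (n ^ 2) * (n ^ 2) := by ring
    rw [this, Nat.sqrt_eq]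
  rw [hsqrt4] at hsup
  push_cast at hsup hsum
  set R : ℝ := ((Roots n).card : ℝ) with hR
  have hR0 : 0 ≤ R := by positivity
  -- rewriting powers
  have hs12 : Real.sqrt n = (n : ℝ) ^ (1 / 2 : ℝ) := Real.sqrt_eq_rpow _
  have hdivs : (n : ℝ) ^ 4 / Real.sqrt n = (n : ℝ) ^ (7 / 2 : ℝ) := by
    rw [hs12, ← Real.rpow_natCast, ← Real.rpow_sub hn0]
    norm_num
  have hn2le : (n : ℝ) ^ 2 ≤ (n : ℝ) ^ (7 / 2 : ℝ) := by
    rw [← Real.rpow_natCast]
    apply Real.rpow_le_rpow_of_exponent_le hn1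
    norm_num
  have hlog4 : Real.log ((n : ℝ) ^ 4) = 4 * Real.log n := by
    rw [Real.log_pow]; push_cast; ring
  have hlog0 : 0 ≤ Real.log n := Real.log_nonneg hn1
  have hlogle : 7 + 14 * Real.log n ≤ C₃ * (n : ℝ) ^ (ε / 4) := by
    have h1 := Real.log_le_rpow_div hn0.le (show 0 < ε / 4 by positivity)
    have h2 : (1 : ℝ) ≤ (n : ℝ) ^ (ε / 4) := Real.one_le_rpow hn1 (by positivity)
    have h3 : (n : ℝ) ^ (ε / 4) / (ε / 4) = 4 / ε * (n : ℝ) ^ (ε / 4) := by field_simp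
    rw [h3] at h1
    rw [hC₃]
    have h4 : (56 : ℝ) / ε = 14 * (4 / ε) := by ring
    rw [h4]
    nlinarith
  have hsup2 : (((Finset.Ioc 0 (n ^ 4)).filter (fun k => (chi n).zetaMul k ≠ 0)).card : ℝ)
      ≤ R * ((n : ℝ) ^ (7 / 2 : ℝ) * (C₃ * (n : ℝ) ^ (ε / 4))) := by
    refine hsup.trans ?_
    apply mul_le_mul_of_nonneg_left _ hR0
    rw [hdivs, hlog4]
    have h72 : 0 ≤ (n : ℝ) ^ (7 / 2 : ℝ) := by positivity
    calc (n : ℝ) ^ 2 + 7 / 4 * ((n : ℝ) ^ (7 / 2 : ℝ) * (3 + 2 * (4 * Real.log n)))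
        ≤ (n : ℝ) ^ (7 / 2 : ℝ) + 7 / 4 * ((n : ℝ) ^ (7 / 2 : ℝ) * (3 + 2 * (4 * Real.log n))) := by linarith
      _ = (n : ℝ) ^ (7 / 2 : ℝ) * (1 + 7 / 4 * (3 + 8 * Real.log n)) := by ring
      _ ≤ (n : ℝ) ^ (7 / 2 : ℝ) * (7 + 14 * Real.log n) := by
          apply mul_le_mul_of_nonneg_left _ h72
          linarith
      _ ≤ _ := mul_le_mul_of_nonneg_left hlogle h72
  -- lower bound
  have herr : (n : ℝ) ^ 2 + 4 * (4 * n) * (n : ℝ) ^ 4 / (n : ℝ) ^ 2 ≤ 17 * (n : ℝ) ^ 3 := by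
    have h1 : 4 * (4 * (n : ℝ)) * (n : ℝ) ^ 4 / (n : ℝ) ^ 2 = 16 * (n : ℝ) ^ 3 := by
      field_simp
      ring
    rw [h1]
    nlinarith [pow_pos hn0 2]
  have hbigN : 17 * (n : ℝ) ^ 3 ≤ (c₁ / 2) * (n : ℝ) ^ (4 - ε / 4) := by
    have h1 : (34 / c₁) ≤ (n : ℝ) ^ (1 / 2 : ℝ) := by
      have h2 : (34 / c₁) ^ 2 ≤ (n : ℝ) := by
        have : (N₀ : ℝ) ≤ n := by exact_mod_cast hnN₀
        linarith
      rw [← hs12]
      exact Real.le_sqrt_of_sq_le h2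
    have h3 : (n : ℝ) ^ (4 - ε / 4) ≥ (n : ℝ) ^ 3 * (n : ℝ) ^ (1 / 2 : ℝ) := by
      rw [← Real.rpow_natCast, ← Real.rpow_add hn0]
      apply Real.rpow_le_rpow_of_exponent_le hn1
      push_cast
      linarith
    have h4 : 17 * (n : ℝ) ^ 3 = (c₁ / 2) * ((n : ℝ) ^ 3 * (34 / c₁)) := by
      field_simp
      norm_num
    rw [h4]
    apply mul_le_mul_of_nonneg_left _ (by positivity)
    refine le_trans ?_ h3
    exact mul_le_mul_of_nonneg_left h1 (by positivity)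
  have hmainlow : (c₁ / 2) * (n : ℝ) ^ (4 - ε / 4) ≤ ∑ k ∈ Finset.Ioc 0 (n ^ 4), ((chi n).zetaMul k).re := by
    refine le_trans ?_ hsum
    have h1 : c₁ * (n : ℝ) ^ (4 - ε / 4) ≤ (n : ℝ) ^ 4 * L := by
      have h2 : c₁ * (n : ℝ) ^ (4 - ε / 4) = (n : ℝ) ^ 4 * (c₁ * (n : ℝ) ^ (-(ε / 4))) := by
        have h3 : (n : ℝ) ^ (4 - ε / 4) = (n : ℝ) ^ 4 * (n : ℝ) ^ (-(ε / 4)) := by
          rw [← Real.rpow_natCast, ← Real.rpow_add hn0]
          congr 1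
        rw [h3]; ring
      rw [h2]
      exact mul_le_mul_of_nonneg_left hLlow (by positivity)
    linarith
  have hfinal : (c₁ / 2) * (n : ℝ) ^ (4 - ε / 4)
      ≤ W * (R * ((n : ℝ) ^ (7 / 2 : ℝ) * (C₃ * (n : ℝ) ^ (ε / 4)))) :=
    (hmainlow.trans hup).trans (mul_le_mul_of_nonneg_left hsup2 hW0.le)
  -- divide
  have hcomb : W * (R * ((n : ℝ) ^ (7 / 2 : ℝ) * (C₃ * (n : ℝ) ^ (ε / 4))))
      = (C₂ * C₃ * R) * (n : ℝ) ^ (7 / 2 + ε / 2) := by
    have h1 : (n : ℝ) ^ (7 / 2 + ε / 2) = (n : ℝ) ^ (ε / 4) * ((n : ℝ) ^ (7 / 2 : ℝ) * (n : ℝ) ^ (ε / 4)) := by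
      rw [← Real.rpow_add hn0, ← Real.rpow_add hn0]
      congr 1
      ring
    rw [h1, hW]; ring
  rw [hcomb] at hfinal
  have hsplit : (n : ℝ) ^ (4 - ε / 4) = (n : ℝ) ^ (1 / 2 - 3 * ε / 4) * (n : ℝ) ^ (7 / 2 + ε / 2) := by
    rw [← Real.rpow_add hn0]
    congr 1
    ring
  rw [hsplit, ← mul_assoc] at hfinal
  have hfin2 : c₁ / 2 * (n : ℝ) ^ (1 / 2 - 3 * ε / 4) ≤ C₂ * C₃ * R :=
    le_of_mul_le_mul_right hfinal (by positivity)
  have hexp : (n : ℝ) ^ (1 / 2 - ε) ≤ (n : ℝ) ^ (1 / 2 - 3 * ε / 4) := by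
    apply Real.rpow_le_rpow_of_exponent_le hn1
    linarith
  calc c₁ / (2 * C₂ * C₃) * (n : ℝ) ^ (1 / 2 - ε)
      ≤ c₁ / (2 * C₂ * C₃) * (n : ℝ) ^ (1 / 2 - 3 * ε / 4) := mul_le_mul_of_nonneg_left hexp (by positivity)
    _ = (c₁ / 2 * (n : ℝ) ^ (1 / 2 - 3 * ε / 4)) / (C₂ * C₃) := by
        field_simp
    _ ≤ (C₂ * C₃ * R) / (C₂ * C₃) := div_le_div_of_nonneg_right hfin2 (by positivity)
    _ = R := by field_simp

/-- from roots to forms -/
theorem roots_le_forms {n : ℕ} (hmod : n % 4 = 2 ∨ n % 4 = 3) :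
    (Roots n).card ≤ 2 * (Forms n).card := by
  classical
  set RO := (Roots n).filter (fun p : ℕ × ℕ => _root_.Odd p.1) with hRO
  set RE := (Roots n).filter (fun p : ℕ × ℕ => ¬ _root_.Odd p.1) with hRE
  have hsplit : (Roots n).card = RO.card + RE.card := (card_filter_add_card_filter_not _).symm
  have h1 : RO.card ≤ (Forms n).card := by
    set a : ℤ := (Nat.sqrt n : ℤ) with ha
    apply card_le_card_of_injOn (fun p => ((a - (a - (p.2 : ℤ)) % (p.1 : ℤ)), (p.1 : ℤ)))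
    · rintro ⟨m, r⟩ hp
      rw [mem_coe, mem_filter, mem_Roots] at hp
      obtain ⟨⟨h1, h2, h3, h4⟩, h5⟩ := hp
      simp only at h1 h2 h3 h4 h5
      have hm0 : (0 : ℤ) < m := by exact_mod_cast h2
      have hma : (m : ℤ) ≤ a := by rw [ha]; exact_mod_cast h1
      set e := (a - (r : ℤ)) % (m : ℤ) with he
      have he0 : 0 ≤ e := Int.emod_nonneg _ hm0.ne'
      have helt : e < m := Int.emod_lt_of_pos _ hm0
      rw [mem_coe]
      unfold Forms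
      rw [mem_filter, mem_product, mem_Icc, mem_Icc]
      simp only
      refine ⟨⟨⟨by omega, by omega⟩, by omega, hma⟩, ?_, by omega, ?_⟩
      · exact_mod_cast h5
      · have h6 : a - e = r + m * ((a - r) / m) := by
          have := Int.emod_add_mul_ediv (a - (r : ℤ)) m
          rw [he]; linarith
        have h7 : (n : ℤ) - (a - e) ^ 2 = -((r : ℤ) ^ 2 - n) - m * (((a - r) / m) * (2 * r + m * ((a - r) / m))) := by
          rw [h6]; ring
        rw [h7]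
        exact dvd_sub (dvd_neg.mpr h4) (dvd_mul_right _ _)
    · rintro ⟨m, r⟩ hp ⟨m', r'⟩ hp' hpp
      rw [mem_coe, mem_filter, mem_Roots] at hp hp'
      obtain ⟨⟨h1, h2, h3, h4⟩, h5⟩ := hp
      obtain ⟨⟨g1, g2, g3, g4⟩, g5⟩ := hp'
      simp only at h1 h2 h3 h4 h5 g1 g2 g3 g4 g5
      simp only [Prod.mk.injEq] at hpp
      obtain ⟨e1, e2⟩ := hpp
      have hmm : m = m' := by exact_mod_cast e2
      subst hmm
      have e3 : (a - (r : ℤ)) % m = (a - (r' : ℤ)) % m := by linarith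
      have e4 : (m : ℤ) ∣ (r : ℤ) - r' := by
        have h := Int.emod_emod_of_dvd (a - (r : ℤ)) (dvd_refl (m : ℤ))
        have h' := (Int.emod_eq_emod_iff_emod_sub_eq_zero.mp e3)
        have h'' : (m : ℤ) ∣ (a - (r : ℤ)) - (a - (r' : ℤ)) := Int.dvd_of_emod_eq_zero h'
        have : (r : ℤ) - r' = -((a - (r : ℤ)) - (a - (r' : ℤ))) := by ring
        rw [this]; exact dvd_neg.mpr h''
      have e5 : |(r : ℤ) - r'| < m := by
        rw [abs_lt]; constructor <;> omega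
      have e6 := Int.eq_zero_of_abs_lt_dvd e4 e5
      have : r = r' := by omega
      rw [this]
  have h2 : RE.card ≤ RO.card := by
    have hhalf : ∀ p ∈ RE, ∃ m₁ : ℕ, p.1 = 2 * m₁ ∧ _root_.Odd m₁ := by
      rintro ⟨m, r⟩ hp
      rw [mem_filter, mem_Roots] at hp
      obtain ⟨⟨h1, h2, h3, h4⟩, h5⟩ := hp
      simp only at *
      rw [Nat.not_odd_iff_even] at h5
      obtain ⟨m₁, hm₁⟩ := h5
      refine ⟨m₁, by omega, ?_⟩
      by_contra hcon
      rw [Nat.not_odd_iff_even] at hcon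
      obtain ⟨m₂, hm₂⟩ := hcon
      have h6 : (4 : ℤ) ∣ (r : ℤ) ^ 2 - n := by
        refine Dvd.dvd.trans ⟨m₂, ?_⟩ h4
        rw [hm₁, hm₂]; push_cast; ring
      have h7 : ((r : ℤ) ^ 2) % 4 = (n : ℤ) % 4 := Int.emod_eq_emod_iff_emod_sub_eq_zero.mpr (Int.emod_eq_zero_of_dvd h6)
      have h8 : (r : ℤ) % 4 = 0 ∨ (r : ℤ) % 4 = 1 ∨ (r : ℤ) % 4 = 2 ∨ (r : ℤ) % 4 = 3 := by omega
      have h9 : (n : ℤ) % 4 = 2 ∨ (n : ℤ) % 4 = 3 := by omega
      rcases h8 with h8 | h8 | h8 | h8 <;> · rw [pow_two, Int.mul_emod, h8] at h7; omega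
    apply card_le_card_of_injOn (fun p => (p.1 / 2, ((p.2 : ℤ) % ((p.1 / 2 : ℕ) : ℤ)).toNat))
    · rintro ⟨m, r⟩ hp
      rw [mem_coe] at hp
      obtain ⟨m₁, hm₁, hodd⟩ := hhalf _ hp
      rw [mem_filter, mem_Roots] at hp
      obtain ⟨⟨h1, h2, h3, h4⟩, h5⟩ := hp
      simp only at *
      have hdiv : m / 2 = m₁ := by omega
      rw [hdiv, mem_coe, mem_filter]
      refine ⟨?_, hodd⟩
      apply root_mod (by omega) (by omega)
      refine Dvd.dvd.trans ⟨2, ?_⟩ h4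
      rw [hm₁]; push_cast; ring
    · rintro ⟨m, r⟩ hp ⟨m', r'⟩ hp' hpp
      rw [mem_coe] at hp hp'
      obtain ⟨m₁, hm₁, hodd⟩ := hhalf _ hp
      obtain ⟨m₁', hm₁', hodd'⟩ := hhalf _ hp'
      rw [mem_filter, mem_Roots] at hp hp'
      obtain ⟨⟨h1, h2, h3, h4⟩, h5⟩ := hp
      obtain ⟨⟨g1, g2, g3, g4⟩, g5⟩ := hp'
      simp only at *
      simp only [Prod.mk.injEq] at hpp
      obtain ⟨e1, e2⟩ := hpp
      have hdiv : m / 2 = m₁ := by omega
      have hdiv' : m' / 2 = m₁' := by omega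
      have hmm : m₁ = m₁' := by omega
      subst hmm
      have hmm' : m = m' := by omega
      subst hmm'
      rw [hdiv] at e2
      have hm₁0 : (0 : ℤ) < m₁ := by
        have : 0 < m₁ := by omega
        exact_mod_cast this
      have p1 : 0 ≤ (r : ℤ) % m₁ := Int.emod_nonneg _ hm₁0.ne'
      have p2 : 0 ≤ (r' : ℤ) % m₁ := Int.emod_nonneg _ hm₁0.ne'
      have e3 : (r : ℤ) % m₁ = (r' : ℤ) % m₁ := by omega
      have e4 : (m₁ : ℤ) ∣ (r : ℤ) - r' :=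
        Int.dvd_of_emod_eq_zero (Int.emod_eq_emod_iff_emod_sub_eq_zero.mp e3)
      have e5 : (2 : ℤ) ∣ (r : ℤ) - r' := by
        have f1 : (2 : ℤ) ∣ (r : ℤ) ^ 2 - n := Dvd.dvd.trans ⟨m₁, by rw [hm₁]; push_cast; ring⟩ h4
        have f2 : (2 : ℤ) ∣ (r' : ℤ) ^ 2 - n := Dvd.dvd.trans ⟨m₁, by rw [hm₁]; push_cast; ring⟩ g4
        have f3 : (2 : ℤ) ∣ (r : ℤ) ^ 2 - (r' : ℤ) ^ 2 := by
          have : (r : ℤ) ^ 2 - (r' : ℤ) ^ 2 = ((r : ℤ) ^ 2 - n) - ((r' : ℤ) ^ 2 - n) := by ring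
          rw [this]; exact dvd_sub f1 f2
        have f4 : (r : ℤ) ^ 2 - (r' : ℤ) ^ 2 = ((r : ℤ) - r') * ((r : ℤ) - r') + 2 * (r' * ((r : ℤ) - r')) := by ring
        rw [f4] at f3
        have f5 : (2 : ℤ) ∣ ((r : ℤ) - r') * ((r : ℤ) - r') := (dvd_add_left (dvd_mul_right _ _)).mp f3
        rcases Int.prime_two.dvd_or_dvd f5 with h | h <;> exact h
      have hcop : IsCoprime (2 : ℤ) (m₁ : ℤ) := by
        have : Nat.Coprime 2 m₁ := (Nat.coprime_two_left).mpr hodd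
        exact_mod_cast Nat.isCoprime_iff_coprime.mpr this
      have e6 : (2 : ℤ) * m₁ ∣ (r : ℤ) - r' := hcop.mul_dvd e5 e4
      have e7 : |(r : ℤ) - r'| < 2 * m₁ := by
        rw [abs_lt]; constructor <;> omega
      have e8 := Int.eq_zero_of_abs_lt_dvd e6 e7
      have : r = r' := by omega
      rw [this]
  omega

end Pool.Agent.KeZhao
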