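import Pool.Agent.Lib.KeZhao.Conic

/-! Counting primitive points on a conic in a box. -/

namespace Pool.Agent.KeZhao

open Finset

theorem exp_le_one_add_two_mul {t : ℝ} (h1 : t ≤ 1 / 2) (h0 : 0 ≤ t) : Real.exp t ≤ 1 + 2 * t := by
  have h2 : 1 - t ≤ Real.exp (-t) := by
    have := Real.add_one_le_exp (-t)
    linarith
  have h3 : Real.exp t * Real.exp (-t) = 1 := by
    rw [← Real.exp_add, add_neg_cancel, Real.exp_zero]
  have h4 : 0 < Real.exp t := Real.exp_pos t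
  have h5 : Real.exp t * (1 - t) ≤ 1 := by
    have := mul_le_mul_of_nonneg_left h2 h4.le
    linarith
  nlinarith

theorem cell_close {J a b : ℝ} (hJ : 2 ≤ J) (ha : 0 < a) (hb : 0 < b)
    (h : ⌊J * Real.log a⌋ = ⌊J * Real.log b⌋) : a ≤ b * (1 + 2 / J) := by
  have h1 : J * Real.log a < ⌊J * Real.log a⌋ + 1 := Int.lt_floor_add_one _
  have h2 : (⌊J * Real.log b⌋ : ℝ) ≤ J * Real.log b := Int.floor_le _
  rw [h] at h1
  have h3 : Real.log a ≤ Real.log b + 1 / J := by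
    have hJ0 : 0 < J := by linarith
    have h4 : J * (Real.log a - Real.log b) < 1 := by linarith
    have h5 : Real.log a - Real.log b < 1 / J := by
      rw [lt_div_iff₀ hJ0]; linarith
    linarith
  have h6 : a ≤ b * Real.exp (1 / J) := by
    calc a = Real.exp (Real.log a) := (Real.exp_log ha).symm
      _ ≤ Real.exp (Real.log b + 1 / J) := Real.exp_le_exp.mpr h3
      _ = b * Real.exp (1 / J) := by rw [Real.exp_add, Real.exp_log hb]
  have hJ0 : 0 < J := by linarith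
  have h7 := exp_le_one_add_two_mul (t := 1 / J) (by
    apply div_le_div_of_nonneg_left (by norm_num) (by norm_num) hJ) (by positivity)
  calc a ≤ b * Real.exp (1 / J) := h6
    _ ≤ b * (1 + 2 * (1 / J)) := mul_le_mul_of_nonneg_left h7 hb.le
    _ = b * (1 + 2 / J) := by ring

/-- normalised first coordinate -/
noncomputable def yOf (n : ℕ) (v : ℤ × ℤ × ℤ) : ℝ := ((v.1 : ℝ) - 2 * Real.sqrt n * v.2.1) / v.2.2

/-- the box condition -/
def Box (n : ℕ) (δ : ℤ) (v : ℤ × ℤ × ℤ) : Prop :=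
  Sol (4 * n - δ) δ v ∧ 0 < v.2.2 ∧ ((v.2.2 : ℝ) < Real.sqrt n) ∧ |v.2.1| < v.2.2 ∧
    (|(δ : ℝ)| ≤ Real.sqrt n * |yOf n v|) ∧ |yOf n v| ≤ Real.sqrt n

theorem fiber_bound {n : ℕ} (hn : 0 < n) {δ : ℤ} (hδ0 : δ ≠ 0) (hδ : |(δ : ℝ)| ≤ Real.sqrt n)
    {u v w : ℤ × ℤ × ℤ} (bu : Box n δ u) (bv : Box n δ v) (bw : Box n δ w)
    (pu : Prim u) (pv : Prim v) (pw : Prim w) (huv : u ≠ v) (huw : u ≠ w) (hvw : v ≠ w)
    (eA eB : ℕ)
    (b1 : δ ∣ (eB : ℤ) * (u.1 * v.2.1 - v.1 * u.2.1))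
    (b2 : δ ∣ (eB : ℤ) * (u.1 * w.2.1 - w.1 * u.2.1))
    (b3 : δ ∣ (eB : ℤ) * (v.1 * w.2.1 - w.1 * v.2.1))
    (a1 : (4 * n - δ) ∣ (eA : ℤ) * (u.1 * v.2.2 - v.1 * u.2.2))
    (a2 : (4 * n - δ) ∣ (eA : ℤ) * (u.1 * w.2.2 - w.1 * u.2.2))
    (a3 : (4 * n - δ) ∣ (eA : ℤ) * (v.1 * w.2.2 - w.1 * v.2.2))
    (hA4 : eA ^ 2 ∣ 4 * Int.gcd (4 * n - δ) δ) (hB4 : eB ^ 2 ∣ 4 * Int.gcd (4 * n - δ) δ)
    (su : (0 < yOf n u ∧ 0 < yOf n v ∧ 0 < yOf n w) ∨ (yOf n u < 0 ∧ yOf n v < 0 ∧ yOf n w < 0))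
    (cv : ⌊(3 * (Int.gcd (4 * n - δ) δ : ℝ)) * Real.log |yOf n u|⌋
      = ⌊(3 * (Int.gcd (4 * n - δ) δ : ℝ)) * Real.log |yOf n v|⌋)
    (cw : ⌊(3 * (Int.gcd (4 * n - δ) δ : ℝ)) * Real.log |yOf n u|⌋
      = ⌊(3 * (Int.gcd (4 * n - δ) δ : ℝ)) * Real.log |yOf n w|⌋) : False := by
  set s := Real.sqrt n with hs
  have hs2 : s ^ 2 = n := Real.sq_sqrt (Nat.cast_nonneg n)
  have hn1 : (1 : ℝ) ≤ n := by exact_mod_cast hn
  have hs1 : 1 ≤ s := by
    rw [hs]; exact Real.one_le_sqrt.mpr hn1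
  have hs0 : 0 < s := by linarith
  set D := Int.gcd (4 * (n : ℤ) - δ) δ with hD
  have hδn : |(δ : ℝ)| ≤ n := by nlinarith
  have hA : (4 * (n : ℤ) - δ) ≠ 0 := by
    intro h
    have h1 : (4 * (n : ℝ) - δ) = 0 := by exact_mod_cast h
    have h2 := le_abs_self (δ : ℝ)
    linarith
  have hD0 : 0 < D := Int.gcd_pos_of_ne_zero_left _ hA
  have hD1 : (1 : ℝ) ≤ D := by exact_mod_cast hD0
  set J : ℝ := 3 * (D : ℝ) with hJ
  have hJ3 : 3 ≤ J := by rw [hJ]; linarith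
  obtain ⟨su1, ku, kus, qu, du, yu⟩ := bu
  obtain ⟨sv1, kv, kvs, qv, dv, yv⟩ := bv
  obtain ⟨sw1, kw, kws, qw, dw, yw⟩ := bw
  rw [← hs] at kus kvs kws du dv dw yu yv yw
  have hdet := det_ne_zero hA hδ0 su1 sv1 sw1 pu pv pw ku kv kw huv huw hvw
  have hlow := det_lower hA u v w eA eB hdet b1 b2 b3 a1 a2 a3 hA4 hB4
  -- nonvanishing
  have hδabs : 0 < |(δ : ℝ)| := abs_pos.mpr (by exact_mod_cast hδ0)
  have yu0 : 0 < |yOf n u| := by
    by_contra hcon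
    push Not at hcon
    nlinarith [abs_nonneg (yOf n u)]
  have yv0 : 0 < |yOf n v| := by
    by_contra hcon
    push Not at hcon
    nlinarith [abs_nonneg (yOf n v)]
  have yw0 : 0 < |yOf n w| := by
    by_contra hcon
    push Not at hcon
    nlinarith [abs_nonneg (yOf n w)]
  -- auxiliary quantities
  set z : ℤ × ℤ × ℤ → ℝ := fun t => ((t.1 : ℝ) + 2 * s * t.2.1) / t.2.2 with hz
  set θ : ℤ × ℤ × ℤ → ℝ := fun t => (t.2.1 : ℝ) / t.2.2 with hθ
  have hrel1 : ∀ t : ℤ × ℤ × ℤ, 0 < t.2.2 → z t - yOf n t = 4 * s * θ t := by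
    intro t ht
    have htr : (0 : ℝ) < t.2.2 := by exact_mod_cast ht
    rw [hz, hθ]
    unfold yOf
    simp only
    rw [← hs]
    field_simp
    ring
  have hrel2 : ∀ t : ℤ × ℤ × ℤ, 0 < t.2.2 → |t.2.1| < t.2.2 → |θ t| < 1 := by
    intro t ht hq
    have htr : (0 : ℝ) < t.2.2 := by exact_mod_cast ht
    rw [hθ]
    simp only
    rw [abs_div, abs_of_pos htr, div_lt_one htr]
    exact_mod_cast hq
  have hrel3 : ∀ t : ℤ × ℤ × ℤ, 0 < t.2.2 → Sol (4 * n - δ) δ t → yOf n t * z t = δ * (1 - θ t ^ 2) := by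
    intro t ht hsol
    have htr : (0 : ℝ) < t.2.2 := by exact_mod_cast ht
    unfold Sol at hsol
    have hsolr : (t.1 : ℝ) ^ 2 = (4 * n - δ) * (t.2.1 : ℝ) ^ 2 + δ * (t.2.2 : ℝ) ^ 2 := by exact_mod_cast hsol
    rw [hz, hθ]
    unfold yOf
    simp only
    rw [← hs]
    field_simp
    rw [← hs2] at hsolr
    linarith [hsolr, show ((t.1 : ℝ) - 2 * s * t.2.1) * (t.1 + 2 * s * t.2.1) = (t.1 : ℝ) ^ 2 - 4 * s ^ 2 * (t.2.1 : ℝ) ^ 2 by ring]
  -- the smallest |y|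
  set Y := min |yOf n u| (min |yOf n v| |yOf n w|) with hY
  have hY0 : 0 < Y := lt_min yu0 (lt_min yv0 yw0)
  have hYu : Y ≤ |yOf n u| := min_le_left _ _
  have hYv : Y ≤ |yOf n v| := (min_le_right _ _).trans (min_le_left _ _)
  have hYw : Y ≤ |yOf n w| := (min_le_right _ _).trans (min_le_right _ _)
  have hYs : Y ≤ s := hYu.trans yu
  have close : ∀ a b : ℝ, 0 < a → 0 < b → ⌊J * Real.log a⌋ = ⌊J * Real.log b⌋ → a ≤ b * (1 + 2 / J) :=
    fun a b ha hb h => cell_close (by linarith) ha hb h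
  have cvw := cv.symm.trans cw
  have hup : ∀ a : ℝ, 0 < a → ⌊J * Real.log a⌋ = ⌊J * Real.log |yOf n u|⌋ → a ≤ Y * (1 + 2 / J) := by
    intro a ha h
    rw [hY]
    rcases min_choice |yOf n u| (min |yOf n v| |yOf n w|) with h1 | h1
    · rw [h1]; exact close a _ ha yu0 h
    · rw [h1]
      rcases min_choice |yOf n v| |yOf n w| with h2 | h2
      · rw [h2]; exact close a _ ha yv0 (h.trans cv)
      · rw [h2]; exact close a _ ha yw0 (h.trans cw)
  have uu := hup _ yu0 rfl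
  have uv := hup _ yv0 cv.symm
  have uw := hup _ yw0 cw.symm
  have hdist : ∀ a b : ℝ, ((0 < a ∧ 0 < b) ∨ (a < 0 ∧ b < 0)) → Y ≤ |a| → |a| ≤ Y * (1 + 2 / J) →
      Y ≤ |b| → |b| ≤ Y * (1 + 2 / J) → |a - b| ≤ 2 * Y / J := by
    intro a b hab h1 h2 h3 h4
    have e : Y * (1 + 2 / J) = Y + 2 * Y / J := by ring
    rw [e] at h2 h4
    rcases hab with ⟨ha, hb⟩ | ⟨ha, hb⟩
    · rw [abs_of_pos ha] at h1 h2
      rw [abs_of_pos hb] at h3 h4
      rw [abs_le]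
      constructor <;> linarith
    · rw [abs_of_neg ha] at h1 h2
      rw [abs_of_neg hb] at h3 h4
      rw [abs_le]
      constructor <;> linarith
  have duv : |yOf n u - yOf n v| ≤ 2 * Y / J := by
    apply hdist _ _ _ hYu uu hYv uv
    rcases su with h | h
    · exact Or.inl ⟨h.1, h.2.1⟩
    · exact Or.inr ⟨h.1, h.2.1⟩
  have duw : |yOf n u - yOf n w| ≤ 2 * Y / J := by
    apply hdist _ _ _ hYu uu hYw uw
    rcases su with h | h
    · exact Or.inl ⟨h.1, h.2.2⟩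
    · exact Or.inr ⟨h.1, h.2.2⟩
  have hana := ana_three s δ J Y (yOf n u) (yOf n v) (yOf n w) (z u) (z v) (z w) (θ u) (θ v) (θ w)
    hs0 (by linarith) hY0 hYs (hrel1 u ku) (hrel1 v kv) (hrel1 w kw) (hrel2 u ku qu) (hrel2 v kv qv)
    (hrel2 w kw qw) (hrel3 u ku su1) (hrel3 v kv sv1) (hrel3 w kw sw1) du hYu hYv hYw duv duw
  have kur : (0 : ℝ) < u.2.2 := by exact_mod_cast ku
  have kvr : (0 : ℝ) < v.2.2 := by exact_mod_cast kv
  have kwr : (0 : ℝ) < w.2.2 := by exact_mod_cast kw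
  have hdetr : (det3 u v w : ℝ) * (4 * s) = u.2.2 * v.2.2 * w.2.2 *
      ((yOf n v - yOf n u) * (z w - z u) - (yOf n w - yOf n u) * (z v - z u)) := by
    rw [hz]
    unfold yOf det3
    simp only
    rw [← hs]
    push_cast
    field_simp
    ring
  have habs : |(det3 u v w : ℝ)| * (4 * s) ≤ s ^ 3 * (24 * |(δ : ℝ)| / J ^ 2) := by
    have h1 : |(det3 u v w : ℝ)| * (4 * s) = u.2.2 * v.2.2 * w.2.2 *
        |((yOf n v - yOf n u) * (z w - z u) - (yOf n w - yOf n u) * (z v - z u))| := by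
      rw [← abs_of_pos (show 0 < 4 * s by positivity), ← abs_mul, hdetr, abs_mul,
        abs_of_pos (show (0 : ℝ) < u.2.2 * v.2.2 * w.2.2 by positivity)]
    rw [h1]
    apply mul_le_mul _ hana (abs_nonneg _) (by positivity)
    have h2 : (u.2.2 : ℝ) * v.2.2 ≤ s * s := mul_le_mul kus.le kvs.le kvr.le hs0.le
    calc (u.2.2 : ℝ) * v.2.2 * w.2.2 ≤ s * s * s := mul_le_mul h2 kws.le kwr.le (by positivity)
      _ = s ^ 3 := by ring
  have hupper : |(det3 u v w : ℝ)| ≤ 6 * n * |(δ : ℝ)| / J ^ 2 := by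
    have h1 : s ^ 3 * (24 * |(δ : ℝ)| / J ^ 2) = (6 * n * |(δ : ℝ)| / J ^ 2) * (4 * s) := by
      rw [← hs2]; ring
    rw [h1] at habs
    exact le_of_mul_le_mul_right habs (by positivity)
  have hlowr : |((4 * (n : ℝ) - δ) * δ)| ≤ 4 * (D : ℝ) ^ 2 * |(det3 u v w : ℝ)| := by
    have : ((|(4 * (n : ℤ) - δ) * δ| : ℤ) : ℝ) ≤ ((4 * (D : ℤ) ^ 2 * |det3 u v w| : ℤ) : ℝ) := by
      exact_mod_cast hlow
    push_cast at this
    exact this
  have hABlow : 3 * n * |(δ : ℝ)| ≤ |((4 * (n : ℝ) - δ) * δ)| := by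
    rw [abs_mul]
    apply mul_le_mul_of_nonneg_right _ (abs_nonneg _)
    have h1 := le_abs_self (4 * (n : ℝ) - δ)
    have h2 := le_abs_self (δ : ℝ)
    linarith
  have hfin : 3 * n * |(δ : ℝ)| ≤ 4 * (D : ℝ) ^ 2 * (6 * n * |(δ : ℝ)| / J ^ 2) := by
    refine (hABlow.trans hlowr).trans ?_
    exact mul_le_mul_of_nonneg_left hupper (by positivity)
  have hcalc : 4 * (D : ℝ) ^ 2 * (6 * n * |(δ : ℝ)| / J ^ 2) = (8 / 3) * n * |(δ : ℝ)| := by
    rw [hJ]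
    field_simp
    ring
  rw [hcalc] at hfin
  have : 0 < (n : ℝ) * |(δ : ℝ)| := by positivity
  nlinarith

/-- the number of primitive points in the box -/
theorem prim_count {n : ℕ} (hn : 0 < n) {δ : ℤ} (hδ0 : δ ≠ 0) (hδ : |(δ : ℝ)| ≤ Real.sqrt n)
    (P : Finset (ℤ × ℤ × ℤ)) (hP : ∀ v ∈ P, Box n δ v ∧ Prim v) :
    (P.card : ℝ) ≤ 4 * ((δ.natAbs.divisors.card : ℝ) ^ 2 * ((4 * (n : ℤ) - δ).natAbs.divisors.card : ℝ) ^ 2)
      * (3 * (Int.gcd (4 * n - δ) δ : ℝ) * (Real.log n + 1)) := by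
  classical
  set s := Real.sqrt n with hs
  have hs2 : s ^ 2 = n := Real.sq_sqrt (Nat.cast_nonneg n)
  have hn1 : (1 : ℝ) ≤ n := by exact_mod_cast hn
  have hs1 : 1 ≤ s := by
    rw [hs]; exact Real.one_le_sqrt.mpr hn1
  have hs0 : 0 < s := by linarith
  set D := Int.gcd (4 * (n : ℤ) - δ) δ with hD
  have hδn : |(δ : ℝ)| ≤ n := by nlinarith
  have hA : (4 * (n : ℤ) - δ) ≠ 0 := by
    intro h
    have h1 : (4 * (n : ℝ) - δ) = 0 := by exact_mod_cast h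
    have h2 := le_abs_self (δ : ℝ)
    linarith
  have hD0 : 0 < D := Int.gcd_pos_of_ne_zero_left _ hA
  have hD1 : (1 : ℝ) ≤ D := by exact_mod_cast hD0
  set J : ℝ := 3 * (D : ℝ) with hJ
  have hJ3 : 3 ≤ J := by rw [hJ]; linarith
  have hδ1 : (1 : ℝ) ≤ |(δ : ℝ)| := by
    have : (1 : ℤ) ≤ |δ| := Int.one_le_abs hδ0
    exact_mod_cast this
  -- labels
  obtain ⟨cB, eB, hB1, hB2, hB3⟩ := labels_exist (4 * n - δ) δ hδ0 (P : Set (ℤ × ℤ × ℤ))
    (fun v hv => ⟨(hP v hv).1.1, (hP v hv).2⟩)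
  set sw : ℤ × ℤ × ℤ → ℤ × ℤ × ℤ := fun v => (v.1, v.2.2, v.2.1) with hsw
  obtain ⟨cA, eA, hA1, hA2, hA3⟩ := labels_exist δ (4 * n - δ) hA
    (sw '' (P : Set (ℤ × ℤ × ℤ))) (by
      rintro v' ⟨v, hv, rfl⟩
      obtain ⟨hb, hp⟩ := hP v hv
      refine ⟨?_, ?_⟩
      · have := hb.1
        unfold Sol at this ⊢
        rw [hsw]
        simp only
        linarith
      · intro d d1 d2 d3
        exact hp d d1 d3 d2)
  -- label set
  set L : ℤ × ℤ × ℤ → ((ℕ × ℕ) × (ℕ × ℕ)) × (Bool × ℤ) := fun v =>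
    ((cB v, cA (sw v)), (decide (0 < yOf n v), ⌊J * Real.log |yOf n v|⌋)) with hL
  set T : Finset (((ℕ × ℕ) × (ℕ × ℕ)) × (Bool × ℤ)) :=
    ((δ.natAbs.divisors ×ˢ δ.natAbs.divisors) ×ˢ
      ((4 * (n : ℤ) - δ).natAbs.divisors ×ˢ (4 * (n : ℤ) - δ).natAbs.divisors)) ×ˢ
      ((Finset.univ : Finset Bool) ×ˢ Finset.Icc ⌊-(J * Real.log s)⌋ ⌊J * Real.log s⌋) with hT
  have hypos : ∀ v ∈ P, 0 < |yOf n v| := by
    intro v hv
    obtain ⟨_, _, _, _, h5, _⟩ := (hP v hv).1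
    rw [← hs] at h5
    by_contra hcon
    push Not at hcon
    nlinarith [abs_nonneg (yOf n v)]
  have hmaps : ∀ v ∈ P, L v ∈ T := by
    intro v hv
    rw [hT, hL]
    simp only [Finset.mem_product, Finset.mem_univ, true_and, Finset.mem_Icc]
    have h1 := hB1 v hv
    have h2 := hA1 (sw v) ⟨v, hv, rfl⟩
    refine ⟨⟨h1, h2⟩, ?_, ?_⟩
    · apply Int.floor_le_floor
      obtain ⟨_, _, _, _, h5, _⟩ := (hP v hv).1
      rw [← hs] at h5
      have h6 : 1 / s ≤ |yOf n v| := by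
        rw [div_le_iff₀ hs0]; linarith
      have h7 : -Real.log s ≤ Real.log |yOf n v| := by
        rw [← Real.log_inv, ← one_div]
        exact Real.log_le_log (by positivity) h6
      nlinarith
    · apply Int.floor_le_floor
      obtain ⟨_, _, _, _, _, h6⟩ := (hP v hv).1
      rw [← hs] at h6
      apply mul_le_mul_of_nonneg_left _ (by linarith)
      exact Real.log_le_log (hypos v hv) h6
  have hfib : ∀ t ∈ T, (P.filter (fun v => L v = t)).card ≤ 2 := by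
    intro t _
    by_contra hcon
    push Not at hcon
    obtain ⟨u, hu, v, hv, w, hw, huv, huw, hvw⟩ := Finset.two_lt_card.mp hcon
    rw [Finset.mem_filter] at hu hv hw
    have Luv : L u = L v := hu.2.trans hv.2.symm
    have Luw : L u = L w := hu.2.trans hw.2.symm
    have cuv : cB u = cB v := congrArg (fun t => t.1.1) Luv
    have cuw : cB u = cB w := congrArg (fun t => t.1.1) Luw
    have auv : cA (sw u) = cA (sw v) := congrArg (fun t => t.1.2) Luv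
    have auw : cA (sw u) = cA (sw w) := congrArg (fun t => t.1.2) Luw
    have suv : decide (0 < yOf n u) = decide (0 < yOf n v) := congrArg (fun t => t.2.1) Luv
    have suw : decide (0 < yOf n u) = decide (0 < yOf n w) := congrArg (fun t => t.2.1) Luw
    have fuv : ⌊J * Real.log |yOf n u|⌋ = ⌊J * Real.log |yOf n v|⌋ := congrArg (fun t => t.2.2) Luv
    have fuw : ⌊J * Real.log |yOf n u|⌋ = ⌊J * Real.log |yOf n w|⌋ := congrArg (fun t => t.2.2) Luw
    have b1 := hB3 u hu.1 v hv.1 cuv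
    have b2 := hB3 u hu.1 w hw.1 cuw
    have b3 := hB3 v hv.1 w hw.1 (cuv.symm.trans cuw)
    rw [← cuv] at b3
    have a1 := hA3 (sw u) ⟨u, hu.1, rfl⟩ (sw v) ⟨v, hv.1, rfl⟩ auv
    have a2 := hA3 (sw u) ⟨u, hu.1, rfl⟩ (sw w) ⟨w, hw.1, rfl⟩ auw
    have a3 := hA3 (sw v) ⟨v, hv.1, rfl⟩ (sw w) ⟨w, hw.1, rfl⟩ (auv.symm.trans auw)
    rw [← auv] at a3
    have hgcd : Int.gcd δ (4 * n - δ) = Int.gcd (4 * n - δ) δ := Int.gcd_comm _ _
    have hA2' := hA2 (sw u) ⟨u, hu.1, rfl⟩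
    rw [hgcd] at hA2'
    have hsign : (0 < yOf n u ∧ 0 < yOf n v ∧ 0 < yOf n w) ∨
        (yOf n u < 0 ∧ yOf n v < 0 ∧ yOf n w < 0) := by
      have nu := abs_pos.mp (hypos u hu.1)
      have nv := abs_pos.mp (hypos v hv.1)
      have nw := abs_pos.mp (hypos w hw.1)
      by_cases h : 0 < yOf n u
      · have h1 : 0 < yOf n v := by
          have := suv
          simpa [h] using this
        have h2 : 0 < yOf n w := by
          have := suw
          simpa [h] using this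
        exact Or.inl ⟨h, h1, h2⟩
      · have h1 : ¬ 0 < yOf n v := by
          have := suv
          simpa [h] using this
        have h2 : ¬ 0 < yOf n w := by
          have := suw
          simpa [h] using this
        push Not at h h1 h2
        exact Or.inr ⟨lt_of_le_of_ne h nu, lt_of_le_of_ne h1 nv, lt_of_le_of_ne h2 nw⟩
    exact fiber_bound hn hδ0 hδ (hP u hu.1).1 (hP v hv.1).1 (hP w hw.1).1 (hP u hu.1).2
      (hP v hv.1).2 (hP w hw.1).2 huv huw hvw _ _ b1 b2 b3 a1 a2 a3 hA2' (hB2 u hu.1) hsign fuv fuw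
  have hcard := Finset.card_le_mul_card_image_of_maps_to hmaps 2 hfib
  have hTcard : (T.card : ℝ) ≤ 2 * ((δ.natAbs.divisors.card : ℝ) ^ 2 *
      ((4 * (n : ℤ) - δ).natAbs.divisors.card : ℝ) ^ 2) * (J * (Real.log n + 1)) := by
    have h1 : ((Finset.Icc ⌊-(J * Real.log s)⌋ ⌊J * Real.log s⌋).card : ℝ) ≤ J * (Real.log n + 1) := by
      rw [Int.card_Icc]
      have h2 : (((⌊J * Real.log s⌋ + 1 - ⌊-(J * Real.log s)⌋).toNat : ℕ) : ℝ)
          = ((⌊J * Real.log s⌋ + 1 - ⌊-(J * Real.log s)⌋ : ℤ) : ℝ) := by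
        have h3 : 0 ≤ ⌊J * Real.log s⌋ + 1 - ⌊-(J * Real.log s)⌋ := by
          have h4 : ⌊-(J * Real.log s)⌋ ≤ ⌊J * Real.log s⌋ := by
            apply Int.floor_le_floor
            have : 0 ≤ Real.log s := Real.log_nonneg hs1
            nlinarith
          linarith
        rw [← Int.cast_natCast, Int.toNat_of_nonneg h3]
      rw [h2]
      push_cast
      have h5 : (⌊J * Real.log s⌋ : ℝ) ≤ J * Real.log s := Int.floor_le _
      have h6 : -(J * Real.log s) < ⌊-(J * Real.log s)⌋ + 1 := Int.lt_floor_add_one _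
      have h7 : Real.log s = Real.log n / 2 := by
        rw [hs, Real.log_sqrt (by linarith)]
      rw [h7] at h5 h6
      have : J * (Real.log n + 1) = J * (Real.log n / 2) + J * (Real.log n / 2) + J := by ring
      rw [this, h7]
      linarith
    have h8 : (T.card : ℝ) = ((δ.natAbs.divisors.card : ℝ) * (δ.natAbs.divisors.card : ℝ)) *
        (((4 * (n : ℤ) - δ).natAbs.divisors.card : ℝ) * ((4 * (n : ℤ) - δ).natAbs.divisors.card : ℝ)) *
        (2 * ((Finset.Icc ⌊-(J * Real.log s)⌋ ⌊J * Real.log s⌋).card : ℝ)) := by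
      rw [hT]
      simp only [Finset.card_product, Finset.card_univ, Fintype.card_bool]
      push_cast
      ring
    rw [h8]
    have h9 : (0 : ℝ) ≤ ((δ.natAbs.divisors.card : ℝ) * (δ.natAbs.divisors.card : ℝ)) *
        (((4 * (n : ℤ) - δ).natAbs.divisors.card : ℝ) * ((4 * (n : ℤ) - δ).natAbs.divisors.card : ℝ)) := by
      positivity
    calc _ ≤ ((δ.natAbs.divisors.card : ℝ) * (δ.natAbs.divisors.card : ℝ)) *
        (((4 * (n : ℤ) - δ).natAbs.divisors.card : ℝ) * ((4 * (n : ℤ) - δ).natAbs.divisors.card : ℝ)) *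
        (2 * (J * (Real.log n + 1))) := by
          apply mul_le_mul_of_nonneg_left _ h9
          linarith
      _ = _ := by ring
  have hcardr : (P.card : ℝ) ≤ 2 * T.card := by exact_mod_cast hcard
  calc (P.card : ℝ) ≤ 2 * T.card := hcardr
    _ ≤ 2 * (2 * ((δ.natAbs.divisors.card : ℝ) ^ 2 *
      ((4 * (n : ℤ) - δ).natAbs.divisors.card : ℝ) ^ 2) * (J * (Real.log n + 1))) := by linarith
    _ = _ := by ring

end Pool.Agent.KeZhao
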