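import Pool.Agent.Lib.KeZhao.Char
import Pool.Agent.Lib.KeZhao.LBounds

/-! The support of `1 * χ` in terms of moduli with square roots, and the summatory
function of `1 * χ`. -/

namespace Pool.Agent.KeZhao

open Finset DirichletCharacter NumberTheorySymbols

theorem crt_sq (n : ℤ) : ∀ a : ℕ, Squarefree a → (∀ p : ℕ, p.Prime → p ∣ a → ∃ r : ℤ, (p : ℤ) ∣ r ^ 2 - n) →
    ∃ r : ℤ, (a : ℤ) ∣ r ^ 2 - n := by
  intro a
  induction a using Nat.recOnMul with
  | zero => intro h _; exact absurd h not_squarefree_zero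
  | one => intro _ _; exact ⟨0, by simp⟩
  | prime p hp => intro _ h; exact h p hp dvd_rfl
  | mul a b iha ihb =>
    intro hsq h
    obtain ⟨hcop, hsa, hsb⟩ := (Nat.squarefree_mul_iff).mp hsq
    obtain ⟨ra, hra⟩ := iha hsa (fun p hp hd => h p hp (hd.mul_right b))
    obtain ⟨rb, hrb⟩ := ihb hsb (fun p hp hd => h p hp (hd.mul_left a))
    have hc : IsCoprime (a : ℤ) (b : ℤ) := Nat.isCoprime_iff_coprime.mpr hcop
    obtain ⟨u, v, huv⟩ := hc
    refine ⟨ra * (v * b) + rb * (u * a), ?_⟩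
    have hc' : IsCoprime (a : ℤ) (b : ℤ) := ⟨u, v, huv⟩
    push_cast
    apply hc'.mul_dvd
    · have e1 : (ra * (v * b) + rb * (u * a)) ^ 2 - n
          = (ra ^ 2 - n) + a * ((rb * u - ra * u) * (ra * (v * b) + rb * (u * a) + ra)) := by
        have e2 : ra * (v * b) + rb * (u * a) - ra = a * (rb * u - ra * u) := by
          linear_combination ra * huv
        linear_combination (ra * (v * b) + rb * (u * a) + ra) * e2
      rw [e1]
      exact dvd_add hra (dvd_mul_right _ _)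
    · have e1 : (ra * (v * b) + rb * (u * a)) ^ 2 - n
          = (rb ^ 2 - n) + b * ((ra * v - rb * v) * (ra * (v * b) + rb * (u * a) + rb)) := by
        have e2 : ra * (v * b) + rb * (u * a) - rb = b * (ra * v - rb * v) := by
          linear_combination rb * huv
        linear_combination (ra * (v * b) + rb * (u * a) + rb) * e2
      rw [e1]
      exact dvd_add hrb (dvd_mul_right _ _)

theorem zetaMul_prime_pow (n : ℕ) [NeZero n] {p : ℕ} (hp : p.Prime) (v : ℕ) :
    (chi n).zetaMul (p ^ v) = ∑ i ∈ Finset.range (v + 1), (chi n (p : ZMod (4 * n))) ^ i := by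
  rw [zetaMul, ArithmeticFunction.coe_zeta_mul_apply, Nat.sum_divisors_prime_pow hp]
  apply Finset.sum_congr rfl
  intro x _
  rw [← (chi n).apply_eq_toArithmeticFunction_apply (pow_ne_zero x hp.ne_zero)]
  push_cast
  rw [map_pow]

/-- if `(1*χ)(k) ≠ 0` then `k = c² q` with `n` a square modulo `q` -/
theorem support_zetaMul (n : ℕ) [NeZero n] {k : ℕ} (hk : 0 < k) (hne : (chi n).zetaMul k ≠ 0) :
    ∃ c q : ℕ, 0 < c ∧ 0 < q ∧ c ^ 2 * q = k ∧ ∃ r : ℤ, (q : ℤ) ∣ r ^ 2 - n := by
  obtain ⟨q, c, hqc, hsq⟩ := Nat.sq_mul_squarefree k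
  have hq0 : q ≠ 0 := by rintro rfl; simp at hqc; omega
  have hc0 : c ≠ 0 := by rintro rfl; simp at hqc; omega
  refine ⟨c, q, Nat.pos_of_ne_zero hc0, Nat.pos_of_ne_zero hq0, hqc, ?_⟩
  apply crt_sq (n : ℤ) q hsq
  intro p hp hpq
  haveI : Fact p.Prime := ⟨hp⟩
  by_cases h4n : p ∣ 4 * n
  · rcases (Nat.Prime.dvd_mul hp).mp h4n with h | h
    · have hp2 : p = 2 := by
        have : p ∣ 2 ^ 2 := by simpa using h
        exact (Nat.prime_dvd_prime_iff_eq hp Nat.prime_two).mp (hp.dvd_of_dvd_pow this)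
      subst hp2
      refine ⟨n, ?_⟩
      have : (n : ℤ) ^ 2 - n = n * (n - 1) := by ring
      rw [this]
      push_cast
      exact (Int.even_mul_pred_self n).two_dvd
    · refine ⟨0, ?_⟩
      have : (p : ℤ) ∣ n := Int.natCast_dvd_natCast.mpr h
      simpa using this
  · have hcop : Nat.Coprime p (4 * n) := (Nat.Prime.coprime_iff_not_dvd hp).mpr h4n
    -- the exponent of p in k is odd
    have hk0 : k ≠ 0 := hk.ne'
    have hv : k.factorization p = 2 * c.factorization p + 1 := by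
      rw [← hqc, Nat.factorization_mul (pow_ne_zero 2 hc0) hq0, Nat.factorization_pow]
      simp only [Finsupp.coe_add, Finsupp.coe_smul, Pi.add_apply, Pi.smul_apply, smul_eq_mul]
      congr 1
      have h1 := hsq.natFactorization_le_one p
      have h2 := hp.factorization_pos_of_dvd hq0 hpq
      omega
    have hval : chi n (p : ZMod (4 * n)) = ((J((n : ℤ) | p) : ℤ) : ℂ) := chi_apply n hcop
    have hJ : J((n : ℤ) | p) = 1 := by
      have h2 : (n : ℤ).gcd p = 1 := by
        rw [Int.gcd_natCast_natCast, Nat.gcd_comm]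
        exact Nat.Coprime.coprime_dvd_right (Dvd.intro_left 4 rfl) hcop
      rcases jacobiSym.eq_one_or_neg_one h2 with h | h
      · exact h
      · exfalso
        apply hne
        have hmult := (chi n).isMultiplicative_zetaMul.multiplicative_factorization _ hk0
        rw [hmult, Finsupp.prod]
        apply Finset.prod_eq_zero (i := p)
        · rw [Nat.support_factorization, Nat.mem_primeFactors]
          refine ⟨hp, ?_, hk0⟩
          rw [← hqc]; exact hpq.mul_left _
        · rw [zetaMul_prime_pow n hp, hval, h, hv]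
          push_cast
          rw [neg_one_geom_sum, if_pos]
          exact ⟨c.factorization p + 1, by ring⟩
    have hsqr : IsSquare ((n : ℤ) : ZMod p) := ZMod.isSquare_of_jacobiSym_eq_one hJ
    obtain ⟨y, hy⟩ := hsqr
    refine ⟨y.val, ?_⟩
    rw [← ZMod.intCast_zmod_eq_zero_iff_dvd]
    push_cast
    rw [ZMod.natCast_zmod_val]
    push_cast at hy
    rw [hy]; ring

theorem zetaMul_re_le (n : ℕ) [NeZero n] (k : ℕ) : ((chi n).zetaMul k).re ≤ k.divisors.card := by
  refine (Complex.re_le_norm _).trans ?_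
  rw [zetaMul, ArithmeticFunction.coe_zeta_mul_apply]
  refine (norm_sum_le _ _).trans ?_
  calc ∑ i ∈ k.divisors, ‖(toArithmeticFunction (chi n ·) : ArithmeticFunction ℂ) i‖
      ≤ ∑ i ∈ k.divisors, (1 : ℝ) := by
        apply Finset.sum_le_sum
        intro i hi
        have hi0 : i ≠ 0 := (Nat.pos_of_mem_divisors hi).ne'
        rw [← (chi n).apply_eq_toArithmeticFunction_apply hi0]
        exact DirichletCharacter.norm_le_one _ _
    _ = k.divisors.card := by simp

/-- Abel's inequality for a nonincreasing weight. -/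
theorem abel_ineq (c : ℕ → ℂ) (b : ℕ → ℝ) (B : ℝ) (D : ℕ)
    (hb : ∀ i, D < i → b (i + 1) ≤ b i) (hb0 : ∀ i, D < i → 0 ≤ b i)
    (hC : ∀ M, ‖∑ d ∈ Finset.Ioc D M, c d‖ ≤ B) (K : ℕ) (hK : D < K) :
    ‖∑ d ∈ Finset.Ioc D K, (b d : ℂ) * c d‖ ≤ B * b (D + 1) := by
  -- identity: sum b c = b_K S_K + sum (b_d - b_{d+1}) S_d
  have key : ∀ M, D < M → ∑ d ∈ Finset.Ioc D M, (b d : ℂ) * c d
      = (b M : ℂ) * ∑ d ∈ Finset.Ioc D M, c d
        + ∑ d ∈ Finset.Ioo D M, ((b d - b (d + 1) : ℝ) : ℂ) * ∑ i ∈ Finset.Ioc D d, c i := by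
    intro M hM
    induction M, hM using Nat.le_induction with
    | base =>
      have : Finset.Ioo D (Nat.succ D) = ∅ := by
        ext x; simp
      rw [this]
      simp
    | succ M hM ih =>
      have hM' : D < M := hM
      have h1 : Finset.Ioc D (M + 1) = insert (M + 1) (Finset.Ioc D M) := by
        ext x; simp only [mem_Ioc, mem_insert]; omega
      have h2 : Finset.Ioo D (M + 1) = insert M (Finset.Ioo D M) := by
        ext x; simp only [mem_Ioo, mem_insert]; omega
      rw [h1, h2, Finset.sum_insert (by simp), Finset.sum_insert (by simp), Finset.sum_insert (by simp), ih]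
      push_cast
      ring
  rw [key K hK]
  have hbdiff : ∀ d ∈ Finset.Ioo D K, 0 ≤ b d - b (d + 1) := by
    intro d hd
    have := hb d (mem_Ioo.mp hd).1
    linarith
  have htel : ∀ M, D < M → ∑ d ∈ Finset.Ioo D M, (b d - b (d + 1)) = b (D + 1) - b M := by
    intro M hM
    induction M, hM using Nat.le_induction with
    | base =>
      have : Finset.Ioo D (Nat.succ D) = ∅ := by
        ext x; simp
      rw [this]; simp
    | succ M hM ih =>
      have hM' : D < M := hM
      have h2 : Finset.Ioo D (M + 1) = insert M (Finset.Ioo D M) := by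
        ext x; simp only [mem_Ioo, mem_insert]; omega
      rw [h2, Finset.sum_insert (by simp), ih]
      ring
  have hB0 : 0 ≤ B := (norm_nonneg _).trans (hC D)
  calc _ ≤ ‖(b K : ℂ) * ∑ d ∈ Finset.Ioc D K, c d‖
        + ‖∑ d ∈ Finset.Ioo D K, ((b d - b (d + 1) : ℝ) : ℂ) * ∑ i ∈ Finset.Ioc D d, c i‖ := norm_add_le _ _
    _ ≤ b K * B + ∑ d ∈ Finset.Ioo D K, (b d - b (d + 1)) * B := by
        apply add_le_add
        · rw [norm_mul, Complex.norm_real, Real.norm_of_nonneg (hb0 K hK)]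
          exact mul_le_mul_of_nonneg_left (hC K) (hb0 K hK)
        · refine (norm_sum_le _ _).trans ?_
          apply Finset.sum_le_sum
          intro d hd
          rw [norm_mul, Complex.norm_real, Real.norm_of_nonneg (hbdiff d hd)]
          exact mul_le_mul_of_nonneg_left (hC d) (hbdiff d hd)
    _ = B * b (D + 1) := by
        rw [← Finset.sum_mul, htel K hK]; ring

theorem charSum_Ioc {N : ℕ} [NeZero N] {χ : DirichletCharacter ℂ N} (hχ : χ ≠ 1) (D M : ℕ) :
    ‖∑ d ∈ Finset.Ioc D M, χ (d : ZMod N)‖ ≤ 2 * N := by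
  have hsum : ∀ M : ℕ, ∑ d ∈ Finset.Ioc 0 M, χ (d : ZMod N) = charSum χ M := by
    intro M
    unfold charSum
    have h1 : Finset.Ioc 0 M = (Finset.range M).image (fun k => k + 1) := by
      ext x
      simp only [mem_Ioc, mem_image, mem_range]
      constructor
      · intro h; exact ⟨x - 1, by omega, by omega⟩
      · rintro ⟨a, h, rfl⟩; omega
    rw [h1, Finset.sum_image (by intro a _ b _ h; simpa using h)]
  rcases le_total D M with h | h
  · have h1 : ∑ d ∈ Finset.Ioc 0 D, χ (d : ZMod N) + ∑ d ∈ Finset.Ioc D M, χ (d : ZMod N)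
        = ∑ d ∈ Finset.Ioc 0 M, χ (d : ZMod N) := Finset.sum_Ioc_consecutive _ (Nat.zero_le _) h
    rw [hsum, hsum] at h1
    have h2 : ∑ d ∈ Finset.Ioc D M, χ (d : ZMod N) = charSum χ M - charSum χ D := by
      rw [← h1]; ring
    rw [h2]
    refine (norm_sub_le _ _).trans ?_
    have := norm_charSum_le hχ M
    have := norm_charSum_le hχ D
    linarith
  · rw [Finset.Ioc_eq_empty (by omega)]
    simp

/-- Lower bound for the summatory function of `1 * χ`. -/
theorem summatory_lower {N : ℕ} [NeZero N] {χ : DirichletCharacter ℂ N} (hχ : χ ≠ 1)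
    (D K : ℕ) (hD : 0 < D) (hDK : D < K) :
    (K : ℝ) * (LFunction χ 1).re - (D + 4 * N * K / D) ≤ ∑ k ∈ Finset.Ioc 0 K, (χ.zetaMul k).re := by
  have hDr : (0 : ℝ) < D := by exact_mod_cast hD
  have h1 : ∑ k ∈ Finset.Ioc 0 K, χ.zetaMul k = ∑ d ∈ Finset.Ioc 0 K, χ (d : ZMod N) * ((K / d : ℕ) : ℂ) := by
    have h2 := ArithmeticFunction.sum_Ioc_mul_zeta_eq_sum (R := ℂ) (toArithmeticFunction (χ ·)) K
    rw [zetaMul, mul_comm]
    rw [h2]
    apply Finset.sum_congr rfl
    intro d hd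
    rw [← χ.apply_eq_toArithmeticFunction_apply (by rw [mem_Ioc] at hd; omega)]
  have hsplit : ∑ d ∈ Finset.Ioc 0 K, χ (d : ZMod N) * ((K / d : ℕ) : ℂ)
      = ∑ d ∈ Finset.Ioc 0 D, χ (d : ZMod N) * ((K / d : ℕ) : ℂ)
        + ∑ d ∈ Finset.Ioc D K, χ (d : ZMod N) * ((K / d : ℕ) : ℂ) :=
    (Finset.sum_Ioc_consecutive _ (Nat.zero_le _) hDK.le).symm
  -- the tail
  have htail : ‖∑ d ∈ Finset.Ioc D K, χ (d : ZMod N) * ((K / d : ℕ) : ℂ)‖ ≤ 2 * N * (K / D) := by
    have h3 := abel_ineq (fun d => χ (d : ZMod N)) (fun d => ((K / d : ℕ) : ℝ)) (2 * N) D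
      (by
        intro i hi
        have : K / (i + 1) ≤ K / i := Nat.div_le_div_left (by omega) (by omega)
        exact_mod_cast this) (fun i _ => by positivity) (fun M => charSum_Ioc hχ D M) K hDK
    have h4 : ∑ d ∈ Finset.Ioc D K, χ (d : ZMod N) * ((K / d : ℕ) : ℂ)
        = ∑ d ∈ Finset.Ioc D K, ((((K / d : ℕ) : ℝ)) : ℂ) * χ (d : ZMod N) := by
      apply Finset.sum_congr rfl
      intro d _
      push_cast
      ring
    rw [h4]
    refine h3.trans ?_
    apply mul_le_mul_of_nonneg_left _ (by positivity)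
    have h5 : ((K / (D + 1) : ℕ) : ℝ) ≤ (K : ℝ) / ((D + 1 : ℕ) : ℝ) := Nat.cast_div_le
    refine h5.trans ?_
    apply div_le_div_of_nonneg_left (by positivity) hDr
    push_cast; linarith
  -- the head
  have hhead : ‖∑ d ∈ Finset.Ioc 0 D, χ (d : ZMod N) * ((K / d : ℕ) : ℂ) - K * LFunction χ 1‖
      ≤ D + 2 * N * K / D := by
    obtain ⟨M, rfl⟩ : ∃ M, D = M + 1 := ⟨D - 1, by omega⟩
    have h6 := norm_partial_sub_le hχ M
    set S : ℂ := ∑ n ∈ range (M + 1), χ ((n + 1 : ℕ) : ZMod N) * ((n + 1 : ℕ) : ℂ) ^ (-1 : ℂ) with hS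
    have h7 : Finset.Ioc 0 (M + 1) = (Finset.range (M + 1)).image (fun k => k + 1) := by
      ext x
      simp only [mem_Ioc, mem_image, mem_range]
      constructor
      · intro h; exact ⟨x - 1, by omega, by omega⟩
      · rintro ⟨a, h, rfl⟩; omega
    rw [h7, Finset.sum_image (by intro a _ b _ h; simpa using h)]
    have h8 : ‖∑ n ∈ range (M + 1), χ ((n + 1 : ℕ) : ZMod N) * ((K / (n + 1) : ℕ) : ℂ) - K * S‖ ≤ (M + 1 : ℕ) := by
      rw [hS, Finset.mul_sum, ← Finset.sum_sub_distrib]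
      refine (norm_sum_le _ _).trans ?_
      calc ∑ n ∈ range (M + 1), ‖χ ((n + 1 : ℕ) : ZMod N) * ((K / (n + 1) : ℕ) : ℂ)
            - K * (χ ((n + 1 : ℕ) : ZMod N) * ((n + 1 : ℕ) : ℂ) ^ (-1 : ℂ))‖
          ≤ ∑ n ∈ range (M + 1), (1 : ℝ) := by
            apply Finset.sum_le_sum
            intro n _
            have h9 : χ ((n + 1 : ℕ) : ZMod N) * ((K / (n + 1) : ℕ) : ℂ)
                - K * (χ ((n + 1 : ℕ) : ZMod N) * ((n + 1 : ℕ) : ℂ) ^ (-1 : ℂ))
                = χ ((n + 1 : ℕ) : ZMod N) * (((((K / (n + 1) : ℕ) : ℝ) - (K : ℝ) / ((n + 1 : ℕ) : ℝ)) : ℝ) : ℂ) := by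
              rw [Complex.cpow_neg_one]
              push_cast
              ring
            rw [h9, norm_mul, Complex.norm_real]
            have h10 : ‖(((K / (n + 1) : ℕ) : ℝ) - (K : ℝ) / ((n + 1 : ℕ) : ℝ))‖ ≤ 1 := by
              have h11 : ((K / (n + 1) : ℕ) : ℝ) ≤ (K : ℝ) / ((n + 1 : ℕ) : ℝ) := Nat.cast_div_le
              have h12 : (K : ℝ) / ((n + 1 : ℕ) : ℝ) < ((K / (n + 1) : ℕ) : ℝ) + 1 := by
                have := Nat.lt_floor_add_one ((K : ℝ) / ((n + 1 : ℕ) : ℝ))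
                rwa [Nat.floor_div_eq_div] at this
              rw [Real.norm_eq_abs, abs_le]
              constructor <;> linarith
            calc ‖χ ((n + 1 : ℕ) : ZMod N)‖ * _ ≤ 1 * 1 :=
                  mul_le_mul (DirichletCharacter.norm_le_one χ _) h10 (norm_nonneg _) (by norm_num)
              _ = 1 := one_mul 1
        _ = (M + 1 : ℕ) := by simp
    have h13 : ‖(K : ℂ) * S - K * LFunction χ 1‖ ≤ 2 * N * K / (M + 1 : ℕ) := by
      rw [← mul_sub, norm_mul, Complex.norm_natCast]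
      calc (K : ℝ) * ‖S - LFunction χ 1‖ ≤ K * (2 * N / (M + 1)) :=
            mul_le_mul_of_nonneg_left h6 (by positivity)
        _ = 2 * N * K / (M + 1 : ℕ) := by push_cast; ring
    have h14 := norm_add_le (∑ n ∈ range (M + 1), χ ((n + 1 : ℕ) : ZMod N) * ((K / (n + 1) : ℕ) : ℂ) - K * S)
      ((K : ℂ) * S - K * LFunction χ 1)
    rw [sub_add_sub_cancel] at h14
    linarith
  have hre : ∑ k ∈ Finset.Ioc 0 K, (χ.zetaMul k).re
      = (∑ d ∈ Finset.Ioc 0 K, χ (d : ZMod N) * ((K / d : ℕ) : ℂ)).re := by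
    rw [← h1, Complex.re_sum]
  rw [hre, hsplit]
  set X := ∑ d ∈ Finset.Ioc 0 D, χ (d : ZMod N) * ((K / d : ℕ) : ℂ) with hX
  set Z := ∑ d ∈ Finset.Ioc D K, χ (d : ZMod N) * ((K / d : ℕ) : ℂ) with hZ
  have h15 : |(X + Z - K * LFunction χ 1).re| ≤ D + 4 * N * K / D := by
    refine (Complex.abs_re_le_norm _).trans ?_
    have h16 : X + Z - K * LFunction χ 1 = (X - K * LFunction χ 1) + Z := by ring
    rw [h16]
    refine (norm_add_le _ _).trans ?_
    have : (D : ℝ) + 4 * N * K / D = (D + 2 * N * K / D) + 2 * N * (K / D) := by ring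
    rw [this]
    exact add_le_add hhead htail
  have h17 : (X + Z - K * LFunction χ 1).re = (X + Z).re - K * (LFunction χ 1).re := by
    rw [Complex.sub_re]
    congr 1
    have : ((K : ℕ) : ℂ) = ((K : ℝ) : ℂ) := by push_cast; rfl
    rw [this, Complex.re_ofReal_mul]
  rw [h17] at h15
  have := (abs_le.mp h15).1
  linarith

end Pool.Agent.KeZhao
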