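import Mathlib

/-! Moduli beyond `√n` modulo which `n` is a square, in terms of those below `√n`. -/

namespace Pool.Agent.KeZhao

open Finset

theorem nonsquare_int {n : ℕ} (hn : ¬ IsSquare n) {s t : ℤ} (ht : t ≠ 0) : s ^ 2 ≠ n * t ^ 2 := by
  intro h
  apply hn
  have h1 : t ^ 2 ∣ s ^ 2 := ⟨n, by rw [h]; ring⟩
  have h2 : t ∣ s := (Int.pow_dvd_pow_iff two_ne_zero).mp h1
  obtain ⟨c, rfl⟩ := h2
  have h3 : c ^ 2 = n := by
    have h4 : t ^ 2 * c ^ 2 = t ^ 2 * n := by linarith [h, show (t * c) ^ 2 = t ^ 2 * c ^ 2 by ring]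
    exact mul_left_cancel₀ (pow_ne_zero 2 ht) h4
  refine ⟨c.natAbs, ?_⟩
  have h5 : ((c.natAbs * c.natAbs : ℕ) : ℤ) = n := by
    push_cast
    rw [← h3, pow_two, ← abs_mul, abs_of_nonneg (mul_self_nonneg c)]
  exact_mod_cast h5.symm

/-- the quadratic form attached to a modulus -/
def qf (k r l j t : ℤ) : ℤ := k * j ^ 2 + 2 * r * j * t - l * t ^ 2

theorem prod_small {m₁ m₂ n B : ℤ} (hn : 0 ≤ n) (h : m₁ * m₂ = B ^ 2 - n) (h1 : 0 < m₁)
    (h2 : m₂ < 0) (hc : n < m₂ ^ 2) : m₁ ^ 2 ≤ n := by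
  by_contra hcon
  push Not at hcon
  have e0 : 0 ≤ m₁ * -m₂ := mul_nonneg h1.le (by linarith)
  have e1 : m₁ * -m₂ ≤ n := by
    have : m₁ * -m₂ = n - B ^ 2 := by linarith
    rw [this]; linarith [sq_nonneg B]
  have e2 : (m₁ * -m₂) ^ 2 ≤ n ^ 2 := pow_le_pow_left₀ e0 e1 2
  have e3 : n * n < m₁ ^ 2 * m₂ ^ 2 := mul_lt_mul'' hcon hc hn hn
  have e4 : (m₁ * -m₂) ^ 2 = m₁ ^ 2 * m₂ ^ 2 := by ring
  linarith [show n * n = n ^ 2 by ring]

theorem transfer_one {n : ℕ} (hn : ¬ IsSquare n) {k r l : ℤ} (hk : 0 < k) (he : r ^ 2 + k * l = n)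
    (hkn : (n : ℤ) < k ^ 2) :
    ∃ m t s B : ℤ, m ≠ 0 ∧ m ^ 2 < n ∧ 1 ≤ t ∧ t ^ 2 * n ≤ k ^ 2 ∧ 0 ≤ s ∧
      s ^ 2 - n * t ^ 2 = k * m ∧ m ∣ B ^ 2 - n ∧ m ∣ s + t * B := by
  classical
  have hn0 : 0 < n := by
    rcases Nat.eq_zero_or_pos n with h | h
    · exfalso; apply hn; rw [h]; exact ⟨0, rfl⟩
    · exact h
  have hn0z : (0 : ℤ) < n := by exact_mod_cast hn0
  have hid : ∀ j t : ℤ, k * qf k r l j t = (k * j + r * t) ^ 2 - n * t ^ 2 := by
    intro j t
    unfold qf
    rw [← he]; ring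
  -- the size parameter
  have hexT : ∃ T : ℕ, k ^ 2 ≤ 4 * n * (T : ℤ) ^ 2 := by
    refine ⟨k.natAbs, ?_⟩
    have : ((k.natAbs : ℕ) : ℤ) ^ 2 = k ^ 2 := by rw [Int.natCast_natAbs, sq_abs]
    rw [this]
    nlinarith [sq_nonneg k]
  set T := Nat.find hexT with hT
  have hTspec : k ^ 2 ≤ 4 * n * (T : ℤ) ^ 2 := Nat.find_spec hexT
  have hT1 : 1 ≤ T := by
    by_contra hcon
    have : T = 0 := by omega
    rw [this] at hTspec
    simp at hTspec
    nlinarith
  have hTle : (T : ℤ) ^ 2 * n ≤ k ^ 2 := by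
    by_cases h : T = 1
    · rw [h]; push_cast; linarith
    · have hlt : ¬ (k ^ 2 ≤ 4 * n * ((T - 1 : ℕ) : ℤ) ^ 2) := Nat.find_min hexT (by omega)
      push Not at hlt
      have h2 : (T : ℤ) ≤ 2 * ((T - 1 : ℕ) : ℤ) := by
        push_cast [Nat.cast_sub hT1]; omega
      have h3 : (T : ℤ) ^ 2 ≤ (2 * ((T - 1 : ℕ) : ℤ)) ^ 2 := pow_le_pow_left₀ (by positivity) h2 2
      nlinarith
  -- a vector of negative norm
  have hexj : ∃ j : ℤ, qf k r l j T < 0 := by
    have hj : ∃ j : ℤ, (2 * (k * j + r * T)) ^ 2 ≤ k ^ 2 := by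
      set ρ := (r * T) % k with hρ
      have h1 : 0 ≤ ρ := Int.emod_nonneg _ hk.ne'
      have h2 : ρ < k := Int.emod_lt_of_pos _ hk
      have h3 : r * T = ρ + k * (r * T / k) := by rw [hρ]; exact (Int.emod_add_mul_ediv _ _).symm
      by_cases hc : 2 * ρ ≤ k
      · refine ⟨-(r * T / k), ?_⟩
        have : k * -(r * T / k) + r * T = ρ := by linarith
        rw [this]
        nlinarith
      · push Not at hc
        refine ⟨-(r * T / k) - 1, ?_⟩
        have : k * (-(r * T / k) - 1) + r * T = ρ - k := by linarith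
        rw [this]
        nlinarith
    obtain ⟨j, hj⟩ := hj
    refine ⟨j, ?_⟩
    have h4 : (k * j + r * T) ^ 2 ≤ n * (T : ℤ) ^ 2 := by nlinarith
    have h5 : (k * j + r * T) ^ 2 ≠ n * (T : ℤ) ^ 2 := nonsquare_int hn (by positivity)
    have h6 : (k * j + r * T) ^ 2 < n * (T : ℤ) ^ 2 := lt_of_le_of_ne h4 h5
    have h7 := hid j T
    by_contra hcon
    push Not at hcon
    nlinarith
  -- minimal t
  have hexP : ∃ t : ℕ, 1 ≤ t ∧ ∃ j : ℤ, qf k r l j t < 0 := ⟨T, hT1, hexj⟩
  set t := Nat.find hexP with ht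
  obtain ⟨ht1, j, hj⟩ : 1 ≤ t ∧ ∃ j : ℤ, qf k r l j t < 0 := Nat.find_spec hexP
  have htmin : ∀ t' : ℕ, t' < t → 1 ≤ t' → ∀ j : ℤ, 0 ≤ qf k r l j t' := by
    intro t' h1 h2 j'
    by_contra hcon
    push Not at hcon
    exact Nat.find_min hexP h1 ⟨h2, j', hcon⟩
  have htT : t ≤ T := Nat.find_min' hexP ⟨hT1, hexj⟩
  have htn : (t : ℤ) ^ 2 * n ≤ k ^ 2 := by
    have h1 : (t : ℤ) ^ 2 ≤ (T : ℤ) ^ 2 := pow_le_pow_left₀ (by positivity) (by exact_mod_cast htT) 2
    nlinarith
  have htz : (1 : ℤ) ≤ t := by exact_mod_cast ht1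
  -- coprimality
  have hcop : IsCoprime j (t : ℤ) := by
    rw [Int.isCoprime_iff_gcd_eq_one]
    set g := Int.gcd j t with hg
    have hg0 : 0 < g := Int.gcd_pos_of_ne_zero_right _ (by omega)
    by_contra hne
    have hg2 : 2 ≤ g := by omega
    obtain ⟨j₁, hj₁⟩ : (g : ℤ) ∣ j := Int.gcd_dvd_left ..
    obtain ⟨t₁, ht₁⟩ : (g : ℤ) ∣ (t : ℤ) := Int.gcd_dvd_right ..
    have ht₁pos : 0 < t₁ := by
      by_contra hcon
      push Not at hcon
      nlinarith
    have hlt : t₁ < t := by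
      have : (2 : ℤ) ≤ g := by exact_mod_cast hg2
      nlinarith
    have hq : qf k r l j t = (g : ℤ) ^ 2 * qf k r l j₁ t₁ := by
      rw [hj₁, ht₁]; unfold qf; ring
    have hneg : qf k r l j₁ t₁ < 0 := by
      by_contra hcon
      push Not at hcon
      have : 0 ≤ (g : ℤ) ^ 2 * qf k r l j₁ t₁ := by positivity
      linarith
    have h3 := htmin t₁.natAbs (by omega) (by omega) j₁
    have h4 : ((t₁.natAbs : ℕ) : ℤ) = t₁ := by omega
    rw [h4] at h3
    linarith
  obtain ⟨a, b, hab⟩ := hcop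
  set t2 : ℤ := a - t * (a / t) with ht2
  set j2 : ℤ := -b - j * (a / t) with hj2
  have hdet : j * t2 - j2 * t = 1 := by rw [ht2, hj2]; linear_combination hab
  have ht2mod : t2 = a % t := by
    rw [ht2]
    have := Int.emod_add_mul_ediv a t
    linarith
  have ht20 : 0 ≤ t2 := by rw [ht2mod]; exact Int.emod_nonneg _ (by omega)
  have ht2lt : t2 < t := by rw [ht2mod]; exact Int.emod_lt_of_pos _ (by omega)
  have hm1 : 0 < qf k r l j2 t2 := by
    rcases ht20.eq_or_lt with h | h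
    · rw [← h] at hdet ⊢
      have hj2ne : j2 ≠ 0 := by
        rintro h0; rw [h0] at hdet; simp at hdet
      unfold qf
      have : 0 < j2 ^ 2 := by positivity
      nlinarith
    · have h1 := htmin t2.natAbs (by omega) (by omega) j2
      have h2 : ((t2.natAbs : ℕ) : ℤ) = t2 := by omega
      rw [h2] at h1
      rcases h1.eq_or_lt with h3 | h3
      · exfalso
        have h4 := hid j2 t2
        rw [← h3] at h4
        exact nonsquare_int hn (s := k * j2 + r * t2) (t := t2) h.ne' (by linarith)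
      · exact h3
  set m₂ := qf k r l j t with hm₂
  set m₁ := qf k r l j2 t2 with hm₁
  set B : ℤ := k * j * j2 + r * (j * t2 + j2 * t) - l * t * t2 with hB
  have hprod : m₁ * m₂ = B ^ 2 - n := by
    have : m₁ * m₂ = B ^ 2 - (r ^ 2 + k * l) * (j * t2 - j2 * t) ^ 2 := by
      rw [hm₁, hm₂, hB]; unfold qf; ring
    rw [this, hdet, he]; ring
  have hfin : ∃ m t s B : ℤ, m ≠ 0 ∧ m ^ 2 < n ∧ 1 ≤ t ∧ t ^ 2 * n ≤ k ^ 2 ∧
      s ^ 2 - n * t ^ 2 = k * m ∧ m ∣ B ^ 2 - n ∧ m ∣ s + t * B := by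
    have hns : ∀ m : ℤ, m ^ 2 ≤ n → m ^ 2 < n := by
      intro m hm
      refine lt_of_le_of_ne hm ?_
      have := nonsquare_int hn (s := m) (t := 1) one_ne_zero
      simpa using this
    by_cases hc : m₂ ^ 2 ≤ n
    · refine ⟨m₂, t, k * j + r * t, B, hj.ne, hns _ hc, htz, htn, ?_, ?_, ?_⟩
      · rw [hm₂, hid]
      · exact ⟨m₁, by rw [← hprod]; ring⟩
      · refine ⟨t2, ?_⟩
        have : (k * j + r * t) * (j * t2 - j2 * t) + t * B = m₂ * t2 := by
          rw [hm₂, hB]; unfold qf; ring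
        rw [hdet] at this
        linarith
    · push Not at hc
      have hc1 : m₁ ^ 2 ≤ n := prod_small hn0z.le hprod hm1 hj hc
      have ht2pos : 1 ≤ t2 := by
        rcases ht20.eq_or_lt with h | h
        · exfalso
          rw [← h] at hdet
          have h1 : j2 * t = -1 := by linarith
          have h2 : j2 ^ 2 = 1 := by
            have h3 : (t : ℤ) ∣ 1 := ⟨-j2, by linarith⟩
            have h4 : (t : ℤ) = 1 := Int.eq_one_of_dvd_one (by omega) h3
            rw [h4] at h1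
            have : j2 = -1 := by linarith
            rw [this]; norm_num
          have h5 : m₁ = k := by
            rw [hm₁, ← h]; unfold qf; rw [h2]; ring
          rw [h5] at hc1
          linarith
        · omega
      refine ⟨m₁, t2, k * j2 + r * t2, -B, hm1.ne', hns _ hc1, ht2pos, ?_, ?_, ?_, ?_⟩
      · have h1 : t2 ^ 2 ≤ (t : ℤ) ^ 2 := pow_le_pow_left₀ ht20 ht2lt.le 2
        nlinarith
      · rw [hm₁, hid]
      · exact ⟨m₂, by rw [hprod]; ring⟩
      · refine ⟨-t, ?_⟩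
        have : (k * j2 + r * t2) * (j * t2 - j2 * t) + t2 * -B = m₁ * -t := by
          rw [hm₁, hB]; unfold qf; ring
        rw [hdet] at this
        linarith
  obtain ⟨m, t, s, B, h1, h2, h3, h4, h5, h6, h7⟩ := hfin
  rcases le_total 0 s with hs | hs
  · exact ⟨m, t, s, B, h1, h2, h3, h4, hs, h5, h6, h7⟩
  · refine ⟨m, t, -s, -B, h1, h2, h3, h4, by linarith, ?_, ?_, ?_⟩
    · rw [neg_sq]; exact h5
    · rw [neg_sq]; exact h6
    · have : -s + t * -B = -(s + t * B) := by ring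
      rw [this]; exact (dvd_neg.mpr h7)

/-- integers in a short interval and in one residue class -/
theorem class_interval_count (S : Finset ℤ) (a ℓ : ℝ) (μ : ℕ) (hμ : 0 < μ) (hℓ : 0 ≤ ℓ)
    (h1 : ∀ s ∈ S, a ≤ s ∧ (s : ℝ) ≤ a + ℓ) (h2 : ∀ s ∈ S, ∀ s' ∈ S, (μ : ℤ) ∣ s - s') :
    (S.card : ℝ) ≤ ℓ / μ + 1 := by
  classical
  rcases S.eq_empty_or_nonempty with h | hne
  · rw [h]; simp; positivity
  set s₀ := S.min' hne with hs₀
  have hs₀mem : s₀ ∈ S := Finset.min'_mem S hne
  have hμr : (0 : ℝ) < μ := by exact_mod_cast hμ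
  have hcard : S.card ≤ (range (⌊ℓ / μ⌋₊ + 1)).card := by
    apply card_le_card_of_injOn (fun s => ((s - s₀) / μ).toNat)
    · intro s hs
      rw [mem_coe] at hs
      rw [mem_coe, mem_range, Nat.lt_succ_iff]
      obtain ⟨c, hc⟩ := h2 s hs s₀ hs₀mem
      have hc' : (s - s₀) / μ = c := by rw [hc]; exact Int.mul_ediv_cancel_left _ (by exact_mod_cast hμ.ne')
      simp only
      rw [hc']
      have hs₀s : s₀ ≤ s := Finset.min'_le S s hs
      have hc0 : 0 ≤ c := by
        by_contra hcon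
        push Not at hcon
        have : (0 : ℤ) < μ := by exact_mod_cast hμ
        nlinarith
      apply Nat.le_floor
      rw [le_div_iff₀ hμr]
      have h3 : ((c.toNat : ℕ) : ℝ) = c := by
        rw [← Int.cast_natCast, Int.toNat_of_nonneg hc0]
      rw [h3]
      have h4 : ((s - s₀ : ℤ) : ℝ) = μ * c := by rw [hc]; push_cast; ring
      push_cast at h4
      have := (h1 s hs).2
      have := (h1 s₀ hs₀mem).1
      linarith
    · intro s hs s' hs' hss
      rw [mem_coe] at hs hs'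
      simp only at hss
      obtain ⟨c, hc⟩ := h2 s hs s₀ hs₀mem
      obtain ⟨c', hc'⟩ := h2 s' hs' s₀ hs₀mem
      have e1 : (s - s₀) / μ = c := by rw [hc]; exact Int.mul_ediv_cancel_left _ (by exact_mod_cast hμ.ne')
      have e2 : (s' - s₀) / μ = c' := by rw [hc']; exact Int.mul_ediv_cancel_left _ (by exact_mod_cast hμ.ne')
      rw [e1, e2] at hss
      have hpos : (0 : ℤ) < μ := by exact_mod_cast hμ
      have hc0 : 0 ≤ c := by
        have := Finset.min'_le S s hs
        by_contra hcon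
        push Not at hcon
        nlinarith
      have hc0' : 0 ≤ c' := by
        have := Finset.min'_le S s' hs'
        by_contra hcon
        push Not at hcon
        nlinarith
      have : c = c' := by omega
      rw [this] at hc
      linarith
  rw [card_range] at hcard
  have h5 : (⌊ℓ / μ⌋₊ : ℝ) ≤ ℓ / μ := Nat.floor_le (by positivity)
  have h6 : (S.card : ℝ) ≤ ((⌊ℓ / μ⌋₊ + 1 : ℕ) : ℝ) := by exact_mod_cast hcard
  push_cast at h6
  linarith

/-- pairs `(m,r)` with `m < √n` and `r` a root of `r² ≡ n mod m` -/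
noncomputable def Roots (n : ℕ) : Finset (ℕ × ℕ) := by
  classical
  exact ((range (Nat.sqrt n + 1)) ×ˢ (range (Nat.sqrt n + 1))).filter
    (fun p => 0 < p.1 ∧ p.2 < p.1 ∧ (p.1 : ℤ) ∣ (p.2 : ℤ) ^ 2 - n)

theorem mem_Roots {n : ℕ} {p : ℕ × ℕ} : p ∈ Roots n ↔
    (p.1 ≤ Nat.sqrt n) ∧ 0 < p.1 ∧ p.2 < p.1 ∧ (p.1 : ℤ) ∣ (p.2 : ℤ) ^ 2 - n := by
  unfold Roots
  rw [mem_filter, mem_product, mem_range, mem_range]
  constructor
  · rintro ⟨⟨h1, h2⟩, h3, h4, h5⟩
    exact ⟨by omega, h3, h4, h5⟩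
  · rintro ⟨h1, h3, h4, h5⟩
    exact ⟨⟨by omega, by omega⟩, h3, h4, h5⟩

/-- moduli up to `Y` modulo which `n` is a square -/
noncomputable def Qset (n Y : ℕ) : Finset ℕ := by
  classical
  exact (Finset.Icc 1 Y).filter (fun k => ∃ r : ℤ, (k : ℤ) ∣ r ^ 2 - n)

theorem mem_Qset {n Y k : ℕ} : k ∈ Qset n Y ↔ (1 ≤ k ∧ k ≤ Y) ∧ ∃ r : ℤ, (k : ℤ) ∣ r ^ 2 - n := by
  unfold Qset
  simp only [mem_filter, mem_Icc]

theorem root_mod {n : ℕ} {μ : ℕ} (hμ : 0 < μ) (hμn : μ ≤ Nat.sqrt n) {B : ℤ} (h : (μ : ℤ) ∣ B ^ 2 - n) :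
    (μ, (B % μ).toNat) ∈ Roots n := by
  have hμz : (0 : ℤ) < μ := by exact_mod_cast hμ
  have h0 : 0 ≤ B % μ := Int.emod_nonneg _ hμz.ne'
  have hlt : B % μ < μ := Int.emod_lt_of_pos _ hμz
  rw [mem_Roots]
  refine ⟨hμn, hμ, ?_, ?_⟩
  · simp only; omega
  · simp only
    rw [Int.toNat_of_nonneg h0]
    have h1 : (B % μ) ^ 2 - n = (B ^ 2 - n) - μ * ((B / μ) * (B + B % μ)) := by
      have h2 : B % μ = B - μ * (B / μ) := by
        have := Int.emod_add_mul_ediv B μ
        linarith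
      rw [h2]; ring
    rw [h1]
    exact dvd_sub h (dvd_mul_right _ _)

theorem transfer_count {n : ℕ} (hn : ¬ IsSquare n) (Y : ℕ) (hY : 1 ≤ Y) :
    ((Qset n Y).card : ℝ) ≤ (Roots n).card * (1 + (Y / Real.sqrt n) * (3 + 2 * Real.log Y)) := by
  classical
  have hn0 : 0 < n := by
    rcases Nat.eq_zero_or_pos n with h | h
    · exfalso; apply hn; rw [h]; exact ⟨0, rfl⟩
    · exact h
  have hn1 : (1 : ℝ) ≤ n := by exact_mod_cast hn0
  set σ := Real.sqrt n with hσ
  have hσ2 : σ ^ 2 = n := Real.sq_sqrt (Nat.cast_nonneg n)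
  have hσ1 : 1 ≤ σ := by rw [hσ]; exact Real.one_le_sqrt.mpr hn1
  have hσ0 : 0 < σ := by linarith
  have hY1 : (1 : ℝ) ≤ Y := by exact_mod_cast hY
  have hlogY : 0 ≤ Real.log Y := Real.log_nonneg hY1
  set Qs := (Qset n Y).filter (fun k => k ≤ Nat.sqrt n) with hQs
  set Qb := (Qset n Y).filter (fun k => ¬ k ≤ Nat.sqrt n) with hQb
  have hsplit : (Qset n Y).card = Qs.card + Qb.card := (card_filter_add_card_filter_not _).symm
  -- small moduli
  have hsmall : (Qs.card : ℝ) ≤ (Roots n).card := by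
    have hex : ∀ k : ℕ, ∃ r : ℤ, k ∈ Qs → (k : ℤ) ∣ r ^ 2 - n := by
      intro k
      by_cases h : k ∈ Qs
      · obtain ⟨r, hr⟩ := (mem_Qset.mp (mem_filter.mp h).1).2
        exact ⟨r, fun _ => hr⟩
      · exact ⟨0, fun h' => absurd h' h⟩
    choose r hr using hex
    have : Qs.card ≤ (Roots n).card := by
      apply card_le_card_of_injOn (fun k => (k, (r k % k).toNat))
      · intro k hk
        rw [mem_coe] at hk
        have h1 := mem_filter.mp hk
        have h2 := mem_Qset.mp h1.1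
        exact root_mod (by omega) h1.2 (hr k hk)
      · intro k _ k' _ hkk
        exact congrArg Prod.fst hkk
    exact_mod_cast this
  -- large moduli
  have hbig : (Qb.card : ℝ) ≤ (Roots n).card * ((Y / σ) * (3 + 2 * Real.log Y)) := by
    have hex : ∀ k : ℕ, ∃ m t s B : ℤ, k ∈ Qb → (m ≠ 0 ∧ m ^ 2 < n ∧ 1 ≤ t ∧ t ^ 2 * n ≤ (k : ℤ) ^ 2 ∧ 0 ≤ s ∧
      s ^ 2 - n * t ^ 2 = k * m ∧ m ∣ B ^ 2 - n ∧ m ∣ s + t * B) := by
      intro k
      by_cases h : k ∈ Qb
      · obtain ⟨h1, h2⟩ := mem_filter.mp h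
        obtain ⟨⟨h3, h4⟩, r, hr⟩ := mem_Qset.mp h1
        obtain ⟨l, hl⟩ := hr
        have hkn : (n : ℤ) < (k : ℤ) ^ 2 := by
          have h5 : n < k * k := Nat.sqrt_lt.mp (by omega)
          have h6 : ((n : ℕ) : ℤ) < ((k * k : ℕ) : ℤ) := by exact_mod_cast h5
          push_cast at h6
          linarith [h6, show (k : ℤ) * k = (k : ℤ) ^ 2 by ring]
        obtain ⟨m, t, s, B, hall⟩ := transfer_one hn (k := (k : ℤ)) (r := r) (l := -l) (by omega)
          (by linarith) hkn
        exact ⟨m, t, s, B, fun _ => hall⟩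
      · exact ⟨0, 0, 0, 0, fun h' => absurd h' h⟩
    choose m t s B hall using hex
    set T₀ : ℕ := ⌊(Y : ℝ) / σ⌋₊ with hT₀
    have hT₀le : (T₀ : ℝ) ≤ Y / σ := Nat.floor_le (by positivity)
    set lab : ℕ → (ℕ × ℕ) × ℕ := fun k =>
      (((m k).natAbs, (B k % (m k).natAbs).toNat), (t k).toNat) with hlab
    have hmaps : ∀ k ∈ Qb, lab k ∈ Roots n ×ˢ Finset.Icc 1 T₀ := by
      intro k hk
      obtain ⟨h1, h2, h3, h4, h5, h6, h7, h8⟩ := hall k hk
      rw [hlab, mem_product]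
      refine ⟨?_, ?_⟩
      · apply root_mod (Int.natAbs_pos.mpr h1)
        · rw [Nat.le_sqrt]
          have : (((m k).natAbs * (m k).natAbs : ℕ) : ℤ) ≤ n := by
            push_cast
            rw [← abs_mul, abs_of_nonneg (mul_self_nonneg _)]
            linarith [h2, show (m k) * (m k) = (m k) ^ 2 by ring]
          exact_mod_cast this
        · rw [Int.natAbs_dvd]; exact h7
      · rw [mem_Icc]
        simp only
        refine ⟨by omega, ?_⟩
        apply Nat.le_floor
        rw [le_div_iff₀ hσ0]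
        have h9 : (((t k).toNat : ℕ) : ℝ) = t k := by
          rw [← Int.cast_natCast, Int.toNat_of_nonneg (by omega)]
        rw [h9]
        have h10 : (k : ℝ) ≤ Y := by
          have := (mem_Qset.mp (mem_filter.mp hk).1).1.2
          exact_mod_cast this
        have h11 : ((t k : ℝ) * σ) ^ 2 ≤ (k : ℝ) ^ 2 := by
          have : ((t k ^ 2 * n : ℤ) : ℝ) ≤ (((k : ℤ) ^ 2 : ℤ) : ℝ) := by exact_mod_cast h4
          push_cast at this
          rw [mul_pow, hσ2]; exact this
        have h12 := abs_le_of_sq_le_sq h11 (by positivity)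
        exact ((le_abs_self _).trans h12).trans h10
    have hfib : ∀ p ∈ Roots n ×ˢ Finset.Icc 1 T₀,
        ((Qb.filter (fun k => lab k = p)).card : ℝ) ≤ 2 * (Y / σ) * ((p.2 : ℝ))⁻¹ + 1 := by
      rintro ⟨⟨μ, ρ⟩, τ⟩ hp
      rw [mem_product, mem_Icc] at hp
      obtain ⟨hp1, hp2, hp3⟩ := hp
      have hμ := (mem_Roots.mp hp1).2.1
      simp only at hμ hp2 ⊢
      have hμr : (0 : ℝ) < μ := by exact_mod_cast hμ
      have hτr : (0 : ℝ) < τ := by exact_mod_cast hp2
      set F := Qb.filter (fun k => lab k = ((μ, ρ), τ)) with hF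
      have hdata : ∀ k ∈ F, (m k).natAbs = μ ∧ (B k % (m k).natAbs).toNat = ρ ∧ (t k).toNat = τ ∧ k ∈ Qb := by
        intro k hk
        obtain ⟨h1, h2⟩ := mem_filter.mp hk
        exact ⟨congrArg (fun q => q.1.1) h2, congrArg (fun q => q.1.2) h2, congrArg (fun q => q.2) h2, h1⟩
      have hinj : (F.image s).card = F.card := by
        apply card_image_of_injOn
        intro k hk k' hk' hss
        rw [mem_coe] at hk hk'
        obtain ⟨d1, d2, d3, d4⟩ := hdata k hk
        obtain ⟨e1, e2, e3, e4⟩ := hdata k' hk'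
        obtain ⟨h1, h2, h3, h4, h5, h6, h7, h8⟩ := hall k d4
        obtain ⟨g1, g2, g3, g4, g5, g6, g7, g8⟩ := hall k' e4
        have htt : t k = t k' := by omega
        have h9 : (k : ℤ) * m k = k' * m k' := by rw [← h6, ← g6, hss, htt]
        have h10 : ((k : ℤ) * m k).natAbs = ((k' : ℤ) * m k').natAbs := by rw [h9]
        rw [Int.natAbs_mul, Int.natAbs_mul, Int.natAbs_natCast, Int.natAbs_natCast, d1, e1] at h10
        exact Nat.eq_of_mul_eq_mul_right hμ h10
      have hcount := class_interval_count (F.image s) (σ * τ - Y * μ / (σ * τ)) (2 * (Y * μ / (σ * τ))) μ hμ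
        (by positivity) (by
          intro x hx
          obtain ⟨k, hk, rfl⟩ := mem_image.mp hx
          obtain ⟨d1, d2, d3, d4⟩ := hdata k hk
          obtain ⟨h1, h2, h3, h4, h5, h6, h7, h8⟩ := hall k d4
          have hτt : (t k : ℝ) = τ := by
            have : t k = τ := by omega
            exact_mod_cast this
          have hkY : (k : ℝ) ≤ Y := by
            have := (mem_Qset.mp (mem_filter.mp d4).1).1.2
            exact_mod_cast this
          have hs0 : (0 : ℝ) ≤ s k := by exact_mod_cast h5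
          have hrel : (s k : ℝ) ^ 2 - n * (τ : ℝ) ^ 2 = k * m k := by
            have : ((s k ^ 2 - n * t k ^ 2 : ℤ) : ℝ) = ((k * m k : ℤ) : ℝ) := by exact_mod_cast h6
            push_cast at this
            rw [← hτt]; exact this
          have habs : |(s k : ℝ) - σ * τ| * (σ * τ) ≤ Y * μ := by
            have h9 : ((s k : ℝ) - σ * τ) * (s k + σ * τ) = k * m k := by
              rw [← hrel, ← hσ2]; ring
            have h10 : |(s k : ℝ) - σ * τ| * (s k + σ * τ) = k * μ := by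
              have h11 : |((s k : ℝ) - σ * τ) * (s k + σ * τ)| = |(k : ℝ) * m k| := by rw [h9]
              rw [abs_mul, abs_mul, abs_of_nonneg (show (0 : ℝ) ≤ s k + σ * τ by positivity),
                abs_of_nonneg (show (0 : ℝ) ≤ (k : ℝ) by positivity)] at h11
              rw [h11]
              congr 1
              rw [← d1, Nat.cast_natAbs, Int.cast_abs]
            calc |(s k : ℝ) - σ * τ| * (σ * τ) ≤ |(s k : ℝ) - σ * τ| * (s k + σ * τ) :=
                  mul_le_mul_of_nonneg_left (by linarith) (abs_nonneg _)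
              _ = k * μ := h10
              _ ≤ Y * μ := mul_le_mul_of_nonneg_right hkY hμr.le
          have habs2 : |(s k : ℝ) - σ * τ| ≤ Y * μ / (σ * τ) := by
            rw [le_div_iff₀ (by positivity)]; exact habs
          rw [abs_le] at habs2
          constructor <;> linarith) (by
          intro x hx x' hx'
          obtain ⟨k, hk, rfl⟩ := mem_image.mp hx
          obtain ⟨k', hk', rfl⟩ := mem_image.mp hx'
          have hcls : ∀ k ∈ F, (μ : ℤ) ∣ s k + τ * ρ := by
            intro k hk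
            obtain ⟨d1, d2, d3, d4⟩ := hdata k hk
            obtain ⟨h1, h2, h3, h4, h5, h6, h7, h8⟩ := hall k d4
            have hτt : t k = τ := by omega
            have hμz : (0 : ℤ) < μ := by exact_mod_cast hμ
            have h9 : (μ : ℤ) ∣ s k + t k * B k := by
              rw [← d1, Int.natAbs_dvd]; exact h8
            have h10 : (ρ : ℤ) = B k % μ := by
              rw [← d2, d1]
              exact Int.toNat_of_nonneg (Int.emod_nonneg _ hμz.ne')
            have h11 : s k + τ * ρ = (s k + t k * B k) - μ * (τ * (B k / μ)) := by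
              have := Int.emod_add_mul_ediv (B k) μ
              rw [h10, hτt]
              linear_combination (τ : ℤ) * this
            rw [h11]
            exact dvd_sub h9 (dvd_mul_right _ _)
          have h12 : s k - s k' = (s k + τ * ρ) - (s k' + τ * ρ) := by ring
          rw [h12]
          exact dvd_sub (hcls k hk) (hcls k' hk'))
      rw [hinj] at hcount
      have h13 : 2 * (Y * μ / (σ * τ)) / μ + 1 = 2 * (Y / σ) * (τ : ℝ)⁻¹ + 1 := by
        field_simp
      rw [h13] at hcount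
      exact hcount
    have hsum := card_eq_sum_card_fiberwise (s := Qb) (t := Roots n ×ˢ Finset.Icc 1 T₀) (f := lab) hmaps
    have hsumr : (Qb.card : ℝ) = ∑ p ∈ Roots n ×ˢ Finset.Icc 1 T₀, ((Qb.filter (fun k => lab k = p)).card : ℝ) := by
      rw [hsum]; push_cast; rfl
    rw [hsumr]
    calc _ ≤ ∑ p ∈ Roots n ×ˢ Finset.Icc 1 T₀, (2 * (Y / σ) * ((p.2 : ℝ))⁻¹ + 1) := sum_le_sum hfib
      _ = (Roots n).card * ∑ τ ∈ Finset.Icc 1 T₀, (2 * (Y / σ) * ((τ : ℝ))⁻¹ + 1) := by
          rw [sum_product]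
          simp only [sum_const, nsmul_eq_mul]
      _ ≤ (Roots n).card * ((Y / σ) * (3 + 2 * Real.log Y)) := by
          apply mul_le_mul_of_nonneg_left _ (by positivity)
          rw [sum_add_distrib, ← mul_sum, sum_const, Nat.card_Icc, nsmul_eq_mul]
          have h14 : ∑ τ ∈ Finset.Icc 1 T₀, ((τ : ℝ))⁻¹ ≤ 1 + Real.log Y := by
            have h15 := harmonic_le_one_add_log T₀
            rw [harmonic_eq_sum_Icc] at h15
            push_cast at h15
            refine h15.trans ?_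
            have h16 : Real.log T₀ ≤ Real.log Y := by
              rcases Nat.eq_zero_or_pos T₀ with h0 | h0
              · rw [h0]; simp; exact hlogY
              · apply Real.log_le_log (by exact_mod_cast h0)
                calc (T₀ : ℝ) ≤ Y / σ := hT₀le
                  _ ≤ Y := div_le_self (by linarith) hσ1
            linarith
          have h17 : (((T₀ + 1 - 1 : ℕ)) : ℝ) ≤ Y / σ := by simpa using hT₀le
          have h18 : 0 ≤ 2 * ((Y : ℝ) / σ) := by positivity
          nlinarith [mul_le_mul_of_nonneg_left h14 h18]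
  have : ((Qset n Y).card : ℝ) = Qs.card + Qb.card := by exact_mod_cast hsplit
  rw [this]
  linarith [hsmall, hbig]

end Pool.Agent.KeZhao
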